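import Pool.Agent.Lib.MP_a01f70_lc.QQ.Main1
import Pool.Agent.Lib.MP_a01f70_lc.Field

/-!
Quotients of two quadratic exponents.
-/

set_option linter.unusedSectionVars false

namespace Pool.Agent.Lib.MP_a01f70_lc.QQ
open Module Polynomial

variable {F : Type} [Field F] [Fintype F] [Algebra (ZMod 2) F]

theorem main2_pow {w : F} {M d e : ℕ} (hw : w = 0 ∨ w ^ M = 1) (hd : 0 < d) (he : 0 < e)
    (h : d ≡ e [MOD M]) : w ^ d = w ^ e := by
  rcases hw with rfl | hw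
  · rw [zero_pow hd.ne', zero_pow he.ne']
  · exact pow_eq_pow_of_modEq h hw

theorem main2_card {n : ℕ} (hc : Fintype.card F = 2 ^ n) (w : F) :
    w = 0 ∨ w ^ (2 ^ n - 1) = 1 := by
  by_cases hw : w = 0
  · exact Or.inl hw
  · exact Or.inr (hc ▸ FiniteField.pow_card_sub_one_eq_one w hw)

theorem main2_inj {n e : ℕ} (hc : Fintype.card F = 2 ^ n) (he : e ≠ 0)
    (h : Nat.Coprime e (2 ^ n - 1)) {x y : F} (hxy : x ^ e = y ^ e) : x = y := by
  by_cases hy : y = 0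
  · rw [hy, zero_pow he] at hxy
    rw [hy, pow_eq_zero_iff he |>.mp hxy]
  have hx : x ≠ 0 := fun hx => by
    rw [hx, zero_pow he] at hxy
    exact pow_ne_zero e hy hxy.symm
  have h1 : (x / y) ^ e = 1 := by rw [div_pow, hxy, div_self (pow_ne_zero e hy)]
  have h2 := (main2_card hc (x / y)).resolve_left (div_ne_zero hx hy)
  exact (div_eq_one_iff_eq hy).mp ((pow_eq_one_iff_of_coprime h).mp ⟨h1, h2⟩)

theorem main2_four {d : ℕ} {y0 y1 y2 y3 : F} (h0 : y0 ≠ 0) (h1 : y0 + y1 + y2 + y3 = 0)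
    (h2 : y0 ^ d + y1 ^ d + y2 ^ d + y3 ^ d = 0) (h01 : y1 ≠ y0) (h02 : y2 ≠ y0)
    (h12 : y1 ≠ y2) : NAPN F d := by
  refine ⟨y1 / y0, y2 / y0, ?_, fun h => h01 ((div_eq_one_iff_eq h0).mp h),
    fun h => h02 ((div_eq_one_iff_eq h0).mp h), fun h => h12 ((div_left_inj' h0).mp h)⟩
  have e : y1 / y0 + y2 / y0 + 1 = y3 / y0 := by
    field_simp
    linear_combination h1 - add_self_F y3
  rw [e, div_pow, div_pow, div_pow, ← add_div, ← add_div, div_eq_one_iff_eq (pow_ne_zero d h0)]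
  linear_combination h2 - add_self_F (y0 ^ d)

theorem main2_two_pow {m a b : ℕ} (h : a ≡ b [MOD m]) : 2 ^ a ≡ 2 ^ b [MOD 2 ^ m - 1] := by
  rw [← ZMod.natCast_eq_natCast_iff]
  push_cast
  refine pow_eq_pow_of_modEq h ?_
  have h1 : ((2 ^ m - 1 : ℕ) : ZMod (2 ^ m - 1)) = 0 := ZMod.natCast_self _
  rw [Nat.cast_sub Nat.one_le_two_pow] at h1
  push_cast at h1
  exact sub_eq_zero.mp h1

theorem main2_sub {n m d j : ℕ} (hc : Fintype.card F = 2 ^ n) (hd : 1 ≤ d) (hm : 2 ≤ m)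
    (hmn : m ∣ n) (h : d ≡ 2 ^ j [MOD 2 ^ m - 1]) : NAPN F d := by
  classical
  have := charP_two F
  have g2 : 2 ^ 2 ≤ 2 ^ m := Nat.pow_le_pow_right (by norm_num) hm
  obtain ⟨p, hp, hpd⟩ := Nat.exists_prime_and_dvd (n := 2 ^ m - 1) (by omega)
  have := Fact.mk hp
  obtain ⟨u, hu⟩ := exists_prime_orderOf_dvd_card (G := Fˣ) p (by
    rw [Fintype.card_units, hc]
    exact hpd.trans (Nat.pow_sub_one_dvd_pow_sub_one 2 hmn))
  have h1 : (u : F) ≠ 1 := fun h => by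
    rw [Units.val_eq_one] at h
    rw [h, orderOf_one] at hu
    exact hp.one_lt.ne hu
  have h2 : (u : F) ^ (2 ^ m - 1) = 1 := by
    rw [← Units.val_pow_eq_pow_val, orderOf_dvd_iff_pow_eq_one.mp (hu ▸ hpd), Units.val_one]
  have e : 2 ^ m = 2 ^ m - 1 + 1 := by omega
  have h3 : (u : F) ^ 2 ^ m = u := by rw [e, pow_succ, h2, one_mul]
  have h4 : (u : F) + 1 = 0 ∨ ((u : F) + 1) ^ (2 ^ m - 1) = 1 := by
    have h5 : ((u : F) + 1) ^ 2 ^ m = u + 1 := by rw [add_pow_char_pow, h3, one_pow]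
    rw [e, pow_succ] at h5
    by_cases h6 : (u : F) + 1 = 0
    · exact Or.inl h6
    · exact Or.inr (mul_right_cancel₀ h6 (h5.trans (one_mul _).symm))
  refine ⟨0, u, ?_, zero_ne_one, h1, u.ne_zero.symm⟩
  rw [zero_pow (by omega), zero_add, zero_add, main2_pow (Or.inr h2) hd (by positivity) h,
    main2_pow h4 hd (by positivity) h, add_pow_char_pow, one_pow]
  linear_combination add_self_F ((u : F) ^ 2 ^ j)

/-- Put `y t = z t ^ (2 ^ b + 1)`; these are pairwise different (the power map is injective by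
`coprime_quad`, and a coincidence forces `∑ z t = 0`), their sum and the sum of their `d`-th
powers vanish. Divide by a nonzero one. -/
theorem napn_of_four {n d a b i : ℕ} (hn : Odd n) (hc : Fintype.card F = 2 ^ n) (hd : 1 ≤ d)
    (h : d * (2 ^ b + 1) ≡ 2 ^ i * (2 ^ a + 1) [MOD 2 ^ n - 1]) {z : Fin 4 → F}
    (ha : ∑ t, z t ^ (2 ^ a + 1) = 0) (hb : ∑ t, z t ^ (2 ^ b + 1) = 0) (h0 : ∑ t, z t ≠ 0) :
    NAPN F d := by
  have := charP_two F
  have key : ∀ w : F, (w ^ (2 ^ b + 1)) ^ d = (w ^ (2 ^ a + 1)) ^ 2 ^ i := fun w => by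
    rw [← pow_mul, ← pow_mul, mul_comm _ d, mul_comm _ (2 ^ i)]
    exact main2_pow (main2_card hc w) (by positivity) (by positivity) h
  have inj : ∀ {x y : F}, x ^ (2 ^ b + 1) = y ^ (2 ^ b + 1) → x = y := fun hxy =>
    main2_inj hc (by positivity) (coprime_quad hn b) hxy
  have hd' : ∑ t, (z t ^ (2 ^ b + 1)) ^ d = 0 := by
    simp only [key]
    rw [← sum_pow_char_pow, ha, zero_pow (by positivity)]
  rw [Fin.sum_univ_four] at hb h0 hd'
  have ne : ∀ {s t u v : F}, s ^ (2 ^ b + 1) + t ^ (2 ^ b + 1) + u ^ (2 ^ b + 1) +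
      v ^ (2 ^ b + 1) = 0 → s + t + u + v ≠ 0 → s ^ (2 ^ b + 1) ≠ t ^ (2 ^ b + 1) := by
    intro s t u v h1 h2 h3
    have h4 : u ^ (2 ^ b + 1) = v ^ (2 ^ b + 1) := by
      linear_combination h1 - h3 - add_self_F (t ^ (2 ^ b + 1)) - add_self_F (v ^ (2 ^ b + 1))
    apply h2
    rw [inj h3, inj h4]
    linear_combination add_self_F t + add_self_F v
  have n10 := ne (s := z 1) (t := z 0) (u := z 2) (v := z 3) (by linear_combination hb)
    (fun h => h0 (by linear_combination h))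
  have n20 := ne (s := z 2) (t := z 0) (u := z 1) (v := z 3) (by linear_combination hb)
    (fun h => h0 (by linear_combination h))
  have n12 := ne (s := z 1) (t := z 2) (u := z 0) (v := z 3) (by linear_combination hb)
    (fun h => h0 (by linear_combination h))
  by_cases hz : z 0 ^ (2 ^ b + 1) = 0
  · exact main2_four (y0 := z 1 ^ (2 ^ b + 1)) (y1 := z 0 ^ (2 ^ b + 1))
      (y2 := z 2 ^ (2 ^ b + 1)) (y3 := z 3 ^ (2 ^ b + 1)) (hz ▸ n10) (by linear_combination hb)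
      (by linear_combination hd') n10.symm n12.symm n20.symm
  · exact main2_four hz hb hd' n10 n20 n12

/-- Let `m > 1` divide `n` and `a - b` (or `a + b`). On the subfield `{w | w ^ 2 ^ m = w}` the map
`w ↦ w ^ d` is a power of Frobenius: modulo `2 ^ m - 1` one has `2 ^ a ≡ 2 ^ b` (or
`2 ^ b (2 ^ a + 1) ≡ 2 ^ b + 1`), and `2 ^ b + 1` is invertible. Take `x = 0` and `y = u` an element
of prime order dividing `2 ^ m - 1` as in `napn_gold`. -/
theorem napn_of_not_coprime {n d a b i : ℕ} (hn : Odd n) (hc : Fintype.card F = 2 ^ n) (hd : 1 ≤ d)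
    (h : d * (2 ^ b + 1) ≡ 2 ^ i * (2 ^ a + 1) [MOD 2 ^ n - 1])
    (hab : ¬ IsCoprime ((a : ℤ) - b) n ∨ ¬ IsCoprime ((a : ℤ) + b) n) : NAPN F d := by
  have hn0 : n ≠ 0 := by
    rintro rfl
    exact absurd hn (by decide)
  have gen : ∀ c : ℤ, ¬ IsCoprime c n → ∃ m : ℕ, 2 ≤ m ∧ m ∣ n ∧ (m : ℤ) ∣ c := fun c hcn => by
    rw [Int.isCoprime_iff_gcd_eq_one] at hcn
    have h1 : Int.gcd c n ≠ 0 := fun h => hn0 (by exact_mod_cast (Int.gcd_eq_zero_iff.mp h).2)
    exact ⟨Int.gcd c n, by omega, by exact_mod_cast Int.gcd_dvd_right c n, Int.gcd_dvd_left c n⟩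
  have cop : ∀ {m : ℕ}, m ∣ n → Nat.gcd (2 ^ m - 1) (2 ^ b + 1) = 1 := fun hm =>
    ((coprime_quad hn b).coprime_dvd_right (Nat.pow_sub_one_dvd_pow_sub_one 2 hm)).symm
  rcases hab with hab | hab
  · obtain ⟨m, hm, hmn, hd'⟩ := gen _ hab
    have h1 : b ≡ a [MOD m] := (Nat.modEq_iff_dvd).mpr hd'
    have h2 := h.of_dvd (Nat.pow_sub_one_dvd_pow_sub_one 2 hmn)
    have h3 := h2.trans (((main2_two_pow h1.symm).add_right 1).mul_left (2 ^ i))
    exact main2_sub hc hd hm hmn (Nat.ModEq.cancel_right_of_coprime (cop hmn) h3)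
  · obtain ⟨m, hm, hmn, hd'⟩ := gen _ hab
    have h1 : 0 ≡ a + b [MOD m] := (Nat.modEq_iff_dvd).mpr (by simpa using hd')
    have h2 := h.of_dvd (Nat.pow_sub_one_dvd_pow_sub_one 2 hmn)
    have h3 : 2 ^ i * (2 ^ a + 1) ≡ 2 ^ (i + a) * (2 ^ b + 1) [MOD 2 ^ m - 1] := by
      have h4 := ((main2_two_pow h1).add_left (2 ^ a)).mul_left (2 ^ i)
      rwa [pow_zero, show 2 ^ i * (2 ^ a + 2 ^ (a + b)) = 2 ^ (i + a) * (2 ^ b + 1) by ring] at h4
    exact main2_sub hc hd hm hmn (Nat.ModEq.cancel_right_of_coprime (cop hmn) (h2.trans h3))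

/-- `1, x, y` are three solutions of `(w + a) ^ d + w ^ d = b` for `a = x + 1`, `b = x ^ d + 1` -/
theorem not_napn_of_apn {d : ℕ}
    (h : ∀ a b : F, a ≠ 0 → Set.ncard {x : F | (x + a) ^ d + x ^ d = b} ≤ 2) : ¬ NAPN F d := by
  rintro ⟨x, y, h0, hx, hy, hxy⟩
  have h1 := h (x + 1) (x ^ d + 1) fun h => hx (by linear_combination h - add_self_F (1 : F))
  have h2 : ({1, x, y} : Set F) ⊆ {w : F | (w + (x + 1)) ^ d + w ^ d = x ^ d + 1} := by
    intro w hw
    simp only [Set.mem_insert_iff, Set.mem_singleton_iff] at hw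
    rcases hw with hw | hw | hw <;> rw [hw, Set.mem_ofPred_eq]
    · rw [show 1 + (x + 1) = x by linear_combination add_self_F (1 : F), one_pow]
    · rw [show x + (x + 1) = 1 by linear_combination add_self_F x, one_pow, add_comm]
    · rw [show y + (x + 1) = x + y + 1 by ring]
      linear_combination h0 - add_self_F (x ^ d)
  have h3 := (Set.ncard_le_ncard h2).trans h1
  rw [Set.ncard_eq_three.mpr ⟨1, x, y, hx.symm, hy.symm, hxy, rfl⟩] at h3
  omega

end Pool.Agent.Lib.MP_a01f70_lc.QQ
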