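import Pool.Agent.Lib.MP_a01f70_lc.QQ.Core
import Pool.Agent.Lib.MP_a01f70_lc.QQ.Main2

/-!
Quotients of two quadratic exponents.
-/

set_option linter.unusedSectionVars false

namespace Pool.Agent.Lib.MP_a01f70_lc.QQ
open Module Polynomial

variable {F : Type} [Field F] [Fintype F] [Algebra (ZMod 2) F]

/-- Apply `core` in `AlgebraicClosure F`; every element is algebraic over the prime field, hence
fixed by a power of Frobenius, and the solutions of `z ^ 2 ^ n = z` come from `F`. -/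
theorem core_field {n a b : ℕ} (hn : Odd n) (hc : Fintype.card F = 2 ^ n)
    (h1 : IsCoprime ((a : ℤ) - b) n) (h2 : IsCoprime ((a : ℤ) + b) n) (e1 : ¬ (n : ℤ) ∣ a)
    (e2 : ¬ (n : ℤ) ∣ b) (e3 : ¬ (n : ℤ) ∣ a - 3 * b) (e4 : ¬ (n : ℤ) ∣ a + 3 * b)
    (e5 : ¬ (n : ℤ) ∣ b - 3 * a) (e6 : ¬ (n : ℤ) ∣ b + 3 * a) :
    ∃ z : Fin 4 → F, ∑ t, z t ^ (2 ^ a + 1) = 0 ∧ ∑ t, z t ^ (2 ^ b + 1) = 0 ∧ ∑ t, z t ≠ 0 := by
  have : CharP F 2 := charP_of_injective_algebraMap (algebraMap (ZMod 2) F).injective 2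
  have : CharP (AlgebraicClosure F) 2 :=
    charP_of_injective_algebraMap (algebraMap F (AlgebraicClosure F)).injective 2
  have halg : ∀ c : AlgebraicClosure F, ∃ m, 0 < m ∧ c ^ 2 ^ m = c := by
    intro c
    let E := IntermediateField.adjoin F {c}
    have : FiniteDimensional F E :=
      IntermediateField.adjoin.finiteDimensional (Algebra.IsIntegral.isIntegral c)
    have : Finite E := Module.finite_of_finite F
    have := Fintype.ofFinite E
    have : CharP E 2 := charP_of_injective_algebraMap (algebraMap F E).injective 2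
    obtain ⟨m, _, hm⟩ := FiniteField.card E 2
    refine ⟨m, m.2, ?_⟩
    have h := FiniteField.pow_card (⟨c, IntermediateField.mem_adjoin_simple_self F c⟩ : E)
    rw [hm] at h
    exact congrArg Subtype.val h
  obtain ⟨z, hz, ha, hb, h0⟩ := core halg hn h1 h2 e1 e2 e3 e4 e5 e6
  have hs : (X ^ Fintype.card F - X : F[X]).Splits := by
    rw [splits_iff_card_roots, FiniteField.roots_X_pow_card_sub_X,
      FiniteField.X_pow_card_sub_X_natDegree_eq F Fintype.one_lt_card]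
    rfl
  have hr : ∀ t, ∃ w : F, algebraMap F (AlgebraicClosure F) w = z t := fun t =>
    hs.mem_range_of_isRoot (FiniteField.X_pow_card_sub_X_ne_zero F Fintype.one_lt_card)
      (by simp [hc, hz t])
  choose w hw using hr
  have inj := (algebraMap F (AlgebraicClosure F)).injective
  refine ⟨w, inj ?_, inj ?_, fun h => h0 ?_⟩
  · simpa [hw] using ha
  · simpa [hw] using hb
  · have := congrArg (algebraMap F (AlgebraicClosure F)) h
    simpa [hw] using this

theorem main_napn {n d a b i : ℕ} (hn : Odd n) (hc : Fintype.card F = 2 ^ n) (hd : 1 ≤ d)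
    (h : d * (2 ^ b + 1) ≡ 2 ^ i * (2 ^ a + 1) [MOD 2 ^ n - 1]) (hN : ¬ NAPN F d) :
    ∃ e j : ℕ, ((∃ k : ℕ, Nat.Coprime n k ∧ e = 2 ^ k + 1) ∨
      (∃ k : ℕ, Nat.Coprime n k ∧ e = 2 ^ (2 * k) - 2 ^ k + 1)) ∧
      (d ≡ 2 ^ j * e [MOD 2 ^ n - 1] ∨ d * e ≡ 2 ^ j [MOD 2 ^ n - 1]) := by
  by_cases h1 : IsCoprime ((a : ℤ) - b) n
  swap
  · exact (hN (napn_of_not_coprime hn hc hd h (Or.inl h1))).elim
  by_cases h2 : IsCoprime ((a : ℤ) + b) n
  swap
  · exact (hN (napn_of_not_coprime hn hc hd h (Or.inr h2))).elim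
  refine gold_kasami hn h h1 h2 ?_
  by_contra he
  simp only [not_or] at he
  obtain ⟨e1, e2, e3, e4, e5, e6⟩ := he
  obtain ⟨z, ha, hb, h0⟩ := core_field (F := F) hn hc h1 h2 e1 e2 e3 e4 e5 e6
  exact hN (napn_of_four hn hc hd h ha hb h0)

end Pool.Agent.Lib.MP_a01f70_lc.QQ
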