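import Pool.Agent.Lib.MP_a01f70_lc.QQ.Defs

/-!
Function fields: a finite extension `K` of the rational function field.
-/

set_option linter.unusedSectionVars false

namespace Pool.Agent.Lib.MP_a01f70_lc.QQ
open Module Polynomial

section defs
variable (k K : Type*) [Field k] [Field K] [Algebra k K] [Algebra k[X] K]

/-- the image of the variable -/
noncomputable def xx : K := algebraMap k[X] K X

/-- the places where the variable is finite -/
def FinSet : Set (Place k K) := {v | 0 ≤ v.ord (xx k K)}

variable {k K}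

lemma mem_FinSet {v : Place k K} : v ∈ FinSet k K ↔ 0 ≤ v.ord (xx k K) := Iff.rfl

/-- lattices: full, with bounded order at `p` -/
structure IsLat (p : Place k K) (J : Submodule k[X] K) : Prop where
  lo : ∃ b : ℤ, ∀ f ∈ J, f ≠ 0 → p.ord f ≤ b
  full : ∀ f : K, ∃ c : k[X], c ≠ 0 ∧ c • f ∈ J

/-- the elements of a lattice with a pole of order at most `m` at `p` -/
noncomputable def cut [IsScalarTower k k[X] K] (p : Place k K) (J : Submodule k[X] K) (m : ℤ) :
    Submodule k K := J.restrictScalars k ⊓ LS {p} (Finsupp.single p m)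

lemma mem_cut [IsScalarTower k k[X] K] {p : Place k K} {J : Submodule k[X] K} {m : ℤ} {f : K} :
    f ∈ cut p J m ↔ f ∈ J ∧ p.Ge f (-m) := by
  simp [cut, mem_LS]

variable [Algebra (RatFunc k) K] [IsScalarTower k[X] (RatFunc k) K]

/-- the dual lattice for the trace form -/
noncomputable def dual (J : Submodule k[X] K) : Submodule k[X] K where
  carrier := {g | ∀ f ∈ J, ∃ u : k[X],
    Algebra.trace (RatFunc k) K (f * g) = algebraMap k[X] (RatFunc k) u}
  add_mem' := fun {a b} ha hb f hf => by
    obtain ⟨u, hu⟩ := ha f hf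
    obtain ⟨w, hw⟩ := hb f hf
    exact ⟨u + w, by rw [mul_add, map_add, map_add, hu, hw]⟩
  zero_mem' := fun f _ => ⟨0, by simp⟩
  smul_mem' := fun c a ha f hf => by
    obtain ⟨u, hu⟩ := ha (c • f) (J.smul_mem c hf)
    exact ⟨u, by rw [← hu, mul_smul_comm, smul_mul_assoc]⟩

lemma mem_dual {J : Submodule k[X] K} {g : K} : g ∈ dual J ↔ ∀ f ∈ J, ∃ u : k[X],
    Algebra.trace (RatFunc k) K (f * g) = algebraMap k[X] (RatFunc k) u := Iff.rfl

/-- on the finite places the divisor describes the trace dual of the integral closure -/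
def IsCan (Kc : Div k K) : Prop :=
  ∀ g : K, g ∈ LS (FinSet k K) Kc ↔ ∀ f : K, IsIntegral k[X] f → ∃ u : k[X],
    Algebra.trace (RatFunc k) K (f * g) = algebraMap k[X] (RatFunc k) u

end defs

section basic
variable {k K : Type*} [Field k] [Field K] [Algebra k K] [Algebra k[X] K] [Algebra (RatFunc k) K]
  [IsScalarTower k k[X] K] [IsScalarTower k[X] (RatFunc k) K] [IsScalarTower k (RatFunc k) K]

lemma algebraMap_poly (u : k[X]) : algebraMap k[X] K u = aeval (xx k K) u := by
  rw [xx, aeval_algebraMap_apply, aeval_X_left_apply]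

lemma algebraMap_poly_rat (u : k[X]) :
    algebraMap (RatFunc k) K (algebraMap k[X] (RatFunc k) u) = algebraMap k[X] K u :=
  (IsScalarTower.algebraMap_apply _ _ _ u).symm

variable (k K) in
lemma algebraMap_poly_injective : Function.Injective (algebraMap k[X] K) := by
  rw [IsScalarTower.algebraMap_eq k[X] (RatFunc k) K]
  exact (algebraMap (RatFunc k) K).injective.comp (IsFractionRing.injective k[X] (RatFunc k))

lemma algebraMap_poly_ne_zero {u : k[X]} (hu : u ≠ 0) : algebraMap k[X] K u ≠ 0 :=
  (map_ne_zero_iff _ (algebraMap_poly_injective k K)).mpr hu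

lemma algebraMap_X_sub_C (c : k) : algebraMap k[X] K (X - C c) = xx k K - algebraMap k K c := by
  rw [algebraMap_poly]
  simp

lemma xx_sub_ne_zero (c : k) : xx k K - algebraMap k K c ≠ 0 := by
  rw [← algebraMap_X_sub_C]
  exact algebraMap_poly_ne_zero (X_sub_C_ne_zero c)

lemma xx_ne_zero : xx k K ≠ 0 := by simpa using xx_sub_ne_zero (K := K) (0 : k)

lemma algebraMap_rat (r : RatFunc k) :
    algebraMap (RatFunc k) K r = algebraMap k[X] K r.num / algebraMap k[X] K r.denom := by
  conv_lhs => rw [← RatFunc.num_div_denom r]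
  rw [map_div₀, algebraMap_poly_rat, algebraMap_poly_rat]

lemma ge_poly {v : Place k K} (hv : v ∈ FinSet k K) (u : k[X]) : v.Ge (algebraMap k[X] K u) 0 := by
  rw [algebraMap_poly]
  refine Place.ge_of_mem_adjoin (s := {xx k K}) ?_ (aeval_mem_adjoin_singleton k _)
  rintro a rfl
  exact Or.inr hv

end basic

end Pool.Agent.Lib.MP_a01f70_lc.QQ
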