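import Mathlib

/-!
Symmetric bilinear forms of rank at most four over the field with two elements.
-/

set_option linter.unusedSectionVars false

namespace Pool.Agent.Lib.MP_a01f70_lc.QQ
open Module Polynomial



/-- A table of factorisations, sixteen bits for each symmetric matrix. -/
def albertTab : List ℕ :=
  [0x1248024801480048012800280018000801240024001400040012000200010000,
   0x3481348234849ab00380138023809ab00340134023405670003001300230123,
   0x258125800580158245829cd045809cd00250125000500150245036700450145,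
   0x1358035846782358267829ef067809ef01350035046702350267034500670167,
   0x2491249004901490029012900090019248925cd048905cd028903ab00890189,
   0x1349034948ab23490139003908ab023924ab25ef04ab05ef02ab038900ab01ab,
   0x125902590159005928cd245908cd045924cd258904cd058902cd03ef00cd01cd,
   0x35913592359467928ef267908ef067924ef25ab04ef05ab02ef03cd00ef01ef,
   0x168006812680268146804681ace0ace00160006012600260146004603570246,
   0x2368457803681368157805781adf0adf02360457003601360157005703460257,
   0x4568237813780378056815681bcf0bcf04560237013700370056015602560347,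
   0x78017802781278047814781bde0bde00070017002701270047014702470356,
   0x69016902691269046914690bdf1bdf068907ef268927ef468947ef8bdf0000,
   0x4579236913690369057915790bce1bce06ab07cd26ab27cd46ab47cd8bce0000,
   0x2379456903791379156905690ade1ade06cd07ab26cd27ab46cd47ab8ade0000,
   0x179007912790279147904790acf1acf06ef078926ef278946ef47898acf0000,
   0x14a004a124a024a001a000a012a002a148a048a16ce06ce018a008a039b028a,
   0x234a489b034a134a023a089b003a013a149b049b16df06df019b009b038a029b,
   0x5a015a025a125a045a0bef245a2bef058a158a07df17df458a8bef47df0000,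
   0x467a235a135a035a067a0bcd267a2bcd059b159b07ce17ce459b8bcd47ce0000,
   0x489a234b134b034b089a023b013b003b049a149a17cf07cf009a019a029a038b,
   0x4b014b024b124b000b001b002b012b048b148b17de07de008b018b028b039a,
   0x235b467b035b135b0acd067b2acd267b159a059a06de16de8acd459a46de0000,
   0x15b005b125b025b0aef045b2aef245b158b058b06cf16cf8aef458b46cf0000,
   0x126a026a016a006a18ce08ce146a046a14ce04ce168a068a01ce00ce03df02ce,
   0x36a136a236a457a18df08df157a057a14df04df169b069b01df00df03ce02df,
   0x137a037a456a237a19de09de056a156a05ce15ce079b179b45ce89de479b0000,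
   0x27a127a007a017a19cf09cf047a147a05df15df078a178a45df89cf478a0000,
   0x136b036b457b236b09ce19ce057b157b15de05de069a169a89ce45de469a0000,
   0x26b126b006b016b09df19df046b146b15cf05cf068b168b89df45cf468b0000,
   0x127b027b017b007b08de18de147b047b04de14de178b078b00de01de02de03cf,
   0x37b137b237b456b08cf18cf156b056b04cf14cf179a079a00cf01cf02cf03de,
   0x12c002c001c000c124c024c014c004c128c028c018c008c16ae06ae059d048c,
   0x3c013c023c0def034c134c234c4def038c138c238c8def07bf17bf27bf0000,
   0x245c289d045c089d025c125c005c015c129d029d019d009d16bf06bf058c049d,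
   0x267c2abd067c0abd135c035c467c235c039d139d239d8abd07ae17ae27ae0000,
   0x289c245d089c045d125d025d015d005d029c129c009c019c17af07af049c058d,
   0x2abc267d0abc067d035d135d235d467d139c039c8abc239c06be16be26be0000,
   0x2d012d000d001d024d124d004d014d028d128d008d018d17be07be048d059c,
   0x13d003d0cef023d134d034d4cef234d138d038d8cef238d06af16af26af0000,
   0x146c046c18ae08ae016c006c126c026c12ae02ae01ae00ae168c068c05bf04ae,
   0x157c057c19be09be236c457c036c136c03ae13ae23ae89be079d179d279d0000,
   0x56c156c18bf08bf456c237c137c037c12bf02bf01bf00bf169d069d05ae04bf,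
   0x47c147c19af09af007c017c027c127c03bf13bf23bf89af078c178c278c0000,
   0x156d056d09ae19ae237d456d037d137d13be03be89ae23be069c169c269c0000,
   0x147d047d08be18be017d007d127d027d02be12be00be01be178d078d04be05af,
   0x46d146d09bf19bf006d016d026d126d13af03af89bf23af068d168d268d0000,
   0x57d157d08af18af457d236d136d036d02af12af00af01af179c079c04af05be,
   0x18ac08ac146e046e126e026e016e006e01ac00ac12ac02ac14ac04ac079f068e,
   0x19bc09bc157e057e036e136e236e457e23ac89bc03ac13ac05bd15bd25bd0000,
   0x19ad09ad056e156e137e037e456e237e23bd89ad03bd13bd05ac15ac25ac0000,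
   0x18bd08bd047e147e027e127e007e017e01bd00bd12bd02bd14bd04bd078e069f,
   0x9ac19ac147f047f127f027f017f007f89ac23bc13bc03bc15ad05ad069e078f,
   0x8bc18bc156f056f037f137f237f456f00bc01bc02bc12bc04bc14bc24bc0000,
   0x8ad18ad057f157f136f036f457f236f00ad01ad02ad12ad04ad14ad24ad0000,
   0x9bd19bd046f146f026f126f006f016f89bd23ad13ad03ad15bc05bc068f079e,
   0x1e000e012e002e014e004e124e024e018e008e128e028e148e048e07bd06ac,
   0x23e0cdf003e013e234e4cdf034e134e238e8cdf038e138e059f159f259f0000,
   0x45e0abf245e2abf005e015e025e125e239f8abf039f139f058e158e258e0000,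
   0x67e089f267e289f467e235e135e035e019f009f129f029f149f049f07ac06bd,
   0x89e067f289e267f235f467f035f135f009e019e029e129e049e149e249e0000,
   0xabe045f2abe245f015f005f125f025f8abe239e139e039e158f058f06bc07ad,
   0xcde023f013f003f4cde234f134f034f8cde238f138f038f159e059e06ad07bc,
   0xf001f002f012f004f014f024f124f008f018f028f128f048f148f248f0000]

/-- The code of the factor of the symmetric matrix number `i`. -/
def albertCode (i : ℕ) : ℕ := albertTab.getD (i / 16) 0 / 2 ^ (16 * (i % 16)) % 65536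

/-- The matrix with code `n`. -/
def albertN (n : ℕ) (t r : Fin 4) : ZMod 2 := ((n / 2 ^ (4 * t.val + r.val) % 2 : ℕ) : ZMod 2)

/-- The number of a symmetric matrix. -/
def albertIdx (a b c d e f g h i j : ZMod 2) : ℕ :=
  a.val + 2 * b.val + 4 * c.val + 8 * d.val + 16 * e.val + 32 * f.val + 64 * g.val + 128 * h.val +
    256 * i.val + 512 * j.val

/-- The entries of `Nᵀ N`. -/
def albertG (n : ℕ) (r s : Fin 4) : ZMod 2 :=
  albertN n 0 r * albertN n 0 s + albertN n 1 r * albertN n 1 s + albertN n 2 r * albertN n 2 s +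
    albertN n 3 r * albertN n 3 s

/-- The check for one matrix. -/
def albertOk (a b c d e f g h i j : ZMod 2) (n : ℕ) : Prop :=
  a = albertG n 0 0 ∧ b = albertG n 1 1 ∧ c = albertG n 2 2 ∧ d = albertG n 3 3 ∧
    e = albertG n 0 1 ∧ f = albertG n 0 2 ∧ g = albertG n 0 3 ∧ h = albertG n 1 2 ∧
    i = albertG n 1 3 ∧ j = albertG n 2 3

instance (a b c d e f g h i j : ZMod 2) (n : ℕ) : Decidable (albertOk a b c d e f g h i j n) := by
  unfold albertOk
  infer_instance

lemma albert_check : ∀ a b c d e f g h i j : ZMod 2, (a = 0 ∧ b = 0 ∧ c = 0 ∧ d = 0) ∨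
    albertOk a b c d e f g h i j (albertCode (albertIdx a b c d e f g h i j)) := by
  decide +kernel

lemma albertG_symm (n : ℕ) (r s : Fin 4) : albertG n r s = albertG n s r := by
  unfold albertG
  ring

/-- Matrix form, for example by a kernel computation: a symmetric matrix with a nonzero diagonal
entry is `Nᵀ N`. One way: induction on the size by splitting off `x` with `B x x = 1`
(`B = (B x ·) ⊗ (B x ·) + B'` with `x` in the radical of `B'`); if `B'` is alternating and nonzero
(of rank two), `B' = l ⊗ m + m ⊗ l`, then with `e = B x ·` one has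
`B = (e + l) ⊗ (e + l) + (e + m) ⊗ (e + m) + (e + l + m) ⊗ (e + l + m)`. -/
theorem albert_matrix (M : Matrix (Fin 4) (Fin 4) (ZMod 2)) (hs : M.IsSymm) (h : ∃ i, M i i ≠ 0) :
    ∃ N : Matrix (Fin 4) (Fin 4) (ZMod 2), M = N.transpose * N := by
  rcases albert_check (M 0 0) (M 1 1) (M 2 2) (M 3 3) (M 0 1) (M 0 2) (M 0 3) (M 1 2) (M 1 3)
    (M 2 3) with ⟨h0, h1, h2, h3⟩ | h1
  · obtain ⟨i, hi⟩ := h
    fin_cases i
    exacts [absurd h0 hi, absurd h1 hi, absurd h2 hi, absurd h3 hi]
  · obtain ⟨n, hn⟩ : ∃ n, albertOk (M 0 0) (M 1 1) (M 2 2) (M 3 3) (M 0 1) (M 0 2) (M 0 3) (M 1 2)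
      (M 1 3) (M 2 3) n := ⟨_, h1⟩
    obtain ⟨a0, a1, a2, a3, a4, a5, a6, a7, a8, a9⟩ := hn
    have key : ∀ r s : Fin 4, r ≤ s → M r s = albertG n r s := by
      intro r s hrs
      fin_cases r <;> fin_cases s <;> first | assumption | exact absurd hrs (by decide)
    refine ⟨Matrix.of (albertN n), ?_⟩
    ext r s
    rw [Matrix.mul_apply, Fin.sum_univ_four]
    change M r s = albertG n r s
    rcases le_total r s with hrs | hrs
    · exact key r s hrs
    · rw [albertG_symm, ← key s r hrs, hs.apply]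

/-- The quotient by the radical has dimension at most four; choose a linear map `π` onto it and an
embedding in `Fin 4 → ZMod 2` (or four vectors spanning `V` modulo the radical). -/
theorem albert {V : Type*} [AddCommGroup V] [Module (ZMod 2) V]
    (B : V →ₗ[ZMod 2] V →ₗ[ZMod 2] ZMod 2) (hs : ∀ u v, B u v = B v u) (h : ∃ u, B u u ≠ 0)
    (hrk : ∀ z : Fin 5 → V, ∃ c : Fin 5 → ZMod 2, c ≠ 0 ∧ B (∑ s, c s • z s) = 0) :
    ∃ l : Fin 4 → V →ₗ[ZMod 2] ZMod 2, ∀ u v, B u v = ∑ t, l t u * l t v := by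
  have : Fact (Nat.Prime 2) := ⟨Nat.prime_two⟩
  have hr : Module.rank (ZMod 2) (LinearMap.range B) < (5 : ℕ) := by
    rw [← not_le, Module.le_rank_iff]
    rintro ⟨w, hw⟩
    choose z hz using fun s => (w s).2
    obtain ⟨c, hc0, hc⟩ := hrk z
    refine hc0 (funext (Fintype.linearIndependent_iff.mp hw c (Subtype.ext ?_)))
    rw [map_sum] at hc
    simpa [hz] using hc
  have hfin : Module.Finite (ZMod 2) (LinearMap.range B) :=
    Module.rank_lt_aleph0_iff.mp (hr.trans (Cardinal.natCast_lt_aleph0))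
  have hle : finrank (ZMod 2) (LinearMap.range B) ≤ finrank (ZMod 2) (Fin 4 → ZMod 2) := by
    rw [← Module.finrank_eq_rank, Nat.cast_lt] at hr
    rw [Module.finrank_fin_fun]
    omega
  obtain ⟨ι, hι⟩ := finrank_le_iff_exists_linearMap.mp hle
  obtain ⟨ρ, hρ⟩ := ι.exists_leftInverse_of_injective (LinearMap.ker_eq_bot.mpr hι)
  have hfree : Module.Free (ZMod 2) (LinearMap.range B) := Module.Free.of_divisionRing _ _
  have hproj : Module.Projective (ZMod 2) (LinearMap.range B) := Module.Projective.of_free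
  obtain ⟨τ, hτ⟩ := B.rangeRestrict.exists_rightInverse_of_surjective B.range_rangeRestrict
  obtain ⟨π, hπ⟩ : ∃ π : V →ₗ[ZMod 2] (Fin 4 → ZMod 2), π = ι ∘ₗ B.rangeRestrict := ⟨_, rfl⟩
  obtain ⟨σ, hσ⟩ : ∃ σ : (Fin 4 → ZMod 2) →ₗ[ZMod 2] V, σ = τ ∘ₗ ρ := ⟨_, rfl⟩
  have h1 : ∀ u, B (σ (π u)) = B u := by
    intro u
    have e1 : ρ (ι (B.rangeRestrict u)) = B.rangeRestrict u := LinearMap.congr_fun hρ _
    have e2 : B.rangeRestrict (τ (B.rangeRestrict u)) = B.rangeRestrict u :=
      LinearMap.congr_fun hτ _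
    rw [hπ, hσ, LinearMap.comp_apply, LinearMap.comp_apply, e1]
    exact congrArg Subtype.val e2
  have h2 : ∀ u v, B u v = B (σ (π u)) (σ (π v)) := by
    intro u v
    rw [h1, hs u (σ _), h1, hs]
  obtain ⟨M, hM⟩ : ∃ M : Matrix (Fin 4) (Fin 4) (ZMod 2),
      ∀ x y, B (σ x) (σ y) = x ⬝ᵥ M.mulVec y :=
    ⟨LinearMap.toMatrix₂' (ZMod 2) (B.compl₁₂ σ σ), fun x y => by
      rw [← Matrix.toLinearMap₂'_apply', Matrix.toLinearMap₂'_toMatrix', LinearMap.compl₁₂_apply]⟩
  have hMe : ∀ i j, M i j = B (σ (Pi.single i 1)) (σ (Pi.single j 1)) := by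
    intro i j
    rw [hM]
    simp
  have hMs : M.IsSymm := Matrix.IsSymm.ext fun i j => by rw [hMe, hMe, hs]
  have hMd : ∃ i, M i i ≠ 0 := by
    by_contra hc
    push Not at hc
    obtain ⟨u, hu⟩ := h
    apply hu
    rw [h2, hM]
    have h2' : (2 : ZMod 2) = 0 := rfl
    simp only [dotProduct, Matrix.mulVec, Fin.sum_univ_four, hc, hMs.apply 0 1, hMs.apply 0 2,
      hMs.apply 0 3, hMs.apply 1 2, hMs.apply 1 3, hMs.apply 2 3]
    linear_combination (π u 0 * π u 1 * M 0 1 + π u 0 * π u 2 * M 0 2 + π u 0 * π u 3 * M 0 3 +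
      π u 1 * π u 2 * M 1 2 + π u 1 * π u 3 * M 1 3 + π u 2 * π u 3 * M 2 3) * h2'
  obtain ⟨N, hN⟩ := albert_matrix M hMs hMd
  refine ⟨fun t => LinearMap.proj t ∘ₗ N.mulVecLin ∘ₗ π, fun u v => ?_⟩
  rw [h2, hM, hN, ← Matrix.mulVec_mulVec, Matrix.dotProduct_mulVec, Matrix.vecMul_transpose]
  rfl

end Pool.Agent.Lib.MP_a01f70_lc.QQ
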