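import Mathlib

/-!
The plane curve, its jet at the point (1, 1), and classes of lattice points.
-/

set_option linter.unusedSectionVars false

namespace Pool.Agent.Lib.MP_a01f70_lc.QQ
open Module Polynomial



/-- the equation of the curve -/
def PP {A : Type*} [CommRing A] (n ρ : ℕ) (U : Finset ℕ) (x y : A) : A :=
  1 + x + ∑ u ∈ U, y ^ u * x ^ (ρ * u / n + 1) + y ^ n * (x ^ ρ + x ^ (ρ + 1))

lemma map_PP {A B F : Type*} [CommRing A] [CommRing B] [FunLike F A B] [RingHomClass F A B] (f : F)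
    (n ρ : ℕ) (U : Finset ℕ) (x y : A) : f (PP n ρ U x y) = PP n ρ U (f x) (f y) := by
  simp [PP]

/-- the curve has a point of multiplicity four at `(1, 1)` with a simple tangent `x = y` -/
def Jet (n ρ : ℕ) (U : Finset ℕ) : Prop :=
  ∀ (A : Type) [CommRing A], (2 : A) = 0 → ∀ x y : A,
    PP n ρ U x y - ((x - 1) ^ 4 + (x - 1) ^ 3 * (y - 1)) ∈ Ideal.span {x - 1, y - 1} ^ 5

/-- the coefficient of `η ^ a ξ ^ b` in `(1 + η) ^ j (1 + ξ) ^ u` -/
def mon (a b j u : ℕ) : ZMod 2 := (j.choose a : ZMod 2) * (u.choose b : ZMod 2)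

/-- the numerical form of `Jet` -/
def JetNum (n ρ : ℕ) (U : Finset ℕ) : Prop :=
  ∀ a b : ℕ, a + b ≤ 4 →
    mon a b 0 0 + mon a b 1 0 + ∑ u ∈ U, mon a b (ρ * u / n + 1) u + mon a b ρ n + mon a b (ρ + 1) n
      = if (a = 4 ∧ b = 0) ∨ (a = 3 ∧ b = 1) then 1 else 0

/-- admissible supports -/
structure Adm (n : ℕ) (U : Finset ℕ) : Prop where
  ne : U.Nonempty
  pos : ∀ u ∈ U, 0 < u
  lt : ∀ u ∈ U, u < n
  symm : ∀ u ∈ U, n - u ∈ U

/-- the class of an odd number modulo `8` up to sign -/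
def clsA (t : ℤ) : ZMod 2 := if t % 8 = 3 ∨ t % 8 = 5 then 1 else 0

/-- the class of a product of odd numbers modulo `4` -/
def clsE (α β : ℤ) : ZMod 2 := if (α * β) % 4 = 3 then 1 else 0

/-- the open square contains an odd lattice point of the given class -/
def Pres (n ρ : ℤ) (A B e : ZMod 2) : Prop :=
  ∃ α β : ℤ, Odd α ∧ Odd β ∧ |α| < n ∧ |β| < n ∧ n ∣ β + ρ * α ∧
    clsA α = A ∧ clsA β = B ∧ clsE α β = e

/-- in both layers the class `(s, s + 1)` is a sum of one or three present classes -/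
def Good (n ρ : ℤ) (s : ZMod 2) : Prop :=
  ∀ e : ZMod 2, Pres n ρ s (s + 1) e ∨
    (Pres n ρ s s e ∧ Pres n ρ (s + 1) s e ∧ Pres n ρ (s + 1) (s + 1) e)

end Pool.Agent.Lib.MP_a01f70_lc.QQ
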