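import Pool.Agent.Lib.MP_a01f70_lc.QQ.Comb2

/-!
Odd lattice points in a square.
-/

set_option linter.unusedSectionVars false

namespace Pool.Agent.Lib.MP_a01f70_lc.QQ
open Module Polynomial



/-- odd residues -/
def comb_od (x : ZMod 8) : Bool := decide (x.val % 2 = 1)

/-- `clsA` on residues -/
def comb_A (x : ZMod 8) : ZMod 2 := if x.val = 3 ∨ x.val = 5 then 1 else 0

/-- `clsE` on residues -/
def comb_E (x y : ZMod 8) : ZMod 2 := if (x * y).val % 4 = 3 then 1 else 0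

/-- a list of residues contains the class -/
def comb_P (L : List (ZMod 8 × ZMod 8)) (A B e : ZMod 2) : Bool :=
  L.any fun p => decide (comb_A p.1 = A) && decide (comb_A p.2 = B) &&
    decide (comb_E p.1 p.2 = e) && comb_od p.1 && comb_od p.2

/-- the condition of `Good` in one layer -/
def comb_G (L : List (ZMod 8 × ZMod 8)) (s e : ZMod 2) : Bool :=
  comb_P L s (s + 1) e || (comb_P L s s e && comb_P L (s + 1) s e && comb_P L (s + 1) (s + 1) e)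

/-- the condition of `Good` for some `s` -/
def comb_H (L : List (ZMod 8 × ZMod 8)) : Bool :=
  (comb_G L 0 0 && comb_G L 0 1) || (comb_G L 1 0 && comb_G L 1 1)

theorem comb_dec1 : ∀ e₁ : ZMod 8, comb_od e₁ → ∀ e₂ : ZMod 8, comb_od e₂ →
    comb_A e₁ ≠ comb_A e₂ → ∀ j : ZMod 8, comb_od j → ∀ f₁ f₂ : ZMod 8,
    comb_od (e₁ * f₂ - e₂ * f₁) → comb_H [(e₁, e₂), (2 * f₁ + j * e₁, 2 * f₂ + j * e₂),
      (2 * f₁ + (j + 2) * e₁, 2 * f₂ + (j + 2) * e₂),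
      (2 * f₁ + (j + 4) * e₁, 2 * f₂ + (j + 4) * e₂)] := by
  decide +kernel

theorem comb_dec2 : ∀ e₁ : ZMod 8, comb_od e₁ → ∀ e₂ : ZMod 8, comb_od e₂ →
    comb_A e₁ = comb_A e₂ → ∀ j : ZMod 8, comb_od j → ∀ j' : ZMod 8, comb_od j' →
    ∀ f₁ f₂ : ZMod 8, comb_od (e₁ * f₂ - e₂ * f₁) →
    comb_H [(4 * f₁ + j' * e₁, 4 * f₂ + j' * e₂), (2 * f₁ + j * e₁, 2 * f₂ + j * e₂),
      (2 * f₁ + (j + 2) * e₁, 2 * f₂ + (j + 2) * e₂),
      (2 * f₁ + (j + 4) * e₁, 2 * f₂ + (j + 4) * e₂)] := by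
  decide +kernel

theorem comb_dec3 : ∀ e₁ e₂ : ZMod 8, comb_od (e₁ + e₂) → ∀ α : ZMod 8, comb_od α →
    ∀ β : ZMod 8, comb_od β → ∀ j : ZMod 8, comb_od (j + 1) →
    comb_H [(α, β), (α + 2 * e₁, β + 2 * e₂), (α + 4 * e₁, β + 4 * e₂),
      (α + 6 * e₁, β + 6 * e₂), (3 * α + j * e₁, 3 * β + j * e₂)] := by
  decide +kernel

theorem comb_val (t : ℤ) : (((t : ZMod 8).val : ℕ) : ℤ) = t % 8 := ZMod.val_intCast t

theorem comb_od_iff (t : ℤ) : comb_od (t : ZMod 8) ↔ Odd t := by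
  have := comb_val t
  rw [comb_od, decide_eq_true_iff, Int.odd_iff]
  omega

theorem comb_A_eq (t : ℤ) : comb_A (t : ZMod 8) = clsA t := by
  have := comb_val t
  exact if_congr (by omega) rfl rfl

theorem comb_E_eq (α β : ℤ) : comb_E (α : ZMod 8) (β : ZMod 8) = clsE α β := by
  have := comb_val (α * β)
  rw [Int.cast_mul] at this
  exact if_congr (by omega) rfl rfl

theorem comb_good {n ρ : ℤ} (L : List (ℤ × ℤ))
    (hL : ∀ p ∈ L, |p.1| < n ∧ |p.2| < n ∧ n ∣ p.2 + ρ * p.1)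
    (h : comb_H (L.map fun p => ((p.1 : ZMod 8), (p.2 : ZMod 8)))) : ∃ s, Good n ρ s := by
  have hP : ∀ A B e, comb_P (L.map fun p => ((p.1 : ZMod 8), (p.2 : ZMod 8))) A B e →
      Pres n ρ A B e := by
    intro A B e h
    simp only [comb_P, List.any_map, List.any_eq_true, Function.comp, Bool.and_eq_true,
      decide_eq_true_iff, comb_od_iff, comb_A_eq, comb_E_eq] at h
    obtain ⟨p, hp, ⟨⟨⟨a1, a2⟩, a3⟩, a4⟩, a5⟩ := h
    obtain ⟨b1, b2, b3⟩ := hL p hp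
    exact ⟨p.1, p.2, a4, a5, b1, b2, b3, a1, a2, a3⟩
  have hG : ∀ s e, comb_G (L.map fun p => ((p.1 : ZMod 8), (p.2 : ZMod 8))) s e →
      Pres n ρ s (s + 1) e ∨
        (Pres n ρ s s e ∧ Pres n ρ (s + 1) s e ∧ Pres n ρ (s + 1) (s + 1) e) := by
    intro s e h
    simp only [comb_G, Bool.or_eq_true, Bool.and_eq_true] at h
    rcases h with h | ⟨⟨a1, a2⟩, a3⟩
    · exact Or.inl (hP _ _ _ h)
    · exact Or.inr ⟨hP _ _ _ a1, hP _ _ _ a2, hP _ _ _ a3⟩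
  have h01 : ∀ e : ZMod 2, e = 0 ∨ e = 1 := by decide
  simp only [comb_H, Bool.or_eq_true, Bool.and_eq_true] at h
  rcases h with ⟨a1, a2⟩ | ⟨a1, a2⟩
  · refine ⟨0, fun e => ?_⟩
    rcases h01 e with rfl | rfl
    · exact hG _ _ a1
    · exact hG _ _ a2
  · refine ⟨1, fun e => ?_⟩
    rcases h01 e with rfl | rfl
    · exact hG _ _ a1
    · exact hG _ _ a2

theorem comb_lt {n a c : ℤ} (hn : 19 ≤ n) (ha : 0 ≤ a) (h : a ^ 2 ≤ n) (hc : c ≤ 4) :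
    c * a < n := by
  rcases le_or_gt a 4 with h4 | h4
  · nlinarith
  · nlinarith

theorem comb_ineq' {n a b c t : ℤ} (hn : 19 ≤ n) (ha : 1 ≤ a) (hab : a ≤ b) (hb : b ^ 2 ≤ n)
    (h : (c = 3 ∧ t = 2 ∧ 4 ≤ a + b) ∨ (c = 1 ∧ t = 4 ∧ 6 ≤ a + b) ∨
      (c = 4 ∧ t = 1 ∧ 5 ≤ a + b) ∨ (c = 1 ∧ t = 3 ∧ 5 ≤ a + b)) :
    2 * c * (a * b) < n * (a + b - t) := by
  rcases le_or_gt b 7 with h7 | h7
  · have hb1 : 1 ≤ b := ha.trans hab
    rcases h with ⟨rfl, rfl, h⟩ | ⟨rfl, rfl, h⟩ | ⟨rfl, rfl, h⟩ | ⟨rfl, rfl, h⟩ <;>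
      interval_cases b <;> interval_cases a <;> omega
  · have hc : c ≤ 4 ∧ t ≤ 4 := by omega
    have h1 : b ^ 2 * (a + b - t) ≤ n * (a + b - t) :=
      mul_le_mul_of_nonneg_right hb (by omega)
    have h2 : 2 * c * a < b * (a + b - t) := by nlinarith [hc.1, hc.2]
    nlinarith

theorem comb_ineq {n a b c t : ℤ} (hn : 19 ≤ n) (ha : 1 ≤ a) (hb : 1 ≤ b) (ha2 : a ^ 2 ≤ n)
    (hb2 : b ^ 2 ≤ n)
    (h : (c = 3 ∧ t = 2 ∧ 4 ≤ a + b) ∨ (c = 1 ∧ t = 4 ∧ 6 ≤ a + b) ∨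
      (c = 4 ∧ t = 1 ∧ 5 ≤ a + b) ∨ (c = 1 ∧ t = 3 ∧ 5 ≤ a + b)) :
    2 * c * (a * b) < n * (a + b - t) := by
  rcases le_total a b with hab | hab
  · exact comb_ineq' hn ha hab hb2 h
  · rw [mul_comm a b, add_comm a b]
    exact comb_ineq' hn hb hab ha2 (by rwa [add_comm b a])

theorem comb_dvd {n ρ e₁ e₂ f₁ f₂ : ℤ} (he : n ∣ e₂ + ρ * e₁) (hf : n ∣ f₂ + ρ * f₁) (t j : ℤ) :
    n ∣ (t * f₂ + j * e₂) + ρ * (t * f₁ + j * e₁) := by
  have e : (t * f₂ + j * e₂) + ρ * (t * f₁ + j * e₁) = t * (f₂ + ρ * f₁) + j * (e₂ + ρ * e₁) := by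
    ring
  rw [e]
  exact (hf.mul_left t).add (he.mul_left j)

theorem comb_par1 {e₁ e₂ f₁ f₂ j : ℤ} (hd : Odd (e₁ * f₂ - e₂ * f₁)) (hp : Odd (e₁ + e₂))
    (hj : j % 2 = (f₁ + f₂) % 2) : Odd (f₁ + j * e₁) ∧ Odd (f₂ + j * e₂) := by
  have key : ∀ a b c d k : ZMod 2, a * d - b * c = 1 → a + b = 1 → k = c + d →
      c + k * a = 1 ∧ d + k * b = 1 := by decide
  have h3 : (j : ZMod 2) = ((f₁ + f₂ : ℤ) : ZMod 2) := (ZMod.intCast_eq_intCast_iff' _ _ 2).2 hj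
  rw [← ZMod.intCast_eq_one_iff_odd] at hd hp
  rw [← ZMod.intCast_eq_one_iff_odd, ← ZMod.intCast_eq_one_iff_odd]
  push_cast at hd hp h3 ⊢
  exact key _ _ _ _ _ hd hp h3

theorem comb_par2 {e₁ e₂ f₁ f₂ : ℤ} (hd : Odd (e₁ * f₂ - e₂ * f₁)) (hp : ¬ Odd (e₁ + e₂)) :
    Odd e₁ ∧ Odd e₂ := by
  have key : ∀ a b c d : ZMod 2, a * d - b * c = 1 → ¬ a + b = 1 → a = 1 ∧ b = 1 := by decide
  rw [← ZMod.intCast_eq_one_iff_odd] at hd hp
  rw [← ZMod.intCast_eq_one_iff_odd, ← ZMod.intCast_eq_one_iff_odd]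
  push_cast at hd hp
  exact key _ _ _ _ hd hp

/-- Let `n ≥ 19`, `e, f` from `exists_short`, `σ = |e₁| + |e₂|`. The exceptions exclude
`(|e₁|, |e₂|) ∈ {(1, 1), (1, 2), (2, 1)}`; `e₁, e₂` are not both even (determinant odd).
Case `e₁, e₂` odd (`σ ≥ 4`): the point `e` is present. On level `2` (`j` odd, `c = 3`) there are
three different classes in the other layer. If `clsA e₁ ≠ clsA e₂` we are done; otherwise `σ ≥ 6`
and a point of level `4` (`j` odd, `c = 1`) lies in the layer of `e` and has `A ≠ B`.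
Case `e₁` odd, `e₂` even, or conversely (`σ ≥ 5`): on level `1` (`c = 4`, parity of `j` such that
both coordinates are odd) each layer contains both values of `A` with a fixed `B = B e`. If
`4 ∣ e₂` these two values of `B` agree and we are done. Otherwise a point on level `3` (`c = 1`)
gives a third class in its layer. All class computations only depend on `e, f, j` modulo `8`:
state them for residues and `decide`. In terms of `Good`: if a layer contains three different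
classes it satisfies the condition for both `s`. -/
theorem comb {n ρ : ℤ} (hn : 0 < n) (hodd : Odd n) (hc : IsCoprime ρ n)
    (h1 : ¬ n ∣ ρ - 1) (h2 : ¬ n ∣ ρ + 1) (h3 : ¬ n ∣ ρ - 2) (h4 : ¬ n ∣ ρ + 2)
    (h5 : ¬ n ∣ 2 * ρ - 1) (h6 : ¬ n ∣ 2 * ρ + 1) : ∃ s, Good n ρ s := by
  rcases le_or_gt n 17 with hn17 | hn17
  · exact comb_small hn hn17 hodd hc h1 h2 h3 h4 h5 h6
  have hn19 : 19 ≤ n := by
    rw [Int.odd_iff] at hodd
    omega
  obtain ⟨e₁, e₂, f₁, f₂, he, hf, hdet, he1, he2, hs1, hs2⟩ := exists_short (by omega) hc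
  have ha1 : 1 ≤ |e₁| := abs_pos.2 he1
  have hb1 : 1 ≤ |e₂| := abs_pos.2 he2
  have ha2 : |e₁| ^ 2 ≤ n := by rwa [sq_abs]
  have hb2 : |e₂| ^ 2 ≤ n := by rwa [sq_abs]
  have lev : ∀ c t : ℤ, ((c = 3 ∧ t = 2 ∧ 4 ≤ |e₁| + |e₂|) ∨ (c = 1 ∧ t = 4 ∧ 6 ≤ |e₁| + |e₂|) ∨
      (c = 4 ∧ t = 1 ∧ 5 ≤ |e₁| + |e₂|) ∨ (c = 1 ∧ t = 3 ∧ 5 ≤ |e₁| + |e₂|)) → ∀ r : ℤ,
      ∃ j₀ : ℤ, j₀ % 2 = r % 2 ∧ ∀ i : ℤ, 0 ≤ i → i < c →
        |t * f₁ + (j₀ + 2 * i) * e₁| < n ∧ |t * f₂ + (j₀ + 2 * i) * e₂| < n ∧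
        n ∣ (t * f₂ + (j₀ + 2 * i) * e₂) + ρ * (t * f₁ + (j₀ + 2 * i) * e₁) := by
    intro c t h r
    obtain ⟨j₀, a1, a2⟩ := exists_on_level hdet hn he1 he2 (t := t) (by omega) (c := c) (by omega)
      (comb_lt hn19 (abs_nonneg _) ha2 (by omega)) (comb_lt hn19 (abs_nonneg _) hb2 (by omega))
      (comb_ineq hn19 ha1 hb1 ha2 hb2 h) r
    exact ⟨j₀, a1, fun i i0 i1 => ⟨(a2 i i0 i1).1, (a2 i i0 i1).2, comb_dvd he hf t _⟩⟩
  have x11 : ¬ (|e₁| = 1 ∧ |e₂| = 1) := by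
    rintro ⟨a1, a2⟩
    rcases (abs_eq zero_le_one).1 a1 with rfl | rfl <;>
      rcases (abs_eq zero_le_one).1 a2 with rfl | rfl
    · exact h2 (by rwa [show ρ + 1 = 1 + ρ * 1 by ring])
    · exact h1 (by rwa [show ρ - 1 = -1 + ρ * 1 by ring])
    · exact h1 (by rwa [show ρ - 1 = -(1 + ρ * -1) by ring, dvd_neg])
    · exact h2 (by rwa [show ρ + 1 = -(-1 + ρ * -1) by ring, dvd_neg])
  have x12 : ¬ (|e₁| = 1 ∧ |e₂| = 2) := by
    rintro ⟨a1, a2⟩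
    rcases (abs_eq zero_le_one).1 a1 with rfl | rfl <;>
      rcases (abs_eq zero_le_two).1 a2 with rfl | rfl
    · exact h4 (by rwa [show ρ + 2 = 2 + ρ * 1 by ring])
    · exact h3 (by rwa [show ρ - 2 = -2 + ρ * 1 by ring])
    · exact h3 (by rwa [show ρ - 2 = -(2 + ρ * -1) by ring, dvd_neg])
    · exact h4 (by rwa [show ρ + 2 = -(-2 + ρ * -1) by ring, dvd_neg])
  have x21 : ¬ (|e₁| = 2 ∧ |e₂| = 1) := by
    rintro ⟨a1, a2⟩
    rcases (abs_eq zero_le_two).1 a1 with rfl | rfl <;>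
      rcases (abs_eq zero_le_one).1 a2 with rfl | rfl
    · exact h6 (by rwa [show 2 * ρ + 1 = 1 + ρ * 2 by ring])
    · exact h5 (by rwa [show 2 * ρ - 1 = -1 + ρ * 2 by ring])
    · exact h5 (by rwa [show 2 * ρ - 1 = -(1 + ρ * -2) by ring, dvd_neg])
    · exact h6 (by rwa [show 2 * ρ + 1 = -(-1 + ρ * -2) by ring, dvd_neg])
  have hdo : Odd (e₁ * f₂ - e₂ * f₁) := hdet ▸ hodd
  have hd8 : comb_od ((e₁ : ZMod 8) * f₂ - e₂ * f₁) := by
    have := (comb_od_iff _).2 hdo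
    rwa [Int.cast_sub, Int.cast_mul, Int.cast_mul] at this
  have pa : |e₁| % 2 = e₁ % 2 := by
    rcases abs_cases e₁ with h | h <;> omega
  have pb : |e₂| % 2 = e₂ % 2 := by
    rcases abs_cases e₂ with h | h <;> omega
  by_cases hpar : Odd (e₁ + e₂)
  · have hσ : 5 ≤ |e₁| + |e₂| := by
      rw [Int.odd_iff] at hpar
      omega
    obtain ⟨j, hj, hP⟩ := lev 4 1 (by omega) (f₁ + f₂)
    obtain ⟨j', hj', hQ⟩ := lev 1 3 (by omega) (f₁ + f₂)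
    have hjj : Odd (j' - 3 * j + 1) := by
      rw [Int.odd_iff]
      omega
    have hα := comb_par1 hdo hpar hj
    have key := comb_dec3 e₁ e₂ (by exact_mod_cast (comb_od_iff _).2 hpar) _
      ((comb_od_iff _).2 hα.1) _ ((comb_od_iff _).2 hα.2) ((j' - 3 * j : ℤ) : ZMod 8)
      (by exact_mod_cast (comb_od_iff _).2 hjj)
    refine comb_good [(1 * f₁ + (j + 2 * 0) * e₁, 1 * f₂ + (j + 2 * 0) * e₂),
      (1 * f₁ + (j + 2 * 1) * e₁, 1 * f₂ + (j + 2 * 1) * e₂),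
      (1 * f₁ + (j + 2 * 2) * e₁, 1 * f₂ + (j + 2 * 2) * e₂),
      (1 * f₁ + (j + 2 * 3) * e₁, 1 * f₂ + (j + 2 * 3) * e₂),
      (3 * f₁ + (j' + 2 * 0) * e₁, 3 * f₂ + (j' + 2 * 0) * e₂)] ?_ ?_
    · simp only [List.forall_mem_cons, List.not_mem_nil, false_imp_iff, implies_true, and_true]
      exact ⟨hP 0 (by omega) (by omega), hP 1 (by omega) (by omega), hP 2 (by omega) (by omega),
        hP 3 (by omega) (by omega), hQ 0 (by omega) (by omega)⟩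
    · refine Eq.trans (congrArg comb_H ?_) key
      simp only [List.map_cons, List.map_nil, List.cons.injEq, Prod.mk.injEq, and_true]
      push_cast
      refine ⟨⟨?_, ?_⟩, ⟨?_, ?_⟩, ⟨?_, ?_⟩, ⟨?_, ?_⟩, ⟨?_, ?_⟩⟩ <;> ring
  · have ho := comb_par2 hdo hpar
    have o1 := Int.odd_iff.1 ho.1
    have o2 := Int.odd_iff.1 ho.2
    obtain ⟨j, hj, hP⟩ := lev 3 2 (by omega) 1
    have hjo : Odd j := by
      rw [Int.odd_iff]
      omega
    by_cases hA : clsA e₁ = clsA e₂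
    · have hσ : 6 ≤ |e₁| + |e₂| := by
        by_contra c
        have : (|e₁| = 1 ∧ |e₂| = 3) ∨ (|e₁| = 3 ∧ |e₂| = 1) := by omega
        rcases this with ⟨a1, a2⟩ | ⟨a1, a2⟩
        · rcases (abs_eq zero_le_one).1 a1 with rfl | rfl <;>
            rcases (abs_eq zero_le_three).1 a2 with rfl | rfl <;> exact absurd hA (by decide)
        · rcases (abs_eq zero_le_three).1 a1 with rfl | rfl <;>
            rcases (abs_eq zero_le_one).1 a2 with rfl | rfl <;> exact absurd hA (by decide)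
      obtain ⟨j', hj', hQ⟩ := lev 1 4 (by omega) 1
      have hjo' : Odd j' := by
        rw [Int.odd_iff]
        omega
      have key := comb_dec2 e₁ ((comb_od_iff _).2 ho.1) e₂ ((comb_od_iff _).2 ho.2)
        (by rwa [comb_A_eq, comb_A_eq]) j ((comb_od_iff _).2 hjo) j' ((comb_od_iff _).2 hjo')
        f₁ f₂ hd8
      refine comb_good [(4 * f₁ + (j' + 2 * 0) * e₁, 4 * f₂ + (j' + 2 * 0) * e₂),
        (2 * f₁ + (j + 2 * 0) * e₁, 2 * f₂ + (j + 2 * 0) * e₂),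
        (2 * f₁ + (j + 2 * 1) * e₁, 2 * f₂ + (j + 2 * 1) * e₂),
        (2 * f₁ + (j + 2 * 2) * e₁, 2 * f₂ + (j + 2 * 2) * e₂)] ?_ ?_
      · simp only [List.forall_mem_cons, List.not_mem_nil, false_imp_iff, implies_true, and_true]
        exact ⟨hQ 0 (by omega) (by omega), hP 0 (by omega) (by omega), hP 1 (by omega) (by omega),
          hP 2 (by omega) (by omega)⟩
      · refine Eq.trans (congrArg comb_H ?_) key
        simp only [List.map_cons, List.map_nil, List.cons.injEq, Prod.mk.injEq, and_true]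
        push_cast
        refine ⟨⟨?_, ?_⟩, ⟨?_, ?_⟩, ⟨?_, ?_⟩, ⟨?_, ?_⟩⟩ <;> ring
    · have key := comb_dec1 e₁ ((comb_od_iff _).2 ho.1) e₂ ((comb_od_iff _).2 ho.2)
        (by rwa [comb_A_eq, comb_A_eq]) j ((comb_od_iff _).2 hjo) f₁ f₂ hd8
      refine comb_good [(e₁, e₂),
        (2 * f₁ + (j + 2 * 0) * e₁, 2 * f₂ + (j + 2 * 0) * e₂),
        (2 * f₁ + (j + 2 * 1) * e₁, 2 * f₂ + (j + 2 * 1) * e₂),
        (2 * f₁ + (j + 2 * 2) * e₁, 2 * f₂ + (j + 2 * 2) * e₂)] ?_ ?_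
      · simp only [List.forall_mem_cons, List.not_mem_nil, false_imp_iff, implies_true, and_true]
        refine ⟨⟨?_, ?_, he⟩, hP 0 (by omega) (by omega), hP 1 (by omega) (by omega),
          hP 2 (by omega) (by omega)⟩
        · simpa using comb_lt (c := 1) hn19 (abs_nonneg _) ha2 (by omega)
        · simpa using comb_lt (c := 1) hn19 (abs_nonneg _) hb2 (by omega)
      · refine Eq.trans (congrArg comb_H ?_) key
        simp only [List.map_cons, List.map_nil, List.cons.injEq, Prod.mk.injEq, and_true,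
          true_and]
        push_cast
        refine ⟨⟨?_, ?_⟩, ⟨?_, ?_⟩, ⟨?_, ?_⟩⟩ <;> ring

end Pool.Agent.Lib.MP_a01f70_lc.QQ
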