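import Pool.Agent.Lib.MP_a01f70_lc.QQ.CDefs
import Pool.Agent.Lib.MP_a01f70_lc.Lattice

/-!
Odd lattice points in a square.
-/

set_option linter.unusedSectionVars false

namespace Pool.Agent.Lib.MP_a01f70_lc.QQ
open Module Polynomial



/-- A primitive short vector `e` of `Λ = {(α, β) | n ∣ β + ρ α}` and a complementary vector `f`.
By Thue's lemma (pigeonhole; see `thue` in `Lattice.lean`) there is a nonzero vector with both
coordinates at most `√n` in absolute value; write `β = -ρ α + n j`, divide by `gcd (α, j)` and use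
Bezout. Both coordinates are nonzero as `ρ` is a unit and `|eᵢ| < n`. -/
theorem exists_short {n ρ : ℤ} (hn : 1 < n) (hc : IsCoprime ρ n) :
    ∃ e₁ e₂ f₁ f₂ : ℤ, n ∣ e₂ + ρ * e₁ ∧ n ∣ f₂ + ρ * f₁ ∧ e₁ * f₂ - e₂ * f₁ = n ∧
      e₁ ≠ 0 ∧ e₂ ≠ 0 ∧ e₁ ^ 2 ≤ n ∧ e₂ ^ 2 ≤ n := by
  obtain ⟨N, rfl⟩ := Int.eq_ofNat_of_zero_le (show 0 ≤ n by omega)
  have hN : 1 < N := by exact_mod_cast hn
  obtain ⟨x, y, z, hx, hy0, hy, hxy, l, m, k, hb⟩ := thue (n := N) (by omega) ρ 1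
    (Nat.sqrt N) (Nat.sqrt N) (Nat.lt_succ_sqrt N)
  have hs : ((Nat.sqrt N : ℕ) : ℤ) * (Nat.sqrt N : ℕ) ≤ N := by exact_mod_cast Nat.sqrt_le N
  have hlt : ((Nat.sqrt N : ℕ) : ℤ) < N := by exact_mod_cast Nat.sqrt_lt_self hN
  have hy' : y = N * z - x * ρ := by linarith
  have hx0 : x ≠ 0 := by
    rintro rfl
    have hyz : y = N * z := by linarith
    have hz : z = 0 := by
      by_contra hz
      rcases lt_or_gt_of_ne hz with h | h <;> nlinarith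
    subst hz
    simp at hyz
    subst hyz
    simp at hb
  refine ⟨x, y, -(m * N + k), ρ * (m * N + k) + N * (l - m * ρ), ⟨z, by linarith⟩,
    ⟨l - m * ρ, by ring⟩, ?_, hx0, ?_, ?_, ?_⟩
  · subst hy'
    linear_combination (N : ℤ) * hb
  · rintro rfl
    have hd : (N : ℤ) ∣ x * ρ := ⟨z, by linarith⟩
    have hd' : (N : ℤ) ∣ x := hc.symm.dvd_of_dvd_mul_right hd
    exact hx0 (Int.eq_zero_of_abs_lt_dvd hd' (by omega))
  · have := abs_nonneg x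
    nlinarith [sq_abs x]
  · nlinarith

lemma comb1_abs {n e f j : ℚ} (he : e ≠ 0) (h1 : -f / e - n / |e| < j)
    (h2 : j < -f / e + n / |e|) : |f + j * e| < n := by
  have hp : 0 < |e| := abs_pos.mpr he
  have h3 : |j - -f / e| < n / |e| := abs_lt.mpr ⟨by linarith, by linarith⟩
  rw [lt_div_iff₀ hp, ← abs_mul] at h3
  have : (j - -f / e) * e = f + j * e := by field_simp; ring
  rwa [this] at h3

/-- The points `t f + j e` (level `t`) lie in the open square for `j` in an open interval of length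
`n * min (2 / max |e₁| |e₂|) ((|e₁| + |e₂| - t) / (|e₁| |e₂|))`; it contains `c` consecutive
integers `j₀ + 2 i` of prescribed parity as soon as this length exceeds `2 c`. -/
theorem exists_on_level {n e₁ e₂ f₁ f₂ t : ℤ} (hdet : e₁ * f₂ - e₂ * f₁ = n) (hn : 0 < n)
    (h1 : e₁ ≠ 0) (h2 : e₂ ≠ 0) (ht : 0 ≤ t) {c : ℤ} (hc : 0 < c) (ha : c * |e₁| < n)
    (hb : c * |e₂| < n) (hl : 2 * c * (|e₁| * |e₂|) < n * (|e₁| + |e₂| - t)) (r : ℤ) :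
    ∃ j₀ : ℤ, j₀ % 2 = r % 2 ∧ ∀ i : ℤ, 0 ≤ i → i < c →
      |t * f₁ + (j₀ + 2 * i) * e₁| < n ∧ |t * f₂ + (j₀ + 2 * i) * e₂| < n := by
  have q1 : (e₁ : ℚ) ≠ 0 := by exact_mod_cast h1
  have q2 : (e₂ : ℚ) ≠ 0 := by exact_mod_cast h2
  have p1 : 0 < |(e₁ : ℚ)| := abs_pos.mpr q1
  have p2 : 0 < |(e₂ : ℚ)| := abs_pos.mpr q2
  have qdet : (e₁ : ℚ) * f₂ - e₂ * f₁ = n := by exact_mod_cast hdet
  have qn : (0 : ℚ) < n := by exact_mod_cast hn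
  have qt : (0 : ℚ) ≤ t := by exact_mod_cast ht
  have qa : (c : ℚ) * |(e₁ : ℚ)| < n := by exact_mod_cast ha
  have qb : (c : ℚ) * |(e₂ : ℚ)| < n := by exact_mod_cast hb
  have ql : 2 * (c : ℚ) * (|(e₁ : ℚ)| * |(e₂ : ℚ)|) < n * (|(e₁ : ℚ)| + |(e₂ : ℚ)| - t) := by
    exact_mod_cast hl
  set c₁ : ℚ := -((t : ℚ) * f₁) / e₁ with hc₁
  set c₂ : ℚ := -((t : ℚ) * f₂) / e₂ with hc₂
  set r₁ : ℚ := n / |(e₁ : ℚ)| with hr₁
  set r₂ : ℚ := n / |(e₂ : ℚ)| with hr₂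
  have a1 : (c : ℚ) < r₁ := by rw [hr₁, lt_div_iff₀ p1]; exact qa
  have a2 : (c : ℚ) < r₂ := by rw [hr₂, lt_div_iff₀ p2]; exact qb
  have hd : |c₁ - c₂| = t * n / (|(e₁ : ℚ)| * |(e₂ : ℚ)|) := by
    have : c₁ - c₂ = t * n / (e₁ * e₂) := by
      rw [hc₁, hc₂, ← qdet]; field_simp; ring
    rw [this, abs_div, abs_mul, abs_mul, abs_of_nonneg qt, abs_of_pos qn]
  have a3 : 2 * (c : ℚ) + |c₁ - c₂| < r₁ + r₂ := by
    have e : r₁ + r₂ - |c₁ - c₂| =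
        n * (|(e₁ : ℚ)| + |(e₂ : ℚ)| - t) / (|(e₁ : ℚ)| * |(e₂ : ℚ)|) := by
      rw [hd, hr₁, hr₂]; field_simp; ring
    have : 2 * (c : ℚ) < r₁ + r₂ - |c₁ - c₂| := by
      rw [e, lt_div_iff₀ (mul_pos p1 p2)]; exact ql
    linarith
  have b1 := le_abs_self (c₁ - c₂)
  have b2 := neg_abs_le (c₁ - c₂)
  set L : ℚ := max (c₁ - r₁) (c₂ - r₂) with hL
  have L1 : c₁ - r₁ ≤ L := le_max_left _ _
  have L2 : c₂ - r₂ ≤ L := le_max_right _ _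
  have U1 : L + 2 * c < c₁ + r₁ := by
    have : L < c₁ + r₁ - 2 * c := max_lt (by linarith) (by linarith)
    linarith
  have U2 : L + 2 * c < c₂ + r₂ := by
    have : L < c₂ + r₂ - 2 * c := max_lt (by linarith) (by linarith)
    linarith
  have f1 := Int.floor_le L
  have f2 := Int.lt_floor_add_one L
  obtain ⟨j₀, hj, hj1, hj2⟩ : ∃ j₀ : ℤ, j₀ % 2 = r % 2 ∧ ⌊L⌋ + 1 ≤ j₀ ∧ j₀ ≤ ⌊L⌋ + 2 := by
    by_cases h : (⌊L⌋ + 1) % 2 = r % 2
    · exact ⟨_, h, le_rfl, by omega⟩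
    · exact ⟨⌊L⌋ + 2, by omega, by omega, le_rfl⟩
  refine ⟨j₀, hj, fun i hi0 hi => ?_⟩
  have g1 : (⌊L⌋ : ℚ) + 1 ≤ j₀ + 2 * i := by exact_mod_cast (show ⌊L⌋ + 1 ≤ j₀ + 2 * i by omega)
  have g2 : (j₀ : ℚ) + 2 * i ≤ ⌊L⌋ + 2 * c := by
    exact_mod_cast (show j₀ + 2 * i ≤ ⌊L⌋ + 2 * c by omega)
  constructor
  · have := comb1_abs (n := n) (f := (t : ℚ) * f₁) (j := (j₀ : ℚ) + 2 * i) q1
      (by linarith) (by linarith)
    exact_mod_cast this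
  · have := comb1_abs (n := n) (f := (t : ℚ) * f₂) (j := (j₀ : ℚ) + 2 * i) q2
      (by linarith) (by linarith)
    exact_mod_cast this

end Pool.Agent.Lib.MP_a01f70_lc.QQ
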