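import Pool.Agent.Lib.MP_a01f70_lc.QQ.Comb1

/-!
Odd lattice points in a square.
-/

set_option linter.unusedSectionVars false

namespace Pool.Agent.Lib.MP_a01f70_lc.QQ
open Module Polynomial



/-- a search for an odd lattice point of the given class -/
def comb2P (n r : ℤ) (A B e : ZMod 2) : Bool :=
  (List.range 18).any fun i => (List.range 18).any fun j =>
    decide ((2 * (j : ℤ) - 17 + r * (2 * (i : ℤ) - 17)) % n = 0) &&
      decide (|2 * (i : ℤ) - 17| < n ∧ |2 * (j : ℤ) - 17| < n ∧ clsA (2 * (i : ℤ) - 17) = A ∧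
        clsA (2 * (j : ℤ) - 17) = B ∧ clsE (2 * (i : ℤ) - 17) (2 * (j : ℤ) - 17) = e)

/-- one layer -/
def comb2L (n r : ℤ) (s e : ZMod 2) : Bool :=
  comb2P n r s (s + 1) e ||
    (comb2P n r s s e && comb2P n r (s + 1) s e && comb2P n r (s + 1) (s + 1) e)

/-- both layers -/
def comb2G (n r : ℤ) (s : ZMod 2) : Bool := comb2L n r s 0 && comb2L n r s 1

theorem comb2_pres {n ρ : ℤ} {A B e : ZMod 2} (h : comb2P n (ρ % n) A B e = true) :
    Pres n ρ A B e := by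
  simp only [comb2P, List.any_eq_true, Bool.and_eq_true, decide_eq_true_eq] at h
  obtain ⟨i, -, j, -, h0, h1, h2, h3, h4, h5⟩ := h
  refine ⟨_, _, ⟨(i : ℤ) - 9, by ring⟩, ⟨(j : ℤ) - 9, by ring⟩, h1, h2, ?_, h3, h4, h5⟩
  have h6 := Int.dvd_of_emod_eq_zero h0
  have e : 2 * (j : ℤ) - 17 + ρ * (2 * (i : ℤ) - 17) =
      (2 * (j : ℤ) - 17 + ρ % n * (2 * (i : ℤ) - 17)) + n * (ρ / n * (2 * (i : ℤ) - 17)) := by
    rw [Int.emod_def]
    ring
  rw [e]
  exact dvd_add h6 (Dvd.intro _ rfl)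

theorem comb2_layer {n ρ : ℤ} {s e : ZMod 2} (h : comb2L n (ρ % n) s e = true) :
    Pres n ρ s (s + 1) e ∨
      (Pres n ρ s s e ∧ Pres n ρ (s + 1) s e ∧ Pres n ρ (s + 1) (s + 1) e) := by
  simp only [comb2L, Bool.or_eq_true, Bool.and_eq_true] at h
  rcases h with h | ⟨⟨h1, h2⟩, h3⟩
  · exact Or.inl (comb2_pres h)
  · exact Or.inr ⟨comb2_pres h1, comb2_pres h2, comb2_pres h3⟩

theorem comb2_good {n ρ : ℤ} {s : ZMod 2} (h : comb2G n (ρ % n) s = true) : Good n ρ s := by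
  simp only [comb2G, Bool.and_eq_true] at h
  intro e
  have : ∀ e : ZMod 2, e = 0 ∨ e = 1 := by decide
  rcases this e with rfl | rfl
  · exact comb2_layer h.1
  · exact comb2_layer h.2

/-- the hypotheses on the pair `(n, r)` -/
def comb2H (n r : ℤ) : Bool :=
  decide (n % 2 = 1) && decide (r < n) && decide (Int.gcd r n = 1) &&
    decide ((1 * r + -1) % n ≠ 0) && decide ((1 * r + 1) % n ≠ 0) &&
    decide ((1 * r + -2) % n ≠ 0) && decide ((1 * r + 2) % n ≠ 0) &&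
    decide ((2 * r + -1) % n ≠ 0) && decide ((2 * r + 1) % n ≠ 0)

theorem comb2_check : ∀ n ∈ List.range 18, ∀ r ∈ List.range 17, comb2H n r = true →
    (comb2G n r 0 || comb2G n r 1) = true := by
  decide +kernel

/-- small moduli by computation -/
theorem comb_small {n ρ : ℤ} (hn : 0 < n) (hn' : n ≤ 17) (hodd : Odd n) (hc : IsCoprime ρ n)
    (h1 : ¬ n ∣ ρ - 1) (h2 : ¬ n ∣ ρ + 1) (h3 : ¬ n ∣ ρ - 2) (h4 : ¬ n ∣ ρ + 2)
    (h5 : ¬ n ∣ 2 * ρ - 1) (h6 : ¬ n ∣ 2 * ρ + 1) : ∃ s, Good n ρ s := by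
  have hr0 : 0 ≤ ρ % n := Int.emod_nonneg _ hn.ne'
  have hr1 : ρ % n < n := Int.emod_lt_of_pos _ hn
  obtain ⟨r, hr⟩ := Int.eq_ofNat_of_zero_le hr0
  obtain ⟨m, rfl⟩ := Int.eq_ofNat_of_zero_le hn.le
  have key : ∀ a b : ℤ, ¬ (m : ℤ) ∣ a * ρ + b → (a * (r : ℤ) + b) % m ≠ 0 := fun a b h h' => by
    refine h ?_
    have e : a * ρ + b = (a * (r : ℤ) + b) + m * (a * (ρ / m)) := by
      rw [← hr, Int.emod_def]
      ring
    rw [e]
    exact dvd_add (Int.dvd_of_emod_eq_zero h') (Dvd.intro _ rfl)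
  have hg : Int.gcd r m = 1 := by
    rw [← hr, Int.gcd_emod]
    exact Int.isCoprime_iff_gcd_eq_one.1 hc
  have := comb2_check m (List.mem_range.2 (by omega)) r (List.mem_range.2 (by omega)) (by
    simp only [comb2H, Bool.and_eq_true, decide_eq_true_eq]
    exact ⟨⟨⟨⟨⟨⟨⟨⟨Int.odd_iff.1 hodd, by omega⟩, hg⟩, key 1 (-1) (by rwa [one_mul])⟩,
      key 1 1 (by rwa [one_mul])⟩, key 1 (-2) (by rwa [one_mul])⟩, key 1 2 (by rwa [one_mul])⟩,
      key 2 (-1) h5⟩, key 2 1 h6⟩)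
  rw [Bool.or_eq_true, ← hr] at this
  rcases this with h | h
  · exact ⟨0, comb2_good h⟩
  · exact ⟨1, comb2_good h⟩

end Pool.Agent.Lib.MP_a01f70_lc.QQ
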