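import Pool.Agent.Lib.MP_a01f70_lc.QQ.CombJet1

/-!
From classes of lattice points to the jet condition.
-/

set_option linter.unusedSectionVars false

namespace Pool.Agent.Lib.MP_a01f70_lc.QQ
open Module Polynomial



lemma combjet_clsA_neg (t : ℤ) : clsA (-t) = clsA t := by
  unfold clsA
  have : ((-t) % 8 = 3 ∨ (-t) % 8 = 5) ↔ (t % 8 = 3 ∨ t % 8 = 5) := by omega
  simp only [this]

/-- the class of the point with abscissa `u` -/
def combjetCls (n ρ u : ℕ) : ZMod 2 × ZMod 2 × ZMod 2 :=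
  (clsA (2 * (u : ℤ) - n), clsA (2 * ((n : ℤ) * ((ρ * u / n + 1 : ℕ) : ℤ) - ρ * u) - n),
    clsE (2 * (u : ℤ) - n) (2 * ((n : ℤ) * ((ρ * u / n + 1 : ℕ) : ℤ) - ρ * u) - n))

/-- the affine function of the class -/
def combjetPhi (κ₀ κ₁ κ₂ κ₃ κ₄ δ : ZMod 2) (t : ZMod 2 × ZMod 2 × ZMod 2) : ZMod 2 :=
  κ₀ + κ₁ * t.2.2 + κ₂ * t.1 + κ₃ * t.2.1 + κ₄ * t.1 * t.2.2 + δ * t.2.1 * t.2.2

lemma combjet_pt_neg {n ρ : ℕ} (hn : Odd n) {α β : ℤ} (h1 : Odd α) (h2 : Odd β) (h3 : |α| < n)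
    (h4 : |β| < n) (h5 : (n : ℤ) ∣ β + ρ * α) (h6 : α < 0) :
    ∃ u : ℕ, 0 < u ∧ 2 * u < n ∧ ρ * (n - u) / n + 1 = ρ + 1 - (ρ * u / n + 1) ∧
      combjetCls n ρ u = (clsA α, clsA β, clsE α β) := by
  obtain ⟨m, hm⟩ := hn
  obtain ⟨a, ha⟩ := h1
  obtain ⟨b, hb⟩ := h2
  rw [abs_lt] at h3 h4
  obtain ⟨u, hu⟩ : ∃ u : ℕ, α = 2 * (u : ℤ) - n := ⟨(a + m + 1).toNat, by omega⟩
  obtain ⟨w, hw⟩ : ∃ w : ℕ, β = n - 2 * (w : ℤ) := ⟨(m - b).toNat, by omega⟩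
  have hw0 : 0 < w := by omega
  have hwn : w < n := by omega
  have hun : 2 * u < n := by omega
  have hd : (n : ℤ) ∣ ρ * u - w := by
    have h7 : (n : ℤ) ∣ 2 * (ρ * u - w) := by
      have : 2 * ((ρ : ℤ) * u - w) = β + ρ * α + n * (ρ - 1) := by rw [hu, hw]; ring
      rw [this]
      exact dvd_add h5 (dvd_mul_right _ _)
    have h8 : (ρ : ℤ) * u - w = n * (ρ * u - w) - m * (2 * (ρ * u - w)) := by
      rw [hm]; push_cast; ring
    rw [h8]
    exact dvd_sub (dvd_mul_right _ _) (Dvd.dvd.mul_left h7 _)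
  obtain ⟨q, hq⟩ := hd
  have hn0 : 0 < n := by omega
  have hq0 : 0 ≤ q := by
    by_contra hneg
    have h9 : (n : ℤ) * q ≤ n * (-1) := mul_le_mul_of_nonneg_left (by omega) (by omega)
    have h10 : (0 : ℤ) ≤ ρ * u := by positivity
    omega
  obtain ⟨q, rfl⟩ := Int.eq_ofNat_of_zero_le hq0
  have hq' : ρ * u = w + n * q := by
    zify
    linarith
  have hdiv : ρ * u / n = q := by
    rw [hq', Nat.add_mul_div_left _ _ hn0, Nat.div_eq_of_lt hwn, zero_add]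
  have hqρ : q < ρ := by
    by_contra hge
    have h9 : n * ρ ≤ n * q := Nat.mul_le_mul_left _ (by omega)
    have h10 : ρ * u ≤ ρ * n := Nat.mul_le_mul_left _ (by omega)
    rw [mul_comm ρ n] at h10
    omega
  refine ⟨u, by omega, hun, ?_, ?_⟩
  · have h11 : ρ * (n - u) = (n - w) + n * (ρ - q - 1) := by
      zify [show u ≤ n by omega, hwn.le, hqρ.le, show 1 ≤ ρ - q by omega]
      linarith
    rw [h11, Nat.add_mul_div_left _ _ hn0, Nat.div_eq_of_lt (by omega), hdiv]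
    omega
  · have h12 : 2 * ((n : ℤ) * ((ρ * u / n + 1 : ℕ) : ℤ) - ρ * u) - n = β := by
      rw [hdiv, hw]
      push_cast
      linarith
    rw [combjetCls, h12, ← hu]

lemma combjet_pt {n ρ : ℕ} (hn : Odd n) {t : ZMod 2 × ZMod 2 × ZMod 2}
    (h : Pres n ρ t.1 t.2.1 t.2.2) :
    ∃ u : ℕ, 0 < u ∧ 2 * u < n ∧ ρ * (n - u) / n + 1 = ρ + 1 - (ρ * u / n + 1) ∧
      combjetCls n ρ u = t := by
  obtain ⟨α, β, h1, h2, h3, h4, h5, hA, hB, he⟩ := h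
  have ht : t = (clsA α, clsA β, clsE α β) := by rw [hA, hB, he]
  rw [ht]
  by_cases h6 : α < 0
  · exact combjet_pt_neg hn h1 h2 h3 h4 h5 h6
  · have h7 : -α < 0 := by
      obtain ⟨a, ha⟩ := h1
      omega
    have := combjet_pt_neg (ρ := ρ) hn h1.neg h2.neg (by rwa [abs_neg]) (by rwa [abs_neg])
      (by
        have : -β + (ρ : ℤ) * -α = -(β + ρ * α) := by ring
        rw [this]
        exact h5.neg_right) h7
    rwa [combjet_clsA_neg, combjet_clsA_neg, clsE, neg_mul_neg, ← clsE] at this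

lemma combjet_one : ∀ s e κ₀ κ₁ κ₂ κ₃ κ₄ δ : ZMod 2,
    combjetPhi κ₀ κ₁ κ₂ κ₃ κ₄ δ (s, s, e) + combjetPhi κ₀ κ₁ κ₂ κ₃ κ₄ δ (s, s + 1, e) =
      κ₃ + δ * e := by
  decide

lemma combjet_three : ∀ s e κ₀ κ₁ κ₂ κ₃ κ₄ δ : ZMod 2,
    combjetPhi κ₀ κ₁ κ₂ κ₃ κ₄ δ (s, s, e) + (combjetPhi κ₀ κ₁ κ₂ κ₃ κ₄ δ (s, s, e) +
      (combjetPhi κ₀ κ₁ κ₂ κ₃ κ₄ δ (s + 1, s, e) +
        combjetPhi κ₀ κ₁ κ₂ κ₃ κ₄ δ (s + 1, s + 1, e))) = κ₃ + δ * e := by
  decide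

lemma combjet_layer {n ρ : ℤ} {s : ZMod 2} (h : Good n ρ s) (e : ZMod 2) :
    ∃ T : Finset (ZMod 2 × ZMod 2 × ZMod 2), T.Nonempty ∧
      (∀ t ∈ T, Pres n ρ t.1 t.2.1 t.2.2 ∧ t.2.2 = e) ∧ ∀ κ₀ κ₁ κ₂ κ₃ κ₄ δ : ZMod 2,
        combjetPhi κ₀ κ₁ κ₂ κ₃ κ₄ δ (s, s, e) + ∑ t ∈ T, combjetPhi κ₀ κ₁ κ₂ κ₃ κ₄ δ t =
          κ₃ + δ * e := by
  have hs : s ≠ s + 1 := by simp
  rcases h e with h1 | ⟨h1, h2, h3⟩
  · refine ⟨{(s, s + 1, e)}, by simp, ?_, fun κ₀ κ₁ κ₂ κ₃ κ₄ δ => ?_⟩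
    · intro t ht
      rw [Finset.mem_singleton] at ht
      subst ht
      exact ⟨h1, rfl⟩
    · rw [Finset.sum_singleton]
      exact combjet_one ..
  · refine ⟨{(s, s, e), (s + 1, s, e), (s + 1, s + 1, e)}, by simp, ?_,
      fun κ₀ κ₁ κ₂ κ₃ κ₄ δ => ?_⟩
    · intro t ht
      simp only [Finset.mem_insert, Finset.mem_singleton] at ht
      rcases ht with rfl | rfl | rfl
      exacts [⟨h1, rfl⟩, ⟨h2, rfl⟩, ⟨h3, rfl⟩]
    · rw [Finset.sum_insert (by simp [hs]), Finset.sum_insert (by simp [hs]), Finset.sum_singleton]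
      exact combjet_three ..

lemma combjet_final : ∀ κ δ x₀ x₁ y₀ y₁ : ZMod 2, x₀ + y₀ = κ + δ * 0 → x₁ + y₁ = κ + δ * 1 →
    x₀ + x₁ + (y₀ + y₁) = δ := by
  decide

/-- Choose one or three points in each layer, with pairwise different classes; classes do not
change under `(α, β) ↦ (-α, -β)`, so we may take `α < 0`. A point gives `u = (α + n) / 2 < n / 2`
and `v = (β + n) / 2 ∈ (0, n)` with `n ∣ v + ρ u`, hence `j = (v + ρ u) / n = ρ u / n + 1`, and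
`ρ (n - u) / n + 1 = ρ + 1 - j`; `u` determines the point. Let `U` be the set of these `u` and
`n - u`. The two pairs of vertices `(u, j) = (0, 0)` and `(0, 1)` have classes
`(clsA n, clsA n, 0)` and `(clsA n, clsA n, 1)`. Over all pairs the sums of `1, e, A, B, A e` vanish
and the sum of `B e` is one. -/
theorem jetNum_of_good {n ρ : ℕ} (hn : Odd n) (hρ : Odd ρ) (h : Good n ρ (clsA n)) :
    ∃ U : Finset ℕ, Adm n U ∧ JetNum n ρ U := by
  classical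
  obtain ⟨T₀, hne, hT₀, hs₀⟩ := combjet_layer h 0
  obtain ⟨T₁, -, hT₁, hs₁⟩ := combjet_layer h 1
  have hdis : Disjoint T₀ T₁ := by
    rw [Finset.disjoint_left]
    intro t h0 h1
    exact absurd ((hT₀ t h0).2.symm.trans (hT₁ t h1).2) (by decide)
  have hex : ∀ t ∈ T₀ ∪ T₁, ∃ u : ℕ, 0 < u ∧ 2 * u < n ∧
      ρ * (n - u) / n + 1 = ρ + 1 - (ρ * u / n + 1) ∧ combjetCls n ρ u = t := by
    intro t ht
    rcases Finset.mem_union.mp ht with h0 | h0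
    · exact combjet_pt hn (hT₀ t h0).1
    · exact combjet_pt hn (hT₁ t h0).1
  choose! g hg using hex
  obtain ⟨V, hV⟩ : ∃ V, V = (T₀ ∪ T₁).image g := ⟨_, rfl⟩
  have hVp : ∀ u ∈ V, 0 < u ∧ 2 * u < n ∧ ρ * (n - u) / n + 1 = ρ + 1 - (ρ * u / n + 1) := by
    intro u hu
    rw [hV] at hu
    obtain ⟨t, ht, rfl⟩ := Finset.mem_image.mp hu
    exact ⟨(hg t ht).1, (hg t ht).2.1, (hg t ht).2.2.1⟩
  refine ⟨V ∪ V.image (fun u => n - u), ⟨?_, ?_, ?_, ?_⟩, ?_⟩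
  · refine Finset.Nonempty.mono Finset.subset_union_left ?_
    rw [hV]
    exact (hne.mono Finset.subset_union_left).image g
  · intro u hu
    rcases Finset.mem_union.mp hu with h0 | h0
    · exact (hVp u h0).1
    · obtain ⟨w, hw, rfl⟩ := Finset.mem_image.mp h0
      have := (hVp w hw).2.1
      omega
  · intro u hu
    rcases Finset.mem_union.mp hu with h0 | h0
    · have := (hVp u h0).2.1
      omega
    · obtain ⟨w, hw, rfl⟩ := Finset.mem_image.mp h0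
      have := hVp w hw
      omega
  · intro u hu
    rcases Finset.mem_union.mp hu with h0 | h0
    · exact Finset.mem_union_right _ (Finset.mem_image_of_mem _ h0)
    · obtain ⟨w, hw, rfl⟩ := Finset.mem_image.mp h0
      have := hVp w hw
      rw [show n - (n - w) = w by omega]
      exact Finset.mem_union_left _ hw
  · intro a b hab
    obtain ⟨κ₀, κ₁, κ₂, κ₃, κ₄, hκ⟩ := pair_affine hn hρ hab
    set δ : ZMod 2 := if (a = 4 ∧ b = 0) ∨ (a = 3 ∧ b = 1) then 1 else 0 with hδ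
    have hdV : Disjoint V (V.image (fun u => n - u)) := by
      rw [Finset.disjoint_left]
      intro u h0 h1
      obtain ⟨w, hw, rfl⟩ := Finset.mem_image.mp h1
      have := hVp w hw
      have := hVp _ h0
      omega
    have hsum : ∑ u ∈ V ∪ V.image (fun u => n - u), mon a b (ρ * u / n + 1) u =
        ∑ t ∈ T₀, combjetPhi κ₀ κ₁ κ₂ κ₃ κ₄ δ t + ∑ t ∈ T₁, combjetPhi κ₀ κ₁ κ₂ κ₃ κ₄ δ t := by
      rw [Finset.sum_union hdV, Finset.sum_image (fun u hu w hw huw => by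
        have := hVp u hu
        have := hVp w hw
        omega), ← Finset.sum_add_distrib, ← Finset.sum_union hdis, hV,
        Finset.sum_image (fun t ht t' ht' htt => by
          rw [← (hg t ht).2.2.2, ← (hg t' ht').2.2.2, htt])]
      refine Finset.sum_congr rfl fun t ht => ?_
      obtain ⟨h1, h2, h3, h4⟩ := hg t ht
      have hj : ρ * g t / n + 1 ≤ ρ + 1 := by
        have : ρ * g t / n ≤ ρ :=
          Nat.div_le_of_le_mul (by rw [mul_comm n ρ]; exact Nat.mul_le_mul_left _ (by omega))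
        omega
      rw [h3, hκ (g t) _ (by omega) hj _ _ rfl rfl]
      conv_rhs => rw [← h4]
      rfl
    have hsq : ((n : ℤ) * n) % 4 = 1 := by
      obtain ⟨m, hm⟩ := hn
      have : (n : ℤ) * n = 4 * (m * m + m) + 1 := by rw [hm]; push_cast; ring
      omega
    have hv0 := hκ 0 0 (Nat.zero_le _) (Nat.zero_le _) (-n) (-n) (by simp) (by simp)
    have hv1 := hκ 0 1 (Nat.zero_le _) (by omega) (-n) n (by simp) (by simp; ring)
    have hE0 : clsE (-(n : ℤ)) (-n) = 0 := by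
      rw [clsE, neg_mul_neg, if_neg (by omega)]
    have hE1 : clsE (-(n : ℤ)) n = 1 := by
      rw [clsE, neg_mul, if_pos (by omega)]
    rw [combjet_clsA_neg, hE0, Nat.sub_zero, Nat.sub_zero] at hv0
    rw [combjet_clsA_neg, hE1, Nat.add_sub_cancel, Nat.sub_zero] at hv1
    have hf := combjet_final κ₃ δ _ _ _ _ (hs₀ κ₀ κ₁ κ₂ κ₃ κ₄ δ) (hs₁ κ₀ κ₁ κ₂ κ₃ κ₄ δ)
    have e0 : combjetPhi κ₀ κ₁ κ₂ κ₃ κ₄ δ (clsA n, clsA n, 0) =
        mon a b 0 0 + mon a b (ρ + 1) n := hv0.symm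
    have e1 : combjetPhi κ₀ κ₁ κ₂ κ₃ κ₄ δ (clsA n, clsA n, 1) =
        mon a b 1 0 + mon a b ρ n := hv1.symm
    rw [e0, e1] at hf
    rw [hsum]
    refine Eq.trans ?_ hf
    ring

end Pool.Agent.Lib.MP_a01f70_lc.QQ
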