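import Pool.Agent.Lib.MP_a01f70_lc.QQ.CDefs

/-!
From classes of lattice points to the jet condition.
-/

set_option linter.unusedSectionVars false

namespace Pool.Agent.Lib.MP_a01f70_lc.QQ
open Module Polynomial



theorem combjet1_swap {n ρ ρ' : ℤ} {A B e : ZMod 2} (h : Pres n ρ A B e)
    (hρ : n ∣ ρ * ρ' - 1) : Pres n ρ' B A e := by
  obtain ⟨α, β, h1, h2, h3, h4, h5, h6, h7, h8⟩ := h
  refine ⟨β, α, h2, h1, h4, h3, ?_, h7, h6, ?_⟩
  · have : α + ρ' * β = ρ' * (β + ρ * α) - α * (ρ * ρ' - 1) := by ring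
    rw [this]
    exact dvd_sub (h5.mul_left _) (hρ.mul_left _)
  · rw [← h8, clsE, clsE, mul_comm]

theorem combjet1_congr {n ρ ρ' : ℤ} {A B e : ZMod 2} (h : Pres n ρ A B e)
    (hρ : n ∣ ρ - ρ') : Pres n ρ' A B e := by
  obtain ⟨α, β, h1, h2, h3, h4, h5, h6, h7, h8⟩ := h
  refine ⟨α, β, h1, h2, h3, h4, ?_, h6, h7, h8⟩
  have : β + ρ' * α = (β + ρ * α) - α * (ρ - ρ') := by ring
  rw [this]
  exact dvd_sub h5 (hρ.mul_left _)

/-- exchange the two coordinates -/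
theorem Good.swap {n ρ ρ' : ℤ} {s : ZMod 2} (h : Good n ρ s) (hρ : n ∣ ρ * ρ' - 1) :
    Good n ρ' (s + 1) := by
  have hs : s + 1 + 1 = s := (by decide : ∀ t : ZMod 2, t + 1 + 1 = t) s
  intro e
  rw [hs]
  rcases h e with h1 | ⟨h1, h2, h3⟩
  · exact Or.inl (combjet1_swap h1 hρ)
  · exact Or.inr ⟨combjet1_swap h3 hρ, combjet1_swap h2 hρ, combjet1_swap h1 hρ⟩

theorem Good.congr {n ρ ρ' : ℤ} {s : ZMod 2} (h : Good n ρ s) (hρ : n ∣ ρ - ρ') :
    Good n ρ' s := by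
  intro e
  rcases h e with h1 | ⟨h1, h2, h3⟩
  · exact Or.inl (combjet1_congr h1 hρ)
  · exact Or.inr ⟨combjet1_congr h1 hρ, combjet1_congr h2 hρ, combjet1_congr h3 hρ⟩

theorem combjet1_step (m a : ℕ) (ha : a ≤ 4) :
    ((m + 8).choose a : ZMod 2) = (m.choose a : ZMod 2) := by
  have h1 : ((Nat.choose 8 1 : ℕ) : ZMod 2) = 0 := by decide
  have h2 : ((Nat.choose 8 2 : ℕ) : ZMod 2) = 0 := by decide
  have h3 : ((Nat.choose 8 3 : ℕ) : ZMod 2) = 0 := by decide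
  have h4 : ((Nat.choose 8 4 : ℕ) : ZMod 2) = 0 := by decide
  rw [add_comm m 8, Nat.add_choose_eq]
  push_cast
  interval_cases a <;>
    simp only [Finset.Nat.sum_antidiagonal_succ, Finset.Nat.antidiagonal_zero,
      Finset.sum_singleton, zero_add, Nat.reduceAdd, h1, h2, h3, h4, zero_mul, add_zero,
      Nat.choose_zero_right, Nat.cast_one, one_mul]

/-- A binomial coefficient `C(m, a)` with `a ≤ 4` depends modulo `2` only on `m % 8`
(`Choose.choose_modEq_choose_mod_mul_choose_div`, or induction on `m` with Pascal's rule). -/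
theorem choose_mod_eight (m a : ℕ) (ha : a ≤ 4) :
    (m.choose a : ZMod 2) = ((m % 8).choose a : ZMod 2) := by
  induction m using Nat.strong_induction_on with
  | _ m ih =>
    by_cases h : m < 8
    · rw [Nat.mod_eq_of_lt h]
    · obtain ⟨k, rfl⟩ : ∃ k, m = k + 8 := ⟨m - 8, by omega⟩
      rw [combjet1_step k a ha, ih k (by omega), Nat.add_mod_right]

theorem combjet1_table : ∀ n ρ : Fin 8, n.1 % 2 = 1 → ρ.1 % 2 = 1 → ∀ a b : Fin 5,
    a.1 + b.1 ≤ 4 → ∃ κ₀ κ₁ κ₂ κ₃ κ₄ : ZMod 2, ∀ u j : Fin 8,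
      mon a.1 b.1 j.1 u.1 + mon a.1 b.1 ((ρ.1 + 9 - j.1) % 8) ((n.1 + 8 - u.1) % 8) =
        κ₀ + κ₁ * clsE (2 * u.1 - n.1) (2 * (n.1 * j.1 - ρ.1 * u.1) - n.1)
        + κ₂ * clsA (2 * u.1 - n.1) + κ₃ * clsA (2 * (n.1 * j.1 - ρ.1 * u.1) - n.1)
        + κ₄ * clsA (2 * u.1 - n.1) * clsE (2 * u.1 - n.1) (2 * (n.1 * j.1 - ρ.1 * u.1) - n.1)
        + (if (a.1 = 4 ∧ b.1 = 0) ∨ (a.1 = 3 ∧ b.1 = 1) then 1 else 0)
          * clsA (2 * (n.1 * j.1 - ρ.1 * u.1) - n.1)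
          * clsE (2 * u.1 - n.1) (2 * (n.1 * j.1 - ρ.1 * u.1) - n.1) := by
  decide +kernel

theorem combjet1_clsA {t t' : ℤ} (h : t ≡ t' [ZMOD 8]) : clsA t = clsA t' := by
  unfold clsA
  rw [show t % 8 = t' % 8 from h]

theorem combjet1_clsE {t t' s s' : ℤ} (h : t ≡ t' [ZMOD 8]) (h' : s ≡ s' [ZMOD 8]) :
    clsE t s = clsE t' s' := by
  unfold clsE
  rw [show (t * s) % 4 = (t' * s') % 4 from (h.mul h').of_dvd (by norm_num)]

theorem combjet1_cast (m : ℕ) : (m : ℤ) ≡ ((m % 8 : ℕ) : ℤ) [ZMOD 8] := by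
  unfold Int.ModEq
  omega

theorem combjet1_mon {a b : ℕ} (hab : a + b ≤ 4) (j u : ℕ) :
    mon a b j u = mon a b (j % 8) (u % 8) := by
  unfold mon
  rw [choose_mod_eight j a (by omega), choose_mod_eight u b (by omega)]

/-- The contribution of a pair of opposite points is an affine function of
`e, A, B, A e, B e` with coefficients depending only on `a, b, n % 8, ρ % 8`, and the coefficient
of `B e` is the right side of `JetNum`. Reduce everything modulo `8` and `decide` (a table of the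
coefficients can be computed from the values at six residue classes). -/
theorem pair_affine {n ρ : ℕ} (hn : Odd n) (hρ : Odd ρ) {a b : ℕ} (hab : a + b ≤ 4) :
    ∃ κ₀ κ₁ κ₂ κ₃ κ₄ : ZMod 2, ∀ u j : ℕ, u ≤ n → j ≤ ρ + 1 → ∀ α β : ℤ, α = 2 * u - n →
      β = 2 * (n * j - ρ * u) - n →
      mon a b j u + mon a b (ρ + 1 - j) (n - u) = κ₀ + κ₁ * clsE α β + κ₂ * clsA α + κ₃ * clsA β
        + κ₄ * clsA α * clsE α β
        + (if (a = 4 ∧ b = 0) ∨ (a = 3 ∧ b = 1) then 1 else 0) * clsA β * clsE α β := by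
  have hn' := Nat.odd_iff.1 hn
  have hρ' := Nat.odd_iff.1 hρ
  obtain ⟨κ₀, κ₁, κ₂, κ₃, κ₄, h⟩ := combjet1_table ⟨n % 8, Nat.mod_lt _ (by norm_num)⟩
    ⟨ρ % 8, Nat.mod_lt _ (by norm_num)⟩ (by simp only; omega) (by simp only; omega)
    ⟨a, by omega⟩ ⟨b, by omega⟩ hab
  refine ⟨κ₀, κ₁, κ₂, κ₃, κ₄, fun u j hu hj α β hα hβ => ?_⟩
  have h1 := h ⟨u % 8, Nat.mod_lt _ (by norm_num)⟩ ⟨j % 8, Nat.mod_lt _ (by norm_num)⟩
  simp only at h1
  have ea : α ≡ 2 * ((u % 8 : ℕ) : ℤ) - ((n % 8 : ℕ) : ℤ) [ZMOD 8] := by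
    rw [hα]
    exact ((combjet1_cast u).mul_left 2).sub (combjet1_cast n)
  have eb : β ≡ 2 * (((n % 8 : ℕ) : ℤ) * ((j % 8 : ℕ) : ℤ) - ((ρ % 8 : ℕ) : ℤ) * ((u % 8 : ℕ) : ℤ))
      - ((n % 8 : ℕ) : ℤ) [ZMOD 8] := by
    rw [hβ]
    exact ((((combjet1_cast n).mul (combjet1_cast j)).sub
      ((combjet1_cast ρ).mul (combjet1_cast u))).mul_left 2).sub (combjet1_cast n)
  have e1 : (ρ + 1 - j) % 8 = (ρ % 8 + 9 - j % 8) % 8 := by omega
  have e2 : (n - u) % 8 = (n % 8 + 8 - u % 8) % 8 := by omega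
  rw [combjet1_mon hab j u, combjet1_mon hab (ρ + 1 - j) (n - u), e1, e2, combjet1_clsA ea,
    combjet1_clsA eb, combjet1_clsE ea eb]
  exact h1

end Pool.Agent.Lib.MP_a01f70_lc.QQ
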