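import Pool.Agent.Lib.MP_a01f70_lc.QQ.PreDefs

/-!
The places over the singular point.
-/

set_option linter.unusedSectionVars false

namespace Pool.Agent.Lib.MP_a01f70_lc.QQ
open Module Polynomial

variable {k K : Type} [Field k] [Field K] [Algebra k K]
  [CharP k 2] {R : RRData k K} {n ρ : ℕ} {U : Finset ℕ}

lemma geo2_pow_le {A : Type*} [CommRing A] (a b : A) (m : ℕ) :
    Ideal.span {a, b} ^ m ≤
      Ideal.span (Set.range fun i : Fin (m + 1) => a ^ (i : ℕ) * b ^ (m - i)) := by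
  induction m with
  | zero =>
    rw [pow_zero, Ideal.one_eq_top, top_le_iff, Ideal.eq_top_iff_one]
    exact Ideal.subset_span ⟨0, by simp⟩
  | succ m ih =>
    rw [pow_succ]
    refine (Ideal.mul_mono_left ih).trans ?_
    rw [Ideal.span_mul_span', Ideal.span_le]
    rintro _ ⟨_, ⟨i, rfl⟩, c, hc, rfl⟩
    refine Ideal.subset_span ?_
    rcases hc with rfl | rfl
    · exact ⟨i.succ, by simp only [Fin.val_succ, Nat.add_sub_add_right]; ring⟩
    · refine ⟨i.castSucc, ?_⟩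
      have := i.2
      simp only [Fin.val_castSucc]
      rw [show m + 1 - (i : ℕ) = m - i + 1 by omega]
      ring

variable (k) in
include k in
lemma geo2_two : (2 : K) = 0 := by
  have h : (2 : k) = 0 := by exact_mod_cast CharP.cast_eq_zero k 2
  rw [← map_ofNat (algebraMap k K) 2, h, map_zero]

lemma geo2_ne {v : Place k K} {f : K} (h : 0 < v.ord f) : f ≠ 0 := by
  rintro rfl
  simp at h

lemma geo2_ge {v : Place k K} {x y : K} (hx : 0 < v.ord (x - 1)) (hy : 0 < v.ord (y - 1)) {f : K}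
    (hf : f ∈ Algebra.adjoin k {x, y}) : v.Ge f 0 := by
  refine Place.ge_of_mem_adjoin ?_ hf
  rintro a (rfl | rfl)
  · simpa using (Place.Ge.of_le hx.le).add v.ge_one
  · simpa using (Place.Ge.of_le hy.le).add v.ge_one

namespace Pre
variable (P : Pre R n ρ U)

/-- Apply `Jet` in the ring `Algebra.adjoin k {x, y}`; an element of the fifth power of the ideal
spanned by `η = x - 1`, `ξ = y - 1` is a combination of the monomials of degree five
(`Ideal.span_insert`, `Ideal.sup_pow`-type lemmas, or induction on the exponent). -/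
theorem jet_eq (hJ : Jet n ρ U) : ∃ r : ℕ → K, (∀ i, r i ∈ Algebra.adjoin k {P.x, P.y}) ∧
    (P.x - 1) ^ 4 + (P.x - 1) ^ 3 * (P.y - 1)
      + ∑ i ∈ Finset.range 6, (P.x - 1) ^ i * (P.y - 1) ^ (5 - i) * r i = 0 := by
  set A := Algebra.adjoin k {P.x, P.y} with hA
  let x : A := ⟨P.x, Algebra.subset_adjoin (by simp)⟩
  let y : A := ⟨P.y, Algebra.subset_adjoin (by simp)⟩
  have h2 : (2 : A) = 0 := Subtype.ext (geo2_two k)
  obtain ⟨c, hc⟩ := Ideal.mem_span_range_iff_exists_fun.1 (geo2_pow_le _ _ 5 (hJ A h2 x y))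
  have h3 := congrArg A.val hc
  rw [map_sub, map_PP, map_sum] at h3
  simp only [map_mul, map_pow, map_sub, map_add, map_one, Subalgebra.coe_val, x, y, P.hP] at h3
  refine ⟨fun i => if h : i < 6 then c ⟨i, h⟩ else 0, fun i => ?_, ?_⟩
  · dsimp only
    split_ifs
    · exact Subtype.property _
    · exact zero_mem _
  · rw [Finset.sum_range]
    simp only [Fin.is_lt, dif_pos, Fin.eta]
    rw [Finset.sum_congr rfl fun i _ => mul_comm _ _, h3]
    ring

/-- otherwise `η ^ 4` is the term of strictly smallest order in `jet_eq` -/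
theorem ord_le (hn : Odd n) (hρ : Odd ρ) (hJ : Jet n ρ U) {v : Place k K}
    (hx : 0 < v.ord (P.x - 1)) (hy : 0 < v.ord (P.y - 1)) :
    v.ord (P.y - 1) ≤ v.ord (P.x - 1) := by
  by_contra hlt
  obtain ⟨r, hr, h⟩ := P.jet_eq hJ
  rw [add_assoc] at h
  refine (Place.ord_add_of_ge (v := v) (pow_ne_zero 4 (geo2_ne hx)) (Place.Ge.add ?_ ?_)).1 h
  · refine (((v.ge_ord _).pow 3).mul (v.ge_ord _)).mono ?_
    simp only [Place.ord_pow]
    omega
  · refine Place.Ge.sum fun i hi => ?_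
    refine ((((v.ge_ord _).pow i).mul ((v.ge_ord _).pow (5 - i))).mul
      (geo2_ge hx hy (hr i))).mono ?_
    simp only [Place.ord_pow]
    have := Finset.mem_range.1 hi
    interval_cases i <;> omega

/-- Let `z = η / ξ`. Dividing `jet_eq` by `ξ ^ 4` gives `z ^ 3 (z + 1) = ξ G` with `G` in the algebra
generated by `s = {ξ, z, z⁻¹}` (`x = 1 + z ξ`, `y = 1 + ξ`). At the places in question
`0 < ord (z + 1)` because `y - x = ξ (1 + z)` in characteristic two, so `ord z = 0`. Apply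
`place_eq_of_smooth` with `t = ξ`: `z = 1 + ξ G z⁻¹ ^ 3`, `z⁻¹ = 1 + ξ G z⁻¹ ^ 4`. -/
theorem simple_unique (hn : Odd n) (hρ : Odd ρ) (hJ : Jet n ρ U) {v w : Place k K}
    (hvx : 0 < v.ord (P.x - 1)) (hvy : 0 < v.ord (P.y - 1))
    (hv : v.ord (P.y - 1) < v.ord (P.y - P.x))
    (hwx : 0 < w.ord (P.x - 1)) (hwy : 0 < w.ord (P.y - 1))
    (hw : w.ord (P.y - 1) < w.ord (P.y - P.x)) : v.ord (P.y - 1) = 1 ∧ w = v := by
  obtain ⟨r, hr, h⟩ := P.jet_eq hJ
  have hξ : P.y - 1 ≠ 0 := geo2_ne hvy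
  have hη : P.x - 1 ≠ 0 := geo2_ne hvx
  have h2 : (2 : K) = 0 := geo2_two k
  obtain ⟨ξ, hξe⟩ : ∃ ξ, ξ = P.y - 1 := ⟨_, rfl⟩
  obtain ⟨z, hz⟩ : ∃ z, P.x - 1 = z * ξ := ⟨(P.x - 1) / ξ, by rw [hξe, div_mul_cancel₀ _ hξ]⟩
  have hyx : P.y - P.x = ξ * (1 - z) := by linear_combination -hξe - hz
  rw [← hξe] at hξ h hvy hwy hv hw ⊢
  have hz0 : z ≠ 0 := by
    rintro rfl
    exact hη (by rw [hz, zero_mul])
  set A := Algebra.adjoin k {ξ, z, z⁻¹} with hA
  have m1 : ξ ∈ A := Algebra.subset_adjoin (by simp)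
  have m2 : z ∈ A := Algebra.subset_adjoin (by simp)
  have m3 : z⁻¹ ∈ A := Algebra.subset_adjoin (by simp)
  have hle : Algebra.adjoin k {P.x, P.y} ≤ A := by
    refine Algebra.adjoin_le ?_
    rintro a (rfl | rfl)
    · rw [show P.x = z * ξ + 1 by linear_combination hz]
      exact add_mem (mul_mem m2 m1) (one_mem _)
    · rw [show P.y = ξ + 1 by linear_combination -hξe]
      exact add_mem m1 (one_mem _)
  set G := ∑ i ∈ Finset.range 6, z ^ i * r i with hG
  have m4 : G ∈ A := sum_mem fun i _ => mul_mem (pow_mem m2 i) (hle (hr i))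
  have h3 : z ^ 4 + z ^ 3 + ξ * G = 0 := by
    refine mul_left_cancel₀ (pow_ne_zero 4 hξ) ?_
    rw [hz] at h
    simp only [hG, Finset.sum_range_succ, Finset.sum_range_zero] at h ⊢
    linear_combination h
  have hi : z * z⁻¹ = 1 := mul_inv_cancel₀ hz0
  have hge : ∀ u : Place k K, 0 < u.ord ξ → u.ord ξ < u.ord (P.y - P.x) →
      ∀ g ∈ ({ξ, z, z⁻¹} : Set K), u.Ge g 0 := by
    intro u h4 h5
    have h6 : ξ * (1 - z) ≠ 0 := hyx ▸ geo2_ne (h4.trans h5)
    rw [hyx, u.ord_mul hξ (right_ne_zero_of_mul h6)] at h5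
    have h7 := (Place.ord_add_of_ge (v := u) one_ne_zero (g := -(1 - z))
      (Place.Ge.neg (Place.Ge.of_le (by rw [Place.ord_one]; omega)))).2
    rw [show 1 + -(1 - z) = z by ring, Place.ord_one] at h7
    rintro g (rfl | rfl | rfl)
    · exact Place.Ge.of_le h4.le
    · exact Place.Ge.of_le h7.ge
    · exact Place.Ge.of_le (by rw [Place.ord_inv, h7, neg_zero])
  refine place_eq_of_smooth (s := {ξ, z, z⁻¹}) ?_ ?_ (hge v hvy hv) hvy (hge w hwy hw) hwy
  · have e1 : z = 1 + ξ * (G * z⁻¹ ^ 3) := by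
      refine mul_left_cancel₀ (pow_ne_zero 3 hz0) ?_
      linear_combination h3 - (z ^ 3 + ξ * G) * h2
        - ξ * G * ((z * z⁻¹) ^ 2 + z * z⁻¹ + 1) * hi
    have e2 : z⁻¹ = 1 + ξ * (G * z⁻¹ ^ 4) := by
      linear_combination z⁻¹ * e1 - hi + (z⁻¹ - 1) * h2
    rintro g (rfl | rfl | rfl)
    · exact ⟨0, 1, one_mem _, by simp⟩
    · exact ⟨1, _, mul_mem m4 (pow_mem m3 3), by rw [map_one]; exact e1⟩
    · exact ⟨1, _, mul_mem m4 (pow_mem m3 4), by rw [map_one]; exact e2⟩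
  · intro f
    obtain ⟨a, ha, b, hb, h4⟩ := P.gen f
    exact ⟨a, hle ha, b, hle hb, h4⟩

end Pre

end Pool.Agent.Lib.MP_a01f70_lc.QQ
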