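import Pool.Agent.Lib.MP_a01f70_lc.QQ.RRCons

/-!
The geometric data: a curve with an involution, four marked places and a divisor of degree four.
-/

set_option linter.unusedSectionVars false

namespace Pool.Agent.Lib.MP_a01f70_lc.QQ
open Module Polynomial

variable {k K : Type*} [Field k] [Field K] [Algebra k K]

/-- the geometric data used by the main argument -/
structure Geo (R : RRData k K) (n h : ℕ) where
  x : K
  y : K
  φ : Aut k K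
  ι : Aut k K
  p1 : Place k K
  p2 : Place k K
  p3 : Place k K
  p4 : Place k K
  q : Place k K
  Q : Div k K
  x0 : x ≠ 0
  y0 : y ≠ 0
  y1 : y - 1 ≠ 0
  xnc : ∀ c : k, x ≠ algebraMap k K c
  φ0 : ∀ c, φ.σ₀ c = c ^ 2
  ι0 : ∀ c, ι.σ₀ c = c
  ιι : ι * ι = 1
  φι : φ * ι = ι * φ
  φx : φ.σ x = x
  φy : φ.σ y = y
  ιx : ι.σ x = x⁻¹
  ιy : ι.σ y = y⁻¹
  φp1 : φ • p1 = p1
  φp2 : φ • p2 = p2
  φp3 : φ • p3 = p3
  φp4 : φ • p4 = p4
  φq : φ • q = q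
  ιp1 : ι • p1 = p3
  ιp2 : ι • p2 = p4
  ιq : ι • q = q
  p24 : p2 ≠ p4
  dvx : dv x = Finsupp.single p2 (n : ℤ) - Finsupp.single p4 (n : ℤ)
  dvy : dv y = Finsupp.single p1 1 - Finsupp.single p3 1 - Finsupp.single p2 (2 * (h : ℤ) - 1)
    + Finsupp.single p4 (2 * (h : ℤ) - 1)
  Q0 : 0 ≤ Q
  degQ : deg Q = 4
  Q_q : Q q = 1
  φQ : φ.push Q = Q
  ιQ : ι.push Q = Q
  Qy : ∀ v ∈ Q.support, v.ord (y - 1) = Q v
  Qx : ∀ v ∈ Q.support, v.Ge (x - 1) (Q v)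
  Qp1 : Q p1 = 0
  Qp2 : Q p2 = 0
  Qp3 : Q p3 = 0
  Qp4 : Q p4 = 0
  fix : ∀ v : Place k K, ι • v = v → v ∈ Q.support
  Kev : ∀ v ∈ Q.support, Even (R.Kc v)
  φK : φ.push R.Kc = R.Kc
  ιK : ι.push (R.Kc - dv x) = R.Kc - dv x

namespace Geo
variable {R : RRData k K} {n h : ℕ} (G : Geo R n h)

/-- the support of `Q` -/
def S : Set (Place k K) := G.Q.support

/-- the divisor of the differential `dx / (x (y - 1))` -/
noncomputable def K0 : Div k K := R.Kc + dv (G.x * (G.y - 1))⁻¹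

/-- the invariant divisor of degree `2 g` -/
noncomputable def Δ : Div k K := G.K0 + G.Q - Finsupp.single G.p3 1 - Finsupp.single G.p2 (h : ℤ)
  + Finsupp.single G.p4 ((h : ℤ) - 1)

/-- a divisor whose class is a square root of `Δ` and is moved by Frobenius by `v₀ (p2 - p4)` -/
structure Twist (v₀ : ℕ) (D : Div k K) (ψ : K) : Prop where
  ψ0 : ψ ≠ 0
  ψι : ψ * G.ι.σ ψ = 1
  half : D + G.ι.push D = G.Δ
  frob : G.φ.push D = D + Finsupp.single G.p2 (v₀ : ℤ) - Finsupp.single G.p4 (v₀ : ℤ) + dv ψ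

/-- the twisted Frobenius -/
noncomputable def Θ (ψ : K) : K →+ K where
  toFun f := ψ * G.φ.σ f
  map_zero' := by simp
  map_add' f g := by rw [map_add, mul_add]

lemma Θ_apply (ψ f : K) : G.Θ ψ f = ψ * G.φ.σ f := rfl

/-- the sum of the residues along `Q` -/
structure IsMu (μ : K →ₗ[k] k) : Prop where
  loc : ∀ f ∈ LS G.S G.K0, μ f = 0
  glob : ∀ f ∈ L (G.K0 + G.Q), μ f = 0
  frob : ∀ f ∈ LS G.S (G.K0 + G.Q), μ (G.φ.σ f) = μ f ^ 2
  inv : ∀ f ∈ LS G.S (G.K0 + G.Q), μ (G.ι.σ f) = μ f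
  ne : ∀ f ∈ LS G.S (G.K0 + Finsupp.single G.q 1), f ∉ LS G.S G.K0 → μ f ≠ 0

end Geo

end Pool.Agent.Lib.MP_a01f70_lc.QQ
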