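import Pool.Agent.Lib.MP_a01f70_lc.QQ.Geo1
import Pool.Agent.Lib.MP_a01f70_lc.QQ.Geo2
import Pool.Agent.Lib.MP_a01f70_lc.QQ.GeoDefs

/-!
From the raw data to the geometric data.
-/

set_option linter.unusedSectionVars false

namespace Pool.Agent.Lib.MP_a01f70_lc.QQ
open Module Polynomial

variable {k K : Type} [Field k] [Field K] [Algebra k K]
  [CharP k 2] {R : RRData k K} {n ρ : ℕ} {U : Finset ℕ}

lemma geomain_ord_sub_one {v : Place k K} {f : K} (h : 0 < v.ord f) : v.ord (f - 1) = 0 := by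
  have := (Place.ord_add_of_ge (v := v) (f := -1) (g := f) (by simp) (Or.inr (by simp; omega))).2
  rwa [neg_add_eq_sub, v.ord_neg, v.ord_one] at this

lemma geomain_ord_sub_neg {v : Place k K} {f g : K} (h : v.ord f < 0) (hg : v.Ge g 0) :
    v.ord (f - g) = v.ord f := by
  have hf : f ≠ 0 := by
    rintro rfl
    simp at h
  have := (Place.ord_add_of_ge (v := v) hf (hg.neg.mono (by omega : v.ord f + 1 ≤ 0))).2
  rwa [← sub_eq_add_neg] at this

lemma geomain_ord_eq_zero {v : Place k K} {f : K} (h : 0 < v.ord (f - 1)) : v.ord f = 0 := by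
  have := (Place.ord_add_of_ge (v := v) (f := 1) (g := f - 1) (by simp) (Or.inr (by simp; omega))).2
  rwa [add_sub_cancel, v.ord_one] at this

lemma geomain_ord_inv_sub_one (v : Place k K) {f : K} (h0 : f ≠ 0) (h1 : f - 1 ≠ 0) :
    v.ord (f⁻¹ - 1) = v.ord (f - 1) - v.ord f := by
  rw [show f⁻¹ - 1 = -((f - 1) / f) by field_simp; ring, v.ord_neg, v.ord_div h1 h0]

/-- Put `p4 = p`, `p2 = ι • p`, `p3 = ι • p1`, and let `Q` be `dv (y - 1)` restricted
(`Finsupp.filter`) to `Σ = {v | 0 < ord (x - 1) ∧ 0 < ord (y - 1)}`. Let `S` be the finite set of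
zeros of `x - 1`. At `v ∈ S` outside `Σ`: either `v = p3` (the only pole of `y` in `S`), where
`y - 1` and `y - x` have order `-1`, or both have order `0`. So `N1` gives `deg Q = 4` and `N2`
gives `5 ≤ ∑ v ∈ Σ, ord (y - x)`, hence a place `q ∈ Σ` with `ord (y - 1) < ord (y - x)`. By
`simple_unique` it has `ord (y - 1) = 1` and is fixed by `φ` and `ι`
(`ι (y - x) = (x - y) / (x y)`). The places `p`, `p1` are fixed by `φ` by uniqueness. -/
theorem Pre.exists_geo {h : ℕ} (P : Pre R n ρ U) (hn : Odd n) (hh : ρ + 1 = 2 * h)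
    (hc : Nat.Coprime ρ n) (hU : Adm n U) (hJ : Jet n ρ U) : Nonempty (Geo R n h) := by
  classical
  have hρ : Odd ρ := Nat.odd_iff.mpr (by omega)
  have hn0 := hn.pos
  have hρ0 := hρ.pos
  have px := P.px
  have py := P.py
  obtain ⟨p1, h1x, h1y, h1u, hdy⟩ := P.exists_p1 hn hρ hc hU
  have xnc : ∀ c : k, P.x ≠ algebraMap k K c := fun c hc => by
    rw [hc, P.p.ord_const] at px
    omega
  have ync : ∀ c : k, P.y ≠ algebraMap k K c := fun c hc => by
    rw [hc, P.p.ord_const] at py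
    omega
  have x0 : P.x ≠ 0 := by simpa using xnc 0
  have y0 : P.y ≠ 0 := by simpa using ync 0
  have x1 : P.x - 1 ≠ 0 := by simpa [sub_eq_zero] using xnc 1
  have y1 : P.y - 1 ≠ 0 := by simpa [sub_eq_zero] using ync 1
  have yx : P.y - P.x ≠ 0 := fun h => by
    rw [sub_eq_zero.mp h] at py
    omega
  have hιinv : P.ι⁻¹ = P.ι := inv_eq_of_mul_eq_one_right P.ιι
  have ιι : ∀ v : Place k K, P.ι • P.ι • v = v := fun v => by rw [← mul_smul, P.ιι, one_smul]
  have ιord : ∀ (v : Place k K) f, (P.ι • v).ord f = v.ord (P.ι.σ f) := fun v f => by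
    rw [Aut.ord_σ, hιinv]
  have φord : ∀ (v : Place k K) f, P.φ.σ f = f → (P.φ • v).ord f = v.ord f := fun v f hf => by
    conv_lhs => rw [← hf, Aut.smul_ord_σ]
  have φx1 : P.φ.σ (P.x - 1) = P.x - 1 := by rw [map_sub, P.φx, map_one]
  have φy1 : P.φ.σ (P.y - 1) = P.y - 1 := by rw [map_sub, P.φy, map_one]
  have φyx : P.φ.σ (P.y - P.x) = P.y - P.x := by rw [map_sub, P.φx, P.φy]
  have ιx1 : ∀ v : Place k K, (P.ι • v).ord (P.x - 1) = v.ord (P.x - 1) - v.ord P.x := fun v => by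
    rw [ιord, map_sub, P.ιx, map_one, geomain_ord_inv_sub_one v x0 x1]
  have ιy1 : ∀ v : Place k K, (P.ι • v).ord (P.y - 1) = v.ord (P.y - 1) - v.ord P.y := fun v => by
    rw [ιord, map_sub, P.ιy, map_one, geomain_ord_inv_sub_one v y0 y1]
  have ιyx : ∀ v : Place k K,
      (P.ι • v).ord (P.y - P.x) = v.ord (P.y - P.x) - v.ord P.x - v.ord P.y := fun v => by
    rw [ιord, map_sub, P.ιy, P.ιx, show P.y⁻¹ - P.x⁻¹ = -((P.y - P.x) / P.x / P.y) by
      field_simp; ring, v.ord_neg, v.ord_div (div_ne_zero yx x0) y0, v.ord_div yx x0]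
  have ιy : ∀ v : Place k K, (P.ι • v).ord P.y = -v.ord P.y := fun v => by
    rw [ιord, P.ιy, v.ord_inv]
  have ιx : ∀ v : Place k K, (P.ι • v).ord P.x = -v.ord P.x := fun v => by
    rw [ιord, P.ιx, v.ord_inv]
  -- the places over the singular point
  let pr : Place k K → Prop := fun v => 0 < v.ord (P.x - 1) ∧ 0 < v.ord (P.y - 1)
  let Q : Div k K := (dv (P.y - 1)).filter pr
  have Qa : ∀ v, Q v = if pr v then v.ord (P.y - 1) else 0 := fun v => by
    simp only [Q, Finsupp.filter_apply, dv_apply R.fin]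
  have Qs : ∀ v, v ∈ Q.support ↔ pr v := fun v => by
    rw [Finsupp.mem_support_iff, Qa]
    split_ifs with hv
    · exact ⟨fun _ => hv, fun _ => hv.2.ne'⟩
    · simp [hv]
  have prι : ∀ v, pr v → pr (P.ι • v) := fun v hv => by
    refine ⟨?_, ?_⟩
    · rw [ιx1, geomain_ord_eq_zero hv.1]
      simpa using hv.1
    · rw [ιy1, geomain_ord_eq_zero hv.2]
      simpa using hv.2
  have prφ : ∀ v, pr (P.φ • v) ↔ pr v := fun v => by
    simp only [pr, φord v _ φx1, φord v _ φy1]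
  let S : Finset (Place k K) := (dv (P.x - 1) : Div k K).support.filter fun v => 0 < v.ord (P.x - 1)
  have hS : ∀ v, v ∈ S ↔ 0 < v.ord (P.x - 1) := fun v => by
    simp only [S, Finset.mem_filter, Finsupp.mem_support_iff, dv_apply R.fin]
    exact ⟨fun h => h.2, fun h => ⟨h.ne', h⟩⟩
  have h3x : 0 < (P.ι • p1).ord (P.x - 1) := by
    rw [ιx1, geomain_ord_eq_zero h1x]
    simpa using h1x
  have h3y : (P.ι • p1).ord P.y = -1 := by rw [ιy, h1y]
  have h3y1 : (P.ι • p1).ord (P.y - 1) = -1 := by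
    rw [geomain_ord_sub_neg (by omega) (P.ι • p1).ge_one, h3y]
  have h3yx : (P.ι • p1).ord (P.y - P.x) = -1 := by
    rw [geomain_ord_sub_neg (by omega) (Or.inr (geomain_ord_eq_zero h3x).ge), h3y]
  have n3 : ¬ pr (P.ι • p1) := fun h => by
    have := h.2
    omega
  have other : ∀ v ∈ S, ¬ pr v → v ≠ P.ι • p1 → v.ord (P.y - 1) = 0 ∧ v.ord (P.y - P.x) = 0 := by
    intro v hv hpr h3
    have a1 := (hS v).mp hv
    have a2 := geomain_ord_eq_zero a1
    have a3 : 0 ≤ v.ord P.y := by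
      by_contra a4
      rcases h1u (P.ι • v) (by rw [ιy]; omega) with a5 | a5
      · exact h3 (by rw [← a5, ιι])
      · have := ιx v
        rw [a5] at this
        omega
    have a4 : v.ord (P.y - 1) = 0 := by
      have a5 := ((Place.Ge.of_le a3).sub v.ge_one).le y1
      have a6 : ¬ 0 < v.ord (P.y - 1) := fun h => hpr ⟨a1, h⟩
      omega
    refine ⟨a4, ?_⟩
    have := (Place.ord_add_of_ge (v := v) (g := -(P.x - 1)) y1 (Place.Ge.neg (Or.inr (by omega)))).2
    rwa [show P.y - 1 + -(P.x - 1) = P.y - P.x by ring, a4] at this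
  have split : ∀ f : K, (P.ι • p1).ord f = -1 →
      (∀ v ∈ S, ¬ pr v → v ≠ P.ι • p1 → v.ord f = 0) →
      ∑ v ∈ S, v.ord f = ∑ v ∈ Q.support, v.ord f - 1 := by
    intro f hf hz
    have e1 : Q.support = S.filter pr := by
      ext v
      rw [Qs, Finset.mem_filter, hS]
      exact ⟨fun h => ⟨h.1, h⟩, fun h => h.2⟩
    rw [← Finset.sum_filter_add_sum_filter_not S pr, e1,
      Finset.sum_eq_single_of_mem (s := S.filter fun v => ¬ pr v) (P.ι • p1)
        (Finset.mem_filter.mpr ⟨(hS _).mpr h3x, n3⟩) fun v hv h3 =>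
        hz v (Finset.mem_filter.mp hv).1 (Finset.mem_filter.mp hv).2 h3, hf]
    rfl
  have N1 := P.N1 S hS
  have N2 := P.N2 S hS
  rw [split _ h3y1 fun v a b c => (other v a b c).1] at N1
  rw [split _ h3yx fun v a b c => (other v a b c).2] at N2
  have Qy : ∀ v ∈ Q.support, v.ord (P.y - 1) = Q v := fun v hv => by
    rw [Qa, if_pos ((Qs v).mp hv)]
  obtain ⟨q, hq, hq1⟩ := Finset.exists_lt_of_sum_lt (s := Q.support)
    (f := fun v => v.ord (P.y - 1)) (g := fun v => v.ord (P.y - P.x)) (by omega)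
  have hq2 := (Qs q).mp hq
  have uq : ∀ w, pr w → w.ord (P.y - 1) < w.ord (P.y - P.x) → q.ord (P.y - 1) = 1 ∧ w = q :=
    fun w hw hw1 => P.simple_unique hn hρ hJ hq2.1 hq2.2 hq1 hw.1 hw.2 hw1
  have φp : P.φ • P.p = P.p := P.uniq _ (by rw [φord _ _ P.φx]; omega)
  have φp1 : P.φ • p1 = p1 := by
    rcases h1u (P.φ • p1) (by rw [φord _ _ P.φy]; omega) with a | a
    · exact a
    · have := φord p1 _ P.φx
      rw [a, geomain_ord_eq_zero h1x] at this
      omega
  have φι : ∀ v : Place k K, P.φ • v = v → P.φ • P.ι • v = P.ι • v := fun v hv => by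
    rw [← mul_smul, P.φι, mul_smul, hv]
  refine ⟨{
    x := P.x, y := P.y, φ := P.φ, ι := P.ι, p1 := p1, p2 := P.ι • P.p, p3 := P.ι • p1, p4 := P.p
    q := q, Q := Q, x0 := x0, y0 := y0, y1 := y1, xnc := xnc, φ0 := P.φ0, ι0 := P.ι0
    ιι := P.ιι, φι := P.φι, φx := P.φx, φy := P.φy, ιx := P.ιx, ιy := P.ιy
    φp1 := φp1, φp2 := φι _ φp, φp3 := φι _ φp1, φp4 := φp
    φq := (uq _ ((prφ q).mpr hq2) (by rw [φord _ _ φy1, φord _ _ φyx]; exact hq1)).2
    ιp1 := rfl, ιp2 := ιι _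
    ιq := (uq _ (prι q hq2) (by
      rw [ιy1, ιyx, geomain_ord_eq_zero hq2.1, geomain_ord_eq_zero hq2.2]
      simpa using hq1)).2
    p24 := fun h => by
      have := ιx P.p
      rw [h] at this
      omega
    dvx := P.dvx hn
    dvy := by rw [hdy, show (2 * (h : ℤ) - 1) = ρ by omega]
    Q0 := fun v => ?_
    degQ := ?_
    Q_q := by rw [← Qy q hq, (uq q hq2 hq1).1]
    φQ := ?_
    ιQ := ?_
    Qy := Qy
    Qx := fun v hv => Or.inr (by
      rw [← Qy v hv]
      exact P.ord_le hn hρ hJ ((Qs v).mp hv).1 ((Qs v).mp hv).2)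
    Qp1 := ?_
    Qp2 := ?_
    Qp3 := by rw [Qa, if_neg n3]
    Qp4 := ?_
    fix := fun v hv => (Qs v).mpr (P.fixed_ι hn hρ hv)
    Kev := fun v hv => P.Kev v (geomain_ord_eq_zero ((Qs v).mp hv).1).ge
    φK := P.φK, ιK := P.ιK }⟩
  · rw [Qa]
    split_ifs with hv
    · exact hv.2.le
    · exact le_rfl
  · rw [deg_eq_sum Q le_rfl, ← Finset.sum_congr rfl Qy]
    omega
  · ext v
    obtain ⟨w, rfl⟩ := MulAction.surjective P.φ v
    simp only [Aut.push_apply_smul, Qa, prφ, φord w _ φy1]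
  · ext v
    obtain ⟨w, rfl⟩ := MulAction.surjective P.ι v
    rw [Aut.push_apply_smul, Qa, Qa]
    by_cases hw : pr w
    · rw [if_pos hw, if_pos (prι w hw), ιy1, geomain_ord_eq_zero hw.2, sub_zero]
    · rw [if_neg hw, if_neg fun h => hw (ιι w ▸ prι _ h)]
  · rw [Qa, if_neg fun h => ?_]
    have := geomain_ord_eq_zero h.2
    omega
  · rw [Qa, if_neg fun h => ?_]
    have := geomain_ord_eq_zero h.1
    rw [ιx] at this
    omega
  · rw [Qa, if_neg fun h => ?_]
    have := geomain_ord_eq_zero h.1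
    omega

end Pool.Agent.Lib.MP_a01f70_lc.QQ
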