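import Pool.Agent.Lib.MP_a01f70_lc.QQ.CDefs

/-!
From binomial coefficients to the jet.
-/

set_option linter.unusedSectionVars false

namespace Pool.Agent.Lib.MP_a01f70_lc.QQ
open Module Polynomial



theorem jet_pow {B : Type} [CommRing B] {η : B} (h : η ^ 5 = 0) (j : ℕ) :
    (1 + η) ^ j = ∑ a ∈ Finset.range 5, (j.choose a : B) * η ^ a := by
  induction j with
  | zero => simp [Finset.sum_range_succ]
  | succ j ih =>
    rw [pow_succ, ih]
    simp only [Finset.sum_range_succ, Finset.sum_range_zero, Nat.choose_succ_succ,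
      Nat.choose_zero_right, Nat.cast_add, Nat.cast_one]
    linear_combination (j.choose 4 : B) * h

theorem jet_mon {B : Type} [CommRing B] (f : ZMod 2 →+* B) {η ξ : B}
    (hz : ∀ a b : ℕ, 5 ≤ a + b → η ^ a * ξ ^ b = 0) (j u : ℕ) :
    (1 + ξ) ^ u * (1 + η) ^ j = ∑ a ∈ Finset.range 5, ∑ b ∈ Finset.range 5,
      f (mon a b j u) * (η ^ a * ξ ^ b) := by
  have h1 : η ^ 5 = 0 := by simpa using hz 5 0 le_rfl
  have h2 : ξ ^ 5 = 0 := by simpa using hz 0 5 le_rfl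
  rw [mul_comm, jet_pow h1, jet_pow h2, Finset.sum_mul_sum]
  refine Finset.sum_congr rfl fun a _ => Finset.sum_congr rfl fun b _ => ?_
  rw [mon, map_mul, map_natCast, map_natCast]
  ring

theorem jet_ring {n ρ : ℕ} {U : Finset ℕ} (h : JetNum n ρ U) {B : Type} [CommRing B]
    (h2 : ((2 : ℕ) : B) = 0) {η ξ : B} (hz : ∀ a b : ℕ, 5 ≤ a + b → η ^ a * ξ ^ b = 0) :
    PP n ρ U (1 + η) (1 + ξ) = η ^ 4 + η ^ 3 * ξ := by
  let f : ZMod 2 →+* B := ZMod.castHom (ringChar.dvd h2) B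
  have e : PP n ρ U (1 + η) (1 + ξ) = (1 + ξ) ^ 0 * (1 + η) ^ 0 + (1 + ξ) ^ 0 * (1 + η) ^ 1 +
      ∑ u ∈ U, (1 + ξ) ^ u * (1 + η) ^ (ρ * u / n + 1) + (1 + ξ) ^ n * (1 + η) ^ ρ +
      (1 + ξ) ^ n * (1 + η) ^ (ρ + 1) := by
    rw [PP]
    ring
  have e2 : PP n ρ U (1 + η) (1 + ξ) = ∑ a ∈ Finset.range 5, ∑ b ∈ Finset.range 5,
      f (mon a b 0 0 + mon a b 1 0 + ∑ u ∈ U, mon a b (ρ * u / n + 1) u + mon a b ρ n +
        mon a b (ρ + 1) n) * (η ^ a * ξ ^ b) := by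
    rw [e]
    simp only [jet_mon f hz, map_add, map_sum, add_mul, Finset.sum_add_distrib, Finset.sum_mul]
    congr 3
    rw [Finset.sum_comm]
    exact Finset.sum_congr rfl fun a _ => Finset.sum_comm
  have e3 : ∀ a b : ℕ, f (mon a b 0 0 + mon a b 1 0 + ∑ u ∈ U, mon a b (ρ * u / n + 1) u +
      mon a b ρ n + mon a b (ρ + 1) n) * (η ^ a * ξ ^ b) =
      if (a = 4 ∧ b = 0) ∨ (a = 3 ∧ b = 1) then η ^ a * ξ ^ b else 0 := by
    intro a b
    rcases le_or_gt (a + b) 4 with hab | hab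
    · rw [h a b hab]
      split_ifs <;> simp
    · rw [hz a b hab, mul_zero, ite_self]
  rw [e2]
  simp only [e3]
  simp [Finset.sum_range_succ, add_comm]

/-- Let `I = span {η, ξ}`, `η = x - 1`, `ξ = y - 1`. By the binomial theorem
`y ^ u * x ^ j ≡ ∑ a + b ≤ 4, C(j, a) C(u, b) η ^ a ξ ^ b` modulo `I ^ 5` (work in `A ⧸ I ^ 5`,
where `η ^ a ξ ^ b = 0` for `a + b ≥ 5`), and natural numbers are read modulo `2` in `A`
(`ZMod.castHom` or `ZMod.lift`, or `ZMod.cast`). -/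
theorem jet_of_jetNum {n ρ : ℕ} {U : Finset ℕ} (h : JetNum n ρ U) : Jet n ρ U := by
  intro A _ h2 x y
  rw [← Ideal.Quotient.eq_zero_iff_mem]
  set I : Ideal A := Ideal.span {x - 1, y - 1} with hI
  set π := Ideal.Quotient.mk (I ^ 5) with hπ
  have hz : ∀ a b : ℕ, 5 ≤ a + b → π (x - 1) ^ a * π (y - 1) ^ b = 0 := by
    intro a b hab
    rw [← map_pow, ← map_pow, ← map_mul, Ideal.Quotient.eq_zero_iff_mem]
    refine Ideal.pow_le_pow_right hab ?_
    rw [pow_add]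
    exact Ideal.mul_mem_mul (Ideal.pow_mem_pow (Ideal.subset_span (by simp)) a)
      (Ideal.pow_mem_pow (Ideal.subset_span (by simp)) b)
  have h2' : ((2 : ℕ) : A ⧸ I ^ 5) = 0 := by
    rw [← map_natCast π, Nat.cast_ofNat, h2, map_zero]
  have key := jet_ring h h2' hz
  have ex : 1 + π (x - 1) = π x := by simp
  have ey : 1 + π (y - 1) = π y := by simp
  rw [ex, ey] at key
  rw [map_sub, map_PP, key, map_add, map_mul, map_pow, map_pow, sub_self]

end Pool.Agent.Lib.MP_a01f70_lc.QQ
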