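import Pool.Agent.Lib.MP_a01f70_lc.QQ.Twist2b

/-!
The four field elements.
-/

set_option linter.unusedSectionVars false

namespace Pool.Agent.Lib.MP_a01f70_lc.QQ
open Module Polynomial

variable {k K : Type*} [Field k] [Field K] [Algebra k K]
  {R : RRData k K} {n h : ℕ}

namespace Geo
variable {G : Geo R n h} {v₀ : ℕ} {D : Div k K} {ψ : K} {μ : K →ₗ[k] k} {s : K}

theorem main [IsAlgClosed k] [CharP k 2] (G : Geo R n h)
    (halg : ∀ c : k, ∃ m, 0 < m ∧ c ^ 2 ^ m = c) (hn : 0 < n) {v₀ a b : ℕ} (hv : Nat.Coprime v₀ n)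
    (ha : (n : ℤ) ∣ h - a * v₀) (hb : (n : ℤ) ∣ h - 1 - b * v₀) :
    ∃ z : Fin 4 → k, (∀ t, z t ^ 2 ^ n = z t) ∧ ∑ t, z t ^ (2 ^ a + 1) = 0 ∧
      ∑ t, z t ^ (2 ^ b + 1) = 0 ∧ ∑ t, z t ≠ 0 := by
  obtain ⟨D, ψ, T⟩ := G.exists_twist halg v₀
  obtain ⟨μ, hμ⟩ := G.exists_mu
  obtain ⟨s, hs, h0, hfix⟩ := T.exists_section hn
  obtain ⟨z, hz, hG⟩ := gram_four hn (G.gram ψ μ s) (gram_symm T hμ hs) (gram_per T hμ hs hfix)
    (gram_frob T hμ hs) (gram_ne T hμ hn hv hs h0) (gram_rank T hμ hs)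
  refine ⟨z, hz, ?_, ?_, fun h => gram_ne T hμ hn hv hs h0 ?_⟩
  · rw [← gram_a T hμ hs ha, hG, pow_zero, add_comm]
  · rw [← gram_b T hμ hs hb, hG, pow_zero, add_comm]
  · rw [hG, pow_zero, one_add_one_eq_two, ← CharTwo.sum_sq, h, zero_pow two_ne_zero]

end Geo

end Pool.Agent.Lib.MP_a01f70_lc.QQ
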