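import Pool.Agent.Lib.MP_a01f70_lc.QQ.PreMain
import Pool.Agent.Lib.MP_a01f70_lc.QQ.GeoMain
import Pool.Agent.Lib.MP_a01f70_lc.QQ.Twist2
import Pool.Agent.Lib.MP_a01f70_lc.QQ.Jet
import Pool.Agent.Lib.MP_a01f70_lc.QQ.CombJet
import Pool.Agent.Lib.MP_a01f70_lc.QQ.Comb

/-!
Four field elements with two vanishing quadratic power sums.
-/

set_option linter.unusedSectionVars false

namespace Pool.Agent.Lib.MP_a01f70_lc.QQ
open Module Polynomial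

variable {k : Type} [Field k] [IsAlgClosed k] [CharP k 2]

theorem core_good (halg : ∀ c : k, ∃ m, 0 < m ∧ c ^ 2 ^ m = c) {n ρ h v₀ a b : ℕ} (hn : Odd n)
    (hh : ρ + 1 = 2 * h) (hc : Nat.Coprime ρ n) (hG : Good n ρ (clsA n)) (hv : Nat.Coprime v₀ n)
    (ha : (n : ℤ) ∣ h - a * v₀) (hb : (n : ℤ) ∣ h - 1 - b * v₀) :
    ∃ z : Fin 4 → k, (∀ t, z t ^ 2 ^ n = z t) ∧ ∑ t, z t ^ (2 ^ a + 1) = 0 ∧
      ∑ t, z t ^ (2 ^ b + 1) = 0 ∧ ∑ t, z t ≠ 0 := by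
  have hρ : Odd ρ := Nat.odd_iff.mpr (by omega)
  obtain ⟨U, hU, hJ⟩ := jetNum_of_good hn hρ hG
  have := Fact.mk (irreducible_Pm (k := k) hn hc hU)
  obtain ⟨R, ⟨P⟩⟩ := exists_pre (k := k) hn hρ hc hU (jet_of_jetNum hJ)
  obtain ⟨G⟩ := P.exists_geo hn hh hc hU (jet_of_jetNum hJ)
  exact G.main halg hn.pos hv ha hb

/-- Choose `v₀ : ℕ` with `v₀ (a - b) ≡ 1` and `h ≥ 1` with `h ≡ a v₀`, `ρ = 2 h - 1`; then
`ρ (a - b) ≡ a + b`, so `ρ` is coprime to `n`. -/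
theorem exists_param {n : ℕ} (hn : Odd n) {a b : ℤ} (h1 : IsCoprime (a - b) n)
    (h2 : IsCoprime (a + b) n) : ∃ ρ h v₀ : ℕ, ρ + 1 = 2 * h ∧ Nat.Coprime ρ n ∧
      Nat.Coprime v₀ n ∧ (n : ℤ) ∣ h - a * v₀ ∧ (n : ℤ) ∣ h - 1 - b * v₀ ∧
      (n : ℤ) ∣ ρ * (a - b) - (a + b) := by
  obtain ⟨u, w, huw⟩ := h1
  have hn0 : (0 : ℤ) < n := by exact_mod_cast hn.pos
  obtain ⟨v₀, hv₀⟩ : ∃ v₀ : ℕ, (v₀ : ℤ) = u % n :=
    ⟨(u % n).toNat, Int.toNat_of_nonneg (Int.emod_nonneg _ hn0.ne')⟩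
  obtain ⟨h', hh'⟩ : ∃ h' : ℕ, (h' : ℤ) = (a * v₀) % n :=
    ⟨((a * v₀) % n).toNat, Int.toNat_of_nonneg (Int.emod_nonneg _ hn0.ne')⟩
  have hpos := hn.pos
  obtain ⟨ρ, hρ⟩ : ∃ ρ : ℕ, ρ + 1 = 2 * (h' + n) := ⟨2 * (h' + n) - 1, by omega⟩
  have hρ' : (ρ : ℤ) + 1 = 2 * (h' + n) := by exact_mod_cast hρ
  have e1 := Int.emod_add_mul_ediv u n
  have e2 := Int.emod_add_mul_ediv (a * v₀) n
  rw [← hv₀] at e1
  rw [← hh'] at e2
  obtain ⟨q, hq⟩ : ∃ q, q = u / n := ⟨_, rfl⟩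
  obtain ⟨q', hq'⟩ : ∃ q', q' = (a * v₀) / n := ⟨_, rfl⟩
  rw [← hq] at e1
  rw [← hq'] at e2
  have d0 : (v₀ : ℤ) * (a - b) - 1 = n * (-w - q * (a - b)) := by
    linear_combination (a - b) * e1 + huw
  have d1 : ((h' + n : ℕ) : ℤ) - a * v₀ = n * (1 - q') := by
    push_cast
    linear_combination e2
  have d2 : ((h' + n : ℕ) : ℤ) - 1 - b * v₀ = n * (1 - q' + (-w - q * (a - b))) := by
    linear_combination d1 + d0
  have d3 : (ρ : ℤ) = (a + b) * v₀ + n * ((1 - q') + (1 - q' + (-w - q * (a - b)))) := by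
    push_cast at d1 d2
    linear_combination hρ' + d1 + d2
  have cv : IsCoprime (v₀ : ℤ) n := ⟨a - b, -(-w - q * (a - b)), by linear_combination d0⟩
  have cρ : IsCoprime (ρ : ℤ) n := by
    rw [d3]
    exact (h2.mul_left cv).add_mul_left_left _
  refine ⟨ρ, h' + n, v₀, hρ, Nat.isCoprime_iff_coprime.1 cρ, Nat.isCoprime_iff_coprime.1 cv,
    ⟨_, d1⟩, ⟨_, d2⟩, ?_⟩
  refine ⟨((1 - q') + (1 - q' + (-w - q * (a - b)))) * (a - b) + (a + b) * (-w - q * (a - b)), ?_⟩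
  linear_combination (a - b) * d3 + (a + b) * d0

/-- Take the parameters for `(a, b)`; the six exceptions of `comb` are excluded
(`ρ ≡ 1 ↔ b ≡ 0`, `ρ ≡ -1 ↔ a ≡ 0`, `ρ ≡ 2 ↔ a ≡ 3 b`, `ρ ≡ -2 ↔ b ≡ 3 a`, `2 ρ ≡ 1 ↔ a ≡ -3 b`,
`2 ρ ≡ -1 ↔ b ≡ -3 a`; `n` is odd). If `comb` gives `s = clsA n` use `core_good`. Otherwise replace
`b` by `b' = (n - 1) b ≡ -b`, whose parameter `ρ'` satisfies `ρ ρ' ≡ 1` (`Good.swap`), and raise
`∑ z ^ (2 ^ b' + 1) = 0` to the power `2 ^ b`. -/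
theorem core (halg : ∀ c : k, ∃ m, 0 < m ∧ c ^ 2 ^ m = c) {n a b : ℕ} (hn : Odd n)
    (h1 : IsCoprime ((a : ℤ) - b) n) (h2 : IsCoprime ((a : ℤ) + b) n) (e1 : ¬ (n : ℤ) ∣ a)
    (e2 : ¬ (n : ℤ) ∣ b) (e3 : ¬ (n : ℤ) ∣ a - 3 * b) (e4 : ¬ (n : ℤ) ∣ a + 3 * b)
    (e5 : ¬ (n : ℤ) ∣ b - 3 * a) (e6 : ¬ (n : ℤ) ∣ b + 3 * a) :
    ∃ z : Fin 4 → k, (∀ t, z t ^ 2 ^ n = z t) ∧ ∑ t, z t ^ (2 ^ a + 1) = 0 ∧
      ∑ t, z t ^ (2 ^ b + 1) = 0 ∧ ∑ t, z t ≠ 0 := by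
  obtain ⟨ρ, h, v₀, hh, hc, hv, ha, hb, hr⟩ := exists_param hn h1 h2
  have hn0 : (0 : ℤ) < n := by exact_mod_cast hn.pos
  have hodd : Odd (n : ℤ) := by exact_mod_cast hn
  have c2 : IsCoprime (n : ℤ) 2 := by
    obtain ⟨t, ht⟩ := hodd
    exact ⟨1, -t, by linear_combination ht⟩
  obtain ⟨s, hs⟩ := comb (ρ := (ρ : ℤ)) hn0 hodd (Nat.isCoprime_iff_coprime.2 hc)
    (fun hd => e2 (c2.dvd_of_dvd_mul_left (by
      have := (hd.mul_right ((a : ℤ) - b)).sub hr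
      rwa [show ((ρ : ℤ) - 1) * (a - b) - (ρ * (a - b) - (a + b)) = 2 * b by ring] at this)))
    (fun hd => e1 (c2.dvd_of_dvd_mul_left (by
      have := (hd.mul_right ((a : ℤ) - b)).sub hr
      rwa [show ((ρ : ℤ) + 1) * (a - b) - (ρ * (a - b) - (a + b)) = 2 * a by ring] at this)))
    (fun hd => e3 (by
      have := hr.sub (hd.mul_right ((a : ℤ) - b))
      rwa [show (ρ * (a - b) - (a + b)) - ((ρ : ℤ) - 2) * (a - b) = a - 3 * b by ring] at this))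
    (fun hd => e5 (by
      have := hr.sub (hd.mul_right ((a : ℤ) - b))
      rwa [show (ρ * (a - b) - (a + b)) - ((ρ : ℤ) + 2) * (a - b) = b - 3 * a by ring] at this))
    (fun hd => e4 (by
      have := (hd.mul_right ((a : ℤ) - b)).sub (hr.mul_left 2)
      rwa [show (2 * (ρ : ℤ) - 1) * (a - b) - 2 * (ρ * (a - b) - (a + b)) = a + 3 * b by ring]
        at this))
    (fun hd => e6 (by
      have := (hd.mul_right ((a : ℤ) - b)).sub (hr.mul_left 2)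
      rwa [show (2 * (ρ : ℤ) + 1) * (a - b) - 2 * (ρ * (a - b) - (a + b)) = b + 3 * a by ring]
        at this))
  have hcase : ∀ s t : ZMod 2, s = t ∨ s + 1 = t := by decide
  rcases hcase s (clsA n) with h0 | h0
  · exact core_good halg hn hh hc (h0 ▸ hs) hv ha hb
  · obtain ⟨b', hb'⟩ : ∃ b' : ℕ, b' + b = n * b := by
      obtain ⟨t, rfl⟩ := hn
      exact ⟨2 * t * b, by ring⟩
    have hb'' : (b' : ℤ) + b = n * b := by exact_mod_cast hb'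
    have g1 : IsCoprime ((a : ℤ) - b') n := by
      rw [show (a : ℤ) - b' = a + b + n * (-b) by linear_combination -hb'']
      exact h2.add_mul_left_left _
    have g2 : IsCoprime ((a : ℤ) + b') n := by
      rw [show (a : ℤ) + b' = a - b + n * b by linear_combination hb'']
      exact h1.add_mul_left_left _
    obtain ⟨ρ', h', v', hh', hc', hv', ha', hbb', hr'⟩ := exists_param hn g1 g2
    have hsw : (n : ℤ) ∣ ρ * ρ' - 1 := by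
      refine h1.symm.dvd_of_dvd_mul_right ?_
      have := ((hr.mul_left ρ').add hr').add (dvd_mul_right (n : ℤ) (b * (ρ' + 1)))
      rwa [show (ρ' : ℤ) * (ρ * (a - b) - (a + b)) + (ρ' * (a - b') - (a + b')) +
        n * (b * (ρ' + 1)) = (ρ * ρ' - 1) * (a - b) by
          linear_combination (-(ρ' : ℤ) - 1) * hb''] at this
    obtain ⟨z, hz, za, zb, z0⟩ := core_good halg hn hh' hc' (h0 ▸ hs.swap hsw) hv' ha' hbb'
    refine ⟨z, hz, za, ?_, z0⟩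
    have hper : ∀ t (j : ℕ), z t ^ 2 ^ (n * j) = z t := by
      intro t j
      induction j with
      | zero => simp
      | succ j ih => rw [Nat.mul_succ, pow_add, pow_mul, ih, hz]
    have h5 := congrArg (fun y => y ^ 2 ^ b) zb
    simp only [sum_pow_char_pow, zero_pow (pow_ne_zero b two_ne_zero)] at h5
    rw [← h5]
    refine Finset.sum_congr rfl fun t _ => ?_
    rw [pow_succ (z t) (2 ^ b'), mul_pow, ← pow_mul, ← pow_add 2 b' b, hb', hper, pow_succ']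

end Pool.Agent.Lib.MP_a01f70_lc.QQ
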