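import Pool.Agent.Lib.MP_a01f70_lc.QQ.CurveK

/-!
The Frobenius automorphism and the involution.
-/

set_option linter.unusedSectionVars false

namespace Pool.Agent.Lib.MP_a01f70_lc.QQ
open Module Polynomial

variable {k : Type} [Field k] {n ρ : ℕ} {U : Finset ℕ}

lemma curveaut_X {A : Type*} [Field A] [Algebra k[X] A] [Algebra (RatFunc k) A]
    [IsScalarTower k[X] (RatFunc k) A] : algebraMap (RatFunc k) A RatFunc.X = xx k A := by
  rw [xx, IsScalarTower.algebraMap_apply k[X] (RatFunc k) A, RatFunc.algebraMap_X]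

lemma curveaut_PP [Fact (Irreducible (Pm k n ρ U))] :
    PP n ρ U (xx k (AdjoinRoot (Pm k n ρ U))) (AdjoinRoot.root (Pm k n ρ U)) = 0 := by
  rw [← curveaut_X, ← aeval_Pm_eq_zero, AdjoinRoot.aeval_eq, AdjoinRoot.mk_self]

lemma curveaut_C [Fact (Irreducible (Pm k n ρ U))] (c : k) :
    algebraMap (RatFunc k) (AdjoinRoot (Pm k n ρ U)) (algebraMap k[X] (RatFunc k) (C c)) =
      algebraMap k (AdjoinRoot (Pm k n ρ U)) c := by
  rw [algebraMap_poly_rat (k := k), algebraMap_poly, aeval_C]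

lemma curveaut_ext [Fact (Irreducible (Pm k n ρ U))] {A : Type*} [Field A]
    {f g : AdjoinRoot (Pm k n ρ U) →+* A}
    (h1 : ∀ c, f (algebraMap k (AdjoinRoot (Pm k n ρ U)) c) =
      g (algebraMap k (AdjoinRoot (Pm k n ρ U)) c))
    (h2 : f (xx k (AdjoinRoot (Pm k n ρ U))) = g (xx k (AdjoinRoot (Pm k n ρ U))))
    (h3 : f (AdjoinRoot.root (Pm k n ρ U)) = g (AdjoinRoot.root (Pm k n ρ U))) : f = g := by
  refine AdjoinRoot.ringHom_ext ?_ h3
  refine IsLocalization.ringHom_ext (nonZeroDivisors k[X]) ?_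
  refine Polynomial.ringHom_ext (fun c => ?_) ?_
  · have := h1 c
    rw [← curveaut_C] at this
    exact this
  · rw [← curveaut_X, ← RatFunc.algebraMap_X] at h2
    exact h2

lemma curveaut_lift [Fact (Irreducible (Pm k n ρ U))] {A : Type*} [Field A] (ψ : k →+* A)
    (x y : A) (hx : Function.Injective (eval₂RingHom ψ x)) (h : PP n ρ U x y = 0) :
    ∃ σ : AdjoinRoot (Pm k n ρ U) →+* A,
      (∀ c, σ (algebraMap k (AdjoinRoot (Pm k n ρ U)) c) = ψ c) ∧
      σ (xx k (AdjoinRoot (Pm k n ρ U))) = x ∧ σ (AdjoinRoot.root (Pm k n ρ U)) = y := by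
  let τ : RatFunc k →+* A := IsFractionRing.lift hx
  have h1 : ∀ u : k[X], τ (algebraMap k[X] (RatFunc k) u) = eval₂ ψ x u := fun u =>
    IsFractionRing.lift_algebraMap hx u
  have h2 : τ RatFunc.X = x := by
    rw [← RatFunc.algebraMap_X, h1, eval₂_X]
  have h3 : (Pm k n ρ U).eval₂ τ y = 0 := by
    rw [← coe_eval₂RingHom, Pm, map_mul, map_PP]
    simp only [coe_eval₂RingHom, eval₂_C, eval₂_X]
    rw [h2, h, mul_zero]
  refine ⟨AdjoinRoot.lift τ y h3, fun c => ?_, ?_, AdjoinRoot.lift_root h3⟩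
  · rw [← curveaut_C, AdjoinRoot.algebraMap_eq, AdjoinRoot.lift_of, h1, eval₂_C]
  · rw [← curveaut_X, AdjoinRoot.algebraMap_eq, AdjoinRoot.lift_of, h2]

lemma curveaut_const [Fact (Irreducible (Pm k n ρ U))] (e : k ≃+* k) :
    ∃ σ : AdjoinRoot (Pm k n ρ U) →+* AdjoinRoot (Pm k n ρ U),
      (∀ c, σ (algebraMap k (AdjoinRoot (Pm k n ρ U)) c) =
        algebraMap k (AdjoinRoot (Pm k n ρ U)) (e c)) ∧
      σ (xx k (AdjoinRoot (Pm k n ρ U))) = xx k (AdjoinRoot (Pm k n ρ U)) ∧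
      σ (AdjoinRoot.root (Pm k n ρ U)) = AdjoinRoot.root (Pm k n ρ U) := by
  refine curveaut_lift ((algebraMap k (AdjoinRoot (Pm k n ρ U))).comp (e : k →+* k)) _ _ ?_
    curveaut_PP
  have h1 : ∀ u : k[X], eval₂RingHom ((algebraMap k (AdjoinRoot (Pm k n ρ U))).comp (e : k →+* k))
      (xx k (AdjoinRoot (Pm k n ρ U))) u =
      algebraMap k[X] (AdjoinRoot (Pm k n ρ U)) (u.map (e : k →+* k)) := by
    intro u
    rw [coe_eval₂RingHom, algebraMap_poly, aeval_def, eval₂_map]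
  intro u v h
  rw [h1, h1] at h
  exact Polynomial.map_injective _ e.injective (algebraMap_poly_injective k _ h)

/-- A general extension lemma is useful: a ring homomorphism `τ : RatFunc k →+* K` and `y' : K`
with `PP n ρ U (τ X) y' = 0` give `K →+* K` by `AdjoinRoot.lift` (the coefficients of `PP` are `0`
and `1`). For `e : k ≃+* k` take `τ` induced by `Polynomial.mapRingHom e`
(`RatFunc.mapRingHom`); the inverse comes from `e.symm` (`AdjoinRoot.ringHom_ext`,
`RatFunc` extensionality through `IsLocalization.ringHom_ext`), or show surjectivity directly. -/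
theorem exists_aut_const [Fact (Irreducible (Pm k n ρ U))] (e : k ≃+* k) :
    ∃ φ : Aut k (AdjoinRoot (Pm k n ρ U)), (∀ c, φ.σ₀ c = e c) ∧
      φ.σ (xx k (AdjoinRoot (Pm k n ρ U))) = xx k (AdjoinRoot (Pm k n ρ U)) ∧
      φ.σ (AdjoinRoot.root (Pm k n ρ U)) = AdjoinRoot.root (Pm k n ρ U) := by
  obtain ⟨σ, a1, a2, a3⟩ := curveaut_const (n := n) (ρ := ρ) (U := U) e
  obtain ⟨σ', b1, b2, b3⟩ := curveaut_const (n := n) (ρ := ρ) (U := U) e.symm
  refine ⟨⟨RingEquiv.ofRingHom σ σ' ?_ ?_, e, a1⟩, fun _ => rfl, a2, a3⟩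
  · refine curveaut_ext (fun c => ?_) ?_ ?_
    · rw [RingHom.comp_apply, b1, a1, RingEquiv.apply_symm_apply, RingHom.id_apply]
    · rw [RingHom.comp_apply, b2, a2, RingHom.id_apply]
    · rw [RingHom.comp_apply, b3, a3, RingHom.id_apply]
  · refine curveaut_ext (fun c => ?_) ?_ ?_
    · rw [RingHom.comp_apply, a1, b1, RingEquiv.symm_apply_apply, RingHom.id_apply]
    · rw [RingHom.comp_apply, a2, b2, RingHom.id_apply]
    · rw [RingHom.comp_apply, a3, b3, RingHom.id_apply]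

/-- reindex by `u ↦ n - u`; `ρ (n - u) / n + 1 = ρ + 1 - (ρ u / n + 1)` since `n ∤ ρ u` -/
theorem PP_inv {A : Type*} [Field A] (hc : Nat.Coprime ρ n) (hU : Adm n U) {x y : A} (hx : x ≠ 0)
    (hy : y ≠ 0) : x ^ (ρ + 1) * y ^ n * PP n ρ U x⁻¹ y⁻¹ = PP n ρ U x y := by
  have key : ∀ u ∈ U, ρ * u / n + (ρ * (n - u) / n + 1) = ρ := by
    intro u hu
    have h1 := hU.pos u hu
    have h2 := hU.lt u hu
    have hn : 0 < n := by omega
    have e : ρ * u + ρ * (n - u) = n * ρ := by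
      rw [← mul_add, Nat.add_sub_cancel' h2.le, mul_comm]
    have h3 := Nat.add_div (a := ρ * u) (b := ρ * (n - u)) hn
    rw [e, Nat.mul_div_cancel_left _ hn] at h3
    split_ifs at h3 with h4
    · omega
    · exfalso
      have h5 := Nat.add_mod (ρ * u) (ρ * (n - u)) n
      rw [e, Nat.mul_mod_right, Nat.mod_eq_of_lt (not_le.mp h4)] at h5
      have h6 : n ∣ ρ * u := Nat.dvd_of_mod_eq_zero (by omega)
      exact absurd (Nat.le_of_dvd h1 (hc.symm.dvd_of_dvd_mul_left h6)) (by omega)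
  have e1 : x ^ (ρ + 1) * y ^ n * ∑ u ∈ U, y⁻¹ ^ u * x⁻¹ ^ (ρ * u / n + 1) =
      ∑ u ∈ U, y ^ u * x ^ (ρ * u / n + 1) := by
    rw [Finset.mul_sum]
    refine Finset.sum_nbij' (fun u => n - u) (fun u => n - u) hU.symm hU.symm
      (fun u hu => Nat.sub_sub_self (hU.lt u hu).le) (fun u hu => Nat.sub_sub_self (hU.lt u hu).le)
      fun u hu => ?_
    have a1 : x ^ (ρ + 1) = x ^ (ρ * u / n + 1) * x ^ (ρ * (n - u) / n + 1) := by
      rw [← pow_add]
      congr 1
      have := key u hu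
      omega
    have a2 : y ^ n = y ^ u * y ^ (n - u) := by
      rw [← pow_add, Nat.add_sub_cancel' (hU.lt u hu).le]
    rw [a1, a2, inv_pow, inv_pow]
    field_simp
  rw [PP, PP, mul_add, mul_add, e1]
  simp only [inv_pow]
  field_simp
  ring

/-- `X ↦ x⁻¹` by `RatFunc.liftAlgHom` (`x⁻¹` is transcendental), the root goes to its inverse
(it is nonzero since `1 + x ≠ 0`); the map is its own inverse. -/
theorem exists_aut_inv [Fact (Irreducible (Pm k n ρ U))] (hc : Nat.Coprime ρ n) (hU : Adm n U) :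
    ∃ ι : Aut k (AdjoinRoot (Pm k n ρ U)), (∀ c, ι.σ₀ c = c) ∧
      ι.σ (xx k (AdjoinRoot (Pm k n ρ U))) = (xx k (AdjoinRoot (Pm k n ρ U)))⁻¹ ∧
      ι.σ (AdjoinRoot.root (Pm k n ρ U)) = (AdjoinRoot.root (Pm k n ρ U))⁻¹ := by
  have hx : xx k (AdjoinRoot (Pm k n ρ U)) ≠ 0 := xx_ne_zero
  have hy : AdjoinRoot.root (Pm k n ρ U) ≠ 0 := by
    intro h0
    have h1 := curveaut_PP (k := k) (n := n) (ρ := ρ) (U := U)
    obtain ⟨u, hu⟩ := hU.ne
    have hn : n ≠ 0 := by
      have := hU.lt u hu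
      omega
    rw [h0, PP, zero_pow hn, zero_mul, add_zero,
      Finset.sum_eq_zero fun v hv => by rw [zero_pow (hU.pos v hv).ne', zero_mul], add_zero] at h1
    apply xx_sub_ne_zero (K := AdjoinRoot (Pm k n ρ U)) (-1 : k)
    rw [map_neg, map_one, sub_neg_eq_add, add_comm, h1]
  have ht : Transcendental k (xx k (AdjoinRoot (Pm k n ρ U))) := by
    rw [transcendental_iff_injective]
    intro u v h
    exact algebraMap_poly_injective k (AdjoinRoot (Pm k n ρ U))
      (by rw [algebraMap_poly, algebraMap_poly]; exact h)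
  have ht' : Transcendental k (xx k (AdjoinRoot (Pm k n ρ U)))⁻¹ := fun h =>
    ht (IsAlgebraic.inv_iff.mp h)
  have h0 : PP n ρ U (xx k (AdjoinRoot (Pm k n ρ U)))⁻¹ (AdjoinRoot.root (Pm k n ρ U))⁻¹ = 0 := by
    have := PP_inv hc hU hx hy
    rw [curveaut_PP] at this
    exact (mul_eq_zero.mp this).resolve_left (mul_ne_zero (pow_ne_zero _ hx) (pow_ne_zero _ hy))
  obtain ⟨σ, a1, a2, a3⟩ := curveaut_lift (n := n) (ρ := ρ) (U := U)
    (algebraMap k (AdjoinRoot (Pm k n ρ U))) _ _ (transcendental_iff_injective.mp ht') h0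
  have h1 : σ.comp σ = RingHom.id _ := by
    refine curveaut_ext (fun c => ?_) ?_ ?_
    · rw [RingHom.comp_apply, a1, a1, RingHom.id_apply]
    · rw [RingHom.comp_apply, a2, map_inv₀, a2, inv_inv, RingHom.id_apply]
    · rw [RingHom.comp_apply, a3, map_inv₀, a3, inv_inv, RingHom.id_apply]
  exact ⟨⟨RingEquiv.ofRingHom σ σ h1 h1, RingEquiv.refl k, a1⟩, fun _ => rfl, a2, a3⟩

theorem finrank_Pm [Fact (Irreducible (Pm k n ρ U))] (hn : 0 < n) (hU : Adm n U) :
    finrank (RatFunc k) (AdjoinRoot (Pm k n ρ U)) = n := by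
  obtain ⟨h1, h2⟩ := Pm_monic (k := k) (ρ := ρ) hn hU
  rw [(AdjoinRoot.powerBasis h1.ne_zero).finrank, AdjoinRoot.powerBasis_dim, h2]

/-- the derivative of `Pm` is nonzero since `n` is odd -/
theorem isSeparable_Pm [CharP k 2] [Fact (Irreducible (Pm k n ρ U))] (hn : Odd n) (hU : Adm n U) :
    Algebra.IsSeparable (RatFunc k) (AdjoinRoot (Pm k n ρ U)) := by
  obtain ⟨h1, h2⟩ := Pm_monic (k := k) (ρ := ρ) hn.pos hU
  have hirr : Irreducible (Pm k n ρ U) := Fact.out
  have hsep : (Pm k n ρ U).Separable := by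
    rw [separable_iff_derivative_ne_zero hirr]
    intro h0
    obtain ⟨m, hm⟩ := hn
    have h3 := congrArg (fun p => coeff p (2 * m)) h0
    simp only [coeff_derivative, coeff_zero] at h3
    have h4 : coeff (Pm k n ρ U) (2 * m + 1) = 1 := by
      have h7 := h1.coeff_natDegree
      rw [h2] at h7
      rw [← hm]
      exact h7
    have h5 : (2 : RatFunc k) = 0 := by
      have : (2 : k) = 0 := CharP.cast_eq_zero k 2
      rw [← map_ofNat (algebraMap k (RatFunc k)) 2, this, map_zero]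
    rw [h4, one_mul, Nat.cast_mul, Nat.cast_ofNat, h5, zero_mul, zero_add] at h3
    exact one_ne_zero h3
  have hr : IsSeparable (RatFunc k) (AdjoinRoot.root (Pm k n ρ U)) :=
    hsep.of_dvd (minpoly.dvd _ _ (by rw [AdjoinRoot.aeval_eq, AdjoinRoot.mk_self]))
  have h6 := (IntermediateField.isSeparable_adjoin_simple_iff_isSeparable _ _).mpr hr
  rw [IntermediateField.adjoin_root_eq_top] at h6
  exact Algebra.IsSeparable.of_algHom _ _ IntermediateField.topEquiv.symm.toAlgHom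

theorem gen_Pm [Fact (Irreducible (Pm k n ρ U))] (f : AdjoinRoot (Pm k n ρ U)) :
    ∃ a ∈ Algebra.adjoin k {xx k (AdjoinRoot (Pm k n ρ U)), AdjoinRoot.root (Pm k n ρ U)},
      ∃ b ∈ Algebra.adjoin k {xx k (AdjoinRoot (Pm k n ρ U)), AdjoinRoot.root (Pm k n ρ U)},
        b ≠ 0 ∧ f = a / b := by
  have hm : f ∈ IntermediateField.adjoin k
      ({xx k (AdjoinRoot (Pm k n ρ U)), AdjoinRoot.root (Pm k n ρ U)} :
        Set (AdjoinRoot (Pm k n ρ U))) := by
    have hp : ∀ u : k[X], algebraMap k[X] (AdjoinRoot (Pm k n ρ U)) u ∈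
        IntermediateField.adjoin k
          ({xx k (AdjoinRoot (Pm k n ρ U)), AdjoinRoot.root (Pm k n ρ U)} :
            Set (AdjoinRoot (Pm k n ρ U))) := by
      intro u
      rw [algebraMap_poly]
      exact IntermediateField.algebra_adjoin_le_adjoin k _
        (Algebra.adjoin_mono (by simp) (aeval_mem_adjoin_singleton k _))
    induction f using AdjoinRoot.induction_on with
    | ih p =>
      rw [← AdjoinRoot.aeval_eq, aeval_eq_sum_range]
      refine sum_mem fun i _ => ?_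
      rw [Algebra.smul_def, algebraMap_rat (k := k)]
      exact mul_mem (div_mem (hp _) (hp _))
        (pow_mem (IntermediateField.subset_adjoin k _ (by simp)) i)
  obtain ⟨a, ha, b, hb, e⟩ := IntermediateField.mem_adjoin_iff_div.mp hm
  by_cases h0 : b = 0
  · exact ⟨0, zero_mem _, 1, one_mem _, one_ne_zero, by rw [e, h0, div_zero, zero_div]⟩
  · exact ⟨a, ha, b, hb, h0, e⟩

end Pool.Agent.Lib.MP_a01f70_lc.QQ
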