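import Pool.Agent.Lib.MP_a01f70_lc.QQ.CurveK1

/-!
The function field of the curve.
-/

set_option linter.unusedSectionVars false

namespace Pool.Agent.Lib.MP_a01f70_lc.QQ
open Module Polynomial

variable (k : Type) [Field k]

variable {k} {n ρ : ℕ} {U : Finset ℕ}

/-- the order of Laurent series -/
noncomputable def curvek_place (k : Type) [Field k] : Place k (LaurentSeries k) where
  ord := HahnSeries.order
  ord_zero := HahnSeries.order_zero
  ord_mul := fun hf hg => HahnSeries.order_mul hf hg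
  ord_add := fun _ _ h => HahnSeries.min_order_le_order_add h
  ord_const := fun c => by rw [LaurentSeries.algebraMap_apply, HahnSeries.order_C]
  surj := ⟨HahnSeries.single 1 1, HahnSeries.single_ne_zero one_ne_zero,
    HahnSeries.order_single one_ne_zero⟩

/-- pull back of a place -/
def curvek_comap {K L : Type*} [Field K] [Field L] [Algebra k K] [Algebra k L] (v : Place k L)
    (ψ : K →+* L) (hψ : ∀ c, ψ (algebraMap k K c) = algebraMap k L c)
    (h : ∃ t : K, t ≠ 0 ∧ v.ord (ψ t) = 1) : Place k K where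
  ord := fun f => v.ord (ψ f)
  ord_zero := by rw [map_zero, v.ord_zero]
  ord_mul := fun hf hg => by
    rw [map_mul, v.ord_mul ((map_ne_zero ψ).2 hf) ((map_ne_zero ψ).2 hg)]
  ord_add := fun hf hg hfg => by
    have := (map_ne_zero ψ).2 hfg
    rw [map_add] at this ⊢
    exact v.ord_add ((map_ne_zero ψ).2 hf) ((map_ne_zero ψ).2 hg) this
  ord_const := fun c => by rw [hψ, v.ord_const]
  surj := h

lemma curvek_poly {L : Type*} [Field L] [Algebra k L] (v : Place k L) {x : L} (hx : x ≠ 0)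
    (hn : 0 < n) (ho : v.ord x = -n) {u : k[X]} (hu : u ≠ 0) :
    aeval x u ≠ 0 ∧ v.ord (aeval x u) = -n * u.natDegree := by
  have hl : u.coeff u.natDegree ≠ 0 := leadingCoeff_ne_zero.2 hu
  have h0 : u.coeff u.natDegree • x ^ u.natDegree ≠ 0 := smul_ne_zero hl (pow_ne_zero _ hx)
  have h1 : v.ord (u.coeff u.natDegree • x ^ u.natDegree) = -n * u.natDegree := by
    rw [v.ord_smul hl, v.ord_pow, ho, mul_comm]
  rw [aeval_eq_sum_range, ← h1]
  refine Place.ord_sum_of_lt (f := fun i => u.coeff i • x ^ i) (Finset.self_mem_range_succ _) h0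
    fun i hi hne => ?_
  have h2 : i + 1 ≤ u.natDegree := by
    have := Finset.mem_range.1 hi
    omega
  refine Place.Ge.smul (Place.Ge.of_le ?_) _
  rw [h1, v.ord_pow, ho]
  have h3 : (i : ℤ) + 1 ≤ u.natDegree := by exact_mod_cast h2
  have h4 : (1 : ℤ) ≤ n := by exact_mod_cast hn
  nlinarith

lemma curvek_lift {L : Type*} [Field L] [Algebra k L] (v : Place k L) {x : L} (hx : x ≠ 0)
    (hn : 0 < n) (ho : v.ord x = -n) :
    ∃ φ : RatFunc k →ₐ[k] L, φ RatFunc.X = x ∧ ∀ r, (n : ℤ) ∣ v.ord (φ r) := by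
  have hφ : nonZeroDivisors k[X] ≤ Submonoid.comap (aeval x : k[X] →ₐ[k] L) (nonZeroDivisors L) :=
    fun u hu => mem_nonZeroDivisors_of_ne_zero
      (curvek_poly v hx hn ho (nonZeroDivisors.ne_zero hu)).1
  refine ⟨RatFunc.liftAlgHom (aeval x) hφ, ?_, fun r => ?_⟩
  · rw [RatFunc.liftAlgHom_apply]
    simp
  · by_cases hr : r = 0
    · simp [hr]
    · have h1 := curvek_poly v hx hn ho (RatFunc.num_ne_zero hr)
      have h2 := curvek_poly v hx hn ho (RatFunc.denom_ne_zero r)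
      rw [RatFunc.liftAlgHom_apply, v.ord_div h1.1 h2.1, h1.2, h2.2]
      exact ⟨(r.denom.natDegree : ℤ) - r.num.natDegree, by ring⟩

lemma curvek_ne {L : Type*} [Field L] [Algebra k L] (v : Place k L) (φ : RatFunc k →+* L)
    (hφ : ∀ r, (n : ℤ) ∣ v.ord (φ r)) {y : L} (hy : y ≠ 0) (ho : v.ord y = ρ)
    (hc : Nat.Coprime ρ n) {g : (RatFunc k)[X]} (hg : g ≠ 0) (hd : g.natDegree < n) :
    eval₂ φ y g ≠ 0 := by
  have hne : ∀ i ∈ g.support, φ (g.coeff i) ≠ 0 := fun i hi =>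
    (map_ne_zero φ).2 (mem_support_iff.1 hi)
  have hord : ∀ i ∈ g.support, v.ord (φ (g.coeff i) * y ^ i) = v.ord (φ (g.coeff i)) + i * ρ :=
    fun i hi => by rw [v.ord_mul (hne i hi) (pow_ne_zero _ hy), v.ord_pow, ho]
  obtain ⟨i₀, hi₀, hmin⟩ := Finset.exists_min_image g.support
    (fun i => v.ord (φ (g.coeff i) * y ^ i)) (support_nonempty.2 hg)
  rw [eval₂_eq_sum, Polynomial.sum]
  refine (Place.ord_sum_of_lt (v := v) (f := fun i => φ (g.coeff i) * y ^ i) hi₀
    (mul_ne_zero (hne _ hi₀) (pow_ne_zero _ hy)) fun i hi hii => ?_).1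
  refine Place.Ge.of_le (Int.add_one_le_of_lt (lt_of_le_of_ne (hmin i hi) fun e => hii ?_))
  rw [hord i hi, hord i₀ hi₀] at e
  have h1 : (n : ℤ) ∣ ((i₀ : ℤ) - i) * ρ := by
    have := dvd_sub (hφ (g.coeff i)) (hφ (g.coeff i₀))
    rwa [show v.ord (φ (g.coeff i)) - v.ord (φ (g.coeff i₀)) = ((i₀ : ℤ) - i) * ρ by
      linear_combination -e] at this
  have h2 : (n : ℤ) ∣ (i₀ : ℤ) - i :=
    (Nat.isCoprime_iff_coprime.2 hc.symm).dvd_of_dvd_mul_right h1
  have h3 := (le_natDegree_of_mem_supp i hi).trans_lt hd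
  have h4 := (le_natDegree_of_mem_supp i₀ hi₀).trans_lt hd
  have h5 := Int.eq_zero_of_abs_lt_dvd h2 (by rw [abs_lt]; constructor <;> omega)
  omega

lemma curvek_data [CharP k 2] (hn : Odd n) (hc : Nat.Coprime ρ n) (hU : Adm n U) :
    ∃ (φ : RatFunc k →ₐ[k] LaurentSeries k) (y : LaurentSeries k), y ≠ 0 ∧
      (curvek_place k).ord (φ RatFunc.X) = -n ∧ (curvek_place k).ord y = ρ ∧
      (∀ r, (n : ℤ) ∣ (curvek_place k).ord (φ r)) ∧ eval₂ φ.toRingHom y (Pm k n ρ U) = 0 := by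
  obtain ⟨x, y, hx, hy, hox, hoy, hP⟩ := exists_branch (k := k) hn hc hU
  obtain ⟨φ, h1, h2⟩ := curvek_lift (curvek_place k) hx hn.pos hox
  refine ⟨φ, y, hy, by rw [h1]; exact hox, hoy, h2, ?_⟩
  rw [← coe_eval₂RingHom, Pm, map_mul, map_PP, coe_eval₂RingHom, eval₂_C, eval₂_C, eval₂_X]
  have h3 : φ.toRingHom RatFunc.X = x := h1
  rw [h3, hP, mul_zero]

/-- Map `RatFunc k` to Laurent series by `X ↦ x` (`RatFunc.liftAlgHom`; a nonzero polynomial of
degree `d` goes to a series of order `-n d`), and `(RatFunc k)[X]` by `X ↦ y`. A nonzero polynomial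
of degree `< n` has nonzero image, since its terms have orders different modulo `n`. If
`Pm = f g` with both factors of degree `< n`, one of them would vanish at `y`. -/
theorem irreducible_Pm [CharP k 2] (hn : Odd n) (hc : Nat.Coprime ρ n) (hU : Adm n U) :
    Irreducible (Pm k n ρ U) := by
  obtain ⟨φ, y, hy, -, hoy, hdvd, hP⟩ := curvek_data (k := k) hn hc hU
  obtain ⟨hm, hd⟩ := Pm_monic (k := k) (ρ := ρ) hn.pos hU
  have hpos := hn.pos
  refine hm.irreducible_iff_natDegree.2 ⟨fun h => ?_, fun f g hf hg e => ?_⟩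
  · rw [h, natDegree_one] at hd
    omega
  · by_contra hcon
    push Not at hcon
    have h1 := hf.natDegree_mul hg
    rw [e, hd] at h1
    rw [← e, eval₂_mul] at hP
    rcases mul_eq_zero.1 hP with h | h
    · exact curvek_ne (curvek_place k) φ.toRingHom hdvd hy hoy hc hf.ne_zero (by omega) h
    · exact curvek_ne (curvek_place k) φ.toRingHom hdvd hy hoy hc hg.ne_zero (by omega) h

/-- pull back the order of Laurent series along `AdjoinRoot.lift`; surjectivity by Bezout -/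
theorem exists_place_Pm [CharP k 2] (hn : Odd n) (hc : Nat.Coprime ρ n) (hU : Adm n U)
    [Fact (Irreducible (Pm k n ρ U))] :
    ∃ p : Place k (AdjoinRoot (Pm k n ρ U)), p.ord (xx k (AdjoinRoot (Pm k n ρ U))) = -n ∧
      p.ord (AdjoinRoot.root (Pm k n ρ U)) = ρ := by
  obtain ⟨φ, y, hy, hox, hoy, -, hP⟩ := curvek_data (k := k) hn hc hU
  let ψ : AdjoinRoot (Pm k n ρ U) →+* LaurentSeries k := AdjoinRoot.lift φ.toRingHom y hP
  have h1 : ∀ r, ψ (algebraMap (RatFunc k) (AdjoinRoot (Pm k n ρ U)) r) = φ r := fun r =>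
    AdjoinRoot.lift_of hP
  have h2 : ψ (AdjoinRoot.root (Pm k n ρ U)) = y := AdjoinRoot.lift_root hP
  have h3 : ψ (xx k (AdjoinRoot (Pm k n ρ U))) = φ RatFunc.X := by
    rw [xx, ← algebraMap_poly_rat, h1, RatFunc.algebraMap_X]
  have h4 : ∀ c, ψ (algebraMap k (AdjoinRoot (Pm k n ρ U)) c) = algebraMap k _ c := fun c => by
    rw [IsScalarTower.algebraMap_apply k (RatFunc k) (AdjoinRoot (Pm k n ρ U)), h1, φ.commutes]
  have hr : AdjoinRoot.root (Pm k n ρ U) ≠ 0 := fun h => hy (by rw [← h2, h, map_zero])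
  have hx : xx k (AdjoinRoot (Pm k n ρ U)) ≠ 0 := xx_ne_zero
  obtain ⟨a, b, hab⟩ := Nat.isCoprime_iff_coprime.2 hc
  refine ⟨curvek_comap (curvek_place k) ψ h4
    ⟨AdjoinRoot.root (Pm k n ρ U) ^ a * xx k (AdjoinRoot (Pm k n ρ U)) ^ (-b),
      mul_ne_zero (zpow_ne_zero _ hr) (zpow_ne_zero _ hx), ?_⟩, ?_, ?_⟩
  · rw [map_mul, map_zpow₀, map_zpow₀, Place.ord_mul _
      (zpow_ne_zero _ ((map_ne_zero ψ).2 hr)) (zpow_ne_zero _ ((map_ne_zero ψ).2 hx)),
      Place.ord_zpow, Place.ord_zpow, h2, h3, hox, hoy]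
    linear_combination hab
  · show (curvek_place k).ord (ψ _) = _
    rw [h3, hox]
  · show (curvek_place k).ord (ψ _) = _
    rw [h2, hoy]

end Pool.Agent.Lib.MP_a01f70_lc.QQ
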