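import Pool.Agent.Lib.MP_a01f70_lc.QQ.ADefs
import Pool.Agent.Lib.MP_a01f70_lc.QQ.CDefs

/-!
The function field of the curve.
-/

set_option linter.unusedSectionVars false

namespace Pool.Agent.Lib.MP_a01f70_lc.QQ
open Module Polynomial

variable (k : Type) [Field k]

/-- the monic equation of `y` over the rational function field -/
noncomputable def Pm (n ρ : ℕ) (U : Finset ℕ) : (RatFunc k)[X] :=
  C (RatFunc.X ^ ρ + RatFunc.X ^ (ρ + 1))⁻¹ * PP n ρ U (C RatFunc.X) X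

variable {k} {n ρ : ℕ} {U : Finset ℕ}

theorem lead_ne_zero (ρ : ℕ) : (RatFunc.X ^ ρ + RatFunc.X ^ (ρ + 1) : RatFunc k) ≠ 0 := by
  have h1 : (RatFunc.X ^ ρ + RatFunc.X ^ (ρ + 1) : RatFunc k) =
      algebraMap k[X] (RatFunc k) (X ^ ρ * (X + C 1)) := by
    simp only [map_mul, map_pow, map_add, RatFunc.algebraMap_X, map_one]
    ring
  rw [h1]
  exact RatFunc.algebraMap_ne_zero (mul_ne_zero (pow_ne_zero _ X_ne_zero) (X_add_C_ne_zero 1))

theorem curvek1_deg {R : Type*} [CommRing R] (hn : 0 < n) (hU : Adm n U) (a b : R) (c : ℕ → R) :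
    (C a + C b * ∑ u ∈ U, C (c u) * X ^ u).degree < n := by
  have h0 : (0 : WithBot ℕ) < n := by exact_mod_cast hn
  refine (degree_add_le _ _).trans_lt (max_lt (degree_C_le.trans_lt h0) ?_)
  rw [← smul_eq_C_mul]
  refine (degree_smul_le _ _).trans_lt ((degree_sum_le _ _).trans_lt ?_)
  refine (Finset.sup_lt_iff (bot_lt_of_lt h0)).2 fun u hu => (degree_C_mul_X_pow_le _ _).trans_lt ?_
  exact_mod_cast hU.lt u hu

theorem Pm_monic (hn : 0 < n) (hU : Adm n U) :
    (Pm k n ρ U).Monic ∧ (Pm k n ρ U).natDegree = n := by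
  have e : Pm k n ρ U = X ^ n +
      (C ((RatFunc.X ^ ρ + RatFunc.X ^ (ρ + 1))⁻¹ * (1 + RatFunc.X)) +
        C (RatFunc.X ^ ρ + RatFunc.X ^ (ρ + 1))⁻¹ *
          ∑ u ∈ U, C (RatFunc.X ^ (ρ * u / n + 1)) * X ^ u) := by
    have h1 : C (RatFunc.X ^ ρ + RatFunc.X ^ (ρ + 1) : RatFunc k)⁻¹ *
        (C RatFunc.X ^ ρ + C RatFunc.X ^ (ρ + 1)) = 1 := by
      rw [← C_pow, ← C_pow, ← C_add, ← C_mul, inv_mul_cancel₀ (lead_ne_zero ρ), C_1]
    have h2 : ∑ u ∈ U, (X : (RatFunc k)[X]) ^ u * C RatFunc.X ^ (ρ * u / n + 1) =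
        ∑ u ∈ U, C (RatFunc.X ^ (ρ * u / n + 1)) * X ^ u :=
      Finset.sum_congr rfl fun u _ => by rw [C_pow, mul_comm]
    rw [Pm, PP, h2, C_mul, C_add, C_1]
    linear_combination X ^ n * h1
  have hd := curvek1_deg hn hU ((RatFunc.X ^ ρ + RatFunc.X ^ (ρ + 1) : RatFunc k)⁻¹ *
    (1 + RatFunc.X)) (RatFunc.X ^ ρ + RatFunc.X ^ (ρ + 1))⁻¹ fun u => RatFunc.X ^ (ρ * u / n + 1)
  rw [e]
  refine ⟨monic_X_pow_add hd, natDegree_eq_of_degree_eq_some ?_⟩
  rw [degree_add_eq_left_of_degree_lt (by rwa [degree_X_pow]), degree_X_pow]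

/-- a root of the monic equation is a root of the equation of the curve, and conversely -/
theorem aeval_Pm_eq_zero {A : Type*} [CommRing A] [Algebra (RatFunc k) A] (y : A) :
    aeval y (Pm k n ρ U) = 0 ↔ PP n ρ U (algebraMap (RatFunc k) A RatFunc.X) y = 0 := by
  rw [Pm, map_mul, map_PP, aeval_C, aeval_C, aeval_X]
  exact ((IsUnit.mk0 _ (inv_ne_zero (lead_ne_zero ρ))).map _).mul_right_eq_zero

theorem curvek1_alg {A : Type*} [CommRing A] {t s W : A} (h : s * t ^ n = 1)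
    (e : (1 + t ^ n) * (W ^ n + 1) + ∑ u ∈ U, t ^ (ρ * u % n) * W ^ u = 0) :
    PP n ρ U s (t ^ ρ * W) = 0 := by
  have h1 : ∀ u, (t ^ ρ * W) ^ u * s ^ (ρ * u / n + 1) = s * (t ^ (ρ * u % n) * W ^ u) := by
    intro u
    have h2 : (t ^ ρ) ^ u = (t ^ n) ^ (ρ * u / n) * t ^ (ρ * u % n) := by
      rw [← pow_mul, ← pow_mul, ← pow_add, Nat.div_add_mod]
    have h3 : s ^ (ρ * u / n) * (t ^ n) ^ (ρ * u / n) = 1 := by rw [← mul_pow, h, one_pow]
    rw [mul_pow, h2, pow_succ]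
    linear_combination s * (t ^ (ρ * u % n) * W ^ u) * h3
  have h4 : s ^ ρ * (t ^ ρ) ^ n = 1 := by
    rw [← pow_mul, mul_comm ρ n, pow_mul, ← mul_pow, h, one_pow]
  simp only [PP, h1]
  rw [← Finset.mul_sum, mul_pow, pow_succ]
  linear_combination s * e + W ^ n * (1 + s) * h4 - (W ^ n + 1) * h

theorem curvek1_root [CharP k 2] (hn : Odd n) (hc : Nat.Coprime ρ n) (hU : Adm n U) :
    ∃ w : PowerSeries k, PowerSeries.constantCoeff w = 1 ∧
      (1 + PowerSeries.X ^ n) * (w ^ n + 1) +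
        ∑ u ∈ U, PowerSeries.X ^ (ρ * u % n) * w ^ u = 0 := by
  have h0 : 0 < n := hn.pos
  have hr : ∀ u ∈ U, ρ * u % n ≠ 0 := fun u hu e =>
    absurd (Nat.le_of_dvd (hU.pos u hu) (hc.symm.dvd_of_dvd_mul_left (Nat.dvd_of_mod_eq_zero e)))
      (not_le.2 (hU.lt u hu))
  have hu : IsUnit (1 + PowerSeries.X ^ n : PowerSeries k) := by
    rw [PowerSeries.isUnit_iff_constantCoeff]
    simp [h0.ne']
  obtain ⟨c, hc1⟩ := hu.exists_right_inv
  have h2 : (1 : k) + 1 = 0 := by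
    rw [one_add_one_eq_two]
    exact CharTwo.two_eq_zero
  have hn1 : (n : k) = 1 := by
    obtain ⟨m, rfl⟩ := hn
    push_cast
    rw [CharTwo.two_eq_zero, zero_mul, zero_add]
  obtain ⟨w, hw, hw1⟩ := HenselianRing.is_henselian
    (I := (Ideal.span {PowerSeries.X} : Ideal (PowerSeries k)))
    (X ^ n + (C 1 + C c * ∑ u ∈ U, C (PowerSeries.X ^ (ρ * u % n)) * X ^ u))
    (monic_X_pow_add (curvek1_deg h0 hU _ _ _)) 1
    (by
      rw [Ideal.mem_span_singleton, PowerSeries.X_dvd_iff]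
      simp only [eval_add, eval_pow, eval_X, one_pow, eval_C, eval_mul, eval_finsetSum, mul_one,
        eval_one, map_add, map_one, map_mul, map_sum, map_pow, PowerSeries.constantCoeff_X]
      rw [Finset.sum_eq_zero fun u hu => zero_pow (hr u hu), mul_zero, add_zero, h2])
    (by
      refine IsUnit.map _ ?_
      rw [PowerSeries.isUnit_iff_constantCoeff]
      simp only [derivative_X_pow, derivative_C, derivative_C_mul,
        eval_add, eval_pow, eval_X, one_pow, eval_C, eval_mul, eval_finsetSum, mul_one, zero_add,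
        map_add, map_mul, map_sum, map_natCast, eval_natCast]
      rw [Finset.sum_eq_zero fun u hu => by
        rw [map_pow, PowerSeries.constantCoeff_X, zero_pow (hr u hu), zero_mul], mul_zero,
        add_zero, hn1]
      exact isUnit_one)
  refine ⟨w, ?_, ?_⟩
  · rw [Ideal.mem_span_singleton, PowerSeries.X_dvd_iff, map_sub, map_one, sub_eq_zero] at hw1
    exact hw1
  · simp only [IsRoot.def, eval_add, eval_pow, eval_X, eval_C, eval_mul, eval_finsetSum] at hw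
    linear_combination (1 + PowerSeries.X ^ n) * hw -
      (∑ u ∈ U, PowerSeries.X ^ (ρ * u % n) * w ^ u) * hc1

/-- Hensel's lemma in `k⟦X⟧` (`IsAdicComplete.henselianRing`, the instance is in
`Mathlib/RingTheory/AdicCompletion/Completeness.lean`) for the monic polynomial
`W ^ n + 1 + (1 + t ^ n)⁻¹ ∑ u ∈ U, t ^ (ρ u % n) W ^ u` at the simple root `1`; note
`0 < ρ u % n` by coprimality and `ρ u - n (ρ u / n + 1) + n = ρ u % n`. Then `x = t⁻¹ ^ n`,
`y = t ^ ρ w`. -/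
theorem exists_branch [CharP k 2] (hn : Odd n) (hc : Nat.Coprime ρ n) (hU : Adm n U) :
    ∃ x y : LaurentSeries k, x ≠ 0 ∧ y ≠ 0 ∧ x.order = -n ∧ y.order = ρ ∧ PP n ρ U x y = 0 := by
  obtain ⟨w, hw1, hw⟩ := curvek1_root (k := k) hn hc hU
  have e := congrArg (HahnSeries.ofPowerSeries ℤ k) hw
  simp only [map_add, map_mul, map_pow, map_one, map_sum, map_zero,
    HahnSeries.ofPowerSeries_X] at e
  have hW : (HahnSeries.ofPowerSeries ℤ k w).coeff 0 ≠ 0 := by
    have := LaurentSeries.coeff_coe_powerSeries w 0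
    rw [Nat.cast_zero] at this
    rw [this, PowerSeries.coeff_zero_eq_constantCoeff_apply, hw1]
    exact one_ne_zero
  have hW0 : HahnSeries.ofPowerSeries ℤ k w ≠ 0 := fun h => hW (by rw [h]; rfl)
  have hWo : (HahnSeries.ofPowerSeries ℤ k w).order = 0 := by
    refine le_antisymm (HahnSeries.order_le_of_coeff_ne_zero hW) (not_lt.1 fun h => ?_)
    refine hW0 (HahnSeries.coeff_order_eq_zero.1 ?_)
    rw [PowerSeries.coeff_coe, if_pos h]
  have ht : (HahnSeries.single (1 : ℤ) (1 : k)) ^ ρ ≠ 0 :=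
    pow_ne_zero _ (HahnSeries.single_ne_zero one_ne_zero)
  refine ⟨HahnSeries.single (-(n : ℤ)) 1,
    HahnSeries.single (1 : ℤ) (1 : k) ^ ρ * HahnSeries.ofPowerSeries ℤ k w,
    HahnSeries.single_ne_zero one_ne_zero, mul_ne_zero ht hW0,
    HahnSeries.order_single one_ne_zero, ?_, curvek1_alg ?_ e⟩
  · rw [HahnSeries.order_mul ht hW0, hWo, HahnSeries.order_pow,
      HahnSeries.order_single one_ne_zero]
    simp
  · rw [HahnSeries.single_pow, HahnSeries.single_mul_single]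
    simp

end Pool.Agent.Lib.MP_a01f70_lc.QQ
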