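import Pool.Agent.Lib.MP_a01f70_lc.QQ.ADefs

/-!
Finite places and the maximal ideals of the integral closure of the polynomial ring.
-/

set_option linter.unusedSectionVars false

namespace Pool.Agent.Lib.MP_a01f70_lc.QQ
open Module Polynomial

variable {k K : Type*} [Field k] [Field K] [Algebra k K] [Algebra k[X] K] [Algebra (RatFunc k) K]
  [IsScalarTower k k[X] K] [IsScalarTower k[X] (RatFunc k) K] [IsScalarTower k (RatFunc k) K]
  [FiniteDimensional (RatFunc k) K] [Algebra.IsSeparable (RatFunc k) K]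

/- Let `O = integralClosure k[X] K`; it is a Dedekind domain
(`IsIntegralClosure.isDedekindDomain`, see `Mathlib/NumberTheory/FunctionField.lean`) with fraction
field `K` and a finite `k[X]`-module (`IsIntegralClosure.finite`). A height one prime `P` of `O`
gives the place `f ↦ -WithZero.log (P.valuation K f)` in `FinSet k K`. Conversely a place
`v ∈ FinSet k K` is `≥ 0` on `O`, its centre `{f ∈ O | v.Ge f 1}` is a nonzero prime `P` (nonzero
since `v` is nontrivial on `K = Frac O`), `v` vanishes on `O \ P`, every `f ≠ 0` is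
`π ^ m * a / b` with `π` a uniformiser in `O` and `a, b ∈ O \ P`, so `v.ord = v.ord π * ord_P`
and `v.ord π = 1` by `v.surj`: the place `v` is the place of `P`. Prove this dictionary first. -/

open IsDedekindDomain

theorem ded_ge_int {v : Place k K} (hv : v ∈ FinSet k K) {f : K} (hf : IsIntegral k[X] f) :
    v.Ge f 0 := by
  by_contra h
  obtain ⟨h0, h1⟩ := Place.not_ge_iff.mp h
  obtain ⟨p, hp, hpf⟩ := hf
  rw [eval₂_eq_sum_range] at hpf
  have hl : algebraMap k[X] K (p.coeff p.natDegree) = 1 := by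
    rw [hp.coeff_natDegree, map_one]
  refine (Place.ord_sum_of_lt (v := v) (i₀ := p.natDegree)
    (f := fun i => algebraMap k[X] K (p.coeff i) * f ^ i) (Finset.self_mem_range_succ _) ?_ ?_).1 hpf
  · rw [hl, one_mul]
    exact pow_ne_zero _ h0
  · intro i hi hne
    rw [hl, one_mul, Place.ord_pow]
    refine ((ge_poly hv _).mul ((v.ge_ord f).pow i)).mono ?_
    have h2 : (i : ℤ) + 1 ≤ p.natDegree := by
      have := Finset.mem_range.mp hi
      omega
    nlinarith

theorem ded_val_le (P : HeightOneSpectrum (FunctionField.ringOfIntegers k K)) {f : K}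
    (hf : IsIntegral k[X] f) : P.valuation K f ≤ 1 :=
  P.valuation_le_one (K := K) ⟨f, hf⟩

theorem ded_int_const (c : k) : IsIntegral k[X] (algebraMap k K c) := by
  rw [IsScalarTower.algebraMap_apply k k[X] K]
  exact isIntegral_algebraMap

/-- the place of a height one prime -/
noncomputable def ded_pl (P : HeightOneSpectrum (FunctionField.ringOfIntegers k K)) :
    Place k K where
  ord f := -WithZero.log (P.valuation K f)
  ord_zero := by simp
  ord_mul hf hg := by
    rw [map_mul, WithZero.log_mul ((Valuation.ne_zero_iff _).mpr hf)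
      ((Valuation.ne_zero_iff _).mpr hg), neg_add]
  ord_add {f g} hf hg h := by
    rcases le_max_iff.mp ((P.valuation K).map_add f g) with h1 | h1
    · exact (min_le_left _ _).trans (neg_le_neg ((WithZero.log_le_log
        ((Valuation.ne_zero_iff _).mpr h) ((Valuation.ne_zero_iff _).mpr hf)).mpr h1))
    · exact (min_le_right _ _).trans (neg_le_neg ((WithZero.log_le_log
        ((Valuation.ne_zero_iff _).mpr h) ((Valuation.ne_zero_iff _).mpr hg)).mpr h1))
  ord_const c := by
    by_cases hc : c = 0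
    · simp [hc]
    have h1 : P.valuation K (algebraMap k K c) * P.valuation K (algebraMap k K c⁻¹) = 1 := by
      rw [← map_mul, ← map_mul, mul_inv_cancel₀ hc, map_one, map_one]
    rw [eq_one_of_one_le_mul_left (ded_val_le P (ded_int_const c))
      (ded_val_le P (ded_int_const c⁻¹)) h1.ge]
    simp
  surj := by
    obtain ⟨t, ht⟩ := P.valuation_exists_uniformizer K
    refine ⟨t, (Valuation.ne_zero_iff (P.valuation K)).mp ?_, ?_⟩
    · rw [ht]
      exact WithZero.exp_ne_zero
    · rw [ht]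
      simp

theorem ded_ge_iff (P : HeightOneSpectrum (FunctionField.ringOfIntegers k K)) (f : K) (m : ℤ) :
    (ded_pl P).Ge f m ↔ P.valuation K f ≤ WithZero.exp (-m) := by
  by_cases hf : f = 0
  · simp [hf]
  rw [Place.ge_iff hf, ← WithZero.log_le_iff_le_exp ((Valuation.ne_zero_iff _).mpr hf)]
  exact le_neg

theorem ded_ge_iff_mem (P : HeightOneSpectrum (FunctionField.ringOfIntegers k K))
    (a : FunctionField.ringOfIntegers k K) (n : ℕ) :
    (ded_pl P).Ge (a : K) n ↔ a ∈ P.asIdeal ^ n := by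
  rw [ded_ge_iff, ← P.intValuation_le_pow_iff_mem, ← P.valuation_of_algebraMap (K := K)]
  rfl

theorem ded_ge_one (P : HeightOneSpectrum (FunctionField.ringOfIntegers k K))
    (a : FunctionField.ringOfIntegers k K) : (ded_pl P).Ge (a : K) 1 ↔ a ∈ P.asIdeal := by
  have := ded_ge_iff_mem P a 1
  rwa [pow_one, Nat.cast_one] at this

theorem ded_mem (P : HeightOneSpectrum (FunctionField.ringOfIntegers k K)) :
    ded_pl P ∈ FinSet k K := by
  refine ((ded_ge_iff P (xx k K) 0).mpr ?_).le xx_ne_zero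
  rw [neg_zero, WithZero.exp_zero]
  exact ded_val_le P isIntegral_algebraMap

theorem ded_unif (P : HeightOneSpectrum (FunctionField.ringOfIntegers k K)) :
    ∃ t : FunctionField.ringOfIntegers k K, (t : K) ≠ 0 ∧ (ded_pl P).ord t = 1 := by
  obtain ⟨t, ht⟩ := P.valuation_exists_uniformizer' K
  have ht' : P.valuation K (t : K) = WithZero.exp (-1) := ht
  refine ⟨t, (Valuation.ne_zero_iff (P.valuation K)).mp ?_, ?_⟩
  · rw [ht']
    exact WithZero.exp_ne_zero
  · show -WithZero.log (P.valuation K (t : K)) = 1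
    rw [ht']
    simp

theorem ded_ord_zero {v : Place k K} (hv : v ∈ FinSet k K) {f : K} (hf : IsIntegral k[X] f)
    (h : ¬ v.Ge f 1) : f ≠ 0 ∧ v.ord f = 0 := by
  obtain ⟨h0, h1⟩ := Place.not_ge_iff.mp h
  have := (ded_ge_int hv hf).le h0
  exact ⟨h0, by omega⟩

/-- the centre of a finite place -/
def ded_ctr (v : Place k K) (hv : v ∈ FinSet k K) : Ideal (FunctionField.ringOfIntegers k K) where
  carrier := {a | v.Ge (a : K) 1}
  add_mem' := fun ha hb => Place.Ge.add ha hb
  zero_mem' := v.ge_zero 1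
  smul_mem' := fun c a ha => by
    have := (ded_ge_int hv c.2).mul ha
    rwa [zero_add] at this

theorem ded_surj {v : Place k K} (hv : v ∈ FinSet k K) :
    ∃ P : HeightOneSpectrum (FunctionField.ringOfIntegers k K), ded_pl P = v := by
  have hmem : ∀ a, a ∈ ded_ctr v hv ↔ v.Ge (a : K) 1 := fun _ => Iff.rfl
  obtain ⟨t, ht0, ht1⟩ := v.surj
  have hprime : (ded_ctr v hv).IsPrime := by
    refine ⟨fun h => ?_, fun {a b} hab => ?_⟩
    · have h1 : v.Ge (1 : K) 1 := (hmem 1).mp (h ▸ Submodule.mem_top)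
      have := h1.le one_ne_zero
      simp at this
    · by_contra hc
      rw [not_or, hmem, hmem] at hc
      obtain ⟨ha0, ha⟩ := ded_ord_zero hv a.2 hc.1
      obtain ⟨hb0, hb⟩ := ded_ord_zero hv b.2 hc.2
      have h1 : v.Ge ((a : K) * b) 1 := (hmem _).mp hab
      have h2 := h1.le (mul_ne_zero ha0 hb0)
      rw [v.ord_mul ha0 hb0] at h2
      omega
  have hne : ded_ctr v hv ≠ ⊥ := by
    obtain ⟨a, b, hb, hab⟩ := IsFractionRing.div_surjective (A := FunctionField.ringOfIntegers k K) t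
    have hab' : (a : K) / (b : K) = t := hab
    have hb0 : (b : K) ≠ 0 := fun h => ht0 (by rw [← hab', h, div_zero])
    have ha0 : (a : K) ≠ 0 := fun h => ht0 (by rw [← hab', h, zero_div])
    rw [← hab', v.ord_div ha0 hb0] at ht1
    have h1 := (ded_ge_int hv b.2).le hb0
    rw [Submodule.ne_bot_iff]
    exact ⟨a, (hmem a).mpr (Or.inr (by omega)), fun h => ha0 (by rw [h]; rfl)⟩
  set P : HeightOneSpectrum (FunctionField.ringOfIntegers k K) := ⟨ded_ctr v hv, hprime, hne⟩
    with hP
  have hA : ∀ f : K, f ≠ 0 → (ded_pl P).ord f = 0 → v.ord f = 0 := fun f hf h0 => by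
    have h1 : P.valuation K f ≤ 1 := by
      have := (ded_ge_iff P f 0).mp (Or.inr h0.ge)
      rwa [neg_zero, WithZero.exp_zero] at this
    obtain ⟨n, d, hnd⟩ := P.exists_primeCompl_mul_eq_of_integer f h1
    have hnd' : f * (d.1 : K) = (n : K) := hnd
    have hd : d.1 ∉ P.asIdeal := d.2
    obtain ⟨hd0, hd1⟩ := ded_ord_zero hv d.1.2 fun h => hd ((hmem _).mpr h)
    obtain ⟨-, hd2⟩ := ded_ord_zero (ded_mem P) d.1.2 fun h => hd ((ded_ge_one P _).mp h)
    have hn0 : (n : K) ≠ 0 := hnd' ▸ mul_ne_zero hf hd0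
    have hn : n ∉ P.asIdeal := fun h => by
      have := ((ded_ge_one P n).mpr h).le hn0
      rw [← hnd', (ded_pl P).ord_mul hf hd0] at this
      omega
    obtain ⟨-, hn1⟩ := ded_ord_zero hv n.2 fun h => hn ((hmem _).mpr h)
    rw [← hnd', v.ord_mul hf hd0] at hn1
    omega
  obtain ⟨u, hu0, hu1⟩ := ded_unif P
  have hB : ∀ f : K, f ≠ 0 → v.ord f = (ded_pl P).ord f * v.ord u := fun f hf => by
    have hz : (u : K) ^ (ded_pl P).ord f ≠ 0 := zpow_ne_zero _ hu0
    have := hA (f / (u : K) ^ (ded_pl P).ord f) (div_ne_zero hf hz) (by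
      rw [(ded_pl P).ord_div hf hz, Place.ord_zpow, hu1]
      ring)
    rw [v.ord_div hf hz, Place.ord_zpow] at this
    omega
  have hu2 : v.ord u = 1 :=
    Int.eq_one_of_mul_eq_one_left ((ded_ge_int hv u.2).le hu0) ((hB t ht0).symm.trans ht1)
  refine ⟨P, Place.ext (funext fun f => ?_)⟩
  by_cases hf : f = 0
  · simp [hf]
  · rw [hB f hf, hu2, mul_one]

theorem ded_crt (T : Finset (Place k K)) (hT : ∀ v ∈ T, v ∈ FinSet k K) (n : Place k K → ℕ) :
    ∃ y : K, IsIntegral k[X] y ∧ y ≠ 0 ∧ ∀ v ∈ T, v.ord y = n v := by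
  rcases T.eq_empty_or_nonempty with rfl | ⟨v0, hv0⟩
  · exact ⟨1, isIntegral_one, one_ne_zero, by simp⟩
  choose P hP using fun v : T => ded_surj (hT v.1 v.2)
  choose u hu0 hu1 using fun v : T => ded_unif (P v)
  obtain ⟨y, hy⟩ := IsDedekindDomain.exists_forall_sub_mem_ideal (s := Finset.univ)
    (fun v : T => (P v).asIdeal) (fun v => n v.1 + 1) (fun v _ => (P v).prime)
    (fun v _ w _ hvw h => hvw (Subtype.ext (by
      rw [← hP v, ← hP w, HeightOneSpectrum.ext h]))) (fun v => u v.1 ^ n v.1.1)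
  have key : ∀ v (hv : v ∈ T), (y : K) ≠ 0 ∧ v.ord y = n v := fun v hv => by
    have h1 := (ded_ge_iff_mem _ _ _).mpr (hy ⟨v, hv⟩ (Finset.mem_univ _))
    have h2 := hu1 ⟨v, hv⟩
    rw [hP] at h1 h2
    have h3 : v.ord ((u ⟨v, hv⟩ : K) ^ n v) = n v := by
      rw [Place.ord_pow, h2, mul_one]
    have h4 := Place.ord_add_of_ge (v := v) (pow_ne_zero (n v) (hu0 ⟨v, hv⟩))
      (g := (y : K) - (u ⟨v, hv⟩ : K) ^ n v) (by
        rw [h3]
        exact_mod_cast h1)
    rwa [add_sub_cancel, h3] at h4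
  exact ⟨y, y.2, (key v0 hv0).1, fun v hv => (key v hv).2⟩

/-- integral elements are those without poles at finite places
(`HeightOneSpectrum.mem_integers_of_valuation_le_one`) -/
theorem isIntegral_iff_ge (f : K) : IsIntegral k[X] f ↔ ∀ v ∈ FinSet k K, v.Ge f 0 := by
  refine ⟨fun hf v hv => ded_ge_int hv hf, fun h => ?_⟩
  obtain ⟨a, ha⟩ := HeightOneSpectrum.mem_integers_of_valuation_le_one
    (R := FunctionField.ringOfIntegers k K) K f fun P => by
      have := (ded_ge_iff P f 0).mp (h _ (ded_mem P))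
      rwa [neg_zero, WithZero.exp_zero] at this
  rw [← ha]
  exact a.2

theorem finite_finSet (f : K) : {v : Place k K | v ∈ FinSet k K ∧ v.ord f ≠ 0}.Finite := by
  refine (((HeightOneSpectrum.Support.finite (FunctionField.ringOfIntegers k K) f).union
    (HeightOneSpectrum.Support.finite (FunctionField.ringOfIntegers k K) f⁻¹)).image
    ded_pl).subset ?_
  rintro v ⟨hv, h0⟩
  obtain ⟨P, rfl⟩ := ded_surj hv
  refine ⟨P, ?_, rfl⟩
  have hf : f ≠ 0 := fun h => h0 (by simp [h])
  have key : ∀ g : K, g ≠ 0 → (ded_pl P).ord g < 0 → 1 < P.valuation K g := fun g hg h => by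
    have := mt (ded_ge_iff P g 0).mpr (Place.not_ge_iff.mpr ⟨hg, h⟩)
    rwa [neg_zero, WithZero.exp_zero, not_le] at this
  rcases lt_or_gt_of_ne h0 with h | h
  · exact Or.inl (key f hf h)
  · exact Or.inr (key f⁻¹ (inv_ne_zero hf) (by rw [Place.ord_inv]; omega))

/-- Approximation. Choose `c ∈ O`, `c ≠ 0`, with `-m v ≤ v.ord c` on `S`; by the Chinese remainder
theorem (`IsDedekindDomain.exists_forall_sub_mem_ideal`) choose `y ∈ O` of order exactly
`m v + v.ord c` at `v ∈ S` and `v.ord c` at the other zeros of `c`; take `f = y / c`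
(make sure `y ≠ 0`). -/
theorem approx (S : Finset (Place k K)) (hS : ∀ v ∈ S, v ∈ FinSet k K) (m : Place k K → ℤ) :
    ∃ f : K, f ≠ 0 ∧ (∀ v ∈ S, v.ord f = m v) ∧ ∀ v ∈ FinSet k K, v ∉ S → 0 ≤ v.ord f := by
  classical
  obtain ⟨c, hc, hc0, hcS⟩ := ded_crt S hS fun v => (-m v).toNat
  obtain ⟨y, hy, hy0, hyT⟩ := ded_crt (S ∪ (finite_finSet (k := k) c).toFinset) (fun v hv => by
    rcases Finset.mem_union.mp hv with h | h
    · exact hS v h
    · exact ((finite_finSet (k := k) c).mem_toFinset.mp h).1)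
    fun v => if v ∈ S then (m v + v.ord c).toNat else (v.ord c).toNat
  refine ⟨y / c, div_ne_zero hy0 hc0, fun v hv => ?_, fun v hv hvS => ?_⟩
  · have h1 := hyT v (Finset.mem_union_left _ hv)
    have h2 := hcS v hv
    rw [if_pos hv] at h1
    rw [v.ord_div hy0 hc0]
    omega
  · rw [v.ord_div hy0 hc0]
    by_cases h : v.ord c = 0
    · have := (ded_ge_int hv hy).le hy0
      omega
    · have h1 := hyT v (Finset.mem_union_right _
        ((finite_finSet (k := k) c).mem_toFinset.mpr ⟨hv, h⟩))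
      rw [if_neg hvS] at h1
      omega

/-- every proper ideal of the integral closure lies in the centre of a finite place -/
theorem exists_place_of_ideal (A : Set K) (hA : ∀ a ∈ A, IsIntegral k[X] a) (h0 : 0 ∈ A)
    (hadd : ∀ a ∈ A, ∀ b ∈ A, a + b ∈ A) (hmul : ∀ a ∈ A, ∀ b, IsIntegral k[X] b → b * a ∈ A)
    (h1 : 1 ∉ A) : ∃ v ∈ FinSet k K, ∀ a ∈ A, v.Ge a 1 := by
  let I : Ideal (FunctionField.ringOfIntegers k K) :=
    { carrier := {a | (a : K) ∈ A}
      add_mem' := fun ha hb => hadd _ ha _ hb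
      zero_mem' := h0
      smul_mem' := fun c a ha => hmul _ ha _ c.2 }
  have hI : I ≠ ⊤ := fun h => h1 (show (1 : FunctionField.ringOfIntegers k K) ∈ I from
    h ▸ Submodule.mem_top)
  obtain ⟨M, hM, hIM⟩ := Ideal.exists_le_maximal I hI
  have hM0 : M ≠ ⊥ :=
    Ring.ne_bot_of_isMaximal_of_not_isField hM (FunctionField.ringOfIntegers.not_isField k K)
  exact ⟨ded_pl ⟨M, hM.isPrime, hM0⟩, ded_mem _, fun a ha =>
    (ded_ge_one ⟨M, hM.isPrime, hM0⟩ ⟨a, hA a ha⟩).mpr (hIM ha)⟩

theorem exists_gens : ∃ s : Finset K, ∀ f : K,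
    IsIntegral k[X] f ↔ f ∈ Submodule.span k[X] (s : Set K) := by
  have h1 : (Subalgebra.toSubmodule (FunctionField.ringOfIntegers k K)).FG :=
    Module.Finite.iff_fg.mp
      (inferInstanceAs (Module.Finite k[X] (FunctionField.ringOfIntegers k K)))
  obtain ⟨s, hs⟩ := h1
  exact ⟨s, fun f => by rw [hs]; rfl⟩

theorem exists_smul_isIntegral (f : K) : ∃ c : k[X], c ≠ 0 ∧ IsIntegral k[X] (c • f) := by
  have h1 : IsAlgebraic k[X] f :=
    (IsFractionRing.isAlgebraic_iff k[X] (RatFunc k) K).mpr (Algebra.IsAlgebraic.isAlgebraic f)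
  exact h1.exists_integral_multiple

end Pool.Agent.Lib.MP_a01f70_lc.QQ
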