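import Mathlib

/-!
Places, divisors, Riemann-Roch spaces and automorphisms of a field extension `K / k`.
-/

set_option linter.unusedSectionVars false

namespace Pool.Agent.Lib.MP_a01f70_lc.QQ
open Module

/-- a normalised discrete valuation of `K` that is trivial on `k` (junk value `0` at `0`) -/
@[ext] structure Place (k K : Type*) [Field k] [Field K] [Algebra k K] where
  ord : K → ℤ
  ord_zero : ord 0 = 0
  ord_mul : ∀ {f g : K}, f ≠ 0 → g ≠ 0 → ord (f * g) = ord f + ord g
  ord_add : ∀ {f g : K}, f ≠ 0 → g ≠ 0 → f + g ≠ 0 → min (ord f) (ord g) ≤ ord (f + g)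
  ord_const : ∀ c : k, ord (algebraMap k K c) = 0
  surj : ∃ t : K, t ≠ 0 ∧ ord t = 1

variable {k K : Type*} [Field k] [Field K] [Algebra k K]

namespace Place
variable (v : Place k K)

/-- `f` vanishes to order at least `m` at `v` -/
def Ge (f : K) (m : ℤ) : Prop := f = 0 ∨ m ≤ v.ord f

@[simp] lemma ord_zero' : v.ord 0 = 0 := v.ord_zero

@[simp] lemma ord_one : v.ord 1 = 0 := by simpa using v.ord_const 1

@[simp] lemma ord_const' (c : k) : v.ord (algebraMap k K c) = 0 := v.ord_const c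

@[simp] lemma ord_neg (f : K) : v.ord (-f) = v.ord f := by
  by_cases hf : f = 0
  · simp [hf]
  · have h1 : v.ord (-1 : K) = 0 := by simpa using v.ord_const (-1)
    rw [← neg_one_mul, v.ord_mul (by simp) hf, h1, zero_add]

@[simp] lemma ord_inv (f : K) : v.ord f⁻¹ = -v.ord f := by
  by_cases hf : f = 0
  · simp [hf]
  · have := v.ord_mul hf (inv_ne_zero hf)
    rw [mul_inv_cancel₀ hf, ord_one] at this
    omega

lemma ord_div {f g : K} (hf : f ≠ 0) (hg : g ≠ 0) : v.ord (f / g) = v.ord f - v.ord g := by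
  rw [div_eq_mul_inv, v.ord_mul hf (inv_ne_zero hg), ord_inv, sub_eq_add_neg]

@[simp] lemma ord_pow (f : K) (m : ℕ) : v.ord (f ^ m) = m * v.ord f := by
  by_cases hf : f = 0
  · cases m <;> simp [hf]
  induction m with
  | zero => simp
  | succ m ih =>
    rw [pow_succ, v.ord_mul (pow_ne_zero _ hf) hf, ih]
    push_cast
    ring

@[simp] lemma ord_zpow (f : K) (m : ℤ) : v.ord (f ^ m) = m * v.ord f := by
  cases m with
  | ofNat m => simp
  | negSucc m =>
    rw [zpow_negSucc, ord_inv, ord_pow, Int.negSucc_eq]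
    push_cast
    ring

lemma ord_smul {c : k} (hc : c ≠ 0) (f : K) : v.ord (c • f) = v.ord f := by
  by_cases hf : f = 0
  · simp [hf]
  · rw [Algebra.smul_def, v.ord_mul (by simpa using hc) hf]
    simp

lemma ord_prod {ι : Type*} (s : Finset ι) (f : ι → K) (h : ∀ i ∈ s, f i ≠ 0) :
    v.ord (∏ i ∈ s, f i) = ∑ i ∈ s, v.ord (f i) := by
  classical
  induction s using Finset.induction_on with
  | empty => simp
  | insert a s ha ih =>
    rw [Finset.prod_insert ha, Finset.sum_insert ha, v.ord_mul (h a (by simp))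
      (Finset.prod_ne_zero_iff.mpr fun i hi => h i (by simp [hi])), ih fun i hi => h i (by simp [hi])]

lemma exists_ord_eq (m : ℤ) : ∃ t : K, t ≠ 0 ∧ v.ord t = m := by
  obtain ⟨t, h0, h1⟩ := v.surj
  exact ⟨t ^ m, zpow_ne_zero _ h0, by simp [h1]⟩

@[simp] lemma ge_zero (m : ℤ) : v.Ge 0 m := Or.inl rfl

lemma ge_ord (f : K) : v.Ge f (v.ord f) := Or.inr le_rfl

lemma ge_const (c : k) : v.Ge (algebraMap k K c) 0 := Or.inr (by simp)

lemma ge_one : v.Ge 1 0 := Or.inr (by simp)

variable {v}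

lemma ge_iff {f : K} (hf : f ≠ 0) {m : ℤ} : v.Ge f m ↔ m ≤ v.ord f := by simp [Ge, hf]

lemma Ge.le {f : K} {m : ℤ} (h : v.Ge f m) (hf : f ≠ 0) : m ≤ v.ord f := (ge_iff hf).mp h

lemma Ge.of_le {f : K} {m : ℤ} (h : m ≤ v.ord f) : v.Ge f m := Or.inr h

lemma Ge.mono {f : K} {m m' : ℤ} (h : v.Ge f m) (hm : m' ≤ m) : v.Ge f m' :=
  h.imp id hm.trans

lemma not_ge_iff {f : K} {m : ℤ} : ¬ v.Ge f m ↔ f ≠ 0 ∧ v.ord f < m := by simp [Ge]

lemma Ge.add {f g : K} {m : ℤ} (hf : v.Ge f m) (hg : v.Ge g m) : v.Ge (f + g) m := by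
  by_cases h1 : f = 0
  · simpa [h1] using hg
  by_cases h2 : g = 0
  · simpa [h2] using hf
  by_cases h3 : f + g = 0
  · exact Or.inl h3
  exact Or.inr ((le_min (hf.le h1) (hg.le h2)).trans (v.ord_add h1 h2 h3))

lemma Ge.neg {f : K} {m : ℤ} (hf : v.Ge f m) : v.Ge (-f) m := by
  rcases hf with h | h
  · simp [h]
  · exact Or.inr (by simpa using h)

lemma Ge.sub {f g : K} {m : ℤ} (hf : v.Ge f m) (hg : v.Ge g m) : v.Ge (f - g) m := by
  rw [sub_eq_add_neg]
  exact hf.add hg.neg

lemma Ge.mul {f g : K} {m m' : ℤ} (hf : v.Ge f m) (hg : v.Ge g m') : v.Ge (f * g) (m + m') := by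
  by_cases h1 : f = 0
  · simp [h1]
  by_cases h2 : g = 0
  · simp [h2]
  exact Or.inr (by rw [v.ord_mul h1 h2]; exact add_le_add (hf.le h1) (hg.le h2))

lemma Ge.pow {f : K} {m : ℤ} (hf : v.Ge f m) (e : ℕ) : v.Ge (f ^ e) (e * m) := by
  induction e with
  | zero => simpa using v.ge_one
  | succ e ih =>
    rw [pow_succ]
    convert ih.mul hf using 1
    push_cast
    ring

lemma Ge.smul {f : K} {m : ℤ} (hf : v.Ge f m) (c : k) : v.Ge (c • f) m := by
  rw [Algebra.smul_def]
  simpa using (v.ge_const c).mul hf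

lemma Ge.sum {ι : Type*} {s : Finset ι} {f : ι → K} {m : ℤ} (h : ∀ i ∈ s, v.Ge (f i) m) :
    v.Ge (∑ i ∈ s, f i) m :=
  Finset.sum_induction f (fun a => v.Ge a m) (fun _ _ => Ge.add) (v.ge_zero m) h

lemma ge_mul_iff {f g : K} (hg : g ≠ 0) {m : ℤ} : v.Ge (f * g) m ↔ v.Ge f (m - v.ord g) := by
  by_cases hf : f = 0
  · simp [hf]
  · rw [ge_iff (mul_ne_zero hf hg), ge_iff hf, v.ord_mul hf hg]
    omega

/-- a term of strictly smallest order determines the order of a sum -/
lemma ord_add_of_ge {f g : K} (hf : f ≠ 0) (hg : v.Ge g (v.ord f + 1)) :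
    f + g ≠ 0 ∧ v.ord (f + g) = v.ord f := by
  have h1 : ¬ v.Ge (f + g) (v.ord f + 1) := fun h => by
    have := (h.sub hg).le (by simpa using hf)
    rw [add_sub_cancel_right] at this
    omega
  obtain ⟨h2, h3⟩ := not_ge_iff.mp h1
  have := ((v.ge_ord f).add (hg.mono (by omega))).le h2
  exact ⟨h2, by omega⟩

/-- a sum with one term of strictly smallest order -/
lemma ord_sum_of_lt {ι : Type*} {s : Finset ι} {f : ι → K} {i₀ : ι} (hi : i₀ ∈ s) (h0 : f i₀ ≠ 0)
    (h : ∀ i ∈ s, i ≠ i₀ → v.Ge (f i) (v.ord (f i₀) + 1)) :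
    ∑ i ∈ s, f i ≠ 0 ∧ v.ord (∑ i ∈ s, f i) = v.ord (f i₀) := by
  classical
  rw [← Finset.add_sum_erase s f hi]
  exact ord_add_of_ge h0 (Ge.sum fun i hi => h i (Finset.mem_of_mem_erase hi)
    (Finset.ne_of_mem_erase hi))

/-- a constant of positive order is zero -/
lemma const_eq_zero_of_ge {c : k} (h : v.Ge (algebraMap k K c) 1) : c = 0 := by
  rcases h with h | h
  · simpa using h
  · simp at h

/-- elements of the `k`-algebra generated by elements of nonnegative order -/
lemma ge_of_mem_adjoin {s : Set K} (hs : ∀ a ∈ s, v.Ge a 0) {f : K} (hf : f ∈ Algebra.adjoin k s) :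
    v.Ge f 0 := by
  induction hf using Algebra.adjoin_induction with
  | mem a ha => exact hs a ha
  | algebraMap c => exact v.ge_const c
  | add a b _ _ ha hb => exact ha.add hb
  | mul a b _ _ ha hb => simpa using ha.mul hb

end Place

variable (k K) in
/-- divisors -/
abbrev Div := Place k K →₀ ℤ

/-- degree of a divisor -/
noncomputable abbrev deg : Div k K →+ ℤ := Finsupp.degree

/-- functions with poles bounded by `D` at the places of `S` -/
def LS (S : Set (Place k K)) (D : Div k K) : Submodule k K where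
  carrier := {f | ∀ v ∈ S, v.Ge f (-D v)}
  add_mem' := fun hf hg v hv => (hf v hv).add (hg v hv)
  zero_mem' := fun v _ => v.ge_zero _
  smul_mem' := fun c _ hf v hv => (hf v hv).smul c

/-- the Riemann-Roch space -/
def L (D : Div k K) : Submodule k K := LS Set.univ D

/-- dimension of the Riemann-Roch space -/
noncomputable def ell (D : Div k K) : ℕ := finrank k (L D)

lemma mem_LS {S : Set (Place k K)} {D : Div k K} {f : K} :
    f ∈ LS S D ↔ ∀ v ∈ S, v.Ge f (-D v) := Iff.rfl

lemma mem_L {D : Div k K} {f : K} : f ∈ L D ↔ ∀ v : Place k K, v.Ge f (-D v) := by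
  simp [L, mem_LS]

lemma LS_mono {S S' : Set (Place k K)} {D D' : Div k K} (hS : S' ⊆ S) (h : ∀ v ∈ S', D v ≤ D' v) :
    LS S D ≤ LS S' D' := fun _ hf v hv => (hf v (hS hv)).mono (neg_le_neg (h v hv))

lemma L_mono {D D' : Div k K} (h : D ≤ D') : L D ≤ L D' := LS_mono le_rfl fun v _ => h v

lemma L_le_LS (S : Set (Place k K)) (D : Div k K) : L D ≤ LS S D :=
  LS_mono (Set.subset_univ _) fun _ _ => le_rfl

lemma LS_congr {S : Set (Place k K)} {D D' : Div k K} (h : ∀ v ∈ S, D v = D' v) :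
    LS S D = LS S D' :=
  le_antisymm (LS_mono le_rfl fun v hv => (h v hv).le) (LS_mono le_rfl fun v hv => (h v hv).ge)

lemma mul_mem_LS {S : Set (Place k K)} {D D' : Div k K} {f g : K} (hf : f ∈ LS S D)
    (hg : g ∈ LS S D') : f * g ∈ LS S (D + D') := fun v hv => by
  have := (hf v hv).mul (hg v hv)
  rwa [← neg_add] at this

variable (k K) in
/-- every function has finitely many zeros and poles -/
def FinPl : Prop := ∀ f : K, (Function.support fun v : Place k K => v.ord f).Finite

variable (k K) in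
/-- every place has residue field `k` -/
def ResPl : Prop :=
  ∀ (v : Place k K) (f : K), v.Ge f 0 → ∃ c : k, v.Ge (f - algebraMap k K c) 1

open Classical in
/-- the divisor of a function -/
noncomputable def dv (f : K) : Div k K :=
  if h : (Function.support fun v : Place k K => v.ord f).Finite then Finsupp.ofSupportFinite _ h
  else 0

lemma dv_apply (h : FinPl k K) (f : K) (v : Place k K) : dv f v = v.ord f := by
  rw [dv, dif_pos (h f)]
  rfl

lemma dv_mul (h : FinPl k K) {f g : K} (hf : f ≠ 0) (hg : g ≠ 0) :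
    (dv (f * g) : Div k K) = dv f + dv g := by
  ext v
  simp [dv_apply h, v.ord_mul hf hg]

lemma dv_inv (h : FinPl k K) (f : K) : (dv f⁻¹ : Div k K) = -dv f := by
  ext v
  simp [dv_apply h]

lemma dv_div (h : FinPl k K) {f g : K} (hf : f ≠ 0) (hg : g ≠ 0) :
    (dv (f / g) : Div k K) = dv f - dv g := by
  ext v
  simp [dv_apply h, v.ord_div hf hg]

lemma dv_pow (h : FinPl k K) (f : K) (m : ℕ) : (dv (f ^ m) : Div k K) = m • dv f := by
  ext v
  simp [dv_apply h]

lemma dv_zpow (h : FinPl k K) (f : K) (m : ℤ) : (dv (f ^ m) : Div k K) = m • dv f := by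
  ext v
  simp [dv_apply h]

lemma dv_const (h : FinPl k K) (c : k) : (dv (algebraMap k K c) : Div k K) = 0 := by
  ext v
  simp [dv_apply h]

lemma dv_one (h : FinPl k K) : (dv (1 : K) : Div k K) = 0 := by
  ext v
  simp [dv_apply h]

lemma mul_mem_LS_iff (h : FinPl k K) {S : Set (Place k K)} {D : Div k K} {f g : K} (hg : g ≠ 0) :
    f * g ∈ LS S D ↔ f ∈ LS S (D + dv g) := by
  simp only [mem_LS, Place.ge_mul_iff hg, Finsupp.add_apply, dv_apply h, neg_add', sub_eq_add_neg]

lemma mem_L_iff_dv (h : FinPl k K) {D : Div k K} {f : K} (hf : f ≠ 0) :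
    f ∈ L D ↔ 0 ≤ D + dv f := by
  simp only [mem_L, Place.ge_iff hf, Finsupp.le_def, Finsupp.add_apply, dv_apply h,
    Finsupp.zero_apply]
  exact forall_congr' fun v => by omega

lemma deg_single (v : Place k K) (m : ℤ) : deg (Finsupp.single v m) = m := Finsupp.degree_single v m

lemma deg_nonneg {D : Div k K} (h : 0 ≤ D) : 0 ≤ deg D :=
  Finset.sum_nonneg fun v _ => h v

lemma deg_mono {D D' : Div k K} (h : D ≤ D') : deg D ≤ deg D' := by
  have := deg_nonneg (sub_nonneg.mpr h)
  rw [map_sub] at this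
  omega

lemma apply_le_deg {D : Div k K} (h : 0 ≤ D) (v : Place k K) : D v ≤ deg D := by
  classical
  have := deg_mono (D := Finsupp.single v (D v)) (D' := D) fun w => by
    rw [Finsupp.single_apply]
    split_ifs with hw
    · rw [hw]
    · exact h w
  rwa [deg_single] at this

lemma eq_zero_of_deg_le {D : Div k K} (h : 0 ≤ D) (h0 : deg D ≤ 0) : D = 0 := by
  ext v
  exact le_antisymm ((apply_le_deg h v).trans h0) (h v)

lemma deg_eq_sum (D : Div k K) {s : Finset (Place k K)} (hs : D.support ⊆ s) :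
    deg D = ∑ v ∈ s, D v :=
  Finset.sum_subset hs fun _ _ h => Finsupp.notMem_support_iff.mp h

variable (k K) in
/-- automorphisms of the pair `k ⊆ K` -/
@[ext] structure Aut where
  σ : K ≃+* K
  σ₀ : k ≃+* k
  map_const : ∀ c, σ (algebraMap k K c) = algebraMap k K (σ₀ c)

namespace Aut

instance : Mul (Aut k K) :=
  ⟨fun a b => ⟨a.σ * b.σ, a.σ₀ * b.σ₀, fun c => by
    show a.σ (b.σ _) = algebraMap k K (a.σ₀ (b.σ₀ c))
    rw [b.map_const, a.map_const]⟩⟩

instance : One (Aut k K) := ⟨⟨1, 1, fun _ => rfl⟩⟩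

instance : Inv (Aut k K) :=
  ⟨fun a => ⟨a.σ⁻¹, a.σ₀⁻¹, fun c => by
    show a.σ.symm _ = algebraMap k K (a.σ₀.symm c)
    rw [RingEquiv.symm_apply_eq, a.map_const, RingEquiv.apply_symm_apply]⟩⟩

instance : Group (Aut k K) :=
  Group.ofLeftAxioms (fun _ _ _ => Aut.ext (mul_assoc _ _ _) (mul_assoc _ _ _))
    (fun _ => Aut.ext (one_mul _) (one_mul _))
    (fun _ => Aut.ext (inv_mul_cancel _) (inv_mul_cancel _))

variable (a b : Aut k K)

@[simp] lemma mul_σ (f : K) : (a * b).σ f = a.σ (b.σ f) := rfl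
@[simp] lemma mul_σ₀ (c : k) : (a * b).σ₀ c = a.σ₀ (b.σ₀ c) := rfl
@[simp] lemma one_σ (f : K) : (1 : Aut k K).σ f = f := rfl
@[simp] lemma one_σ₀ (c : k) : (1 : Aut k K).σ₀ c = c := rfl
@[simp] lemma inv_σ (f : K) : a⁻¹.σ f = a.σ.symm f := rfl
@[simp] lemma inv_σ₀ (c : k) : a⁻¹.σ₀ c = a.σ₀.symm c := rfl

lemma map_smul (c : k) (f : K) : a.σ (c • f) = a.σ₀ c • a.σ f := by
  rw [Algebra.smul_def, Algebra.smul_def, map_mul, a.map_const]

/-- the image of a place -/
def act (v : Place k K) : Place k K where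
  ord f := v.ord (a.σ.symm f)
  ord_zero := by simp
  ord_mul hf hg := by
    rw [map_mul]
    exact v.ord_mul (by simpa using hf) (by simpa using hg)
  ord_add hf hg h := by
    rw [map_add]
    exact v.ord_add (by simpa using hf) (by simpa using hg) (by rwa [← map_add, ne_eq, map_eq_zero])
  ord_const c := by
    have := a⁻¹.map_const c
    rw [inv_σ] at this
    rw [this, v.ord_const]
  surj := by
    obtain ⟨t, h0, h1⟩ := v.surj
    exact ⟨a.σ t, by simpa using h0, by simpa using h1⟩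

instance : MulAction (Aut k K) (Place k K) where
  smul := act
  one_smul _ := rfl
  mul_smul _ _ _ := rfl

lemma smul_ord (v : Place k K) (f : K) : (a • v).ord f = v.ord (a.σ.symm f) := rfl

@[simp] lemma smul_ord_σ (v : Place k K) (f : K) : (a • v).ord (a.σ f) = v.ord f := by
  rw [smul_ord, RingEquiv.symm_apply_apply]

lemma ord_σ (v : Place k K) (f : K) : v.ord (a.σ f) = (a⁻¹ • v).ord f := rfl

@[simp] lemma smul_ge_σ (v : Place k K) (f : K) (m : ℤ) : (a • v).Ge (a.σ f) m ↔ v.Ge f m := by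
  simp [Place.Ge]

/-- the image of a divisor -/
noncomputable def push : Div k K ≃+ Div k K := Finsupp.domCongr (MulAction.toPerm a)

lemma push_apply (D : Div k K) (v : Place k K) : a.push D v = D (a⁻¹ • v) := rfl

@[simp] lemma push_apply_smul (D : Div k K) (v : Place k K) : a.push D (a • v) = D v := by
  rw [push_apply, inv_smul_smul]

@[simp] lemma push_one (D : Div k K) : (1 : Aut k K).push D = D := by
  ext v
  simp [push_apply]

lemma push_mul (D : Div k K) : (a * b).push D = a.push (b.push D) := by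
  ext v
  simp [push_apply, mul_smul]

@[simp] lemma push_single (v : Place k K) (m : ℤ) :
    a.push (Finsupp.single v m) = Finsupp.single (a • v) m := by
  simp [push, Finsupp.domCongr_apply, Finsupp.equivMapDomain_single]

@[simp] lemma deg_push (D : Div k K) : deg (a.push D) = deg D := by
  induction D using Finsupp.induction_linear with
  | zero => simp
  | add f g hf hg => rw [map_add, map_add, map_add, hf, hg]
  | single v m => simp

lemma push_le_push {D D' : Div k K} : a.push D ≤ a.push D' ↔ D ≤ D' :=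
  ⟨fun h v => by simpa using h (a • v), fun h v => h _⟩

lemma push_nonneg {D : Div k K} : 0 ≤ a.push D ↔ 0 ≤ D := by
  have := a.push_le_push (D := 0) (D' := D)
  rwa [map_zero] at this

lemma push_dv (h : FinPl k K) (f : K) : a.push (dv f) = dv (a.σ f) := by
  ext v
  rw [push_apply, dv_apply h, dv_apply h, ord_σ]

lemma σ_mem_LS {S : Set (Place k K)} (hS : ∀ v, a • v ∈ S ↔ v ∈ S) {D : Div k K} {f : K} :
    a.σ f ∈ LS S (a.push D) ↔ f ∈ LS S D := by
  constructor
  · intro h v hv
    simpa using h (a • v) ((hS v).mpr hv)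
  · intro h v hv
    obtain ⟨w, rfl⟩ := (MulAction.surjective a) v
    simpa using h w ((hS w).mp hv)

lemma σ_mem_L {D : Div k K} {f : K} : a.σ f ∈ L (a.push D) ↔ f ∈ L D :=
  a.σ_mem_LS fun _ => by simp

lemma pow_σ₀_of_sq (h : ∀ c, a.σ₀ c = c ^ 2) (m : ℕ) (c : k) : (a ^ m).σ₀ c = c ^ 2 ^ m := by
  induction m with
  | zero => simp
  | succ m ih => rw [pow_succ', mul_σ₀, ih, h, ← pow_mul, ← pow_succ]

lemma pow_σ_of_fixed {x : K} (h : a.σ x = x) (m : ℕ) : (a ^ m).σ x = x := by
  induction m with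
  | zero => simp
  | succ m ih => rw [pow_succ', mul_σ, ih, h]

end Aut

variable (k K) in
/-- the Riemann-Roch theorem for `K / k`, all places being of degree one -/
structure RRData where
  g : ℤ
  Kc : Div k K
  fin : FinPl k K
  res : ResPl k K
  fd : ∀ D : Div k K, FiniteDimensional k (L D)
  degdv : ∀ f : K, deg (dv f : Div k K) = 0
  rr : ∀ D : Div k K, (ell D : ℤ) - ell (Kc - D) = deg D + 1 - g
  ne : Nonempty (Place k K)

end Pool.Agent.Lib.MP_a01f70_lc.QQ
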