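import Pool.Agent.Lib.MP_a01f70_lc.QQ.Even1

/-!
In characteristic two the canonical divisor of the variable is even at the finite places.
-/

set_option linter.unusedSectionVars false

namespace Pool.Agent.Lib.MP_a01f70_lc.QQ
open Module Polynomial

variable {k K : Type*} [Field k] [Field K] [Algebra k K] [Algebra k[X] K] [Algebra (RatFunc k) K]
  [IsScalarTower k k[X] K] [IsScalarTower k[X] (RatFunc k) K] [IsScalarTower k (RatFunc k) K]
  [FiniteDimensional (RatFunc k) K] [CharP k 2]

variable {n : ℕ} {p : Place k K}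

include k in
variable (k) in
lemma even_add_sq (a b : K) : (a + b) ^ 2 = a ^ 2 + b ^ 2 := by
  have : CharP K 2 := charP_of_injective_algebraMap (algebraMap k K).injective 2
  exact add_pow_char a b 2

/-- the two terms have orders of different parity at `p` -/
lemma even_ge_parts (hodd : Odd n) (hp : p.ord (xx k K) = -n) {a b : K} {m : ℤ}
    (h : p.Ge (a ^ 2 + b ^ 2 * xx k K) m) : p.Ge (a ^ 2) m ∧ p.Ge (b ^ 2 * xx k K) m := by
  by_cases ha : a = 0
  · subst ha
    exact ⟨by simp, by simpa using h⟩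
  by_cases hb : b = 0
  · subst hb
    exact ⟨by simpa using h, by simp⟩
  have h1 : a ^ 2 ≠ 0 := pow_ne_zero _ ha
  have h2 : b ^ 2 * xx k K ≠ 0 := mul_ne_zero (pow_ne_zero _ hb) xx_ne_zero
  have e1 : p.ord (a ^ 2) = 2 * p.ord a := by simp
  have e2 : p.ord (b ^ 2 * xx k K) = 2 * p.ord b - n := by
    rw [p.ord_mul (pow_ne_zero _ hb) xx_ne_zero, hp]
    simp [sub_eq_add_neg]
  obtain ⟨j, hj⟩ := hodd
  rcases lt_trichotomy (p.ord (a ^ 2)) (p.ord (b ^ 2 * xx k K)) with h3 | h3 | h3
  · obtain ⟨h4, h5⟩ := Place.ord_add_of_ge (v := p) h1 (g := b ^ 2 * xx k K)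
      (Place.Ge.of_le (by omega))
    have := h.le h4
    exact ⟨Place.Ge.of_le (by omega), Place.Ge.of_le (by omega)⟩
  · omega
  · obtain ⟨h4, h5⟩ := Place.ord_add_of_ge (v := p) h2 (g := a ^ 2) (Place.Ge.of_le (by omega))
    rw [add_comm] at h4 h5
    have := h.le h4
    exact ⟨Place.Ge.of_le (by omega), Place.Ge.of_le (by omega)⟩

lemma even_mem_of_isCan [IsAlgClosed k] {Kc : Div k K} (hK : IsCan Kc) {a b : K}
    (h : a ^ 2 + b ^ 2 * xx k K ∈ LS (FinSet k K) Kc) : b ∈ LS (FinSet k K) Kc := by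
  refine (hK b).2 fun g hg => ?_
  obtain ⟨u, hu⟩ := (hK _).1 h (g ^ 2) (hg.pow 2)
  have hx : xx k K = algebraMap (RatFunc k) K RatFunc.X := by
    rw [xx, ← algebraMap_poly_rat, RatFunc.algebraMap_X]
  have e : g ^ 2 * (a ^ 2 + b ^ 2 * xx k K) =
      (g * a) ^ 2 + (RatFunc.X : RatFunc k) • (g * b) ^ 2 := by
    rw [Algebra.smul_def, ← hx]
    ring
  rw [e, map_add, map_smul, trace_sq, trace_sq, smul_eq_mul, mul_comm RatFunc.X] at hu
  exact poly_of_decomp hu

/-- the pairs `(a, b)` with `a ^ 2 + b ^ 2 x ∈ W` -/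
def evenPairs (W : Submodule k K) : Submodule k (K × K) where
  carrier := {q | q.1 ^ 2 + q.2 ^ 2 * xx k K ∈ W}
  add_mem' := fun {q r} hq hr => by
    have := W.add_mem hq hr
    simp only [Set.mem_ofPred_eq, Prod.fst_add, Prod.snd_add, even_add_sq k]
    convert this using 1
    ring
  zero_mem' := by simp
  smul_mem' := fun c q hq => by
    have := W.smul_mem (c ^ 2) hq
    simp only [Set.mem_ofPred_eq, Prod.smul_fst, Prod.smul_snd]
    convert this using 1
    simp only [Algebra.smul_def, map_pow]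
    ring

lemma even_finrank_le [IsAlgClosed k] (hodd : Odd n) (hp : p.ord (xx k K) = -n)
    (hn : finrank (RatFunc k) K = n) (W A B : Submodule k K) [FiniteDimensional k W]
    [FiniteDimensional k A] [FiniteDimensional k B]
    (hA : ∀ a : K, a ^ 2 ∈ W → a ∈ A) (hB : ∀ a b : K, a ^ 2 + b ^ 2 * xx k K ∈ W → b ∈ B) :
    finrank k W ≤ finrank k A + finrank k B := by
  let j₀ : evenPairs W →+ W :=
    { toFun := fun q => ⟨q.1.1 ^ 2 + q.1.2 ^ 2 * xx k K, q.2⟩
      map_zero' := by ext; simp
      map_add' := fun q r => by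
        ext
        simp only [Submodule.coe_add, Prod.fst_add, Prod.snd_add, even_add_sq k]
        ring }
  have hinj : Function.Injective j₀ := by
    rw [injective_iff_map_eq_zero]
    rintro ⟨⟨a, b⟩, hq⟩ h
    have h' : a ^ 2 + b ^ 2 * xx k K = 0 := congrArg Subtype.val h
    have key : ∀ m : ℤ, p.Ge (a ^ 2) m ∧ p.Ge (b ^ 2 * xx k K) m := fun m =>
      even_ge_parts hodd hp (by rw [h']; simp)
    have ha : a = 0 := by
      by_contra ha
      have := (key (p.ord (a ^ 2) + 1)).1.le (pow_ne_zero _ ha)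
      omega
    have hb : b = 0 := by
      by_contra hb
      have := (key (p.ord (b ^ 2 * xx k K) + 1)).2.le
        (mul_ne_zero (pow_ne_zero _ hb) xx_ne_zero)
      omega
    ext <;> simp [ha, hb]
  have hsurj : Function.Surjective j₀ := by
    rintro ⟨f, hf⟩
    obtain ⟨a, b, rfl⟩ := exists_decomp hodd hp hn f
    exact ⟨⟨(a, b), hf⟩, rfl⟩
  have hrank : Module.rank k (evenPairs W) = Module.rank k W := by
    refine Cardinal.lift_injective (lift_rank_eq_of_equiv_equiv (frobeniusEquiv k 2)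
      (AddEquiv.ofBijective j₀ ⟨hinj, hsurj⟩) (frobeniusEquiv k 2).bijective ?_)
    intro c q
    ext
    show (c • q.1.1) ^ 2 + (c • q.1.2) ^ 2 * xx k K = (c ^ 2) • (q.1.1 ^ 2 + q.1.2 ^ 2 * xx k K)
    simp only [Algebra.smul_def, map_pow]
    ring
  have : FiniteDimensional k (evenPairs W) := by
    refine Module.rank_lt_aleph0_iff.1 ?_
    rw [hrank]
    exact Module.rank_lt_aleph0 k W
  have hfin : finrank k (evenPairs W) = finrank k W := by
    unfold finrank
    rw [hrank]
  let π : evenPairs W →ₗ[k] B :=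
    ((LinearMap.snd k K K).comp (evenPairs W).subtype).codRestrict B fun q => hB _ _ q.2
  let ρ : LinearMap.ker π →ₗ[k] A :=
    (((LinearMap.fst k K K).comp (evenPairs W).subtype).comp (LinearMap.ker π).subtype).codRestrict
      A fun q => hA _ (by
        have h1 : q.1.1.2 = 0 := congrArg Subtype.val (LinearMap.mem_ker.1 q.2)
        have h2 : q.1.1.1 ^ 2 + q.1.1.2 ^ 2 * xx k K ∈ W := q.1.2
        rw [h1] at h2
        simpa using h2)
  have hρ : Function.Injective ρ := by
    rw [injective_iff_map_eq_zero]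
    intro q h
    have h1 : q.1.1.2 = 0 := congrArg Subtype.val (LinearMap.mem_ker.1 q.2)
    have h2 : q.1.1.1 = 0 := congrArg Subtype.val h
    ext <;> simp [h1, h2]
  have h1 := LinearMap.finrank_le_finrank_of_injective hρ
  have h2 := π.finrank_range_add_finrank_ker
  have h3 := Submodule.finrank_le (LinearMap.range π)
  omega

/-- Let `Kf = R.Kc + single p (n + 1)` (so `Kf p = 0`) and `E v = Kf v / 2` (floor; use
`Finsupp.mapRange`). Let `V' = {(a, b) | a ^ 2 + b ^ 2 x ∈ L (Kf + single p (2 m))}`, a subspace of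
`K × K` of the same dimension as `L (Kf + single p (2 m))` (semilinear bijection for the Frobenius
of `k`, by `exists_decomp`; injective as orders at `p` of `a ^ 2` and `b ^ 2 x` differ in parity).
For `(a, b) ∈ V'`: `b ∈ L (Kf + single p (m - (n + 1) / 2))` (at `p` by parity of the orders; at
finite places by `IsCan`: for integral `g`, the trace of `g ^ 2 (a ^ 2 + b ^ 2 x)` is
`trace (g a) ^ 2 + trace (g b) ^ 2 X`, use `poly_of_decomp`), and if `b = 0` then
`a ∈ L (E + single p m)`. For large `m`, `RRData.ell_large` gives `deg Kf ≤ 2 deg E`, while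
`2 E ≤ Kf`; hence `2 E = Kf`. Places other than `p` are finite by `place_unique`. -/
theorem even_Kc [IsAlgClosed k] (R : RRData k K) (hodd : Odd n) (hp : p.ord (xx k K) = -n)
    (hn : finrank (RatFunc k) K = n) (hK : IsCan R.Kc) (hKp : R.Kc p = -n - 1) :
    ∀ v ∈ FinSet k K, Even (R.Kc v) := by
  classical
  obtain ⟨j, hj⟩ := id hodd
  have h0 : 0 < n := by omega
  have hpF : p ∉ FinSet k K := by
    rw [mem_FinSet, hp]
    omega
  have hfin : ∀ v : Place k K, v ≠ p → v ∈ FinSet k K := fun v hv => by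
    by_contra h
    exact hv (place_unique h0 hp hn (by simpa [mem_FinSet] using h))
  set Kf : Div k K := R.Kc + Finsupp.single p ((n : ℤ) + 1) with hKf
  have hKfp : Kf p = 0 := by simp [hKf, hKp]
  have hKfv : ∀ v, v ≠ p → Kf v = R.Kc v := fun v hv => by simp [hKf, Finsupp.single_eq_of_ne hv]
  have hdeg : deg Kf = 2 * R.g - 2 + (n + 1) := by rw [hKf, map_add, R.deg_Kc, deg_single]
  set E : Div k K := Finsupp.mapRange (· / 2) (by simp) Kf with hE
  have hEv : ∀ v, E v = Kf v / 2 := fun v => by simp [hE]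
  obtain ⟨m, hm1, hm2⟩ : ∃ m : ℕ, 2 * R.g - 2 < deg E + m ∧ j + 1 ≤ m :=
    ⟨(2 * R.g - deg E).toNat + j + 1, by omega, by omega⟩
  have := R.fd (Kf + Finsupp.single p (2 * (m : ℤ)))
  have := R.fd (E + Finsupp.single p (m : ℤ))
  have := R.fd (Kf + Finsupp.single p ((m : ℤ) - (j + 1)))
  have key := even_finrank_le hodd hp hn (L (Kf + Finsupp.single p (2 * (m : ℤ))))
    (L (E + Finsupp.single p (m : ℤ))) (L (Kf + Finsupp.single p ((m : ℤ) - (j + 1)))) ?_ ?_
  · have e1 := R.ell_large (D := Kf + Finsupp.single p (2 * (m : ℤ)))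
      (by rw [map_add, deg_single]; omega)
    have e2 := R.ell_large (D := E + Finsupp.single p (m : ℤ)) (by rw [map_add, deg_single]; omega)
    have e3 := R.ell_large (D := Kf + Finsupp.single p ((m : ℤ) - (j + 1)))
      (by rw [map_add, deg_single]; omega)
    rw [map_add, deg_single] at e1 e2 e3
    unfold ell at e1 e2 e3
    have h1 : Kf - (E + E) = 0 := by
      refine eq_zero_of_deg_le (fun v => ?_) (by rw [map_sub, map_add deg E E]; omega)
      simp only [Finsupp.coe_zero, Pi.zero_apply, Finsupp.sub_apply, Finsupp.add_apply, hEv]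
      omega
    intro v hv
    have h2 : Kf v - (E v + E v) = 0 := by simpa using DFunLike.congr_fun h1 v
    rw [hKfv v (fun e => hpF (e ▸ hv))] at h2
    exact ⟨E v, by omega⟩
  · intro a ha
    rw [mem_L] at ha ⊢
    intro v
    by_cases h : a = 0
    · simp [h]
    have h1 := (ha v).le (pow_ne_zero _ h)
    refine Place.Ge.of_le ?_
    simp only [Place.ord_pow, Finsupp.add_apply, hEv, Finsupp.single_apply] at h1 ⊢
    split_ifs at h1 ⊢ <;> omega
  · intro a b h
    have h1 : b ∈ LS (FinSet k K) R.Kc := even_mem_of_isCan hK (a := a) (fun v hv => by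
      have := mem_L.1 h v
      have hv' : v ≠ p := fun e => hpF (e ▸ hv)
      rwa [Finsupp.add_apply, Finsupp.single_eq_of_ne hv', add_zero, hKfv v hv'] at this)
    rw [mem_L]
    intro v
    by_cases hv : v = p
    · subst hv
      by_cases hb : b = 0
      · simp [hb]
      have h2 := (even_ge_parts hodd hp (mem_L.1 h v)).2.le
        (mul_ne_zero (pow_ne_zero _ hb) xx_ne_zero)
      rw [v.ord_mul (pow_ne_zero _ hb) xx_ne_zero, hp] at h2
      refine Place.Ge.of_le ?_
      simp only [Place.ord_pow, Finsupp.add_apply, hKfp, Finsupp.single_eq_same] at h2 ⊢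
      omega
    · rw [Finsupp.add_apply, Finsupp.single_eq_of_ne hv, add_zero, hKfv v hv]
      exact h1 v (hfin v hv)

end Pool.Agent.Lib.MP_a01f70_lc.QQ
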