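import Pool.Agent.Lib.MP_a01f70_lc.QQ.Defs

/-!
Formal consequences of the Riemann-Roch data.
-/

set_option linter.unusedSectionVars false

namespace Pool.Agent.Lib.MP_a01f70_lc.QQ
open Module

variable {k K : Type*} [Field k] [Field K] [Algebra k K]

/-- Imposing one vanishing condition lowers the dimension by at most one. -/
lemma rrcons_step (hres : ResPl k K) {S : Set (Place k K)} {D : Div k K} (v : Place k K)
    (U : Submodule k K) [FiniteDimensional k U] (hU : U ≤ LS S D) :
    finrank k U ≤ finrank k (U ⊓ LS S (D - Finsupp.single v 1) : Submodule k K) + 1 := by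
  classical
  by_cases h : U ≤ LS S (D - Finsupp.single v 1)
  · rw [inf_eq_left.mpr h]
    omega
  obtain ⟨f₀, hf₀, hn⟩ := SetLike.not_le_iff_exists.mp h
  rw [mem_LS] at hn
  push Not at hn
  obtain ⟨w, hw, hn⟩ := hn
  have hwv : w = v := by
    by_contra hne
    apply hn
    have := hU hf₀ w hw
    rwa [Finsupp.sub_apply, Finsupp.single_apply, if_neg (Ne.symm hne), sub_zero]
  subst hwv
  obtain ⟨h0, hlt⟩ := Place.not_ge_iff.mp hn
  rw [Finsupp.sub_apply, Finsupp.single_eq_same] at hlt
  have hge := (hU hf₀ w hw).le h0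
  have hord : w.ord f₀ = -D w := by omega
  have hle : U ≤ (U ⊓ LS S (D - Finsupp.single w 1)) ⊔ Submodule.span k {f₀} := by
    intro f hf
    have h1 : w.Ge (f * f₀⁻¹) 0 := by
      rw [Place.ge_mul_iff (inv_ne_zero h0), Place.ord_inv, hord]
      simpa using hU hf w hw
    obtain ⟨c, hc⟩ := hres w _ h1
    have h2 : f - c • f₀ = (f * f₀⁻¹ - algebraMap k K c) * f₀ := by
      rw [Algebra.smul_def]
      field_simp
    have h3 : f - c • f₀ ∈ U := U.sub_mem hf (U.smul_mem c hf₀)
    have h4 : f - c • f₀ ∈ LS S (D - Finsupp.single w 1) := by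
      intro u hu
      by_cases huw : u = w
      · subst huw
        rw [h2, Place.ge_mul_iff h0, hord, Finsupp.sub_apply, Finsupp.single_eq_same]
        convert hc using 1
        ring
      · rw [Finsupp.sub_apply, Finsupp.single_apply, if_neg (Ne.symm huw), sub_zero]
        exact hU h3 u hu
    have h5 : f = (f - c • f₀) + c • f₀ := by ring
    rw [h5]
    exact Submodule.add_mem_sup ⟨h3, h4⟩
      (Submodule.smul_mem _ c (Submodule.mem_span_singleton_self f₀))
  have : FiniteDimensional k (U ⊓ LS S (D - Finsupp.single w 1) : Submodule k K) :=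
    Submodule.finiteDimensional_of_le inf_le_left
  have h6 := Submodule.finrank_mono hle
  have h7 := Submodule.finrank_add_le_finrank_add_finrank
    (U ⊓ LS S (D - Finsupp.single w 1)) (Submodule.span k {f₀})
  rw [finrank_span_singleton h0] at h7
  omega

/-- Imposing `deg Q` vanishing conditions lowers the dimension by at most `deg Q`.
Proof: induction on `deg Q`, removing one place `v` at a time. If `v ∉ S` nothing changes. If
`v ∈ S`, take `t` with `v.ord t = D v`; for `f ∈ U` the residue of `f * t` at `v` (unique by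
`Place.const_eq_zero_of_ge`) is a linear functional on `U` whose kernel is the smaller space.
(One can avoid the functional: if `U ≤` the smaller space we are done, else pick `f₀ ∈ U` of exact
order `-D v`; then `U = (U ⊓ smaller) ⊔ span {f₀}`.) -/
theorem finrank_le_add_deg (hres : ResPl k K) {S : Set (Place k K)} {D Q : Div k K} (hQ : 0 ≤ Q)
    (U : Submodule k K) [FiniteDimensional k U] (hU : U ≤ LS S D) :
    (finrank k U : ℤ) ≤ finrank k (U ⊓ LS S (D - Q) : Submodule k K) + deg Q := by
  classical
  obtain ⟨n, hn⟩ : ∃ n : ℕ, deg Q = n := ⟨(deg Q).toNat, (Int.toNat_of_nonneg (deg_nonneg hQ)).symm⟩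
  induction n generalizing D Q U with
  | zero =>
    have h0 : Q = 0 := eq_zero_of_deg_le hQ (by simpa using hn.le)
    subst h0
    rw [sub_zero, inf_eq_left.mpr hU]
    simp
  | succ n ih =>
    have hne : Q ≠ 0 := by
      rintro rfl
      rw [map_zero] at hn
      omega
    obtain ⟨v, hv⟩ := Finsupp.ne_iff.mp hne
    have hv1 : 1 ≤ Q v := by
      have h1 : (0 : ℤ) ≤ Q v := hQ v
      have h2 : Q v ≠ 0 := hv
      omega
    have hle : Finsupp.single v (1 : ℤ) ≤ Q := fun w => by
      rw [Finsupp.single_apply]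
      split_ifs with hw
      · rw [← hw]
        exact hv1
      · exact hQ w
    have : FiniteDimensional k (U ⊓ LS S (D - Finsupp.single v 1) : Submodule k K) :=
      Submodule.finiteDimensional_of_le inf_le_left
    have h1 := rrcons_step hres v U hU
    have h2 := ih (D := D - Finsupp.single v 1) (sub_nonneg.mpr hle)
      (U ⊓ LS S (D - Finsupp.single v 1)) inf_le_right (by
        rw [map_sub, deg_single, hn]
        push_cast
        ring)
    have h3 : D - Finsupp.single v 1 - (Q - Finsupp.single v 1) = D - Q := by abel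
    have h4 : LS S (D - Q) ≤ LS S (D - Finsupp.single v 1) :=
      LS_mono le_rfl fun w _ => sub_le_sub_left hle D w
    rw [h3, inf_assoc, inf_eq_right.mpr h4, map_sub, deg_single] at h2
    omega

/-- A semilinear additive bijection preserves dimensions (`rank_eq_of_equiv_equiv`). -/
theorem finrank_eq_of_semilinear (τ : k ≃+* k) (Θ : K ≃+ K) (hΘ : ∀ c f, Θ (c • f) = τ c • Θ f)
    {U V : Submodule k K} (h : ∀ f, Θ f ∈ V ↔ f ∈ U) : finrank k U = finrank k V := by
  let j : U ≃+ V :=
    { toFun := fun f => ⟨Θ f, (h f).mpr f.2⟩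
      invFun := fun g => ⟨Θ.symm g, (h _).mp (by simp)⟩
      left_inv := fun f => Subtype.ext (Θ.symm_apply_apply f)
      right_inv := fun g => Subtype.ext (Θ.apply_symm_apply g)
      map_add' := fun f g => Subtype.ext (map_add Θ (f : K) g) }
  have := rank_eq_of_equiv_equiv (R := k) (R' := k) τ j τ.bijective fun c f =>
    Subtype.ext (hΘ c f)
  rw [finrank, finrank, this]

theorem ell_push (a : Aut k K) (D : Div k K) : ell (a.push D) = ell D := by
  exact (finrank_eq_of_semilinear a.σ₀ a.σ.toAddEquiv a.map_smul fun f => a.σ_mem_L).symm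

/-- multiplication by `f` is a linear bijection (`mul_mem_LS_iff`) -/
theorem ell_add_dv (h : FinPl k K) (D : Div k K) {f : K} (hf : f ≠ 0) : ell (D + dv f) = ell D := by
  let Θ : K ≃+ K :=
    { toFun := fun g => g * f
      invFun := fun g => g * f⁻¹
      left_inv := fun g => mul_inv_cancel_right₀ hf g
      right_inv := fun g => inv_mul_cancel_right₀ hf g
      map_add' := fun g g' => add_mul g g' f }
  exact finrank_eq_of_semilinear (RingEquiv.refl k) Θ (fun c g => smul_mul_assoc c g f)
    fun g => mul_mem_LS_iff h hf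

namespace RRData
variable (R : RRData k K)
include R

theorem L_eq_bot {D : Div k K} (h : deg D < 0) : L D = ⊥ := by
  rw [eq_bot_iff]
  intro f hf
  by_contra h0
  have h1 := deg_nonneg ((mem_L_iff_dv R.fin h0).mp hf)
  rw [map_add, R.degdv] at h1
  omega

theorem ell_eq_zero {D : Div k K} (h : deg D < 0) : ell D = 0 := by
  rw [ell, R.L_eq_bot h, finrank_bot]

/-- A function without poles is constant: subtract its value at some place; the difference lies in
`L (-single v 1) = ⊥`. -/
theorem const_of_mem_L_zero {f : K} (h : f ∈ L (0 : Div k K)) : ∃ c : k, f = algebraMap k K c := by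
  classical
  obtain ⟨v⟩ := R.ne
  rw [mem_L] at h
  obtain ⟨c, hc⟩ := R.res v f (by simpa using h v)
  have h1 : f - algebraMap k K c ∈ L (-Finsupp.single v 1 : Div k K) := by
    rw [mem_L]
    intro w
    rw [Finsupp.neg_apply, neg_neg, Finsupp.single_apply]
    split_ifs with hw
    · rw [← hw]
      exact hc
    · exact Place.Ge.sub (by simpa using h w) (w.ge_const c)
  rw [R.L_eq_bot (by rw [map_neg, deg_single]; omega)] at h1
  exact ⟨c, sub_eq_zero.mp h1⟩

theorem const_of_dv_eq_zero {f : K} (h : (dv f : Div k K) = 0) : ∃ c : k, f = algebraMap k K c := by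
  by_cases hf : f = 0
  · exact ⟨0, by simp [hf]⟩
  exact R.const_of_mem_L_zero ((mem_L_iff_dv R.fin hf).mpr (by rw [h, add_zero]))

/-- functions with the same divisor are proportional -/
theorem eq_smul_of_dv_eq {f g : K} (hf : f ≠ 0) (hg : g ≠ 0) (h : (dv f : Div k K) = dv g) :
    ∃ c : k, c ≠ 0 ∧ f = c • g := by
  obtain ⟨c, hc⟩ := R.const_of_dv_eq_zero (f := f / g) (by rw [dv_div R.fin hf hg, h, sub_self])
  have h1 : f = c • g := by rw [Algebra.smul_def, ← hc, div_mul_cancel₀ _ hg]
  refine ⟨c, ?_, h1⟩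
  rintro rfl
  exact hf (by simpa using h1)

theorem ell_zero : ell (0 : Div k K) = 1 := by
  have h1 : L (0 : Div k K) = Submodule.span k {(1 : K)} := by
    apply le_antisymm
    · intro f hf
      obtain ⟨c, rfl⟩ := R.const_of_mem_L_zero hf
      rw [Algebra.algebraMap_eq_smul_one]
      exact Submodule.smul_mem _ c (Submodule.mem_span_singleton_self _)
    · rw [Submodule.span_singleton_le_iff_mem, mem_L]
      intro v
      simpa using v.ge_one
  rw [ell, h1, finrank_span_singleton one_ne_zero]

theorem ell_Kc : (ell R.Kc : ℤ) = R.g := by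
  have := R.rr 0
  rw [sub_zero, R.ell_zero, map_zero] at this
  omega

theorem g_nonneg : 0 ≤ R.g := by
  have := R.ell_Kc
  omega

theorem deg_Kc : deg R.Kc = 2 * R.g - 2 := by
  have := R.rr R.Kc
  rw [sub_self, R.ell_zero, R.ell_Kc] at this
  omega

theorem ell_ge (D : Div k K) : deg D + 1 - R.g ≤ ell D := by
  have := R.rr D
  omega

theorem ell_large {D : Div k K} (h : 2 * R.g - 2 < deg D) : (ell D : ℤ) = deg D + 1 - R.g := by
  have := R.rr D
  rw [R.ell_eq_zero (D := R.Kc - D) (by rw [map_sub, R.deg_Kc]; omega)] at this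
  omega

theorem ell_can {h : K} (h0 : h ≠ 0) : (ell (R.Kc + dv h) : ℤ) = R.g := by
  rw [ell_add_dv R.fin _ h0, R.ell_Kc]

theorem ell_can_add {h : K} (h0 : h ≠ 0) {E : Div k K} (hE : 0 < deg E) :
    (ell (R.Kc + dv h + E) : ℤ) = deg E + R.g - 1 := by
  rw [add_right_comm, ell_add_dv R.fin _ h0, R.ell_large (by rw [map_add, R.deg_Kc]; omega),
    map_add, R.deg_Kc]
  ring

/-- For large `m` the dimensions of `L (D + m p)` and `L (D - v + m p)` differ (`ell_large`). -/
theorem exists_ord_eq (D : Div k K) {v p : Place k K} (hvp : v ≠ p) :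
    ∃ (m : ℕ) (f : K), f ∈ L (D + Finsupp.single p (m : ℤ)) ∧ f ≠ 0 ∧ v.ord f = -D v := by
  classical
  obtain ⟨m, hm⟩ : ∃ m : ℕ, 2 * R.g - deg D ≤ m := ⟨(2 * R.g - deg D).toNat, Int.self_le_toNat _⟩
  have h1 := R.ell_large (D := D + Finsupp.single p (m : ℤ)) (by rw [map_add, deg_single]; omega)
  have h2 := R.ell_large (D := D + Finsupp.single p (m : ℤ) - Finsupp.single v 1)
    (by rw [map_sub, map_add, deg_single, deg_single]; omega)
  rw [map_sub, deg_single] at h2
  have h3 : ¬ L (D + Finsupp.single p (m : ℤ)) ≤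
      L (D + Finsupp.single p (m : ℤ) - Finsupp.single v 1) := fun h => by
    have := R.fd (D + Finsupp.single p (m : ℤ) - Finsupp.single v 1)
    have h4 : ell (D + Finsupp.single p (m : ℤ)) ≤
        ell (D + Finsupp.single p (m : ℤ) - Finsupp.single v 1) := Submodule.finrank_mono h
    omega
  obtain ⟨f, hf, hn⟩ := SetLike.not_le_iff_exists.mp h3
  rw [mem_L] at hn
  push Not at hn
  obtain ⟨w, hn⟩ := hn
  have hwv : w = v := by
    by_contra hne
    apply hn
    have := mem_L.mp hf w
    rwa [Finsupp.sub_apply, Finsupp.single_apply (a := v), if_neg (Ne.symm hne), sub_zero]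
  subst hwv
  obtain ⟨h0, hlt⟩ := Place.not_ge_iff.mp hn
  have hge := (mem_L.mp hf w).le h0
  rw [Finsupp.sub_apply, Finsupp.single_eq_same] at hlt
  rw [Finsupp.add_apply, Finsupp.single_apply, if_neg (Ne.symm hvp), add_zero] at hlt hge
  exact ⟨m, f, hf, h0, by omega⟩

end RRData

end Pool.Agent.Lib.MP_a01f70_lc.QQ
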