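import Pool.Agent.Lib.MP_a01f70_lc.QQ.Ram
import Pool.Agent.Lib.MP_a01f70_lc.QQ.RRCons

/-!
In characteristic two the canonical divisor of the variable is even at the finite places.
-/

set_option linter.unusedSectionVars false

namespace Pool.Agent.Lib.MP_a01f70_lc.QQ
open Module Polynomial

variable {k K : Type*} [Field k] [Field K] [Algebra k K] [Algebra k[X] K] [Algebra (RatFunc k) K]
  [IsScalarTower k k[X] K] [IsScalarTower k[X] (RatFunc k) K] [IsScalarTower k (RatFunc k) K]
  [FiniteDimensional (RatFunc k) K] [CharP k 2]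

variable {n : ℕ} {p : Place k K}

theorem even1_poly [IsAlgClosed k] (u : k[X]) : ∃ a b : k[X], u = a ^ 2 + b ^ 2 * X := by
  induction u using Polynomial.induction_on with
  | C c =>
    obtain ⟨z, rfl⟩ := IsAlgClosed.exists_pow_nat_eq c two_pos
    exact ⟨C z, 0, by simp⟩
  | add u w hu hw =>
    obtain ⟨a, b, rfl⟩ := hu
    obtain ⟨a', b', rfl⟩ := hw
    refine ⟨a + a', b + b', ?_⟩
    rw [CharTwo.add_sq, CharTwo.add_sq]
    ring
  | monomial m c h =>
    obtain ⟨a, b, h⟩ := h
    refine ⟨b * X, a, ?_⟩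
    rw [pow_succ, ← mul_assoc, h]
    ring

theorem even1_charP_rat : CharP (RatFunc k) 2 :=
  charP_of_injective_algebraMap (algebraMap k (RatFunc k)).injective 2

theorem even1_sum_symm {R ι : Type*} [CommRing R] [CharP R 2] (g : ι → ι → R)
    (hg : ∀ i j, g i j = g j i) (s : Finset ι) : ∑ i ∈ s, ∑ j ∈ s, g i j = ∑ i ∈ s, g i i := by
  classical
  induction s using Finset.induction_on with
  | empty => simp
  | insert a s ha ih =>
    simp only [Finset.sum_insert ha, Finset.sum_add_distrib, ih]
    rw [Finset.sum_congr rfl fun i _ => hg i a, add_assoc, ← add_assoc (∑ j ∈ s, g a j),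
      CharTwo.add_self_eq_zero, zero_add]

/-- split `u w` into even and odd part in `r = u w / w ^ 2`; constants are squares -/
theorem rat_decomp [IsAlgClosed k] (r : RatFunc k) :
    ∃ a b : RatFunc k, r = a ^ 2 + b ^ 2 * RatFunc.X := by
  obtain ⟨a, b, h⟩ := even1_poly (r.num * r.denom)
  have hd : algebraMap k[X] (RatFunc k) r.denom ≠ 0 := RatFunc.algebraMap_ne_zero r.denom_ne_zero
  refine ⟨algebraMap k[X] (RatFunc k) a / algebraMap k[X] (RatFunc k) r.denom,
    algebraMap k[X] (RatFunc k) b / algebraMap k[X] (RatFunc k) r.denom, ?_⟩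
  have h1 := congrArg (algebraMap k[X] (RatFunc k)) h
  rw [map_mul, map_add, map_mul, map_pow, map_pow, RatFunc.algebraMap_X] at h1
  conv_lhs => rw [← RatFunc.num_div_denom r]
  field_simp
  exact h1

/-- If `a ^ 2 + b ^ 2 X` is a polynomial then so is `b`: decompose the polynomial with polynomial
parts; the decomposition is unique because `X` is not a square (degrees); -/
theorem poly_of_decomp [IsAlgClosed k] {a b : RatFunc k} {u : k[X]}
    (h : a ^ 2 + b ^ 2 * RatFunc.X = algebraMap k[X] (RatFunc k) u) :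
    ∃ w : k[X], b = algebraMap k[X] (RatFunc k) w := by
  have := even1_charP_rat (k := k)
  obtain ⟨α, β, rfl⟩ := even1_poly u
  rw [map_add, map_mul, map_pow, map_pow, RatFunc.algebraMap_X] at h
  refine ⟨β, ?_⟩
  by_contra hne
  have h1 : b - algebraMap k[X] (RatFunc k) β ≠ 0 := sub_ne_zero.2 hne
  have h2 : (algebraMap k[X] (RatFunc k) α - a) * (algebraMap k[X] (RatFunc k) α - a) =
      (b - algebraMap k[X] (RatFunc k) β) * (b - algebraMap k[X] (RatFunc k) β) * RatFunc.X := by
    rw [← sq, ← sq, sub_pow_char, sub_pow_char]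
    linear_combination -h
  have h3 : algebraMap k[X] (RatFunc k) α - a ≠ 0 := fun h0 => by
    rw [h0, mul_zero] at h2
    exact mul_ne_zero (mul_ne_zero h1 h1) RatFunc.X_ne_zero h2.symm
  have h4 := congrArg RatFunc.intDegree h2
  rw [RatFunc.intDegree_mul h3 h3, RatFunc.intDegree_mul (mul_ne_zero h1 h1) RatFunc.X_ne_zero,
    RatFunc.intDegree_mul h1 h1, RatFunc.intDegree_X] at h4
  omega

/-- the trace of the square of a matrix in characteristic two -/
theorem trace_sq (f : K) :
    Algebra.trace (RatFunc k) K (f ^ 2) = Algebra.trace (RatFunc k) K f ^ 2 := by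
  classical
  have := even1_charP_rat (k := k)
  let b := Module.finBasis (RatFunc k) K
  rw [Algebra.trace_eq_matrix_trace b, Algebra.trace_eq_matrix_trace b, map_pow, sq, Matrix.trace,
    Matrix.trace, CharTwo.sum_sq]
  simp only [Matrix.diag_apply, Matrix.mul_apply, sq]
  exact even1_sum_symm _ (fun i j => mul_comm _ _) _

/-- The squares of elements `t i` of order `i` have orders distinct modulo the odd number `n`, so
they form a basis (`exists_basis_of_ord`); apply `rat_decomp` to the coordinates. -/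
theorem exists_decomp [IsAlgClosed k] (hodd : Odd n) (hp : p.ord (xx k K) = -n)
    (hn : finrank (RatFunc k) K = n) (f : K) : ∃ a b : K, f = a ^ 2 + b ^ 2 * xx k K := by
  have : CharP K 2 := charP_of_injective_algebraMap (algebraMap k K).injective 2
  have h0 : 0 < n := hodd.pos
  have : NeZero n := ⟨h0.ne'⟩
  choose t ht0 ht using fun i : Fin n => p.exists_ord_eq (i : ℕ)
  have hu : IsUnit ((2 : ℕ) : ZMod n) :=
    (ZMod.isUnit_iff_coprime 2 n).2 (Nat.coprime_two_left.2 hodd)
  obtain ⟨b, hb⟩ := exists_basis_of_ord h0 hp hn (t := fun i => t i ^ 2)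
    (fun i => pow_ne_zero _ (ht0 i)) (fun i j hij => by
      simp only [Place.ord_pow, ht, Int.cast_mul, Int.cast_natCast] at hij
      have h1 := congrArg ZMod.val (hu.mul_left_cancel hij)
      rw [ZMod.val_cast_of_lt i.2, ZMod.val_cast_of_lt j.2] at h1
      exact Fin.ext h1)
  choose α β h using fun i => rat_decomp (b.repr f i)
  refine ⟨∑ i, α i • t i, ∑ i, β i • t i, ?_⟩
  have hx : algebraMap (RatFunc k) K RatFunc.X = xx k K := by
    rw [← RatFunc.algebraMap_X, algebraMap_poly_rat, xx]
  rw [CharTwo.sum_sq, CharTwo.sum_sq, Finset.sum_mul, ← Finset.sum_add_distrib]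
  conv_lhs => rw [← b.sum_repr f]
  refine Finset.sum_congr rfl fun i _ => ?_
  rw [h, hb, Algebra.smul_def, Algebra.smul_def, Algebra.smul_def, map_add, map_mul, map_pow,
    map_pow, hx]
  ring

end Pool.Agent.Lib.MP_a01f70_lc.QQ
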