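import Pool.Agent.Lib.MP_a01f70_lc.QQ.Ded

/-!
Fractional ideals are described by divisors.
-/

set_option linter.unusedSectionVars false

namespace Pool.Agent.Lib.MP_a01f70_lc.QQ
open Module Polynomial

variable {k K : Type*} [Field k] [Field K] [Algebra k K] [Algebra k[X] K] [Algebra (RatFunc k) K]
  [IsScalarTower k k[X] K] [IsScalarTower k[X] (RatFunc k) K] [IsScalarTower k (RatFunc k) K]
  [FiniteDimensional (RatFunc k) K] [Algebra.IsSeparable (RatFunc k) K]

/-- an element of `LS (FinSet k K) D` with exact orders on a finite set of finite places -/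
theorem frac_approx (D : Div k K) (T : Finset (Place k K)) (hT : ∀ v ∈ T, v ∈ FinSet k K) :
    ∃ f ∈ LS (FinSet k K) D, f ≠ 0 ∧ ∀ v ∈ T, v.ord f = -D v := by
  classical
  obtain ⟨f, hf0, h1, h2⟩ := approx (T ∪ D.support.filter (· ∈ FinSet k K)) (fun v hv => by
    rcases Finset.mem_union.1 hv with h | h
    · exact hT v h
    · exact (Finset.mem_filter.1 h).2) fun v => -D v
  refine ⟨f, fun v hv => Or.inr ?_, hf0, fun v hv => h1 v (Finset.mem_union_left _ hv)⟩
  by_cases h : v ∈ T ∪ D.support.filter (· ∈ FinSet k K)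
  · exact (h1 v h).ge
  · have h3 : D v = 0 := by
      by_contra h3
      exact h (Finset.mem_union_right _
        (Finset.mem_filter.2 ⟨Finsupp.mem_support_iff.2 h3, hv⟩))
    rw [h3, neg_zero]
    exact h2 v hv h

/-- Put `E v = - min {v.ord f | f ∈ J, f ≠ 0}` for finite `v` (the minimum exists and vanishes for
almost all `v`: it lies between `-v.ord c` and `v.ord f₀`). If `f ∈ LS (FinSet k K) E`, consider
`A = {a integral | a * f ∈ J}`. For a finite place `v` take `j ∈ J` of minimal order at `v`, and by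
`approx` an `s` with `v.ord s = 0` and `w.ord s ≥ max 0 (-w.ord (f / j))` at all other finite `w`;
then `s` and `s * f / j` are integral, `s * f ∈ J`, so `s ∈ A` is outside the centre of `v`.
By `exists_place_of_ideal`, `1 ∈ A`. -/
theorem exists_div_of_module (J : AddSubgroup K) (hJ : ∀ a f, IsIntegral k[X] a → f ∈ J → a * f ∈ J)
    (h0 : ∃ f ∈ J, f ≠ 0) (hb : ∃ c : K, c ≠ 0 ∧ ∀ f ∈ J, IsIntegral k[X] (c * f)) :
    ∃ E : Div k K, (∀ v, v ∉ FinSet k K → E v = 0) ∧ ∀ f, f ∈ J ↔ f ∈ LS (FinSet k K) E := by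
  classical
  obtain ⟨f₀, hf₀, hf₀0⟩ := h0
  obtain ⟨c, hc0, hc⟩ := hb
  have hlow : ∀ v ∈ FinSet k K, ∀ f ∈ J, f ≠ 0 → -v.ord c ≤ v.ord f := fun v hv f hf hf0 => by
    have := ((isIntegral_iff_ge _).1 (hc f hf) v hv).le (mul_ne_zero hc0 hf0)
    rw [v.ord_mul hc0 hf0] at this
    omega
  have hmin : ∀ v : Place k K, ∃ j, v ∈ FinSet k K →
      j ∈ J ∧ j ≠ 0 ∧ ∀ f ∈ J, f ≠ 0 → v.ord j ≤ v.ord f := fun v => by
    by_cases hv : v ∈ FinSet k K
    · obtain ⟨m, ⟨j, hj, hj0, rfl⟩, hm⟩ := Int.exists_least_of_bdd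
        (P := fun m => ∃ f ∈ J, f ≠ 0 ∧ v.ord f = m)
        ⟨-v.ord c, by
          rintro z ⟨f, hf, hf0, rfl⟩
          exact hlow v hv f hf hf0⟩ ⟨_, f₀, hf₀, hf₀0, rfl⟩
      exact ⟨j, fun _ => ⟨hj, hj0, fun f hf hf0 => hm _ ⟨f, hf, hf0, rfl⟩⟩⟩
    · exact ⟨0, fun h => absurd h hv⟩
  choose j hj using hmin
  have hfin : (Function.support fun v : Place k K =>
      if v ∈ FinSet k K then -v.ord (j v) else 0).Finite := by
    refine ((finite_finSet (k := k) c).union (finite_finSet (k := k) f₀)).subset fun v hv => ?_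
    rw [Function.mem_support] at hv
    have h1 : v ∈ FinSet k K := by
      by_contra h
      exact hv (if_neg h)
    rw [if_pos h1] at hv
    obtain ⟨h2, h3, h4⟩ := hj v h1
    have h5 := hlow v h1 _ h2 h3
    have h6 := h4 f₀ hf₀ hf₀0
    by_cases h7 : v.ord c = 0
    · exact Or.inr ⟨h1, by omega⟩
    · exact Or.inl ⟨h1, h7⟩
  have hE : ∀ v, Finsupp.ofSupportFinite _ hfin v =
      if v ∈ FinSet k K then -v.ord (j v) else 0 := fun v => rfl
  refine ⟨Finsupp.ofSupportFinite _ hfin, fun v hv => by rw [hE, if_neg hv], fun f => ⟨?_, ?_⟩⟩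
  · intro hf v hv
    rw [hE, if_pos hv, neg_neg]
    by_cases hf0 : f = 0
    · exact Or.inl hf0
    · exact Or.inr ((hj v hv).2.2 f hf hf0)
  · intro hf
    by_cases hf0 : f = 0
    · rw [hf0]
      exact J.zero_mem
    by_contra hfJ
    obtain ⟨v, hv, hA⟩ := exists_place_of_ideal (k := k) {a | IsIntegral k[X] a ∧ a * f ∈ J}
      (fun a ha => ha.1) ⟨isIntegral_zero, by rw [zero_mul]; exact J.zero_mem⟩
      (fun a ha b hb => ⟨ha.1.add hb.1, by rw [add_mul]; exact J.add_mem ha.2 hb.2⟩)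
      (fun a ha b hb => ⟨hb.mul ha.1, by rw [mul_assoc]; exact hJ _ _ hb ha.2⟩)
      (fun h => hfJ (by simpa using h.2))
    obtain ⟨h2, h3, -⟩ := hj v hv
    have hg0 : f / j v ≠ 0 := div_ne_zero hf0 h3
    have hgv : 0 ≤ v.ord (f / j v) := by
      have := (hf v hv).le hf0
      rw [hE, if_pos hv, neg_neg] at this
      rw [v.ord_div hf0 h3]
      omega
    obtain ⟨s, hs0, hs1, hs2⟩ := approx (insert v (finite_finSet (k := k) (f / j v)).toFinset)
      (fun w hw => by
        rcases Finset.mem_insert.1 hw with rfl | h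
        · exact hv
        · exact ((Set.Finite.mem_toFinset _).1 h).1)
      fun w => if w = v then 0 else max 0 (-w.ord (f / j v))
    have hsv : v.ord s = 0 := by rw [hs1 v (Finset.mem_insert_self _ _), if_pos rfl]
    have hboth : ∀ w ∈ FinSet k K, 0 ≤ w.ord s ∧ 0 ≤ w.ord s + w.ord (f / j v) := fun w hw => by
      by_cases hwv : w = v
      · subst hwv
        omega
      by_cases hwS : w ∈ insert v (finite_finSet (k := k) (f / j v)).toFinset
      · rw [hs1 w hwS, if_neg hwv]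
        omega
      · have h5 := hs2 w hw hwS
        have h6 : w.ord (f / j v) = 0 := by
          by_contra h6
          exact hwS (Finset.mem_insert_of_mem ((Set.Finite.mem_toFinset _).2 ⟨hw, h6⟩))
        omega
    have hsi : IsIntegral k[X] s := (isIntegral_iff_ge _).2 fun w hw => Or.inr (hboth w hw).1
    have hsg : IsIntegral k[X] (s * (f / j v)) := (isIntegral_iff_ge _).2 fun w hw =>
      Or.inr (by rw [w.ord_mul hs0 hg0]; exact (hboth w hw).2)
    have h7 := hJ _ _ hsg h2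
    rw [mul_assoc, div_mul_cancel₀ _ h3] at h7
    have := (hA s ⟨hsi, h7⟩).le hs0
    omega

/-- a divisor is determined on a set `S` of finite places by its space `LS S` (`approx` is not
enough by itself: use `f` of order `-D v` at `v`, and of order `≥ -D w` at the other `w ∈ S`) -/
theorem le_of_LS_le {S : Set (Place k K)} (hS : S ⊆ FinSet k K) {D D' : Div k K}
    (h : LS S D ≤ LS S D') : ∀ v ∈ S, D v ≤ D' v := by
  intro v hv
  obtain ⟨f, hf, hf0, h1⟩ := frac_approx D {v} (by simpa using hS hv)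
  have h2 := (h (LS_mono hS (fun _ _ => le_rfl) hf) v hv).le hf0
  rw [h1 v (Finset.mem_singleton_self v)] at h2
  omega

/-- there is an element of exact order `-D v` at the finite place `v` -/
theorem exists_mem_LS_ord_eq (D : Div k K) {v : Place k K} (hv : v ∈ FinSet k K) :
    ∃ f ∈ LS (FinSet k K) D, f ≠ 0 ∧ v.ord f = -D v := by
  obtain ⟨f, hf, hf0, h1⟩ := frac_approx D {v} (by simpa using hv)
  exact ⟨f, hf, hf0, h1 v (Finset.mem_singleton_self v)⟩

/-- a common integral denominator -/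
theorem exists_denom_LS (D : Div k K) :
    ∃ c : k[X], c ≠ 0 ∧ ∀ f ∈ LS (FinSet k K) D, IsIntegral k[X] (c • f) := by
  obtain ⟨g, hg, hg0, -⟩ := frac_approx (-D) ∅ (by simp)
  obtain ⟨c, hc0, hc⟩ := exists_smul_isIntegral (k := k) g⁻¹
  refine ⟨c, hc0, fun f hf => ?_⟩
  have h1 : IsIntegral k[X] (g * f) := (isIntegral_iff_ge _).2 fun v hv => by
    simpa using mul_mem_LS hg hf v hv
  have h2 := hc.mul h1
  rwa [smul_mul_assoc, inv_mul_cancel_left₀ hg0] at h2

/-- every element has a polynomial multiple in `LS (FinSet k K) D` -/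
theorem exists_smul_mem_LS (D : Div k K) (f : K) :
    ∃ c : k[X], c ≠ 0 ∧ c • f ∈ LS (FinSet k K) D := by
  obtain ⟨g, hg, hg0, -⟩ := frac_approx D ∅ (by simp)
  obtain ⟨c, hc0, hc⟩ := exists_smul_isIntegral (k := k) (f / g)
  refine ⟨c, hc0, fun v hv => ?_⟩
  have h1 := ((isIntegral_iff_ge _).1 hc v hv).mul (hg v hv)
  rwa [smul_mul_assoc, div_mul_cancel₀ _ hg0, zero_add] at h1

end Pool.Agent.Lib.MP_a01f70_lc.QQ
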