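import Pool.Agent.Lib.MP_a01f70_lc.QQ.PreDefs

/-!
The divisors of the coordinate functions.
-/

set_option linter.unusedSectionVars false

namespace Pool.Agent.Lib.MP_a01f70_lc.QQ
open Module Polynomial

variable {k K : Type} [Field k] [Field K] [Algebra k K]
  [CharP k 2] {R : RRData k K} {n ρ : ℕ} {U : Finset ℕ}

namespace Pre
variable (P : Pre R n ρ U)

theorem ιι : P.ι * P.ι = 1 := by
  refine Aut.eq_of_gen P.gen (fun c => by simp [P.ι0]) ?_
  rintro g (rfl | rfl)
  · simp [P.ιx]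
  · simp [P.ιy]

theorem φι : P.φ * P.ι = P.ι * P.φ := by
  refine Aut.eq_of_gen P.gen (fun c => by simp [P.ι0]) ?_
  rintro g (rfl | rfl)
  · simp [P.ιx, P.φx]
  · simp [P.ιy, P.φy]

theorem geo1_ιι (v : Place k K) : P.ι • P.ι • v = v := by rw [smul_smul, P.ιι, one_smul]

theorem geo1_ord (v : Place k K) (f : K) : (P.ι • v).ord f = v.ord (P.ι.σ f) := by
  rw [Aut.ord_σ, inv_eq_of_mul_eq_one_right P.ιι]

theorem geo1_x (v : Place k K) : (P.ι • v).ord P.x = -v.ord P.x := by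
  rw [geo1_ord, P.ιx, Place.ord_inv]

theorem geo1_y (v : Place k K) : (P.ι • v).ord P.y = -v.ord P.y := by
  rw [geo1_ord, P.ιy, Place.ord_inv]

theorem geo1_cases (v : Place k K) : v = P.p ∨ v = P.ι • P.p ∨ v.ord P.x = 0 := by
  rcases lt_trichotomy (v.ord P.x) 0 with h | h | h
  · exact .inl (P.uniq v h)
  · exact .inr (.inr h)
  · rw [← P.uniq (P.ι • v) (by rw [geo1_x]; omega), geo1_ιι]
    exact .inr (.inl rfl)

omit [CharP k 2] in
theorem geo1_ne {v : Place k K} {f : K} (h : v.ord f ≠ 0) : f ≠ 0 ∧ f - 1 ≠ 0 := by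
  refine ⟨?_, fun e => h (by rw [sub_eq_zero.1 e, v.ord_one])⟩
  rintro rfl
  exact h v.ord_zero

theorem geo1_one {c : k} (h : c * c = 1) : c = 1 := by
  have h2 : (2 : k) = 0 := CharP.cast_eq_zero k 2
  exact sub_eq_zero.1 (mul_self_eq_zero.1 (by linear_combination h + (1 - c) * h2))

theorem dvx (hn : Odd n) :
    dv P.x = Finsupp.single (P.ι • P.p) (n : ℤ) - Finsupp.single P.p (n : ℤ) := by
  classical
  have h0 := hn.pos
  have h1 := P.px
  have h2 := P.geo1_x P.p
  have h3 : P.ι • P.p ≠ P.p := fun e => by rw [e] at h2; omega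
  ext v
  rw [dv_apply R.fin, Finsupp.sub_apply, Finsupp.single_apply, Finsupp.single_apply]
  rcases P.geo1_cases v with rfl | rfl | h
  · simp [h1, h3]
  · simp [h1, h2, h3.symm]
  · rw [if_neg fun e => by rw [e] at h2; omega, if_neg fun e => by rw [e] at h1; omega, h,
      sub_zero]

theorem geo1_eq (hn : Odd n) (hU : Adm n U) :
    ∃ b ∈ Algebra.adjoin k {P.x, P.y}, P.x = algebraMap k K (-1) + P.y * b := by
  have hx : P.x ∈ Algebra.adjoin k {P.x, P.y} := Algebra.subset_adjoin (by simp)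
  have hy : P.y ∈ Algebra.adjoin k {P.x, P.y} := Algebra.subset_adjoin (by simp)
  refine ⟨-(∑ u ∈ U, P.y ^ (u - 1) * P.x ^ (ρ * u / n + 1) +
    P.y ^ (n - 1) * (P.x ^ ρ + P.x ^ (ρ + 1))), neg_mem (add_mem (sum_mem fun u _ =>
      mul_mem (pow_mem hy _) (pow_mem hx _)) (mul_mem (pow_mem hy _)
      (add_mem (pow_mem hx _) (pow_mem hx _)))), ?_⟩
  have h := P.hP
  have h1 : P.y * ∑ u ∈ U, P.y ^ (u - 1) * P.x ^ (ρ * u / n + 1) =
      ∑ u ∈ U, P.y ^ u * P.x ^ (ρ * u / n + 1) := by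
    rw [Finset.mul_sum]
    exact Finset.sum_congr rfl fun u hu => by rw [← mul_assoc, mul_pow_sub_one (hU.pos u hu).ne']
  rw [PP, ← h1, ← mul_pow_sub_one hn.pos.ne' P.y] at h
  rw [map_neg, map_one]
  linear_combination h

theorem geo1_exists (hn : Odd n) (hρ : Odd ρ) (hc : Nat.Coprime ρ n) (hU : Adm n U) :
    ∃ v : Place k K, v.ord P.x = 0 ∧ 0 < v.ord P.y := by
  by_contra! h
  have h0 := hn.pos
  have h0' := hρ.pos
  have hx := (geo1_ne (v := P.p) (f := P.x) (by rw [P.px]; omega)).1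
  have hy := (geo1_ne (v := P.p) (f := P.y) (by rw [P.py]; omega)).1
  have ho : ∀ (v : Place k K) (i j : ℕ), v.ord (P.y ^ i * P.x ^ j) = i * v.ord P.y + j * v.ord P.x :=
    fun v i j => by rw [v.ord_mul (pow_ne_zero _ hy) (pow_ne_zero _ hx), v.ord_pow, v.ord_pow]
  obtain ⟨c, hc1⟩ := R.const_of_dv_eq_zero (f := P.y ^ n * P.x ^ ρ) (Finsupp.ext fun v => by
    rw [dv_apply R.fin, ho, Finsupp.zero_apply]
    rcases P.geo1_cases v with rfl | rfl | h1
    · rw [P.px, P.py]; ring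
    · rw [geo1_x, geo1_y, P.px, P.py]; ring
    · have h2 := h (P.ι • v) (by rw [geo1_x, h1, neg_zero])
      rw [geo1_y] at h2
      rw [h1, le_antisymm (h v h1) (by omega)]
      ring)
  obtain rfl : c = 1 := by
    refine geo1_one ((algebraMap k K).injective ?_)
    have h1 := congrArg P.ι.σ hc1
    rw [P.ι.map_const, P.ι0, map_mul, map_pow, map_pow, P.ιx, P.ιy] at h1
    rw [map_mul, map_one]
    nth_rewrite 1 [← hc1, ← h1]
    rw [inv_pow, inv_pow]
    field_simp
  have h2 : (2 : K) = 0 := by rw [← map_ofNat (algebraMap k K), CharP.ofNat_eq_zero, map_zero]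
  have h3 : ∑ u ∈ U, P.y ^ u * P.x ^ (ρ * u / n + 1) = 0 := by
    have := P.hP
    rw [map_one] at hc1
    rw [PP] at this
    linear_combination this - (1 + P.x) * hc1 - (1 + P.x) * h2
  have h4 : ∀ u, P.p.ord (P.y ^ u * P.x ^ (ρ * u / n + 1)) = (ρ * u % n : ℕ) - n := fun u => by
    have := congrArg (Nat.cast : ℕ → ℤ) (Nat.mod_add_div (ρ * u) n)
    rw [Nat.cast_add, Nat.cast_mul, Nat.cast_mul] at this
    rw [ho, P.px, P.py, Nat.cast_add, Nat.cast_one]
    linear_combination -this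
  obtain ⟨u₀, hu₀, hmin⟩ := U.exists_min_image (fun u => ρ * u % n) hU.ne
  refine (Place.ord_sum_of_lt (v := P.p) hu₀ (mul_ne_zero (pow_ne_zero _ hy) (pow_ne_zero _ hx))
    fun u hu hne => .of_le ?_).1 h3
  have h5 : ρ * u₀ % n ≠ ρ * u % n := fun e => hne
    ((Nat.ModEq.cancel_left_of_coprime hc.symm e).eq_of_lt_of_lt (hU.lt _ hu₀) (hU.lt _ hu)).symm
  have h6 := hmin u hu
  rw [h4, h4]
  omega

/-- Uniqueness: if `v.ord x = 0` and `0 < v.ord y`, the equation gives `0 < v.ord (x - 1)` and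
`(1 + x) (1 + y ^ n x ^ ρ) = y G(x, y)` (characteristic two); apply `place_eq_of_smooth` with
`t = y` and `s = {x, y, (1 + y ^ n x ^ ρ)⁻¹}` (note `y ^ n x ^ ρ ≠ 1`, see below). The place
`ι • p` has `ord y = -ρ < 0`.
Existence: otherwise `y` has order `0` at all places with `ord x = 0` (use `ι`), so `y ^ n x ^ ρ`
has divisor zero and is a constant `c`; applying `ι` gives `c ^ 2 = 1`, `c = 1`. But
`y ^ n x ^ ρ = 1` turns the equation into `∑ u ∈ U, y ^ u x ^ (ρ u / n + 1) = 0`, whose terms have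
different orders at `p` (different modulo `n`), which is impossible as `U` is nonempty. -/
theorem exists_p1 (hn : Odd n) (hρ : Odd ρ) (hc : Nat.Coprime ρ n) (hU : Adm n U) :
    ∃ p1 : Place k K, 0 < p1.ord (P.x - 1) ∧ p1.ord P.y = 1 ∧
      (∀ v : Place k K, 0 < v.ord P.y → v = p1 ∨ v = P.p) ∧
      dv P.y = Finsupp.single p1 1 - Finsupp.single (P.ι • p1) 1
        - Finsupp.single (P.ι • P.p) (ρ : ℤ) + Finsupp.single P.p (ρ : ℤ) := by
  classical
  have h0 := hn.pos
  have h0' := hρ.pos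
  obtain ⟨p1, a1, a2⟩ := P.geo1_exists hn hρ hc hU
  obtain ⟨b, hb, hxb⟩ := P.geo1_eq hn hU
  have hge : ∀ v : Place k K, v.ord P.x = 0 → 0 < v.ord P.y →
      ∀ g ∈ ({P.x, P.y} : Set K), v.Ge g 0 := by
    rintro v h1 h2 g (rfl | rfl)
    exacts [.of_le h1.ge, .of_le h2.le]
  have hsm : ∀ v : Place k K, v.ord P.x = 0 → 0 < v.ord P.y → p1.ord P.y = 1 ∧ v = p1 :=
    fun v h1 h2 => place_eq_of_smooth (t := P.y) (by
      rintro g (rfl | rfl)
      exacts [⟨-1, b, hb, hxb⟩, ⟨0, 1, one_mem _, by simp⟩]) P.gen (hge p1 a1 a2) a2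
      (hge v h1 h2) h2
  have a3 := (hsm p1 a1 a2).1
  have b1 := P.geo1_x p1
  have b2 := P.geo1_y p1
  have c1 := P.geo1_x P.p
  have c2 := P.geo1_y P.p
  have d1 := P.px
  have d2 := P.py
  have hpos : ∀ v : Place k K, 0 < v.ord P.y → v = p1 ∨ v = P.p := fun v hv => by
    rcases P.geo1_cases v with h | rfl | h
    exacts [.inr h, by omega, .inl (hsm v h hv).2]
  refine ⟨p1, ?_, a3, hpos, Finsupp.ext fun v => ?_⟩
  · have h2 : (2 : K) = 0 := by rw [← map_ofNat (algebraMap k K), CharP.ofNat_eq_zero, map_zero]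
    have h3 : P.x - 1 = P.y * b := by
      rw [map_neg, map_one] at hxb
      linear_combination hxb - h2
    have h4 := (Place.Ge.of_le a3.ge).mul (Place.ge_of_mem_adjoin (hge p1 a1 a2) hb)
    rw [← h3] at h4
    exact h4.le (geo1_ne (v := P.p) (by omega)).2
  · have e12 : p1 ≠ P.ι • p1 := fun e => by rw [← e] at b2; omega
    have e13 : p1 ≠ P.ι • P.p := fun e => by rw [← e] at c1; omega
    have e14 : p1 ≠ P.p := fun e => by rw [← e] at d1; omega
    have e23 : P.ι • p1 ≠ P.ι • P.p := fun e => by rw [e] at b1; omega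
    have e24 : P.ι • p1 ≠ P.p := fun e => by rw [e] at b1; omega
    have e34 : P.ι • P.p ≠ P.p := fun e => by rw [e] at c1; omega
    simp only [dv_apply R.fin, Finsupp.add_apply, Finsupp.sub_apply, Finsupp.single_apply]
    rcases lt_trichotomy (v.ord P.y) 0 with h | h | h
    · obtain ⟨w, rfl⟩ := MulAction.surjective P.ι v
      rcases hpos w (by rw [geo1_y] at h; omega) with rfl | rfl
      · simp only [if_neg e12, if_neg e23.symm, if_neg e24.symm, if_true]; omega
      · simp only [if_neg e13, if_neg e23, if_neg e34.symm, if_true]; omega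
    · rw [if_neg fun e => by rw [e] at a3; omega, if_neg fun e => by rw [e] at b2; omega,
        if_neg fun e => by rw [e] at c2; omega, if_neg fun e => by rw [e] at d2; omega]
      omega
    · rcases hpos v h with rfl | rfl
      · simp only [if_neg e12.symm, if_neg e13.symm, if_neg e14.symm, if_true]; omega
      · simp only [if_neg e14, if_neg e24, if_neg e34, if_true]; omega

/-- At a fixed place `x` and `y` have order zero; if `x ≡ c` then `x⁻¹ ≡ c`, so `c ^ 2 = 1`. -/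
theorem fixed_ι (hn : Odd n) (hρ : Odd ρ) {v : Place k K} (hv : P.ι • v = v) :
    0 < v.ord (P.x - 1) ∧ 0 < v.ord (P.y - 1) := by
  have key : ∀ f : K, P.p.ord f ≠ 0 → P.ι.σ f = f⁻¹ → 0 < v.ord (f - 1) := fun f h1 h2 => by
    have h3 := P.geo1_ord v f
    rw [hv, h2, Place.ord_inv] at h3
    obtain ⟨c, hc⟩ := R.res v f (.of_le (by omega))
    have h4 := (P.ι.smul_ge_σ v _ _).2 hc
    rw [hv, map_sub, h2, P.ι.map_const, P.ι0] at h4
    have h5 : v.Ge f⁻¹ 0 := .of_le (by rw [Place.ord_inv]; omega)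
    have h6 := (h5.mul hc).add ((v.ge_const c).mul h4)
    have h7 : f⁻¹ * (f - algebraMap k K c) + algebraMap k K c * (f⁻¹ - algebraMap k K c) =
        algebraMap k K (1 - c * c) := by
      rw [mul_sub, inv_mul_cancel₀ (geo1_ne h1).1, map_sub, map_mul, map_one]
      ring
    rw [h7] at h6
    rw [geo1_one (sub_eq_zero.1 (Place.const_eq_zero_of_ge h6)).symm, map_one] at hc
    exact hc.le (geo1_ne h1).2
  have h0 := hn.pos
  have h0' := hρ.pos
  exact ⟨key _ (by rw [P.px]; omega) P.ιx, key _ (by rw [P.py]; omega) P.ιy⟩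

end Pre

end Pool.Agent.Lib.MP_a01f70_lc.QQ
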