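import Pool.Agent.Lib.MP_a01f70_lc.QQ.GeoBasic1

/-!
First properties of the geometric data.
-/

set_option linter.unusedSectionVars false

namespace Pool.Agent.Lib.MP_a01f70_lc.QQ
open Module Polynomial

variable {k K : Type*} [Field k] [Field K] [Algebra k K]
  {R : RRData k K} {n h : ℕ}

namespace Geo
variable (G : Geo R n h)

lemma Twist.deg_eq {v₀ : ℕ} {D : Div k K} {ψ : K} (T : G.Twist v₀ D ψ) : deg D = R.g := by
  have := congrArg deg T.half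
  rw [map_add, Aut.deg_push, G.degΔ] at this
  omega

lemma Θ_smul (ψ : K) (c : k) (f : K) : G.Θ ψ (c • f) = c ^ 2 • G.Θ ψ f := by
  rw [Θ_apply, Θ_apply, Aut.map_smul, G.φ0, mul_smul_comm]

lemma Θ_bijective {ψ : K} (h0 : ψ ≠ 0) : Function.Bijective (G.Θ ψ) := by
  exact (mulLeft_bijective₀ ψ h0).comp G.φ.σ.bijective

lemma Twist.Θ_mem_L {v₀ : ℕ} {D : Div k K} {ψ : K} (T : G.Twist v₀ D ψ) {E : Div k K}
    (hE : G.φ.push E = E) {f : K} :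
    G.Θ ψ f ∈ L (D + E + Finsupp.single G.p2 (v₀ : ℤ) - Finsupp.single G.p4 (v₀ : ℤ))
      ↔ f ∈ L (D + E) := by
  rw [← G.φ.σ_mem_L (D := D + E), map_add, hE, T.frob, Θ_apply, mul_comm, L,
    mul_mem_LS_iff R.fin T.ψ0, L]
  congr! 2
  abel

lemma Twist.Θ_mem_LS {v₀ : ℕ} {D : Div k K} {ψ : K} (T : G.Twist v₀ D ψ) {E : Div k K}
    (hE : G.φ.push E = E) {f : K} : G.Θ ψ f ∈ LS G.S (D + E) ↔ f ∈ LS G.S (D + E) := by
  rw [← G.φ.σ_mem_LS G.φ_smul_mem_S (D := D + E) (f := f), map_add, hE, T.frob, Θ_apply, mul_comm,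
    mul_mem_LS_iff R.fin T.ψ0, LS_congr fun v hv => ?_]
  obtain ⟨-, h2, -, h4⟩ := G.ne_of_mem_S hv
  simp only [Finsupp.add_apply, Finsupp.sub_apply, Finsupp.single_eq_of_ne h2,
    Finsupp.single_eq_of_ne h4]
  ring

lemma Twist.Θ_mul_ι_Θ {v₀ : ℕ} {D : Div k K} {ψ : K} (T : G.Twist v₀ D ψ) (f g : K) :
    G.Θ ψ f * G.ι.σ (G.Θ ψ g) = G.φ.σ (f * G.ι.σ g) := by
  rw [Θ_apply, Θ_apply, map_mul, map_mul, G.φ_ι_σ, mul_mul_mul_comm, T.ψι, one_mul]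

lemma Twist.mul_ι_mem {v₀ : ℕ} {D : Div k K} {ψ : K} (T : G.Twist v₀ D ψ) {E E' : Div k K}
    {f g : K} (hf : f ∈ LS G.S (D + E)) (hg : g ∈ LS G.S (D + E')) :
    f * G.ι.σ g ∈ LS G.S (G.K0 + G.Q + E + G.ι.push E') := by
  have h1 := mul_mem_LS hf ((G.ι.σ_mem_LS G.ι_smul_mem_S).mpr hg)
  rwa [LS_congr fun v hv => ?_] at h1
  have h2 := G.Δ_eq hv
  rw [← T.half] at h2
  simp only [map_add, Finsupp.add_apply] at h2 ⊢
  omega

end Geo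

end Pool.Agent.Lib.MP_a01f70_lc.QQ
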