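import Pool.Agent.Lib.MP_a01f70_lc.QQ.GeoDefs

/-!
First properties of the geometric data.
-/

set_option linter.unusedSectionVars false

namespace Pool.Agent.Lib.MP_a01f70_lc.QQ
open Module Polynomial

variable {k K : Type*} [Field k] [Field K] [Algebra k K]
  {R : RRData k K} {n h : ℕ}

namespace Geo
variable (G : Geo R n h)

lemma mem_S {v : Place k K} : v ∈ G.S ↔ G.Q v ≠ 0 := by
  exact Finsupp.mem_support_iff

lemma φ_smul_mem_S (v : Place k K) : G.φ • v ∈ G.S ↔ v ∈ G.S := by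
  rw [mem_S, mem_S, ← G.φ.push_apply_smul G.Q v, G.φQ]

lemma ι_smul_mem_S (v : Place k K) : G.ι • v ∈ G.S ↔ v ∈ G.S := by
  rw [mem_S, mem_S, ← G.ι.push_apply_smul G.Q v, G.ιQ]

lemma q_mem_S : G.q ∈ G.S := by
  rw [mem_S, G.Q_q]
  exact one_ne_zero

lemma ι_σ_σ (f : K) : G.ι.σ (G.ι.σ f) = f := by
  rw [← Aut.mul_σ, G.ιι, Aut.one_σ]

lemma ι_smul_smul (v : Place k K) : G.ι • G.ι • v = v := by
  rw [← mul_smul, G.ιι, one_smul]

lemma ιp3 : G.ι • G.p3 = G.p1 := by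
  rw [← G.ιp1, ι_smul_smul]

lemma ιp4 : G.ι • G.p4 = G.p2 := by
  rw [← G.ιp2, ι_smul_smul]

lemma φ_ι_σ (f : K) : G.φ.σ (G.ι.σ f) = G.ι.σ (G.φ.σ f) := by
  rw [← Aut.mul_σ, G.φι, Aut.mul_σ]

lemma ne_of_mem_S {v : Place k K} (hv : v ∈ G.S) :
    v ≠ G.p1 ∧ v ≠ G.p2 ∧ v ≠ G.p3 ∧ v ≠ G.p4 := by
  rw [mem_S] at hv
  exact ⟨fun h => hv (h ▸ G.Qp1), fun h => hv (h ▸ G.Qp2), fun h => hv (h ▸ G.Qp3),
    fun h => hv (h ▸ G.Qp4)⟩

lemma ord_x {v : Place k K} (hv : v ∈ G.S) : v.ord G.x = 0 := by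
  obtain ⟨-, h2, -, h4⟩ := G.ne_of_mem_S hv
  rw [← dv_apply R.fin, G.dvx]
  simp [Finsupp.single_eq_of_ne h2, Finsupp.single_eq_of_ne h4]

lemma ord_y {v : Place k K} (hv : v ∈ G.S) : v.ord G.y = 0 := by
  obtain ⟨h1, h2, h3, h4⟩ := G.ne_of_mem_S hv
  rw [← dv_apply R.fin, G.dvy]
  simp [Finsupp.single_eq_of_ne h1, Finsupp.single_eq_of_ne h2, Finsupp.single_eq_of_ne h3,
    Finsupp.single_eq_of_ne h4]

/-- the characters are congruent to one modulo `Q` -/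
lemma ge_char_sub_one {v : Place k K} (hv : v ∈ G.S) (i j : ℤ) :
    v.Ge (G.x ^ i * G.y ^ j - 1) (G.Q v) := by
  have key : ∀ f : K, f ≠ 0 → v.ord f = 0 → v.Ge (f - 1) (G.Q v) → ∀ i : ℤ,
      v.Ge (f ^ i - 1) (G.Q v) := by
    intro f h0 h1 h2 i
    induction i using Int.induction_on with
    | zero => simp
    | succ i ih =>
      rw [zpow_add_one₀ h0, show f ^ (i : ℤ) * f - 1 = (f ^ (i : ℤ) - 1) * f + (f - 1) by ring]
      exact Place.Ge.add (by simpa using ih.mul (Place.Ge.of_le h1.ge)) h2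
    | pred i ih =>
      rw [zpow_sub_one₀ h0, show f ^ (-i : ℤ) * f⁻¹ - 1 = ((f ^ (-i : ℤ) - 1) - (f - 1)) * f⁻¹ by
        field_simp; ring]
      simpa using (ih.sub h2).mul (Place.Ge.of_le (f := f⁻¹) (m := 0) (by simp [h1]))
  have h1 := key _ G.x0 (G.ord_x hv) (G.Qx v hv) i
  have h2 := key _ G.y0 (G.ord_y hv) (Or.inr (G.Qy v hv).ge) j
  rw [show G.x ^ i * G.y ^ j - 1 = (G.x ^ i - 1) * G.y ^ j + (G.y ^ j - 1) by ring]
  exact Place.Ge.add (by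
    simpa using h1.mul (Place.Ge.of_le (f := G.y ^ j) (m := 0) (by simp [G.ord_y hv]))) h2

lemma char_mul_sub_mem {D : Div k K} {f : K} (hf : f ∈ LS G.S D) (i j : ℤ) :
    G.x ^ i * G.y ^ j * f - f ∈ LS G.S (D - G.Q) := by
  intro v hv
  rw [← sub_one_mul]
  have := (G.ge_char_sub_one hv i j).mul (hf v hv)
  convert this using 1
  simp only [Finsupp.sub_apply]
  ring

lemma K0_eq : G.K0 = R.Kc - dv G.x - dv (G.y - 1) := by
  rw [K0, dv_inv R.fin, dv_mul R.fin G.x0 G.y1]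
  abel

lemma φK0 : G.φ.push G.K0 = G.K0 := by
  rw [K0, map_add, G.φK, Aut.push_dv _ R.fin, map_inv₀, map_mul, map_sub, G.φx, G.φy, map_one]

/-- in characteristic two `ι (y - 1) = (y - 1) / y` up to sign -/
lemma ιK0 : G.ι.push G.K0 = G.K0 + dv G.y := by
  have := G.y0
  rw [K0_eq, map_sub, G.ιK, Aut.push_dv _ R.fin, map_sub, G.ιy, map_one,
    show G.y⁻¹ - 1 = (G.y - 1) / G.y * algebraMap k K (-1) by simp; field_simp; ring,
    dv_mul R.fin (div_ne_zero G.y1 G.y0) (by simp), dv_const R.fin, dv_div R.fin G.y1 G.y0]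
  abel

lemma φΔ : G.φ.push G.Δ = G.Δ := by
  simp only [Δ, map_add, map_sub, G.φK0, G.φQ, Aut.push_single, G.φp2, G.φp3, G.φp4]

lemma ιΔ : G.ι.push G.Δ = G.Δ := by
  simp only [Δ, map_add, map_sub, G.ιK0, G.ιQ, Aut.push_single, G.ιp2, G.ιp3, G.ιp4, G.dvy]
  ext v
  classical
  simp only [Finsupp.add_apply, Finsupp.sub_apply, Finsupp.single_apply]
  split_ifs <;> ring

lemma degΔ : deg G.Δ = 2 * R.g := by
  simp only [Δ, K0, map_add, map_sub, R.degdv, R.deg_Kc, G.degQ, deg_single]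
  ring

lemma Δ_eq {v : Place k K} (hv : v ∈ G.S) : G.Δ v = (G.K0 + G.Q) v := by
  obtain ⟨-, h2, h3, h4⟩ := G.ne_of_mem_S hv
  simp [Δ, Finsupp.single_eq_of_ne h2, Finsupp.single_eq_of_ne h3, Finsupp.single_eq_of_ne h4]

lemma even_Δ {v : Place k K} (hv : G.ι • v = v) : Even (G.Δ v) := by
  have h1 : v ∈ G.S := G.fix v hv
  rw [G.Δ_eq h1, K0_eq]
  simp only [Finsupp.add_apply, Finsupp.sub_apply, dv_apply R.fin, G.ord_x h1, G.Qy v h1, sub_zero,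
    sub_add_cancel]
  exact G.Kev v h1

end Geo

end Pool.Agent.Lib.MP_a01f70_lc.QQ
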