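import Pool.Agent.Lib.MP_a01f70_lc.QQ.Albert

/-!
Twisted circulant Gram matrices of rank at most four.
-/

set_option linter.unusedSectionVars false

namespace Pool.Agent.Lib.MP_a01f70_lc.QQ
open Module Polynomial

variable {k : Type*} [Field k] [IsAlgClosed k] [CharP k 2]

theorem gram_indep {n : ℕ} (hn : 0 < n) (ι : GaloisField 2 n →+* k) (a : ℕ → k)
    (h : ∀ z, ∑ i ∈ Finset.range n, ι z ^ 2 ^ i * a i = 0) {i : ℕ} (hi : i < n) : a i = 0 := by
  have : Fintype (GaloisField 2 n) := Fintype.ofFinite _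
  have h1 : (∑ i ∈ Finset.range n, monomial (2 ^ i) (a i) : k[X]) = 0 := by
    refine eq_zero_of_natDegree_lt_card_of_eval_eq_zero _ ι.injective (fun z => ?_) ?_
    · rw [eval_finsetSum, ← h z]
      exact Finset.sum_congr rfl fun i _ => by rw [eval_monomial, mul_comm]
    · rw [← Nat.card_eq_fintype_card, GaloisField.card 2 n hn.ne']
      refine (natDegree_sum_le_of_forall_le _ _ (n := 2 ^ (n - 1)) fun i hi => ?_).trans_lt
        (Nat.pow_lt_pow_right one_lt_two (by omega))
      have := Finset.mem_range.1 hi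
      exact (natDegree_monomial_le _).trans (Nat.pow_le_pow_right two_pos (by omega))
  have h2 := congrArg (coeff · (2 ^ i)) h1
  simp only [finsetSum_coeff, coeff_monomial, coeff_zero, Nat.pow_right_inj one_lt_two] at h2
  rwa [Finset.sum_ite_eq', if_pos (Finset.mem_range.2 hi)] at h2

theorem gram_shift {n : ℕ} (f : ℕ → k) (h : f n = f 0) :
    ∑ i ∈ Finset.range n, f (i + 1) = ∑ i ∈ Finset.range n, f i := by
  have := Finset.sum_range_succ' f n
  rw [Finset.sum_range_succ, h] at this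
  exact (add_right_cancel this).symm

theorem gram_diag (n : ℕ) (f : ℕ → ℕ → k) (h : ∀ i j, f i j = f j i) :
    ∑ i ∈ Finset.range n, ∑ j ∈ Finset.range n, f i j = ∑ i ∈ Finset.range n, f i i := by
  induction n with
  | zero => simp
  | succ n ih =>
    simp only [Finset.sum_range_succ, Finset.sum_add_distrib, ih, h n]
    linear_combination CharTwo.add_self_eq_zero (∑ i ∈ Finset.range n, f i n)

/-- Let `F = {z | z ^ 2 ^ n = z}`, a subfield with `2 ^ n` elements, and
`β z w = ∑ i < n, ∑ j < n, z ^ 2 ^ i * w ^ 2 ^ j * G i j` for `z, w ∈ F`. Then `β ^ 2 = β` (shift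
the indices), so `β` is a symmetric bilinear form over `ZMod 2`. It is not alternating:
`β z z = ∑ i, (z ^ 2 * G 0 0) ^ 2 ^ i` (the other terms cancel in pairs) is a nonzero polynomial
function of degree `< 2 ^ n` in `z ^ 2`. Rank: for `z : Fin 5 → F` apply `hrk` to
`a s i = z s ^ 2 ^ i` and then a `ZMod 2`-linear functional `θ : k → ZMod 2` with `θ (c s₀) = 1`.
By `albert`, `β z w = ∑ t, l t z * l t w`, and each functional is `z ↦ ∑ i < n, (x t * z) ^ 2 ^ i`
with `x t ∈ F` (nondegenerate trace form, or counting). Compare coefficients: the maps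
`z ↦ z ^ 2 ^ i`, `i < n`, are independent on `F` (a polynomial of degree `< 2 ^ n` vanishing on `F`
is zero). Extend from `i, j < n` by periodicity. -/
theorem gram_four {n : ℕ} (hn : 0 < n) (G : ℕ → ℕ → k) (hs : ∀ i j, G i j = G j i)
    (hper : ∀ i j, G (i + n) j = G i j) (hfr : ∀ i j, G (i + 1) (j + 1) = G i j ^ 2)
    (h0 : G 0 0 ≠ 0)
    (hrk : ∀ a : Fin 5 → ℕ → k, ∃ c : Fin 5 → k, c ≠ 0 ∧
      ∀ j, ∑ s, c s * ∑ i ∈ Finset.range n, a s i * G i j = 0) :
    ∃ z : Fin 4 → k, (∀ t, z t ^ 2 ^ n = z t) ∧ ∀ i j, G i j = ∑ t, z t ^ (2 ^ i + 2 ^ j) := by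
  let _ : Algebra (ZMod 2) k := ZMod.algebra k 2
  let ι : GaloisField 2 n →ₐ[ZMod 2] k := IsAlgClosed.lift
  have hι : ∀ z, ι z ^ 2 ^ n = ι z := fun z => by
    have : Fintype (GaloisField 2 n) := Fintype.ofFinite _
    rw [← map_pow, ← GaloisField.card 2 n hn.ne', Nat.card_eq_fintype_card, FiniteField.pow_card]
  let φ : ℕ → GaloisField 2 n →ₗ[ZMod 2] k := fun i =>
    ((iterateFrobenius k 2 i).comp (ι : GaloisField 2 n →+* k)).toAddMonoidHom.toZModLinearMap 2
  have hφ : ∀ i z, φ i z = ι z ^ 2 ^ i := fun _ _ => rfl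
  let β : GaloisField 2 n →ₗ[ZMod 2] GaloisField 2 n →ₗ[ZMod 2] k := LinearMap.mk₂ (ZMod 2)
    (fun z w => ∑ i ∈ Finset.range n, ∑ j ∈ Finset.range n, φ i z * φ j w * G i j)
    (fun _ _ _ => by simp only [map_add, add_mul, Finset.sum_add_distrib])
    (fun _ _ _ => by simp only [map_smul, smul_mul_assoc, Finset.smul_sum])
    (fun _ _ _ => by simp only [map_add, mul_add, add_mul, Finset.sum_add_distrib])
    (fun _ _ _ => by simp only [map_smul, mul_smul_comm, smul_mul_assoc, Finset.smul_sum])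
  have hβ : ∀ z w, β z w =
      ∑ i ∈ Finset.range n, ∑ j ∈ Finset.range n, ι z ^ 2 ^ i * ι w ^ 2 ^ j * G i j :=
    fun _ _ => rfl
  have hn0 : ∀ j, G n j = G 0 j := fun j => by simpa using hper 0 j
  have hsq : ∀ z w, β z w ^ 2 = β z w := fun z w => by
    rw [hβ]
    simp only [sum_pow_char, mul_pow, ← hfr, ← pow_mul, ← pow_succ]
    rw [← gram_shift (fun i => ∑ j ∈ Finset.range n, ι z ^ 2 ^ i * ι w ^ 2 ^ j * G i j)
      (by simp [hι, hn0])]
    exact Finset.sum_congr rfl fun i _ =>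
      gram_shift (fun j => ι z ^ 2 ^ (i + 1) * ι w ^ 2 ^ j * G (i + 1) j)
        (by simp [hι, hs (i + 1), hn0])
  obtain ⟨θ, hθ⟩ := Projective.exists_dual_eq_one (ZMod 2) (one_ne_zero (α := k))
  let B := β.compr₂ θ
  have hB : ∀ z w, algebraMap (ZMod 2) k (B z w) = β z w := fun z w => by
    have h1 : β z w * (β z w - 1) = 0 := by linear_combination hsq z w
    rw [LinearMap.compr₂_apply]
    rcases mul_eq_zero.1 h1 with h | h
    · rw [h, map_zero, map_zero]
    · rw [sub_eq_zero.1 h, hθ, map_one]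
  refine (albert B (fun u v => ?_) ?_ fun z => ?_).elim fun l hl => ?_
  rotate_right
  · have htr : ∀ t, ∃ x : GaloisField 2 n, ∀ z, algebraMap (ZMod 2) k (l t z) =
        ∑ i ∈ Finset.range n, ι x ^ 2 ^ i * ι z ^ 2 ^ i := fun t => by
      refine ⟨((Algebra.traceForm (ZMod 2) _).toDual (traceForm_nondegenerate _ _)).symm (l t),
        fun z => ?_⟩
      rw [← LinearMap.BilinForm.apply_toDual_symm_apply
        (hB := traceForm_nondegenerate (ZMod 2) (GaloisField 2 n)) (l t) z, Algebra.traceForm_apply,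
        ← ι.commutes, FiniteField.algebraMap_trace_eq_sum_pow, GaloisField.finrank 2 hn.ne',
        Nat.card_zmod, map_sum]
      simp only [map_pow, map_mul, mul_pow]
    choose x hx using htr
    have h1 : ∀ i < n, ∀ j < n, G i j - ∑ t, ι (x t) ^ (2 ^ i + 2 ^ j) = 0 := fun i hi j hj => by
      refine gram_indep hn (ι : GaloisField 2 n →+* k)
        (fun j => G i j - ∑ t, ι (x t) ^ (2 ^ i + 2 ^ j)) (fun w => ?_) hj
      refine gram_indep hn (ι : GaloisField 2 n →+* k) (fun i => ∑ j ∈ Finset.range n,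
        ι w ^ 2 ^ j * (G i j - ∑ t, ι (x t) ^ (2 ^ i + 2 ^ j))) (fun z => ?_) hi
      have h2 := hB z w
      rw [hl, map_sum, hβ] at h2
      simp only [map_mul, hx, Finset.sum_mul_sum] at h2
      rw [Finset.sum_comm] at h2
      simp only [RingHom.coe_coe, Finset.mul_sum, mul_sub, Finset.sum_sub_distrib, ← mul_assoc]
      rw [← h2, sub_eq_zero]
      refine Finset.sum_congr rfl fun i _ => ?_
      rw [Finset.sum_comm]
      exact Finset.sum_congr rfl fun j _ => Finset.sum_congr rfl fun t _ => by ring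
    have h3 : ∀ t, Function.Periodic (fun i => ι (x t) ^ 2 ^ i) n := fun t i => by
      simp only [pow_add, mul_comm (2 ^ i), pow_mul, hι]
    have h4 : ∀ i j, G (i % n) j = G i j := fun i j =>
      Function.Periodic.map_mod_nat (f := fun i => G i j) (fun i => hper i j) i
    refine ⟨fun t => ι (x t), fun t => hι _, fun i j => ?_⟩
    rw [← h4, hs, ← h4, hs, sub_eq_zero.1 (h1 _ (Nat.mod_lt i hn) _ (Nat.mod_lt j hn))]
    refine Finset.sum_congr rfl fun t _ => ?_
    rw [pow_add, pow_add, (h3 t).map_mod_nat i, (h3 t).map_mod_nat j]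
  · rw [LinearMap.compr₂_apply, LinearMap.compr₂_apply, hβ, hβ, Finset.sum_comm]
    congr 1
    exact Finset.sum_congr rfl fun i _ => Finset.sum_congr rfl fun j _ => by rw [hs]; ring
  · by_contra! hc
    refine h0 (gram_indep hn (ι : GaloisField 2 n →+* k) (fun i => G i i) (fun z => ?_) hn)
    obtain ⟨u, rfl⟩ := surjective_frobenius _ 2 z
    have h1 := hB u u
    rw [hc, map_zero, hβ, gram_diag _ _ fun i j => by rw [hs]; ring] at h1
    rw [h1]
    refine Finset.sum_congr rfl fun i _ => ?_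
    rw [frobenius_def, map_pow, RingHom.coe_coe]
    ring
  · obtain ⟨c, hc0, hc⟩ := hrk fun s i => ι (z s) ^ 2 ^ i
    obtain ⟨s₀, hs₀⟩ := Function.ne_iff.1 hc0
    obtain ⟨θ', hθ'⟩ := Projective.exists_dual_ne_zero (ZMod 2) hs₀
    refine ⟨fun s => θ' (c s), Function.ne_iff.2 ⟨s₀, hθ'⟩, LinearMap.ext fun w => ?_⟩
    have h1 : ∑ s, B (z s) w • c s = 0 := by
      have h2 : ∑ j ∈ Finset.range n, ι w ^ 2 ^ j *
          ∑ s, c s * ∑ i ∈ Finset.range n, ι (z s) ^ 2 ^ i * G i j = 0 := by simp [hc]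
      rw [← h2]
      simp only [Algebra.smul_def, hB, hβ, Finset.mul_sum, Finset.sum_mul]
      rw [Finset.sum_comm' (t' := Finset.univ) (s' := fun _ => Finset.range n)
        (s := Finset.range n) (t := fun _ => Finset.univ) (by simp)]
      refine Finset.sum_congr rfl fun s _ => ?_
      rw [Finset.sum_comm]
      exact Finset.sum_congr rfl fun j _ => Finset.sum_congr rfl fun t _ => by ring
    have h3 := congrArg θ' h1
    simp only [map_sum, map_smul, smul_eq_mul, map_zero] at h3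
    simp only [map_sum, map_smul, LinearMap.sum_apply, LinearMap.smul_apply, smul_eq_mul,
      LinearMap.zero_apply, ← h3, mul_comm]

end Pool.Agent.Lib.MP_a01f70_lc.QQ
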