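import Pool.Agent.Lib.MP_a01f70_lc.QQ.Inv1

/-!
Invariance of the canonical divisor under automorphisms.
-/

set_option linter.unusedSectionVars false

namespace Pool.Agent.Lib.MP_a01f70_lc.QQ
open Module Polynomial

variable {k K : Type*} [Field k] [Field K] [Algebra k K] [Algebra k[X] K] [Algebra (RatFunc k) K]
  [IsScalarTower k k[X] K] [IsScalarTower k[X] (RatFunc k) K] [IsScalarTower k (RatFunc k) K]
  [FiniteDimensional (RatFunc k) K] [Algebra.IsSeparable (RatFunc k) K]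

variable {n : ℕ} {p : Place k K}

lemma inv_σ_inv (a : Aut k K) (ha : a.σ (xx k K) = (xx k K)⁻¹) :
    a.σ (xx k K)⁻¹ = xx k K := by
  rw [map_inv₀, ha, inv_inv]

lemma inv_inv_σ (a : Aut k K) (ha : a.σ (xx k K) = (xx k K)⁻¹) :
    a⁻¹.σ (xx k K) = (xx k K)⁻¹ := by
  rw [Aut.inv_σ, RingEquiv.symm_apply_eq, inv_σ_inv a ha]

lemma inv_smul_ord (a : Aut k K) (ha : a.σ (xx k K) = (xx k K)⁻¹) (v : Place k K) :
    (a • v).ord (xx k K) = -v.ord (xx k K) := by
  have h := a.smul_ord_σ v (xx k K)⁻¹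
  rw [inv_σ_inv a ha, Place.ord_inv] at h
  exact h

lemma inv_ge_trace (h0 : 0 < n) (hp : p.ord (xx k K) = -n) (hn : finrank (RatFunc k) K = n)
    (a : Aut k K) (ha : a.σ (xx k K) = (xx k K)⁻¹) {f : K} {m : ℤ} (h : (a • p).Ge f m) :
    (a • p).Ge (algebraMap (RatFunc k) K (Algebra.trace (RatFunc k) K f)) m := by
  obtain ⟨f', rfl⟩ := a.σ.surjective f
  rw [trace_aut a (Or.inr ha), Aut.smul_ge_σ]
  exact ge_trace h0 hp hn ((a.smul_ge_σ p f' m).mp h)

lemma inv_ord_trace (hres : ResPl k K) (hk : (n : k) ≠ 0) (hp : p.ord (xx k K) = -n)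
    (hn : finrank (RatFunc k) K = n) (a : Aut k K) (ha : a.σ (xx k K) = (xx k K)⁻¹) {f : K}
    (hf : f ≠ 0) {m : ℤ} (h : (a • p).ord f = n * m) :
    algebraMap (RatFunc k) K (Algebra.trace (RatFunc k) K f) ≠ 0 ∧
      (a • p).ord (algebraMap (RatFunc k) K (Algebra.trace (RatFunc k) K f)) = n * m := by
  obtain ⟨f', rfl⟩ := a.σ.surjective f
  have hf' : f' ≠ 0 := fun h0 => hf (by rw [h0, map_zero])
  rw [Aut.smul_ord_σ] at h
  obtain ⟨h1, h2⟩ := ord_trace hres hk hp hn hf' h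
  rw [trace_aut a (Or.inr ha), Aut.smul_ord_σ]
  refine ⟨?_, h2⟩
  rw [map_ne_zero_iff _ a.σ.injective, map_ne_zero_iff _ (algebraMap (RatFunc k) K).injective]
  exact h1

lemma inv_ord_unit {q : Place k K} (hq : 0 < q.ord (xx k K)) {u : k[X]} (hu : u.coeff 0 ≠ 0) :
    q.ord (algebraMap k[X] K u) = 0 := by
  have h1 : algebraMap k[X] K u
      = algebraMap k K (u.coeff 0) + xx k K * algebraMap k[X] K u.divX := by
    conv_lhs => rw [← Polynomial.X_mul_divX_add u]
    rw [map_add, map_mul, add_comm]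
    congr 1
    rw [IsScalarTower.algebraMap_apply k k[X] K, Polynomial.algebraMap_eq]
  have h2 : algebraMap k K (u.coeff 0) ≠ 0 := by simpa using hu
  have h3 : q.Ge (xx k K * algebraMap k[X] K u.divX) (q.ord (algebraMap k K (u.coeff 0)) + 1) := by
    have h4 : q.Ge (xx k K) 1 := Place.Ge.of_le hq
    have h5 : q.Ge (algebraMap k[X] K u.divX) 0 := ge_poly (mem_FinSet.mpr hq.le) _
    have h6 := h4.mul h5
    rw [Place.ord_const']
    simpa using h6
  rw [h1, (Place.ord_add_of_ge h2 h3).2, Place.ord_const']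

lemma inv_factor {u : k[X]} (hu : u ≠ 0) :
    ∃ (i : ℕ) (w : k[X]), w.coeff 0 ≠ 0 ∧ u = X ^ i * w := by
  obtain ⟨w, h1, h2⟩ := Polynomial.exists_eq_pow_rootMultiplicity_mul_and_not_dvd u hu 0
  refine ⟨u.rootMultiplicity 0, w, ?_, by simpa using h1⟩
  intro h
  apply h2
  rw [map_zero, sub_zero]
  exact Polynomial.X_dvd_iff.mpr h

lemma inv_ord_factor {q : Place k K} (hq : 0 < q.ord (xx k K)) (i : ℕ) {w : k[X]}
    (hw : w.coeff 0 ≠ 0) : q.ord (algebraMap k[X] K (X ^ i * w)) = i * q.ord (xx k K) := by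
  have hw0 : w ≠ 0 := fun h => hw (by rw [h, Polynomial.coeff_zero])
  have hx : algebraMap k[X] K X = xx k K := rfl
  rw [map_mul, map_pow, hx, q.ord_mul (pow_ne_zero _ xx_ne_zero) (algebraMap_poly_ne_zero hw0),
    inv_ord_unit hq hw, Place.ord_pow, add_zero]

lemma inv_clear {q : Place k K} (h0 : 0 < n) (hq : q.ord (xx k K) = n) {r : RatFunc k}
    (hr : q.Ge (algebraMap (RatFunc k) K r) (1 - n)) :
    ∃ c u : k[X], c.coeff 0 ≠ 0 ∧
      algebraMap k[X] (RatFunc k) c * r = algebraMap k[X] (RatFunc k) u := by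
  by_cases hr0 : r = 0
  · exact ⟨1, 0, by simp, by simp [hr0]⟩
  have hq0 : 0 < q.ord (xx k K) := by
    rw [hq]
    exact_mod_cast h0
  obtain ⟨i, w₁, hw₁, h₁⟩ := inv_factor (RatFunc.num_ne_zero hr0)
  obtain ⟨j, w₂, hw₂, h₂⟩ := inv_factor r.denom_ne_zero
  have hne : algebraMap (RatFunc k) K r ≠ 0 :=
    (map_ne_zero_iff _ (algebraMap (RatFunc k) K).injective).mpr hr0
  have hle := hr.le hne
  rw [algebraMap_rat, q.ord_div (algebraMap_poly_ne_zero (RatFunc.num_ne_zero hr0))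
    (algebraMap_poly_ne_zero r.denom_ne_zero), h₁, h₂, inv_ord_factor hq0 i hw₁,
    inv_ord_factor hq0 j hw₂, hq] at hle
  have hij : j ≤ i := by
    by_contra hlt
    have h3 : (i : ℤ) + 1 ≤ j := by exact_mod_cast Nat.lt_of_not_le hlt
    have h4 : (0 : ℤ) < n := by exact_mod_cast h0
    nlinarith
  obtain ⟨d, rfl⟩ := Nat.exists_eq_add_of_le hij
  refine ⟨w₂, X ^ d * w₁, hw₂, ?_⟩
  have hd : algebraMap k[X] (RatFunc k) r.denom * r = algebraMap k[X] (RatFunc k) r.num := by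
    have h5 := RatFunc.num_div_denom r
    have h6 : algebraMap k[X] (RatFunc k) r.denom ≠ 0 := RatFunc.algebraMap_ne_zero r.denom_ne_zero
    rw [div_eq_iff h6] at h5
    rw [h5, mul_comm]
  rw [h₁, h₂] at hd
  have hX : algebraMap k[X] (RatFunc k) (X ^ j) ≠ 0 :=
    RatFunc.algebraMap_ne_zero (pow_ne_zero _ Polynomial.X_ne_zero)
  apply mul_left_cancel₀ hX
  rw [← mul_assoc, ← map_mul, hd, ← map_mul, pow_add, mul_assoc]

lemma inv_trace_poly_mul (c : k[X]) (f : K) :
    Algebra.trace (RatFunc k) K (algebraMap k[X] K c * f)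
      = algebraMap k[X] (RatFunc k) c * Algebra.trace (RatFunc k) K f := by
  rw [← algebraMap_poly_rat, ← Algebra.smul_def, map_smul, smul_eq_mul]

lemma inv_aut_poly (a : Aut k K) (ha : a.σ (xx k K) = (xx k K)⁻¹) (u : k[X]) :
    ∃ (m : ℕ) (w : k[X]), xx k K ^ m * a.σ (algebraMap k[X] K u) = algebraMap k[X] K w := by
  have hx : algebraMap k[X] K X = xx k K := rfl
  induction u using Polynomial.induction_on' with
  | add u₁ u₂ h₁ h₂ =>
    obtain ⟨m₁, w₁, h₁⟩ := h₁
    obtain ⟨m₂, w₂, h₂⟩ := h₂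
    refine ⟨m₁ + m₂, X ^ m₂ * w₁ + X ^ m₁ * w₂, ?_⟩
    rw [map_add, map_add, map_add, map_mul, map_mul, map_pow, map_pow, hx, ← h₁, ← h₂]
    ring
  | monomial i c =>
    refine ⟨i, C (a.σ₀ c), ?_⟩
    have hc : ∀ c : k, algebraMap k[X] K (C c) = algebraMap k K c := fun c => by
      rw [IsScalarTower.algebraMap_apply k k[X] K, Polynomial.algebraMap_eq]
    rw [← Polynomial.C_mul_X_pow_eq_monomial, map_mul, map_pow, hx, hc, hc, map_mul, map_pow, ha,
      a.map_const, inv_pow, mul_left_comm, mul_inv_cancel₀ (pow_ne_zero _ xx_ne_zero), mul_one]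

lemma inv_mid_smul (a : Aut k K) (ha : a.σ (xx k K) = (xx k K)⁻¹) (v : Place k K) :
    a • v ∈ {v : Place k K | v.ord (xx k K) = 0} ↔ v ∈ {v : Place k K | v.ord (xx k K) = 0} := by
  simp only [Set.mem_setOf_eq, inv_smul_ord a ha, neg_eq_zero]

lemma inv_σ_mem_mid (h0 : 0 < n) (hp : p.ord (xx k K) = -n) (hn : finrank (RatFunc k) K = n)
    {Kc : Div k K} (hK : IsCan Kc) (a : Aut k K) (ha : a.σ (xx k K) = (xx k K)⁻¹) {g : K}
    (hg : g ∈ LS {v : Place k K | v.ord (xx k K) = 0} Kc) :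
    a.σ g ∈ LS {v : Place k K | v.ord (xx k K) = 0} Kc := by
  rw [mem_LS_mid h0 hp hn hK a ha] at hg ⊢
  intro f hf
  obtain ⟨f', rfl⟩ := a.σ.surjective f
  have hf' : f' ∈ LS {v : Place k K | v.ord (xx k K) = 0} (0 : Div k K) := by
    rw [← a.σ_mem_LS (inv_mid_smul a ha), map_zero]
    exact hf
  obtain ⟨m, u, hu⟩ := hg f' hf'
  obtain ⟨m', w, hw⟩ := inv_aut_poly a ha u
  refine ⟨m', X ^ m * w, ?_⟩
  have hx : algebraMap k[X] K X = xx k K := rfl
  rw [← map_mul, trace_aut a (Or.inr ha), map_mul (algebraMap k[X] K), map_pow, hx, ← hw, ← hu,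
    map_mul a.σ, map_pow, ha, inv_pow]
  have hne : xx k K ^ m ≠ 0 := pow_ne_zero _ xx_ne_zero
  field_simp

/-- Let `q = a • p`, `q.ord x = n`. Transport `ge_trace` and `ord_trace` to `q` by `trace_aut`.
(`≤`) if `g ∈ LS (FinSet k K) Kc` had `q.ord g = -n - j`, `j ≥ 0`, take an integral `f` with
`q.ord f = j` (`approx`): the trace of `f * g` has order `-n` at `q` but is a polynomial; use
`exists_mem_LS_ord_eq`. (`≥`) take `g₀` with `q.ord g₀ = 1 - n`; the traces of `ω * g₀` for the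
generators `ω` of `exists_gens` have order `> -n`, hence `≥ 0` at `q` (orders of rational
functions are multiples of `n`), so their denominators do not vanish at `0`; multiply `g₀` by the
product `c` of these denominators (`q.ord c = 0`): `c g₀ ∈ LS (FinSet k K) Kc`. -/
theorem Kc_at_zero (hres : ResPl k K) (hk : (n : k) ≠ 0) (hp : p.ord (xx k K) = -n)
    (hn : finrank (RatFunc k) K = n) {Kc : Div k K} (hK : IsCan Kc) (a : Aut k K)
    (ha : a.σ (xx k K) = (xx k K)⁻¹) : Kc (a • p) = n - 1 := by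
  have h0 : 0 < n := Nat.pos_of_ne_zero fun h => hk (by rw [h, Nat.cast_zero])
  have hq : (a • p).ord (xx k K) = n := by rw [inv_smul_ord a ha, hp, neg_neg]
  have hq0 : 0 < (a • p).ord (xx k K) := by
    rw [hq]
    exact_mod_cast h0
  have hqF : a • p ∈ FinSet k K := mem_FinSet.mpr hq0.le
  apply le_antisymm
  · by_contra hlt
    have hle : (n : ℤ) ≤ Kc (a • p) := by omega
    obtain ⟨g, hg, hg0, hgo⟩ := exists_mem_LS_ord_eq Kc hqF
    obtain ⟨f, hf0, hf1, hf2⟩ := approx {a • p} (fun v hv => by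
      rw [Finset.mem_singleton.mp hv]
      exact hqF) (fun _ => Kc (a • p) - n)
    have hfo : (a • p).ord f = Kc (a • p) - n := hf1 _ (Finset.mem_singleton_self _)
    have hfi : IsIntegral k[X] f := by
      rw [isIntegral_iff_ge]
      intro v hv
      by_cases hvq : v = a • p
      · rw [hvq]
        exact Place.Ge.of_le (by omega)
      · exact Place.Ge.of_le (hf2 v hv (by simpa using hvq))
    obtain ⟨u, hu⟩ := (hK g).mp hg f hfi
    have hfg : (a • p).ord (f * g) = n * (-1) := by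
      rw [(a • p).ord_mul hf0 hg0, hfo, hgo]
      ring
    obtain ⟨h1, h2⟩ := inv_ord_trace hres hk hp hn a ha (mul_ne_zero hf0 hg0) hfg
    rw [hu, algebraMap_poly_rat] at h1 h2
    have h3 := (ge_poly hqF u).le h1
    have h4 : (0 : ℤ) < n := by exact_mod_cast h0
    omega
  · obtain ⟨g₀, hg0, hgo⟩ := (a • p).exists_ord_eq (1 - n)
    obtain ⟨s, hs⟩ := exists_gens (k := k) (K := K)
    have hc : ∀ ω ∈ s, ∃ c u : k[X], c.coeff 0 ≠ 0 ∧ algebraMap k[X] (RatFunc k) c
        * Algebra.trace (RatFunc k) K (ω * g₀) = algebraMap k[X] (RatFunc k) u := by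
      intro ω hω
      have hωi : IsIntegral k[X] ω := (hs ω).mpr (Submodule.subset_span hω)
      have h1 : (a • p).Ge ω 0 := (isIntegral_iff_ge ω).mp hωi _ hqF
      have h2 : (a • p).Ge (ω * g₀) (1 - n) := by
        have h3 := h1.mul ((a • p).ge_ord g₀)
        rwa [hgo, zero_add] at h3
      exact inv_clear h0 hq (inv_ge_trace h0 hp hn a ha h2)
    choose! c u hc0 hcu using hc
    have hC0 : (∏ ω ∈ s, c ω).coeff 0 ≠ 0 := by
      rw [Polynomial.coeff_zero_prod]
      exact Finset.prod_ne_zero_iff.mpr hc0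
    have hCne : (∏ ω ∈ s, c ω) ≠ 0 := fun h => hC0 (by rw [h, Polynomial.coeff_zero])
    have hmem : algebraMap k[X] K (∏ ω ∈ s, c ω) * g₀ ∈ LS (FinSet k K) Kc := by
      rw [hK]
      intro f hf
      rw [hs] at hf
      induction hf using Submodule.span_induction with
      | mem ω hω =>
        classical
        have hω' : ω ∈ s := hω
        refine ⟨(∏ ω' ∈ s.erase ω, c ω') * u ω, ?_⟩
        rw [mul_left_comm, inv_trace_poly_mul, ← Finset.prod_erase_mul s c hω',
          map_mul (algebraMap k[X] (RatFunc k)), map_mul (algebraMap k[X] (RatFunc k)),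
          mul_assoc, hcu ω hω']
      | zero => exact ⟨0, by simp⟩
      | add f₁ f₂ _ _ h₁ h₂ =>
        obtain ⟨u₁, h₁⟩ := h₁
        obtain ⟨u₂, h₂⟩ := h₂
        exact ⟨u₁ + u₂, by rw [add_mul, map_add, map_add, h₁, h₂]⟩
      | smul b f _ h₁ =>
        obtain ⟨u₁, h₁⟩ := h₁
        exact ⟨b * u₁, by rw [Algebra.smul_def, mul_assoc, inv_trace_poly_mul, h₁, map_mul]⟩
    have h1 := (hmem _ hqF).le (mul_ne_zero (algebraMap_poly_ne_zero hCne) hg0)
    rw [(a • p).ord_mul (algebraMap_poly_ne_zero hCne) hg0, inv_ord_unit hq0 hC0, hgo] at h1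
    omega

/-- On `S` use `mem_LS_mid`, whose right side is invariant under `a` (`trace_aut`; `a` maps
`x ^ m t = u(x)` to `x ^ (-m) a t = u'(x⁻¹)`), and `le_of_LS_le`. At `p` and `a • p` both values
are `-1`, and `a` exchanges these two places. -/
theorem push_Kc_of_inv (hfin : FinPl k K) (hres : ResPl k K) (hk : (n : k) ≠ 0)
    (hp : p.ord (xx k K) = -n) (hn : finrank (RatFunc k) K = n) {Kc : Div k K} (hK : IsCan Kc)
    (hKp : Kc p = -n - 1) (a : Aut k K) (ha : a.σ (xx k K) = (xx k K)⁻¹) :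
    a.push (Kc - dv (xx k K)) = Kc - dv (xx k K) := by
  have h0 : 0 < n := Nat.pos_of_ne_zero fun h => hk (by rw [h, Nat.cast_zero])
  have h0' : (0 : ℤ) < n := by exact_mod_cast h0
  have ha' := inv_inv_σ a ha
  have hq : (a • p).ord (xx k K) = n := by rw [inv_smul_ord a ha, hp, neg_neg]
  have hpos : ∀ v : Place k K, 0 < v.ord (xx k K) → v = a • p := fun v hv => by
    have h1 : (a⁻¹ • v).ord (xx k K) < 0 := by
      rw [inv_smul_ord a⁻¹ ha']
      omega
    rw [← place_unique h0 hp hn h1, smul_inv_smul]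
  have hDp : (Kc - dv (xx k K) : Div k K) p = -1 := by
    rw [Finsupp.sub_apply, dv_apply hfin, hKp, hp]
    ring
  have hDq : (Kc - dv (xx k K) : Div k K) (a • p) = -1 := by
    rw [Finsupp.sub_apply, dv_apply hfin, Kc_at_zero hres hk hp hn hK a ha, hq]
    ring
  have hS : {v : Place k K | v.ord (xx k K) = 0} ⊆ FinSet k K := fun v hv =>
    mem_FinSet.mpr (le_of_eq (Eq.symm hv))
  have hle₁ : LS {v : Place k K | v.ord (xx k K) = 0} Kc
      ≤ LS {v : Place k K | v.ord (xx k K) = 0} (a.push Kc) := fun g hg => by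
    have h1 := inv_σ_mem_mid h0 hp hn hK a⁻¹ ha' hg
    rw [← a.σ_mem_LS (inv_mid_smul a ha), Aut.inv_σ, RingEquiv.apply_symm_apply] at h1
    exact h1
  have hle₂ : LS {v : Place k K | v.ord (xx k K) = 0} (a.push Kc)
      ≤ LS {v : Place k K | v.ord (xx k K) = 0} Kc := fun g hg => by
    obtain ⟨g', rfl⟩ := a.σ.surjective g
    exact inv_σ_mem_mid h0 hp hn hK a ha ((a.σ_mem_LS (inv_mid_smul a ha)).mp hg)
  ext v
  rcases lt_trichotomy (v.ord (xx k K)) 0 with hv | hv | hv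
  · rw [place_unique h0 hp hn hv, Aut.push_apply, hDp, hpos (a⁻¹ • p) (by
      rw [inv_smul_ord a⁻¹ ha', hp]
      omega), hDq]
  · have h1 : a.push Kc v = Kc v :=
      le_antisymm (le_of_LS_le hS hle₂ v hv) (le_of_LS_le hS hle₁ v hv)
    rw [Aut.push_apply] at h1
    rw [Aut.push_apply, Finsupp.sub_apply, Finsupp.sub_apply, dv_apply hfin, dv_apply hfin, h1,
      inv_smul_ord a⁻¹ ha', hv, neg_zero]
  · rw [hpos v hv, Aut.push_apply_smul, hDp, hDq]

end Pool.Agent.Lib.MP_a01f70_lc.QQ
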