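import Pool.Agent.Lib.MP_a01f70_lc.QQ.Ram
import Pool.Agent.Lib.MP_a01f70_lc.QQ.Frac

/-!
Invariance of the canonical divisor under automorphisms.
-/

set_option linter.unusedSectionVars false

namespace Pool.Agent.Lib.MP_a01f70_lc.QQ
open Module Polynomial

variable {k K : Type*} [Field k] [Field K] [Algebra k K] [Algebra k[X] K] [Algebra (RatFunc k) K]
  [IsScalarTower k k[X] K] [IsScalarTower k[X] (RatFunc k) K] [IsScalarTower k (RatFunc k) K]
  [FiniteDimensional (RatFunc k) K] [Algebra.IsSeparable (RatFunc k) K]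

variable {n : ℕ} {p : Place k K}

lemma inv1_σ_poly (a : Aut k K) (u : k[X]) :
    a.σ (algebraMap k[X] K u) = aeval (a.σ (xx k K)) (u.map (a.σ₀ : k →+* k)) := by
  rw [algebraMap_poly, aeval_def, aeval_def, eval₂_map]
  have h := Polynomial.hom_eval₂ u (algebraMap k K) (a.σ : K →+* K) (xx k K)
  have h2 : (a.σ : K →+* K).comp (algebraMap k K) = (algebraMap k K).comp (a.σ₀ : k →+* k) := by
    ext c
    exact a.map_const c
  rw [h2] at h
  exact h

lemma inv1_xx_eq : xx k K = algebraMap (RatFunc k) K RatFunc.X := by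
  rw [xx, ← algebraMap_poly_rat, RatFunc.algebraMap_X]

lemma inv1_range (a : Aut k K) (ha : a.σ (xx k K) = xx k K ∨ a.σ (xx k K) = (xx k K)⁻¹)
    (r : RatFunc k) :
    ∃ r' : RatFunc k, algebraMap (RatFunc k) K r' = a.σ (algebraMap (RatFunc k) K r) := by
  obtain ⟨r₀, hr₀⟩ : ∃ r₀ : RatFunc k, a.σ (xx k K) = algebraMap (RatFunc k) K r₀ := by
    rcases ha with h | h
    · exact ⟨RatFunc.X, by rw [h, inv1_xx_eq]⟩
    · exact ⟨RatFunc.X⁻¹, by rw [h, map_inv₀, ← inv1_xx_eq]⟩
  refine ⟨aeval r₀ (r.num.map (a.σ₀ : k →+* k)) / aeval r₀ (r.denom.map (a.σ₀ : k →+* k)), ?_⟩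
  rw [algebraMap_rat r, map_div₀, map_div₀, inv1_σ_poly, inv1_σ_poly, hr₀,
    aeval_algebraMap_apply, aeval_algebraMap_apply]

lemma inv1_inv_fixed (a : Aut k K) (ha : a.σ (xx k K) = xx k K) : a⁻¹.σ (xx k K) = xx k K := by
  rw [Aut.inv_σ, RingEquiv.symm_apply_eq, ha]

lemma inv1_inv_inv (a : Aut k K) (ha : a.σ (xx k K) = (xx k K)⁻¹) :
    a⁻¹.σ (xx k K) = (xx k K)⁻¹ := by
  rw [Aut.inv_σ, RingEquiv.symm_apply_eq, map_inv₀, ha, inv_inv]

lemma inv1_trace_pow (m : ℕ) (f : K) :
    algebraMap (RatFunc k) K (Algebra.trace (RatFunc k) K (xx k K ^ m * f))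
      = xx k K ^ m * algebraMap (RatFunc k) K (Algebra.trace (RatFunc k) K f) := by
  have h : xx k K ^ m * f = (RatFunc.X ^ m : RatFunc k) • f := by
    rw [Algebra.smul_def, map_pow, ← inv1_xx_eq]
  rw [h, map_smul, smul_eq_mul, map_mul, map_pow, ← inv1_xx_eq]

/-- The automorphism maps the image of `RatFunc k` onto itself (so does its inverse), which gives
a compatible `RatFunc k ≃+* RatFunc k`; use `Algebra.trace_eq_of_equiv_equiv`. -/
theorem trace_aut (a : Aut k K) (ha : a.σ (xx k K) = xx k K ∨ a.σ (xx k K) = (xx k K)⁻¹) (f : K) :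
    algebraMap (RatFunc k) K (Algebra.trace (RatFunc k) K (a.σ f))
      = a.σ (algebraMap (RatFunc k) K (Algebra.trace (RatFunc k) K f)) := by
  choose φ hφ using inv1_range a ha
  have hinj := (algebraMap (RatFunc k) K).injective
  let ψ : RatFunc k →+* RatFunc k :=
    { toFun := φ
      map_one' := hinj (by rw [hφ, map_one, map_one])
      map_mul' := fun r s => hinj (by rw [hφ, map_mul, map_mul, map_mul, hφ, hφ])
      map_zero' := hinj (by rw [hφ, map_zero, map_zero])
      map_add' := fun r s => hinj (by rw [hφ, map_add, map_add, map_add, hφ, hφ]) }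
  have hsurj : Function.Surjective ψ := fun r => by
    obtain ⟨r', hr'⟩ := inv1_range a⁻¹ (ha.imp (inv1_inv_fixed a) (inv1_inv_inv a)) r
    refine ⟨r', hinj ?_⟩
    change algebraMap (RatFunc k) K (φ r') = _
    rw [hφ, hr', Aut.inv_σ, RingEquiv.apply_symm_apply]
  let e₁ : RatFunc k ≃+* RatFunc k := RingEquiv.ofBijective ψ ⟨ψ.injective, hsurj⟩
  have he : RingHom.comp (algebraMap (RatFunc k) K) (e₁ : RatFunc k →+* RatFunc k)
      = RingHom.comp (a.σ : K →+* K) (algebraMap (RatFunc k) K) :=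
    RingHom.ext fun r => hφ r
  have h1 := Algebra.trace_eq_of_equiv_equiv e₁ a.σ he f
  rw [← hφ, h1]
  congr 1
  exact (e₁.apply_symm_apply _).symm

lemma inv1_finSet (a : Aut k K) (ha : a.σ (xx k K) = xx k K) (v : Place k K) :
    a • v ∈ FinSet k K ↔ v ∈ FinSet k K := by
  rw [mem_FinSet, mem_FinSet, ← a.smul_ord_σ v (xx k K), ha]

lemma inv1_σ_mem {Kc : Div k K} (hK : IsCan Kc) (a : Aut k K) (ha : a.σ (xx k K) = xx k K)
    {g : K} (hg : g ∈ LS (FinSet k K) Kc) : a.σ g ∈ LS (FinSet k K) Kc := by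
  rw [hK] at hg ⊢
  intro f hf
  obtain ⟨f, rfl⟩ := a.σ.surjective f
  have hf' : IsIntegral k[X] f := by
    rw [isIntegral_iff_ge (k := k)] at hf ⊢
    intro v hv
    exact (a.smul_ge_σ v f 0).1 (hf (a • v) ((inv1_finSet a ha v).2 hv))
  obtain ⟨u, hu⟩ := hg f hf'
  refine ⟨u.map (a.σ₀ : k →+* k), (algebraMap (RatFunc k) K).injective ?_⟩
  rw [← map_mul, trace_aut a (Or.inl ha), hu, algebraMap_poly_rat, algebraMap_poly_rat,
    inv1_σ_poly, ha, algebraMap_poly]

/-- `a` preserves `FinSet`, `p` (`place_unique`), integrality (`isIntegral_iff_ge`), the image of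
`k[X]` and traces, so `LS (FinSet k K) (a.push Kc) = LS (FinSet k K) Kc`; use `le_of_LS_le`. -/
theorem push_Kc_of_fixed (h0 : 0 < n) (hp : p.ord (xx k K) = -n) (hn : finrank (RatFunc k) K = n)
    {Kc : Div k K} (hK : IsCan Kc) (a : Aut k K) (ha : a.σ (xx k K) = xx k K) :
    a.push Kc = Kc := by
  have hle1 : LS (FinSet k K) (a.push Kc) ≤ LS (FinSet k K) Kc := fun g hg => by
    obtain ⟨g, rfl⟩ := a.σ.surjective g
    exact inv1_σ_mem hK a ha ((a.σ_mem_LS (inv1_finSet a ha)).1 hg)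
  have hle2 : LS (FinSet k K) Kc ≤ LS (FinSet k K) (a.push Kc) := fun g hg => by
    obtain ⟨g, rfl⟩ := a.σ.surjective g
    refine (a.σ_mem_LS (inv1_finSet a ha)).2 ?_
    have := inv1_σ_mem hK a⁻¹ (inv1_inv_fixed a ha) hg
    rwa [Aut.inv_σ, RingEquiv.symm_apply_apply] at this
  ext v
  by_cases hv : v ∈ FinSet k K
  · exact le_antisymm (le_of_LS_le le_rfl hle1 v hv) (le_of_LS_le le_rfl hle2 v hv)
  · have hv' : a⁻¹ • v ∉ FinSet k K := by
      rwa [inv1_finSet a⁻¹ (inv1_inv_fixed a ha)]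
    rw [mem_FinSet, not_le] at hv hv'
    rw [Aut.push_apply, place_unique h0 hp hn hv', place_unique h0 hp hn hv]

lemma inv1_exists_pow (h0 : 0 < n) (hp : p.ord (xx k K) = -n) (hn : finrank (RatFunc k) K = n)
    (a : Aut k K) (ha : a.σ (xx k K) = (xx k K)⁻¹) (D : Div k K) {g : K}
    (hg : g ∈ LS {v : Place k K | v.ord (xx k K) = 0} D) :
    ∃ m : ℕ, xx k K ^ m * g ∈ LS (FinSet k K) D := by
  by_cases hg0 : g = 0
  · exact ⟨0, by rw [hg0, mul_zero]; exact Submodule.zero_mem _⟩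
  refine ⟨(-D (a • p) - (a • p).ord g).toNat, fun v hv => ?_⟩
  rw [mul_comm, Place.ge_mul_iff (pow_ne_zero _ xx_ne_zero), Place.ord_pow]
  rcases (mem_FinSet.1 hv).eq_or_lt with h | h
  · rw [← h, mul_zero, sub_zero]
    exact hg v h.symm
  · have h1 : (a⁻¹ • v).ord (xx k K) < 0 := by
      rw [← a.ord_σ, ha, Place.ord_inv]
      omega
    have h2 : v = a • p := by
      rw [← place_unique h0 hp hn h1, smul_inv_smul]
    subst h2
    refine Place.Ge.of_le ?_
    have h3 := Int.self_le_toNat (-D (a • p) - (a • p).ord g)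
    have h4 : (0 : ℤ) ≤ ((-D (a • p) - (a • p).ord g).toNat : ℤ) := Int.natCast_nonneg _
    nlinarith

/-- Let `S = {v | v.ord x = 0}`. Then `g ∈ LS S Kc` iff for every `f ∈ LS S 0` there are `m : ℕ`,
`u : k[X]` with `x ^ m * trace (f * g) = u`: the place `a • p` is the only one with `0 < ord x`
(`place_unique` applied to `a⁻¹ • v`), so a large power of `x` moves elements of `LS S D` into
`LS (FinSet k K) D`; for the converse use `exists_gens` to get a uniform `m`. -/
theorem mem_LS_mid (h0 : 0 < n) (hp : p.ord (xx k K) = -n) (hn : finrank (RatFunc k) K = n)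
    {Kc : Div k K} (hK : IsCan Kc) (a : Aut k K) (ha : a.σ (xx k K) = (xx k K)⁻¹) (g : K) :
    g ∈ LS {v : Place k K | v.ord (xx k K) = 0} Kc ↔
      ∀ f ∈ LS {v : Place k K | v.ord (xx k K) = 0} (0 : Div k K), ∃ (m : ℕ) (u : k[X]),
        xx k K ^ m * algebraMap (RatFunc k) K (Algebra.trace (RatFunc k) K (f * g))
          = algebraMap k[X] K u := by
  constructor
  · intro hg f hf
    obtain ⟨m₁, h₁⟩ := inv1_exists_pow h0 hp hn a ha Kc hg
    obtain ⟨m₂, h₂⟩ := inv1_exists_pow h0 hp hn a ha 0 hf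
    have h₃ : IsIntegral k[X] (xx k K ^ m₂ * f) :=
      (isIntegral_iff_ge _).2 fun v hv => by simpa using h₂ v hv
    obtain ⟨u, hu⟩ := (hK _).1 h₁ _ h₃
    refine ⟨m₂ + m₁, u, ?_⟩
    rw [← inv1_trace_pow, ← algebraMap_poly_rat, ← hu]
    congr 2
    ring
  · intro h
    obtain ⟨s, hs⟩ := exists_gens (k := k) (K := K)
    have h1 : ∀ f ∈ s, ∃ (m : ℕ) (u : k[X]),
        xx k K ^ m * algebraMap (RatFunc k) K (Algebra.trace (RatFunc k) K (f * g))
          = algebraMap k[X] K u := fun f hf => by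
      refine h f fun v hv => ?_
      have h2 := (isIntegral_iff_ge f).1 ((hs f).2 (Submodule.subset_span hf)) v
        (mem_FinSet.2 (le_of_eq (Eq.symm hv)))
      simpa using h2
    choose! m u hmu using h1
    have h3 : xx k K ^ (s.sup m) * g ∈ LS (FinSet k K) Kc := by
      rw [hK]
      intro f hf
      have hle : Submodule.span k[X] (s : Set K)
          ≤ dual (Submodule.span k[X] {xx k K ^ (s.sup m) * g}) := by
        rw [Submodule.span_le]
        intro ω hω y hy
        obtain ⟨c, rfl⟩ := Submodule.mem_span_singleton.1 hy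
        obtain ⟨d, hd⟩ := Nat.exists_eq_add_of_le (Finset.le_sup (f := m) hω)
        refine ⟨c * (X ^ d * u ω), (algebraMap (RatFunc k) K).injective ?_⟩
        have h4 : c • (xx k K ^ (s.sup m) * g) * ω
            = algebraMap k[X] (RatFunc k) c • (xx k K ^ (s.sup m) * (ω * g)) := by
          rw [algebraMap_smul, smul_mul_assoc]
          congr 1
          ring
        rw [h4, map_smul, smul_eq_mul, map_mul, inv1_trace_pow, algebraMap_poly_rat,
          algebraMap_poly_rat, map_mul (algebraMap k[X] K), map_mul (algebraMap k[X] K), map_pow,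
          ← hmu ω hω, hd, xx]
        ring
      obtain ⟨w, hw⟩ := hle ((hs f).1 hf) _ (Submodule.mem_span_singleton_self _)
      exact ⟨w, by rw [← hw, mul_comm]⟩
    intro v hv
    have h5 := h3 v (mem_FinSet.2 (le_of_eq (Eq.symm hv)))
    rw [mul_comm, Place.ge_mul_iff (pow_ne_zero _ xx_ne_zero), Place.ord_pow] at h5
    have h6 : v.ord (xx k K) = 0 := hv
    rwa [h6, mul_zero, sub_zero] at h5

end Pool.Agent.Lib.MP_a01f70_lc.QQ
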