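import Pool.Agent.Lib.MP_a01f70_lc.QQ.LangC

/-!
Lang's theorem for divisor classes of degree zero.
-/

set_option linter.unusedSectionVars false

namespace Pool.Agent.Lib.MP_a01f70_lc.QQ
open Module Polynomial

variable {k K : Type*} [Field k] [Field K] [Algebra k K]
  [IsAlgClosed k] [CharP k 2] {φ : Aut k K} {x : K} {p : Place k K}

theorem lang_count {A : Type*} [AddCommGroup A] [Finite A] (T N : A →+ A)
    (hNT : ∀ a, N (T a) = 0) (hs : ∀ a, T a = 0 → ∃ b, N b = a) {a : A} (ha : N a = 0) :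
    ∃ b, T b = a := by
  have key : ∀ S : A →+ A, Nat.card A = Nat.card S.range * Nat.card S.ker := fun S => by
    rw [AddSubgroup.card_eq_card_quotient_mul_card_addSubgroup S.ker,
      Nat.card_congr (QuotientAddGroup.quotientKerEquivRange S).toEquiv]
  have h1 : T.range ≤ N.ker := by
    rintro _ ⟨b, rfl⟩
    exact hNT b
  have h2 : Nat.card T.ker ≤ Nat.card N.range :=
    AddSubgroup.card_le_of_le (show T.ker ≤ N.range from fun b hb => hs b hb)
  have h3 : Nat.card N.ker ≤ Nat.card T.range := by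
    refine Nat.le_of_mul_le_mul_left ?_ (Nat.card_pos (α := N.range))
    rw [← key N, key T, mul_comm]
    exact Nat.mul_le_mul_right _ h2
  have h4 := AddSubgroup.eq_of_le_of_card_ge h1 h3
  exact show a ∈ T.range from h4 ▸ ha

theorem lang_fin {G : Type*} [AddCommGroup G] {P A : AddSubgroup G}
    (hfin : ∃ S : Finset G, ∀ a ∈ A, ∃ s ∈ S, a - s ∈ P) :
    Finite (A.map (QuotientAddGroup.mk' P)) := by
  obtain ⟨S, hS⟩ := hfin
  refine Set.Finite.subset (S.finite_toSet.image (QuotientAddGroup.mk' P)) ?_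
  rintro _ ⟨a, ha, rfl⟩
  obtain ⟨s, hs, h⟩ := hS a ha
  exact ⟨s, hs, (QuotientAddGroup.eq_iff_sub_mem.2 h).symm⟩

theorem lang_tors {G : Type*} [AddCommGroup G] {P A : AddSubgroup G}
    (hfin : ∃ S : Finset G, ∀ a ∈ A, ∃ s ∈ S, a - s ∈ P) {a : G} (ha : a ∈ A) :
    ∃ e : ℕ, 0 < e ∧ e • a ∈ P := by
  have := lang_fin hfin
  refine ⟨Nat.card (A.map (QuotientAddGroup.mk' P)), Nat.card_pos, ?_⟩
  have h := congrArg Subtype.val (card_nsmul_eq_zero'
    (x := (⟨_, a, ha, rfl⟩ : A.map (QuotientAddGroup.mk' P))))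
  rw [AddSubgroup.coe_nsmul, ← map_nsmul] at h
  exact (QuotientAddGroup.eq_zero_iff _).1 h

theorem lang_mod {G : Type*} [AddCommGroup G] {P A : AddSubgroup G}
    (hfin : ∃ S : Finset G, ∀ a ∈ A, ∃ s ∈ S, a - s ∈ P) (T N : G →+ G)
    (hTP : ∀ a ∈ P, T a ∈ P) (hNP : ∀ a ∈ P, N a ∈ P) (hTA : ∀ a ∈ A, T a ∈ A)
    (hNA : ∀ a ∈ A, N a ∈ A) (hNT : ∀ a ∈ A, N (T a) ∈ P)
    (hs : ∀ a ∈ A, T a ∈ P → ∃ b ∈ A, N b - a ∈ P) {a : G} (ha : a ∈ A) (h : N a ∈ P) :
    ∃ b, T b - a ∈ P := by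
  have := lang_fin hfin
  have key : ∀ S : G →+ G, (∀ a ∈ P, S a ∈ P) → (∀ a ∈ A, S a ∈ A) →
      ∃ S' : A.map (QuotientAddGroup.mk' P) →+ A.map (QuotientAddGroup.mk' P),
        ∀ a (ha : a ∈ A), (S' ⟨_, a, ha, rfl⟩ : G ⧸ P) = (S a : G ⧸ P) := by
    intro S h1 h2
    refine ⟨((QuotientAddGroup.map P P S h1).comp (AddSubgroup.subtype _)).codRestrict _ ?_,
      fun a ha => rfl⟩
    rintro ⟨_, a, ha, rfl⟩
    exact ⟨S a, h2 a ha, rfl⟩
  obtain ⟨T', hT⟩ := key T hTP hTA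
  obtain ⟨N', hN⟩ := key N hNP hNA
  obtain ⟨⟨_, b, hb, rfl⟩, e⟩ := lang_count T' N' (a := ⟨_, a, ha, rfl⟩) (by
    rintro ⟨_, b, hb, rfl⟩
    rw [show T' ⟨_, b, hb, rfl⟩ = ⟨_, T b, hTA b hb, rfl⟩ from Subtype.ext (hT b hb)]
    exact Subtype.ext ((hN _ (hTA b hb)).trans ((QuotientAddGroup.eq_zero_iff _).2 (hNT b hb))))
    (by
      rintro ⟨_, b, hb, rfl⟩ e
      obtain ⟨c, hc, h1⟩ := hs b hb ((QuotientAddGroup.eq_zero_iff _).1
        ((hT b hb).symm.trans (congrArg Subtype.val e)))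
      exact ⟨⟨_, c, hc, rfl⟩,
        Subtype.ext ((hN c hc).trans (QuotientAddGroup.eq_iff_sub_mem.2 h1))⟩)
    (Subtype.ext ((hN a ha).trans ((QuotientAddGroup.eq_zero_iff _).2 h)))
  exact ⟨b, QuotientAddGroup.eq_iff_sub_mem.1 ((hT b hb).symm.trans (congrArg Subtype.val e))⟩

/-- divisors of degree zero whose class is fixed -/
def langA (h : FinPl k K) (a : Aut k K) : AddSubgroup (Div k K) where
  carrier := {D | deg D = 0 ∧ a.push D - D ∈ Prin h}
  add_mem' := by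
    rintro D D' ⟨h1, h2⟩ ⟨h3, h4⟩
    refine ⟨by rw [map_add, h1, h3, add_zero], ?_⟩
    rw [map_add, add_sub_add_comm]
    exact add_mem h2 h4
  zero_mem' := ⟨map_zero _, by simp⟩
  neg_mem' := by
    rintro D ⟨h1, h2⟩
    refine ⟨by rw [map_neg, h1, neg_zero], ?_⟩
    rw [map_neg, neg_sub_neg, ← neg_sub]
    exact neg_mem h2

theorem lang_prin (h : FinPl k K) (a : Aut k K) {D : Div k K} (hD : D ∈ Prin h) :
    a.push D ∈ Prin h := by
  obtain ⟨f, hf, rfl⟩ := hD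
  exact ⟨a.σ f, by simpa using hf, a.push_dv h f⟩

theorem lang_pushA (h : FinPl k K) {a b : Aut k K} (hab : a * b = b * a) {D : Div k K}
    (hD : D ∈ langA h a) : b.push D ∈ langA h a := by
  refine ⟨by rw [Aut.deg_push, hD.1], ?_⟩
  rw [← Aut.push_mul, hab, Aut.push_mul, ← map_sub]
  exact lang_prin h b hD.2

theorem lang_tel (a : Aut k K) (M : ℕ) (D : Div k K) :
    nrm a M (a.push D - D) = (a ^ M).push D - D ∧
      a.push (nrm a M D) - nrm a M D = (a ^ M).push D - D := by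
  have := Finset.sum_range_sub (fun j => (a ^ j).push D) M
  rw [pow_zero, Aut.push_one] at this
  rw [← this, nrm, nrm, map_sum, ← Finset.sum_sub_distrib]
  constructor
  · exact Finset.sum_congr rfl fun j _ => by rw [map_sub, pow_succ, Aut.push_mul]
  · exact Finset.sum_congr rfl fun j _ => by rw [pow_succ', Aut.push_mul]

theorem lang_per {a : Aut k K} {m : ℕ} {D : Div k K} (hD : (a ^ m).push D = D) (e : ℕ) :
    (a ^ (m * e)).push D = D ∧ nrm a (m * e) D = e • nrm a m D := by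
  induction e with
  | zero => simp [nrm]
  | succ e ih =>
    refine ⟨by rw [Nat.mul_succ, pow_add, Aut.push_mul, hD, ih.1], ?_⟩
    rw [succ_nsmul, ← ih.2, Nat.mul_succ, nrm, nrm, nrm, Finset.sum_range_add]
    refine congrArg _ (Finset.sum_congr rfl fun j _ => ?_)
    rw [add_comm, pow_add, Aut.push_mul, ih.1]

/-- Let `J M` be the finite group of classes of degree zero fixed by `φ ^ M`. Choose `m` with
`(φ ^ m).push E = E` (`periodic_div`), `e = card (J 1)` and `M = m e`; then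
`nrm φ M E = e • nrm φ m E` has trivial class. On `J M` the endomorphism `φ - 1` has kernel `J 1`,
the norm has image `J 1` (`norm_surj`), and `im (φ - 1) ≤ ker (norm)`; counting gives equality. -/
theorem lang (R : RRData k K) (h : Frob φ x p) {E : Div k K} (h0 : deg E = 0) :
    ∃ Y : Div k K, Lin (φ.push Y - Y) E := by
  have hfin : ∀ M, 0 < M → ∃ S : Finset (Div k K), ∀ D ∈ langA R.fin (φ ^ M), ∃ s ∈ S,
      D - s ∈ Prin R.fin := fun M hM => by
    obtain ⟨S, hS⟩ := finite_classes R h hM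
    exact ⟨S, fun D hD => (hS D hD.1 ((lin_iff R.fin).2 hD.2)).imp fun s hs =>
      ⟨hs.1, (lin_iff R.fin).1 hs.2⟩⟩
  obtain ⟨m, hm, hE⟩ := periodic_div R h E
  have h1 : nrm φ m E ∈ langA R.fin (φ ^ 1) := by
    constructor
    · rw [nrm, map_sum]
      exact Finset.sum_eq_zero fun j _ => by rw [Aut.deg_push, h0]
    · rw [pow_one, (lang_tel φ m E).2, hE, sub_self]
      exact zero_mem _
  obtain ⟨e, he, h2⟩ := lang_tors (hfin 1 one_pos) h1
  obtain ⟨h3, h4⟩ := lang_per hE e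
  have hM := Nat.mul_pos hm he
  rw [← h4] at h2
  generalize m * e = M at h2 h3 hM
  let N : Div k K →+ Div k K := ∑ j ∈ Finset.range M, (φ ^ j).push.toAddMonoidHom
  have hN : ∀ D, N D = nrm φ M D := fun D => AddMonoidHom.finsetSum_apply _ _ _
  let T : Div k K →+ Div k K := φ.push.toAddMonoidHom - AddMonoidHom.id _
  have hT : ∀ D, T D = φ.push D - D := fun D => rfl
  obtain ⟨Y, hY⟩ := lang_mod (hfin M hM) T N
    (fun D hD => hT D ▸ sub_mem (lang_prin R.fin φ hD) hD)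
    (fun D hD => hN D ▸ sum_mem fun j _ => lang_prin R.fin _ hD)
    (fun D hD => hT D ▸ sub_mem (lang_pushA R.fin (Commute.pow_self φ M).eq hD) hD)
    (fun D hD => hN D ▸ sum_mem fun j _ => lang_pushA R.fin (Commute.pow_pow_self φ M j).eq hD)
    (fun D hD => by rw [hN, hT, (lang_tel φ M D).1]; exact hD.2)
    (fun D hD h5 => by
      obtain ⟨Y, h6, h7, h8⟩ := norm_surj R h hM hD.1 ((lin_iff R.fin).2 h5)
      exact ⟨Y, ⟨h6, (lin_iff R.fin).1 h7⟩, hN Y ▸ (lin_iff R.fin).1 h8⟩)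
    (a := E) ⟨h0, by rw [h3, sub_self]; exact zero_mem _⟩ (hN E ▸ h2)
  exact ⟨Y, (lin_iff R.fin).2 hY⟩

end Pool.Agent.Lib.MP_a01f70_lc.QQ
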