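import Pool.Agent.Lib.MP_a01f70_lc.QQ.LangA1

/-!
Finiteness statements for the Frobenius action.
-/

set_option linter.unusedSectionVars false

namespace Pool.Agent.Lib.MP_a01f70_lc.QQ
open Module Polynomial

variable {k K : Type*} [Field k] [Field K] [Algebra k K]
  [IsAlgClosed k] [CharP k 2] {φ : Aut k K} {x : K} {p : Place k K}

theorem langa_theta (hfin : FinPl k K) {a : Aut k K} {E : Div k K} (hE : Lin (a.push E) E) :
    ∃ Θ : K →+ K, Function.Injective Θ ∧ (∀ (c : k) f, Θ (c • f) = a.σ₀ c • Θ f) ∧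
      (∀ f ∈ L E, Θ f ∈ L E) ∧ ∀ f : K, f ≠ 0 → a.push (E + dv f) = E + dv (Θ f) := by
  obtain ⟨u, hu0, hu⟩ := hE
  refine ⟨AddMonoidHom.mk' (fun f => a.σ f * u) fun f g => by rw [map_add, add_mul], ?_, ?_, ?_, ?_⟩
  · intro f g hfg
    exact a.σ.injective (mul_right_cancel₀ hu0 hfg)
  · intro c f
    show a.σ (c • f) * u = a.σ₀ c • (a.σ f * u)
    rw [a.map_smul, smul_mul_assoc]
  · intro f hf
    have h1 := a.σ_mem_L.mpr hf
    rw [hu] at h1
    exact (mul_mem_LS_iff hfin hu0).mpr h1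
  · intro f hf
    show _ = E + dv (a.σ f * u)
    rw [map_add, hu, a.push_dv hfin, dv_mul hfin (by simpa using hf) hu0, add_assoc,
      add_comm (dv u)]

/-- If `(φ ^ m).push E = E + dv u`, then `Θ f = u * (φ ^ m).σ f` maps `L E` to itself, and a nonzero
fixed vector `f` (`exists_fixed`) gives the invariant effective divisor `E + dv f`. -/
theorem exists_inv (R : RRData k K) (h : Frob φ x p) {m : ℕ} (hm : 0 < m) {E : Div k K}
    (hE : Lin ((φ ^ m).push E) E) (h0 : 0 < ell E) :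
    ∃ D : Div k K, 0 ≤ D ∧ (φ ^ m).push D = D ∧ Lin D E := by
  obtain ⟨Θ, hinj, hΘ, hU, hdv⟩ := langa_theta R.fin hE
  haveI := R.fd E
  have hb : L E ≠ ⊥ := fun hb => by
    rw [ell, hb, finrank_bot] at h0
    exact lt_irrefl _ h0
  obtain ⟨f, hf, hf0, hfx⟩ := exists_fixed hm Θ hinj (fun c v => by
    rw [hΘ, φ.pow_σ₀_of_sq h.sq]) (L E) hU hb
  exact ⟨E + dv f, (mem_L_iff_dv R.fin hf0).mp hf, by rw [hdv f hf0, hfx], f, hf0, rfl⟩

/-- With `Θ` as above (`m = 1`), `f ↦ E + dv f` is a bijection from the nonzero fixed vectors in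
`L E` onto the set: two fixed vectors with the same divisor differ by `c` with `c ^ 2 = c`; if
`E + dv f` is invariant then `Θ f = c • f` and `c⁻¹ • f` is fixed. Use `card_fixed`. -/
theorem card_inv (R : RRData k K) (h : Frob φ x p) {E : Div k K} (hE : Lin (φ.push E) E) :
    Nat.card {D : Div k K // 0 ≤ D ∧ φ.push D = D ∧ Lin D E} + 1 = 2 ^ ell E := by
  classical
  obtain ⟨Θ, hinj, hΘ, hU, hdv⟩ := langa_theta R.fin hE
  haveI := R.fd E
  have hΘ' : ∀ (c : k) v, Θ (c • v) = c ^ 2 • Θ v := fun c v => by rw [hΘ, h.sq]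
  have hc := card_fixed Θ hinj hΘ' (L E) hU
  haveI : Finite {v : K // v ∈ L E ∧ Θ v = v} :=
    Nat.finite_of_card_ne_zero (by rw [hc]; positivity)
  let z : {v : K // v ∈ L E ∧ Θ v = v} := ⟨0, (L E).zero_mem, map_zero Θ⟩
  have hz : ∀ v : {b // b ≠ z}, v.1.1 ≠ 0 := fun v hv => v.2 (Subtype.ext hv)
  let ψ : {b // b ≠ z} → {D : Div k K // 0 ≤ D ∧ φ.push D = D ∧ Lin D E} := fun v =>
    ⟨E + dv v.1.1, (mem_L_iff_dv R.fin (hz v)).mp v.1.2.1, by rw [hdv _ (hz v), v.1.2.2],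
      v.1.1, hz v, rfl⟩
  have hψ : Function.Bijective ψ := by
    constructor
    · intro v w hvw
      have h1 : E + dv v.1.1 = E + dv w.1.1 := congrArg Subtype.val hvw
      obtain ⟨c, hc0, hc1⟩ := R.eq_smul_of_dv_eq (hz v) (hz w) (add_left_cancel h1)
      have h2 := v.1.2.2
      rw [hc1, hΘ', w.1.2.2] at h2
      have h3 : c ^ 2 = c := smul_left_injective k (hz w) h2
      have h4 : c = 1 := mul_left_cancel₀ hc0 (by rw [← pow_two, h3, mul_one])
      rw [h4, one_smul] at hc1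
      exact Subtype.ext (Subtype.ext hc1)
    · rintro ⟨D, hD0, hD1, f, hf0, rfl⟩
      have hf1 : Θ f ≠ 0 := fun h0 => hf0 (hinj (by rw [h0, map_zero]))
      obtain ⟨c, hc0, hc1⟩ := R.eq_smul_of_dv_eq hf1 hf0
        (add_left_cancel ((hdv f hf0).symm.trans hD1))
      have hg : Θ (c⁻¹ • f) = c⁻¹ • f := by
        rw [hΘ', hc1, smul_smul, pow_two, mul_assoc, inv_mul_cancel₀ hc0, mul_one]
      have hg0 : c⁻¹ • f ≠ 0 := smul_ne_zero (inv_ne_zero hc0) hf0
      refine ⟨⟨⟨c⁻¹ • f, (L E).smul_mem _ ((mem_L_iff_dv R.fin hf0).mpr hD0), hg⟩,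
        fun h0 => hg0 (congrArg Subtype.val h0)⟩, Subtype.ext ?_⟩
      show E + dv (c⁻¹ • f) = E + dv f
      rw [Algebra.smul_def, dv_mul R.fin (by simpa using hc0) hf0, dv_const R.fin, zero_add]
  rw [← Nat.card_eq_of_bijective ψ hψ, ← Finite.card_option,
    Nat.card_congr (Equiv.optionSubtypeNe z), hc, ell]

/-- Apply `exists_inv` to `E + single p g` and use `finite_invEff`. -/
theorem finite_classes (R : RRData k K) (h : Frob φ x p) {m : ℕ} (hm : 0 < m) :
    ∃ T : Finset (Div k K), ∀ E : Div k K, deg E = 0 → Lin ((φ ^ m).push E) E →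
      ∃ D ∈ T, Lin E D := by
  classical
  refine ⟨(finite_invEff R h hm R.g.toNat).toFinset.image fun D => D - Finsupp.single p R.g,
    fun E hE0 hE => ?_⟩
  have hp : φ ^ m • p = p := (MulAction.stabilizer (Aut k K) p).pow_mem h.fp m
  have h1 : Lin ((φ ^ m).push (E + Finsupp.single p R.g)) (E + Finsupp.single p R.g) := by
    rw [map_add, Aut.push_single, hp]
    exact hE.add R.fin (Lin.refl R.fin _)
  have h2 : deg (E + Finsupp.single p R.g) = R.g := by
    rw [map_add, hE0, deg_single, zero_add]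
  have h3 := R.ell_ge (E + Finsupp.single p R.g)
  obtain ⟨D, hD0, hD1, hD2⟩ := exists_inv R h hm h1 (by omega)
  refine ⟨D - Finsupp.single p R.g, Finset.mem_image.mpr ⟨D, ?_, rfl⟩, ?_⟩
  · rw [Set.Finite.mem_toFinset]
    refine ⟨hD0, hD1, ?_⟩
    obtain ⟨f, -, rfl⟩ := hD2
    rw [map_add, h2, R.degdv, add_zero, Int.toNat_of_nonneg R.g_nonneg]
  · have h4 := (lin_iff R.fin).mp (hD2.symm R.fin)
    rw [lin_iff R.fin, ← sub_add, sub_add_eq_add_sub]
    exact h4

end Pool.Agent.Lib.MP_a01f70_lc.QQ
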