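import Pool.Agent.Lib.MP_a01f70_lc.QQ.Semi1

/-!
Fixed vectors of Frobenius semilinear maps.
-/

set_option linter.unusedSectionVars false

namespace Pool.Agent.Lib.MP_a01f70_lc.QQ
open Module Polynomial

variable {k W : Type*} [Field k] [IsAlgClosed k] [CharP k 2] [AddCommGroup W] [Module k W]

theorem semi_bit {c : k} (h : c ^ 2 - c = 0) : c = 0 ∨ c = 1 := by
  have : c * (c - 1) = 0 := by linear_combination h
  rcases mul_eq_zero.1 this with h | h
  · exact Or.inl h
  · exact Or.inr (sub_eq_zero.1 h)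

open Classical in
theorem semi_sum_bit {ι : Type*} (s : Finset ι) (b : ι → W) {c : ι → k}
    (h : ∀ i ∈ s, c i = 0 ∨ c i = 1) :
    ∑ i ∈ s.filter (fun i => c i = 1), b i = ∑ i ∈ s, c i • b i := by
  rw [Finset.sum_filter]
  refine Finset.sum_congr rfl fun i hi => ?_
  rcases h i hi with h | h <;> simp [h]

theorem semi_map_sum (Θ : W →+ W) (hΘ : ∀ (c : k) v, Θ (c • v) = c ^ 2 • Θ v)
    {ι : Type*} {b : ι → W} (hb : ∀ i, Θ (b i) = b i) (s : Finset ι) (c : ι → k) :
    Θ (∑ i ∈ s, c i • b i) - ∑ i ∈ s, c i • b i = ∑ i ∈ s, (c i ^ 2 - c i) • b i := by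
  rw [map_sum, ← Finset.sum_sub_distrib]
  exact Finset.sum_congr rfl fun i _ => by rw [hΘ, hb, sub_smul]

/-- Fixed vectors that are independent over `ZMod 2` (no nonempty subfamily sums to zero) are
independent over `k`: take a shortest relation with one coefficient `1` and subtract its image. -/
theorem linearIndependent_of_fixed (Θ : W →+ W) (hΘ : ∀ (c : k) v, Θ (c • v) = c ^ 2 • Θ v)
    {ι : Type*} {b : ι → W} (hb : ∀ i, Θ (b i) = b i)
    (hs : ∀ s : Finset ι, ∑ i ∈ s, b i = 0 → s = ∅) : LinearIndependent k b := by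
  classical
  rw [linearIndependent_iff']
  intro s
  induction s using Finset.strongInduction with
  | H s ih =>
    intro g hg i0 hi0
    by_contra h0
    have h1 : ∑ i ∈ s, (g i / g i0) • b i = 0 := by
      simp only [div_eq_inv_mul, mul_smul]
      rw [← Finset.smul_sum, hg, smul_zero]
    have h2 := semi_map_sum Θ hΘ hb s fun i => g i / g i0
    rw [h1, map_zero, sub_zero, ← Finset.add_sum_erase s _ hi0, div_self h0, one_pow, sub_self,
      zero_smul, zero_add] at h2
    have h3 := ih _ (Finset.erase_ssubset hi0) _ h2.symm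
    have h4 : ∀ i ∈ s, g i / g i0 = 0 ∨ g i / g i0 = 1 := by
      intro i hi
      by_cases e : i = i0
      · rw [e]
        exact Or.inr (div_self h0)
      · exact semi_bit (h3 i (Finset.mem_erase.2 ⟨e, hi⟩))
    have h5 := hs _ ((semi_sum_bit s b h4).trans h1)
    exact Finset.filter_eq_empty_iff.1 h5 hi0 (div_self h0)

theorem semi_root (c : k) : ∃ t : k, t ^ 2 - t = c := by
  obtain ⟨t, ht⟩ := IsAlgClosed.exists_root (X ^ 2 - X - C c : k[X]) (by
    have : (X ^ 2 - X - C c : k[X]).degree = 2 := by compute_degree!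
    rw [this]
    norm_num)
  refine ⟨t, ?_⟩
  simpa [sub_eq_zero] using ht

theorem semi_span (Θ : W →+ W) (hinj : Function.Injective Θ)
    (hΘ : ∀ (c : k) v, Θ (c • v) = c ^ 2 • Θ v) (U : Submodule k W) [FiniteDimensional k U]
    (hU : ∀ v ∈ U, Θ v ∈ U) : Submodule.span k {v : W | v ∈ U ∧ Θ v = v} = U := by
  set U0 := Submodule.span k {v : W | v ∈ U ∧ Θ v = v} with hU0
  have hle : U0 ≤ U := Submodule.span_le.2 fun v hv => hv.1
  have h1 : ∀ w ∈ U0, Θ w ∈ U0 := by
    intro w hw
    induction hw using Submodule.span_induction with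
    | mem w hw => rw [hw.2]; exact Submodule.subset_span hw
    | zero => rw [map_zero]; exact zero_mem _
    | add a b _ _ ha hb => rw [map_add]; exact add_mem ha hb
    | smul c a _ ha => rw [hΘ]; exact U0.smul_mem _ ha
  have h2 : ∀ w ∈ U0, ∀ c : k, ∃ u ∈ U0, Θ u = c • w := by
    intro w hw
    induction hw using Submodule.span_induction with
    | mem w hw =>
      intro c
      obtain ⟨t, ht⟩ := IsAlgClosed.exists_pow_nat_eq c (show 0 < 2 by norm_num)
      exact ⟨t • w, U0.smul_mem _ (Submodule.subset_span hw), by rw [hΘ, hw.2, ht]⟩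
    | zero => exact fun c => ⟨0, zero_mem _, by simp⟩
    | add a b _ _ ha hb =>
      intro c
      obtain ⟨u, u1, u2⟩ := ha c
      obtain ⟨v, v1, v2⟩ := hb c
      exact ⟨u + v, add_mem u1 v1, by rw [map_add, u2, v2, smul_add]⟩
    | smul c a _ ha => exact fun e => by simpa only [mul_smul] using ha (e * c)
  have h3 : ∀ w ∈ U0, ∀ c : k, ∃ u ∈ U0, Θ u - u = c • w := by
    intro w hw
    induction hw using Submodule.span_induction with
    | mem w hw =>
      intro c
      obtain ⟨t, ht⟩ := semi_root c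
      exact ⟨t • w, U0.smul_mem _ (Submodule.subset_span hw), by rw [hΘ, hw.2, ← sub_smul, ht]⟩
    | zero => exact fun c => ⟨0, zero_mem _, by simp⟩
    | add a b _ _ ha hb =>
      intro c
      obtain ⟨u, u1, u2⟩ := ha c
      obtain ⟨v, v1, v2⟩ := hb c
      exact ⟨u + v, add_mem u1 v1, by rw [map_add, add_sub_add_comm, u2, v2, smul_add]⟩
    | smul c a _ ha => exact fun e => by simpa only [mul_smul] using ha (e * c)
  let Φ : (W ⧸ U0) →+ (W ⧸ U0) := QuotientAddGroup.map U0.toAddSubgroup U0.toAddSubgroup Θ h1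
  have hΦ : ∀ v, Φ (U0.mkQ v) = U0.mkQ (Θ v) := fun v => rfl
  have hi : Function.Injective Φ := by
    rw [injective_iff_map_eq_zero]
    intro a ha
    obtain ⟨v, rfl⟩ := U0.mkQ_surjective a
    rw [hΦ, Submodule.mkQ_apply, Submodule.Quotient.mk_eq_zero] at ha
    obtain ⟨u, u1, u2⟩ := h2 _ ha 1
    rw [one_smul] at u2
    rw [Submodule.mkQ_apply, Submodule.Quotient.mk_eq_zero, ← hinj u2]
    exact u1
  refine le_antisymm hle ?_
  by_contra hn
  obtain ⟨a, ⟨v, hv, rfl⟩, a0, a1⟩ := exists_fixed (k := k) (m := 1) one_pos Φ hi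
    (fun c a => by
      obtain ⟨v, rfl⟩ := U0.mkQ_surjective a
      rw [← map_smul, hΦ, hΦ, hΘ, map_smul, pow_one])
    (U.map U0.mkQ) (by
      rintro _ ⟨v, hv, rfl⟩
      exact ⟨Θ v, hU v hv, rfl⟩) (by
      intro h
      refine hn fun v hv => ?_
      have : U0.mkQ v ∈ U.map U0.mkQ := ⟨v, hv, rfl⟩
      rwa [h, Submodule.mem_bot, Submodule.mkQ_apply, Submodule.Quotient.mk_eq_zero] at this)
  rw [hΦ, Submodule.mkQ_apply, Submodule.mkQ_apply, Submodule.Quotient.eq] at a1
  obtain ⟨u, u1, u2⟩ := h3 _ a1 1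
  rw [one_smul] at u2
  have h4 : v - u ∈ U0 := Submodule.subset_span ⟨sub_mem hv (hle u1), by
    rw [map_sub, sub_eq_sub_iff_sub_eq_sub, u2]⟩
  refine a0 ?_
  rw [Submodule.mkQ_apply, Submodule.Quotient.mk_eq_zero]
  simpa using add_mem h4 u1

/-- The fixed vectors span `U`: let `U₀` be their span; `Θ` is bijective on `U₀` and induces an
injective map on `U / U₀`; if `U₀ ≠ U` apply `exists_fixed` to the quotient to get `v ∉ U₀` with
`Θ v - v = w ∈ U₀`, and solve `Θ u - u = w` in `U₀` coordinatewise in a basis of fixed vectors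
(`c ^ 2 - c = w i`). For a basis `b` of fixed vectors, `∑ c i • b i` is fixed iff every `c i` is
`0` or `1`. -/
theorem card_fixed (Θ : W →+ W) (hinj : Function.Injective Θ)
    (hΘ : ∀ (c : k) v, Θ (c • v) = c ^ 2 • Θ v) (U : Submodule k W) [FiniteDimensional k U]
    (hU : ∀ v ∈ U, Θ v ∈ U) : Nat.card {v : W // v ∈ U ∧ Θ v = v} = 2 ^ finrank k U := by
  classical
  obtain ⟨B, B1, B2, B3⟩ := exists_linearIndependent k {v : W | v ∈ U ∧ Θ v = v}
  rw [semi_span Θ hinj hΘ U hU] at B2
  have hfin : Finite B := by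
    have h : LinearIndependent k fun i : B => (⟨i, (B1 i.2).1⟩ : U) :=
      LinearIndependent.of_comp U.subtype B3
    exact h.finite
  have := Fintype.ofFinite B
  have hr : finrank k U = Fintype.card B := by
    rw [← finrank_span_eq_card B3, Subtype.range_coe, B2]
  have hb : ∀ i : B, Θ i = i := fun i => (B1 i.2).2
  let f : Finset B → {v : W // v ∈ U ∧ Θ v = v} := fun s =>
    ⟨∑ i ∈ s, (i : W), U.sum_mem fun i _ => (B1 i.2).1, by
      rw [map_sum]; exact Finset.sum_congr rfl fun i _ => hb i⟩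
  have hind : ∀ s : Finset B, ∑ i ∈ s, (i : W) = ∑ i : B, (if i ∈ s then (1 : k) else 0) • (i : W) := by
    intro s
    simp only [ite_smul, one_smul, zero_smul]
    rw [Finset.sum_ite_mem, Finset.univ_inter]
  have hf : Function.Bijective f := by
    constructor
    · intro s t hst
      have h1 : ∑ i ∈ s, (i : W) = ∑ i ∈ t, (i : W) := congrArg Subtype.val hst
      rw [hind, hind] at h1
      ext i
      have h2 := Fintype.linearIndependent_iffₛ.1 B3 _ _ h1 i
      by_cases a : i ∈ s <;> by_cases b : i ∈ t <;> simp_all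
    · rintro ⟨v, v1, v2⟩
      rw [← B2, ← Subtype.range_coe (s := B), Submodule.mem_span_range_iff_exists_fun] at v1
      obtain ⟨c, rfl⟩ := v1
      have h1 := semi_map_sum Θ hΘ hb Finset.univ c
      rw [v2, sub_self] at h1
      have h2 := Fintype.linearIndependent_iff.1 B3 _ h1.symm
      exact ⟨_, Subtype.ext (semi_sum_bit Finset.univ _ fun i _ => semi_bit (h2 i))⟩
  rw [← Nat.card_eq_of_bijective f hf, hr, Nat.card_eq_fintype_card, Fintype.card_finset]

end Pool.Agent.Lib.MP_a01f70_lc.QQ
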