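import Pool.Agent.Lib.MP_a01f70_lc.QQ.LangDefs
import Pool.Agent.Lib.MP_a01f70_lc.QQ.Semi

/-!
Finiteness statements for the Frobenius action.
-/

set_option linter.unusedSectionVars false

namespace Pool.Agent.Lib.MP_a01f70_lc.QQ
open Module Polynomial

variable {k K : Type*} [Field k] [Field K] [Algebra k K]
  [IsAlgClosed k] [CharP k 2] {φ : Aut k K} {x : K} {p : Place k K}

theorem langa1_pow_fix {G Y : Type*} [Group G] [MulAction G Y] {a : G} {v : Y} (h : a • v = v)
    (n : ℕ) : a ^ n • v = v := by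
  induction n with
  | zero => simp
  | succ n ih => rw [pow_succ, mul_smul, h, ih]

theorem langa1_perm {G Y : Type*} [Group G] [MulAction G Y] (a : G) (s : Finset Y)
    (hs : ∀ v ∈ s, a • v ∈ s) {d : ℕ} (hd : s.card ≤ d) {v : Y} (hv : v ∈ s) :
    a ^ d.factorial • v = v := by
  have hmem : ∀ i : ℕ, a ^ i • v ∈ s := by
    intro i
    induction i with
    | zero => simpa using hv
    | succ i ih =>
      rw [pow_succ', mul_smul]
      exact hs _ ih
  have key : ∀ i j : ℕ, i < j → j ≤ d → a ^ i • v = a ^ j • v → a ^ d.factorial • v = v := by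
    intro i j hij hj he
    obtain ⟨t, rfl⟩ := Nat.exists_eq_add_of_lt hij
    rw [add_assoc, pow_add a i, mul_smul] at he
    have h1 : a ^ (t + 1) • v = v := (MulAction.injective _ he).symm
    obtain ⟨c, hc⟩ := Nat.dvd_factorial (Nat.succ_pos t) (by omega : t + 1 ≤ d)
    rw [hc, pow_mul]
    exact langa1_pow_fix h1 c
  obtain ⟨i, hi, j, hj, hne, he⟩ := Finset.exists_ne_map_eq_of_card_lt_of_maps_to
    (s := Finset.range (d + 1)) (t := s) (by rw [Finset.card_range]; omega)
    (f := fun i => a ^ i • v) (fun i _ => hmem i)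
  rw [Finset.mem_range] at hi hj
  rcases Nat.lt_or_gt_of_ne hne with h | h
  · exact key i j h (by omega) he
  · exact key j i h (by omega) he.symm

theorem langa1_push_pow {a : Aut k K} {D : Div k K} (h : a.push D = D) (n : ℕ) :
    (a ^ n).push D = D := by
  induction n with
  | zero => simp
  | succ n ih => rw [pow_succ, Aut.push_mul, h, ih]

theorem langa1_σ (h : Frob φ x p) (m : ℕ) (c : k) :
    (φ ^ m).σ (x - algebraMap k K c) = x - algebraMap k K (c ^ 2 ^ m) := by
  rw [map_sub, φ.pow_σ_of_fixed h.fx, Aut.map_const, φ.pow_σ₀_of_sq h.sq]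

/-- A fixed place is a pole of `x` or a zero of `x - c`; in the second case it is a zero of
`x - c ^ 2 ^ m` as well, so `c ^ 2 ^ m = c` (`Place.const_eq_zero_of_ge`), which has finitely many
solutions; each function has finitely many zeros and poles. -/
theorem finite_fixed (R : RRData k K) (h : Frob φ x p) {m : ℕ} (hm : 0 < m) :
    {v : Place k K | φ ^ m • v = v}.Finite := by
  have hc : {c : k | c ^ 2 ^ m = c}.Finite := by
    refine (Polynomial.finite_setOfPred_isRoot
      (FiniteField.X_pow_card_pow_sub_X_ne_zero k (p := 2) hm.ne' one_lt_two)).subset ?_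
    intro c hc
    have hc' : c ^ 2 ^ m = c := hc
    simp [IsRoot, hc']
  refine ((R.fin x).union (hc.biUnion fun c _ => R.fin (x - algebraMap k K c))).subset ?_
  intro v hv
  have hv' : φ ^ m • v = v := hv
  by_cases h0 : v.ord x = 0
  · right
    obtain ⟨c, hc1⟩ := R.res v x (Place.Ge.of_le h0.ge)
    have h1 := ((φ ^ m).smul_ge_σ v _ _).2 hc1
    rw [hv', langa1_σ h] at h1
    have h2 := hc1.sub h1
    rw [sub_sub_sub_cancel_left, ← map_sub] at h2
    have h3 := Place.const_eq_zero_of_ge h2
    refine Set.mem_biUnion (x := c) (sub_eq_zero.1 h3) ?_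
    have h4 := hc1.le (sub_ne_zero.2 (h.nc c))
    show v.ord (x - algebraMap k K c) ≠ 0
    omega
  · exact Or.inl h0

/-- A power of `φ` fixes `x - c`, hence permutes its finitely many zeros (or the poles of `x`). -/
theorem periodic (R : RRData k K) (h : Frob φ x p) (v : Place k K) :
    ∃ m, 0 < m ∧ φ ^ m • v = v := by
  have key : ∀ (m : ℕ) (f : K), 0 < m → (φ ^ m).σ f = f → v.ord f ≠ 0 →
      ∃ m, 0 < m ∧ φ ^ m • v = v := by
    intro m f hm hf hv
    refine ⟨m * (R.fin f).toFinset.card.factorial, Nat.mul_pos hm (Nat.factorial_pos _), ?_⟩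
    rw [pow_mul]
    refine langa1_perm (φ ^ m) (R.fin f).toFinset (fun w hw => ?_) le_rfl ?_
    · rw [Set.Finite.mem_toFinset] at hw ⊢
      have h1 := (φ ^ m).smul_ord_σ w f
      rw [hf] at h1
      show (φ ^ m • w).ord f ≠ 0
      rw [h1]
      exact hw
    · rw [Set.Finite.mem_toFinset]
      exact hv
  by_cases h0 : v.ord x = 0
  · obtain ⟨c, hc1⟩ := R.res v x (Place.Ge.of_le h0.ge)
    obtain ⟨m, hm, hc⟩ := h.alg c
    refine key m (x - algebraMap k K c) hm (by rw [langa1_σ h, hc]) ?_
    have h4 := hc1.le (sub_ne_zero.2 (h.nc c))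
    omega
  · exact key 1 x one_pos (φ.pow_σ_of_fixed h.fx 1) h0

theorem periodic_div (R : RRData k K) (h : Frob φ x p) (D : Div k K) :
    ∃ m, 0 < m ∧ (φ ^ m).push D = D := by
  induction D using Finsupp.induction_linear with
  | zero => exact ⟨1, one_pos, map_zero _⟩
  | add f g hf hg =>
    obtain ⟨m, hm, h1⟩ := hf
    obtain ⟨n, hn, h2⟩ := hg
    refine ⟨m * n, Nat.mul_pos hm hn, ?_⟩
    have h3 : (φ ^ (m * n)).push f = f := by
      rw [pow_mul]
      exact langa1_push_pow h1 n
    have h4 : (φ ^ (m * n)).push g = g := by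
      rw [mul_comm, pow_mul]
      exact langa1_push_pow h2 m
    rw [map_add, h3, h4]
  | single v a =>
    obtain ⟨m, hm, h1⟩ := periodic R h v
    exact ⟨m, hm, by rw [Aut.push_single, h1]⟩

/-- The support has at most `d` elements and is permuted by `φ ^ m`, so it consists of places fixed
by `φ ^ (m * d !)`; the multiplicities are at most `d`. -/
theorem finite_invEff (R : RRData k K) (h : Frob φ x p) {m : ℕ} (hm : 0 < m) (d : ℕ) :
    (InvEff (φ ^ m) d).Finite := by
  classical
  have hF := finite_fixed R h (Nat.mul_pos hm (Nat.factorial_pos d))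
  refine (Set.finite_Icc (0 : Div k K)
    (Finsupp.indicator hF.toFinset fun _ _ => (d : ℤ))).subset ?_
  rintro D ⟨h0, h1, h2⟩
  refine ⟨h0, fun v => ?_⟩
  by_cases hv : v ∈ hF.toFinset
  · rw [Finsupp.indicator_of_mem hv, ← h2]
    exact apply_le_deg h0 v
  · rw [Finsupp.indicator_of_notMem hv]
    by_contra hlt
    apply hv
    rw [Set.Finite.mem_toFinset]
    show φ ^ (m * d.factorial) • v = v
    rw [pow_mul]
    refine langa1_perm (φ ^ m) D.support (fun w hw => ?_) ?_
      (Finsupp.mem_support_iff.2 fun h3 => hlt h3.le)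
    · rw [Finsupp.mem_support_iff] at hw ⊢
      have h3 := (φ ^ m).push_apply_smul D w
      rw [h1] at h3
      rwa [h3]
    · have h3 : ((D.support.card : ℕ) : ℤ) ≤ deg D := by
        rw [deg_eq_sum D (Finset.Subset.refl _), Finset.card_eq_sum_ones, Nat.cast_sum]
        refine Finset.sum_le_sum fun w hw => ?_
        have h4 := Finsupp.mem_support_iff.1 hw
        have h5 : (0 : ℤ) ≤ D w := h0 w
        omega
      rw [h2] at h3
      exact_mod_cast h3

end Pool.Agent.Lib.MP_a01f70_lc.QQ
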