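import Pool.Agent.Lib.MP_a01f70_lc.QQ.LangDefs

/-!
The logarithmic derivative of an Euler product.
-/

set_option linter.unusedSectionVars false

namespace Pool.Agent.Lib.MP_a01f70_lc.QQ
open Module Polynomial

variable {k K : Type*} [Field k] [Field K] [Algebra k K]

lemma langb_nrm (a : Aut k K) (M : ℕ) (v : Place k K) :
    nrm a M (Finsupp.single v 1) = ∑ j ∈ Finset.range M, Finsupp.single (a ^ j • v) (1 : ℤ) := by
  simp [nrm]

lemma langb_nonneg (a : Aut k K) (M : ℕ) (v : Place k K) : 0 ≤ nrm a M (Finsupp.single v 1) := by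
  rw [langb_nrm]
  exact Finset.sum_nonneg fun j _ => Finsupp.single_nonneg.mpr zero_le_one

lemma langb_deg (a : Aut k K) (M : ℕ) (v : Place k K) :
    deg (nrm a M (Finsupp.single v 1)) = M := by
  rw [langb_nrm, map_sum]
  simp

lemma langb_push (a : Aut k K) {M : ℕ} {v : Place k K} (h : a ^ M • v = v) :
    a.push (nrm a M (Finsupp.single v 1)) = nrm a M (Finsupp.single v 1) := by
  rw [langb_nrm, map_sum]
  simp only [Aut.push_single, ← mul_smul, ← pow_succ']
  have h1 := Finset.sum_range_succ (fun j => Finsupp.single (a ^ j • v) (1 : ℤ)) M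
  have h2 := Finset.sum_range_succ' (fun j => Finsupp.single (a ^ j • v) (1 : ℤ)) M
  rw [h1, h, pow_zero, one_smul] at h2
  exact (add_right_cancel h2).symm

lemma langb_one_le (a : Aut k K) {M : ℕ} (hM : 0 < M) (v : Place k K) :
    1 ≤ nrm a M (Finsupp.single v 1) v := by
  have h1 : Finsupp.single (a ^ 0 • v) (1 : ℤ) ≤ nrm a M (Finsupp.single v 1) := by
    rw [langb_nrm]
    exact Finset.single_le_sum (f := fun j => Finsupp.single (a ^ j • v) (1 : ℤ))
      (fun j _ => Finsupp.single_nonneg.mpr zero_le_one) (Finset.mem_range.mpr hM)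
  have := h1 v
  rwa [pow_zero, one_smul, Finsupp.single_eq_same] at this

lemma langb_mul (a : Aut k K) {e : ℕ} {v : Place k K} (h : a ^ e • v = v) (j : ℕ) :
    nrm a (j * e) (Finsupp.single v 1) = j • nrm a e (Finsupp.single v 1) := by
  have h0 : ∀ j : ℕ, a ^ (j * e) • v = v := by
    intro j
    induction j with
    | zero => simp
    | succ j ih => rw [Nat.succ_mul, pow_add, mul_smul, h, ih]
  induction j with
  | zero => simp [nrm]
  | succ j ih =>
    rw [succ_nsmul, ← ih, langb_nrm, langb_nrm, langb_nrm, Nat.succ_mul, Finset.sum_range_add]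
    congr 1
    refine Finset.sum_congr rfl fun i _ => ?_
    rw [add_comm, pow_add, mul_smul, h0]

lemma langb_inv (a : Aut k K) {D : Div k K} (h : a.push D = D) (v : Place k K) (i : ℕ) :
    D (a ^ i • v) = D v := by
  induction i with
  | zero => simp
  | succ i ih =>
    rw [pow_succ', mul_smul, ← ih]
    conv_lhs => rw [← h]
    rw [Aut.push_apply_smul]

lemma langb_le_iff (a : Aut k K) {D : Div k K} (h0 : 0 ≤ D) (h : a.push D = D) {v : Place k K}
    (he : 0 < MulAction.period a v) (j : ℕ) :
    j • nrm a (MulAction.period a v) (Finsupp.single v 1) ≤ D ↔ (j : ℤ) ≤ D v := by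
  classical
  constructor
  · intro h1
    have h2 := h1 v
    have h3 := langb_one_le a he v
    rw [Finsupp.smul_apply, nsmul_eq_mul] at h2
    have h4 : (0 : ℤ) ≤ j := Int.natCast_nonneg j
    nlinarith
  · intro h1 w
    rw [Finsupp.smul_apply, nsmul_eq_mul, langb_nrm, Finsupp.finsetSum_apply]
    by_cases hw : ∃ i ∈ Finset.range (MulAction.period a v), a ^ i • v = w
    · obtain ⟨i, hi, rfl⟩ := hw
      rw [Finset.sum_eq_single i, Finsupp.single_eq_same, mul_one, langb_inv a h]
      · exact h1
      · intro i' hi' hne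
        refine Finsupp.single_eq_of_ne fun e => hne ?_
        have key : ∀ p q : ℕ, p < q → q < MulAction.period a v → a ^ p • v ≠ a ^ q • v := by
          intro p q hpq hq e
          obtain ⟨r, rfl⟩ := Nat.exists_eq_add_of_lt hpq
          rw [add_assoc, pow_add, mul_smul, smul_left_cancel_iff] at e
          exact MulAction.pow_smul_ne_of_lt_period (Nat.succ_pos r) (by omega) e.symm
        rcases lt_trichotomy i' i with c | c | c
        · exact absurd e.symm (key _ _ c (Finset.mem_range.mp hi))
        · exact c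
        · exact absurd e (key _ _ c (Finset.mem_range.mp hi'))
      · intro hn
        exact absurd hi hn
    · rw [Finset.sum_eq_zero, mul_zero]
      · exact h0 w
      · intro i hi
        exact Finsupp.single_eq_of_ne fun e => hw ⟨i, hi, e.symm⟩

open Classical in
lemma langb_count (a : Aut k K) {d : ℕ} {D : Div k K} (hD : D ∈ InvEff a d) {v : Place k K}
    (hv : v ∈ D.support) :
    (((Finset.range d).filter fun M => a ^ (M + 1) • v = v ∧
      nrm a (M + 1) (Finsupp.single v 1) ≤ D).card : ℤ) = D v := by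
  obtain ⟨h0, h1, h2⟩ := hD
  have he : 0 < MulAction.period a v := by
    obtain ⟨p, q, hpq, e⟩ := Set.Finite.exists_lt_map_eq_of_forall_mem
      (f := fun i : ℕ => a ^ i • v) (t := (D.support : Set (Place k K)))
      (fun i => by
        rw [Finset.mem_coe, Finsupp.mem_support_iff, langb_inv a h1]
        exact Finsupp.mem_support_iff.mp hv) D.support.finite_toSet
    obtain ⟨r, rfl⟩ := Nat.exists_eq_add_of_lt hpq
    rw [add_assoc, pow_add, mul_smul, smul_left_cancel_iff] at e
    exact MulAction.period_pos_of_fixed (Nat.succ_pos r) e.symm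
  obtain ⟨n, hn⟩ := Int.eq_ofNat_of_zero_le (h0 v)
  have hper : a ^ MulAction.period a v • v = v := MulAction.pow_period_smul a v
  have hnd : n * MulAction.period a v ≤ d := by
    have := deg_mono ((langb_le_iff a h0 h1 he n).mpr hn.ge)
    rw [map_nsmul, langb_deg, h2, nsmul_eq_mul] at this
    exact_mod_cast this
  have e : ((Finset.range d).filter fun M => a ^ (M + 1) • v = v ∧
      nrm a (M + 1) (Finsupp.single v 1) ≤ D) =
      (Finset.range n).image fun j => (j + 1) * MulAction.period a v - 1 := by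
    ext M
    rw [Finset.mem_filter, Finset.mem_image, Finset.mem_range]
    constructor
    · rintro ⟨_, b1, b2⟩
      obtain ⟨j, hj⟩ := MulAction.pow_smul_eq_iff_period_dvd.mp b1
      rw [hj, mul_comm, langb_mul a hper, langb_le_iff a h0 h1 he, hn] at b2
      have b3 : j ≤ n := by exact_mod_cast b2
      cases j with
      | zero => simp at hj
      | succ j => exact ⟨j, Finset.mem_range.mpr b3, by rw [mul_comm, ← hj]; rfl⟩
    · rintro ⟨j, hj, rfl⟩
      have b1 : j + 1 ≤ n := Finset.mem_range.mp hj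
      have b2 : 0 < (j + 1) * MulAction.period a v := Nat.mul_pos (Nat.succ_pos j) he
      have b3 : (j + 1) * MulAction.period a v ≤ n * MulAction.period a v :=
        Nat.mul_le_mul_right _ b1
      have b4 : (j + 1) * MulAction.period a v - 1 + 1 = (j + 1) * MulAction.period a v := by
        omega
      rw [b4]
      refine ⟨by omega, MulAction.pow_smul_eq_iff_period_dvd.mpr (Dvd.intro_left _ rfl), ?_⟩
      rw [langb_mul a hper, langb_le_iff a h0 h1 he, hn]
      exact_mod_cast b1
  rw [e, Finset.card_image_of_injective, Finset.card_range, hn]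
  intro i j hij
  have b1 : 0 < (i + 1) * MulAction.period a v := Nat.mul_pos (Nat.succ_pos i) he
  have b2 : 0 < (j + 1) * MulAction.period a v := Nat.mul_pos (Nat.succ_pos j) he
  have b3 : (i + 1) * MulAction.period a v = (j + 1) * MulAction.period a v := by
    simp only at hij
    omega
  exact Nat.succ_injective (Nat.eq_of_mul_eq_mul_right he b3)

open Classical in
lemma langb_fibre (a : Aut k K) (hfin : ∀ m, 0 < m → {v : Place k K | a ^ m • v = v}.Finite)
    {d : ℕ} {D : Div k K} (hD : D ∈ InvEff a d) :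
    ∑ M ∈ Finset.range d, ∑ v ∈ (hfin (M + 1) (Nat.succ_pos M)).toFinset,
      (if nrm a (M + 1) (Finsupp.single v 1) ≤ D then (1 : ℤ) else 0) = d := by
  have e1 : ∀ M, ∑ v ∈ (hfin (M + 1) (Nat.succ_pos M)).toFinset,
      (if nrm a (M + 1) (Finsupp.single v 1) ≤ D then (1 : ℤ) else 0) =
      ∑ v ∈ D.support, if a ^ (M + 1) • v = v ∧ nrm a (M + 1) (Finsupp.single v 1) ≤ D
        then (1 : ℤ) else 0 := by
    intro M
    rw [← Finset.sum_filter, ← Finset.sum_filter]
    congr 1
    ext v
    simp only [Finset.mem_filter, Set.Finite.mem_toFinset, Set.mem_ofPred_eq,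
      Finsupp.mem_support_iff]
    constructor
    · rintro ⟨b1, b2⟩
      have b3 := langb_one_le a (M := M + 1) (Nat.succ_pos M) v
      have b4 := b2 v
      exact ⟨by omega, b1, b2⟩
    · rintro ⟨_, b1, b2⟩
      exact ⟨b1, b2⟩
  simp only [e1]
  rw [Finset.sum_comm, ← hD.2.2, deg_eq_sum D subset_rfl]
  refine Finset.sum_congr rfl fun v hv => ?_
  rw [← langb_count a hD hv, Finset.sum_boole]

open Classical in
lemma langb_shift (a : Aut k K) (hinv : ∀ d, (InvEff a d).Finite) (c : Div k K → ℂ)
    (hc : ∀ D D', a.push D = D → a.push D' = D' → c (D + D') = c D * c D') {d m : ℕ}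
    (hm : m ≤ d) {N : Div k K} (hN : N ∈ InvEff a m) :
    c N * ∑ D ∈ (hinv (d - m)).toFinset, c D =
      ∑ D ∈ (hinv d).toFinset, (if N ≤ D then c D else 0) := by
  obtain ⟨n0, n1, n2⟩ := hN
  rw [← Finset.sum_filter, Finset.mul_sum]
  refine Finset.sum_nbij' (fun D => N + D) (fun D => D - N) ?_ ?_ ?_ ?_ ?_
  · intro D hD
    obtain ⟨b0, b1, b2⟩ := (Set.Finite.mem_toFinset _).mp hD
    refine Finset.mem_filter.mpr ⟨(Set.Finite.mem_toFinset _).mpr ⟨add_nonneg n0 b0, ?_, ?_⟩,
      le_add_of_nonneg_right b0⟩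
    · rw [map_add, n1, b1]
    · rw [map_add, n2, b2, Nat.cast_sub hm]
      ring
  · intro D hD
    obtain ⟨hD, hle⟩ := Finset.mem_filter.mp hD
    obtain ⟨_, b1, b2⟩ := (Set.Finite.mem_toFinset _).mp hD
    refine (Set.Finite.mem_toFinset _).mpr ⟨sub_nonneg.mpr hle, ?_, ?_⟩
    · rw [map_sub, n1, b1]
    · rw [map_sub, n2, b2, Nat.cast_sub hm]
  · intro D _
    exact add_sub_cancel_left N D
  · intro D _
    exact add_sub_cancel N D
  · intro D hD
    obtain ⟨_, b1, _⟩ := (Set.Finite.mem_toFinset _).mp hD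
    exact (hc N D n1 b1).symm

/-- Both sides count triples. The map `(M, v, D') ↦ D' + nrm a (M + 1) (single v 1)` sends the
triples on the right to invariant effective divisors `D` of degree `d`, and the fibre over `D`
consists of the pairs `(M, v)` with `a ^ (M + 1) • v = v` and `nrm a (M + 1) (single v 1) ≤ D`.
For `v` of minimal period `e`, `M + 1 = j e`, the norm is `j` times the orbit sum, and since `D` is
constant on orbits the condition is `1 ≤ j ≤ D v`. So the fibre has `∑ v, D v = d` elements. -/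
theorem euler (a : Aut k K) (hfin : ∀ m, 0 < m → {v : Place k K | a ^ m • v = v}.Finite)
    (hinv : ∀ d, (InvEff a d).Finite) (c : Div k K → ℂ)
    (hc : ∀ D D', a.push D = D → a.push D' = D' → c (D + D') = c D * c D') (d : ℕ) :
    (d : ℂ) * ∑ᶠ D ∈ InvEff a d, c D = ∑ M ∈ Finset.range d,
      (∑ᶠ v ∈ {v : Place k K | a ^ (M + 1) • v = v}, c (nrm a (M + 1) (Finsupp.single v 1))) *
        ∑ᶠ D ∈ InvEff a (d - (M + 1)), c D := by
  classical
  have e1 : ∀ M ∈ Finset.range d,
      (∑ᶠ v ∈ {v : Place k K | a ^ (M + 1) • v = v}, c (nrm a (M + 1) (Finsupp.single v 1))) *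
        ∑ᶠ D ∈ InvEff a (d - (M + 1)), c D =
      ∑ D ∈ (hinv d).toFinset, ∑ v ∈ (hfin (M + 1) (Nat.succ_pos M)).toFinset,
        (if nrm a (M + 1) (Finsupp.single v 1) ≤ D then c D else 0) := by
    intro M hM
    rw [finsum_mem_eq_finite_toFinset_sum _ (hfin (M + 1) (Nat.succ_pos M)),
      finsum_mem_eq_finite_toFinset_sum _ (hinv (d - (M + 1))), Finset.sum_mul, Finset.sum_comm]
    refine Finset.sum_congr rfl fun v hv => ?_
    rw [Set.Finite.mem_toFinset] at hv
    exact langb_shift a hinv c hc (Finset.mem_range.mp hM)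
      ⟨langb_nonneg a _ v, langb_push a hv, langb_deg a _ v⟩
  rw [Finset.sum_congr rfl e1, Finset.sum_comm, finsum_mem_eq_finite_toFinset_sum _ (hinv d),
    Finset.mul_sum]
  refine Finset.sum_congr rfl fun D hD => ?_
  have h := congrArg (Int.cast : ℤ → ℂ) (langb_fibre a hfin ((Set.Finite.mem_toFinset _).mp hD))
  push_cast at h
  rw [← h, Finset.sum_mul]
  refine Finset.sum_congr rfl fun M _ => ?_
  rw [Finset.sum_mul]
  refine Finset.sum_congr rfl fun v _ => ?_
  split_ifs <;> simp

end Pool.Agent.Lib.MP_a01f70_lc.QQ
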