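import Mathlib

/-!
Power sums of the inverse roots of a polynomial cannot all be negative.
-/

set_option linter.unusedSectionVars false

namespace Pool.Agent.Lib.MP_a01f70_lc.QQ
open Module Polynomial



/-- The polynomial with inverse roots `α`. -/
noncomputable def powsumP (α : Multiset ℂ) : ℂ[X] := (α.map fun x => 1 - C x * X).prod

theorem powsum_geom (x : ℂ) :
    PowerSeries.mk (fun M => -x ^ (M + 1)) * (1 - PowerSeries.C x * PowerSeries.X)
      = -PowerSeries.C x := by
  rw [mul_sub, mul_one, ← mul_assoc]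
  ext n
  cases n with
  | zero => simp
  | succ n =>
    rw [map_sub, PowerSeries.coeff_succ_mul_X, PowerSeries.coeff_mul_C, map_neg,
      PowerSeries.coeff_C]
    simp [pow_succ]

theorem powsum_der (α : Multiset ℂ) :
    PowerSeries.derivative ℂ (powsumP α : PowerSeries ℂ)
      = PowerSeries.mk (fun M => -(α.map fun x => x ^ (M + 1)).sum) * (powsumP α : PowerSeries ℂ) := by
  induction α using Multiset.induction_on with
  | empty =>
    have : PowerSeries.mk (fun _ => (0 : ℂ)) = 0 := by ext; simp
    simp [powsumP, this]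
  | cons x α ih =>
    have e1 : (powsumP (x ::ₘ α) : PowerSeries ℂ)
        = (1 - PowerSeries.C x * PowerSeries.X) * (powsumP α : PowerSeries ℂ) := by
      simp [powsumP]
    have e2 : PowerSeries.mk (fun M => -((x ::ₘ α).map fun x => x ^ (M + 1)).sum)
        = PowerSeries.mk (fun M => -x ^ (M + 1))
          + PowerSeries.mk (fun M => -(α.map fun x => x ^ (M + 1)).sum) := by
      ext M
      simp [add_comm]
    have e3 : PowerSeries.derivative ℂ (1 - PowerSeries.C x * PowerSeries.X : PowerSeries ℂ)
        = -PowerSeries.C x := by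
      simp [Derivation.leibniz]
    rw [e1, e2, Derivation.leibniz, ih, e3, smul_eq_mul, smul_eq_mul]
    linear_combination -(powsumP α : PowerSeries ℂ) * powsum_geom x

theorem powsum_coeff_zero (α : Multiset ℂ) : (powsumP α).coeff 0 = 1 := by
  induction α using Multiset.induction_on with
  | empty => simp [powsumP]
  | cons x α ih =>
    have e1 : powsumP (x ::ₘ α) = (1 - C x * X) * powsumP α := by simp [powsumP]
    rw [e1, mul_coeff_zero, ih]
    simp

theorem powsum_factor (β : Multiset ℂ) (h : ∀ r ∈ β, r ≠ 0) :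
    ∃ c : ℂ, (β.map fun r => X - C r).prod = C c * powsumP (β.map fun r => r⁻¹) := by
  induction β using Multiset.induction_on with
  | empty => exact ⟨1, by simp [powsumP]⟩
  | cons r β ih =>
    obtain ⟨c, hc⟩ := ih fun x hx => h x (Multiset.mem_cons_of_mem hx)
    have e : (C r * C r⁻¹ : ℂ[X]) = 1 := by
      rw [← C_mul, mul_inv_cancel₀ (h r (Multiset.mem_cons_self _ _)), C_1]
    have e1 : powsumP ((r ::ₘ β).map fun r => r⁻¹)
        = (1 - C r⁻¹ * X) * powsumP (β.map fun r => r⁻¹) := by
      simp only [powsumP, Multiset.map_cons, Multiset.prod_cons]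
    refine ⟨-r * c, ?_⟩
    rw [Multiset.map_cons, Multiset.prod_cons, hc, e1, C_mul, C_neg]
    linear_combination -(X * C c * powsumP (β.map fun r => r⁻¹)) * e

open scoped ComplexOrder in
theorem powsum_pos (B : PowerSeries ℂ) (T : ℕ → ℂ) (h0 : PowerSeries.coeff 0 B = 1)
    (hT : ∀ j, 0 < T j) (h : PowerSeries.derivative ℂ B = PowerSeries.mk T * B) (d : ℕ) :
    0 < PowerSeries.coeff d B := by
  induction d using Nat.strong_induction_on with
  | _ d ih =>
  cases d with
  | zero => rw [h0]; exact zero_lt_one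
  | succ d =>
    have h1 := congrArg (PowerSeries.coeff d) h
    rw [PowerSeries.coeff_derivative, PowerSeries.coeff_mul] at h1
    have h2 : 0 < PowerSeries.coeff (d + 1) B * ((d : ℂ) + 1) := by
      rw [h1]
      refine Finset.sum_pos (fun p hp => mul_pos ?_ (ih _ ?_)) ⟨(0, d), by simp⟩
      · rw [PowerSeries.coeff_mk]
        exact hT _
      · have := Finset.HasAntidiagonal.mem_antidiagonal.1 hp
        omega
    have h3 : (0 : ℂ) < ((d : ℂ) + 1)⁻¹ := by
      have : (0 : ℝ) < ((d : ℝ) + 1)⁻¹ := by positivity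
      simpa using Complex.zero_lt_real.2 this
    have h4 : (d : ℂ) + 1 ≠ 0 := by exact_mod_cast Nat.succ_ne_zero d
    have := mul_pos h2 h3
    rwa [mul_inv_cancel_right₀ h4] at this

open scoped ComplexOrder in
/-- The polynomial `A = ∑ a d T ^ d` has constant term one, so `A = ∏ (1 - α i T)`; the recursion
says `T A' = A ∑ S M T ^ M` in power series, and `S M = -∑ α i ^ M` is its unique solution.
Let `B = ∏ (1 - α i ^ M₀ T) = ∑ b d T ^ d`; the same identity gives
`d b d = ∑ j, S (M₀ j) b (d - j)`, so by induction all `b d` are positive real numbers, but `B` is a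
polynomial. (Prove once: for a multiset `α` of complex numbers, the coefficients of
`∏ (1 - α T)` satisfy the recursion with `S M = -∑ α ^ M`.) -/
theorem not_pos_powsum (a S : ℕ → ℂ) (h0 : a 0 = 1) (N : ℕ) (hN : ∀ d, N < d → a d = 0)
    (hrec : ∀ d : ℕ, (d : ℂ) * a d = ∑ M ∈ Finset.range d, S (M + 1) * a (d - (M + 1)))
    {M₀ : ℕ} (hM : 0 < M₀) (hpos : ∀ j, 0 < j → ∃ t : ℕ, 0 < t ∧ S (M₀ * j) = t) : False := by
  let A : ℂ[X] := ∑ d ∈ Finset.range (N + 1), monomial d (a d)
  have hA : ∀ d, A.coeff d = a d := by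
    intro d
    simp only [A, finsetSum_coeff, coeff_monomial, Finset.sum_ite_eq', Finset.mem_range]
    split_ifs with h
    · rfl
    · exact (hN d (by omega)).symm
  have hA0 : A ≠ 0 := fun h => by simpa [h, h0] using hA 0
  have h1 : PowerSeries.derivative ℂ (A : PowerSeries ℂ)
      = PowerSeries.mk (fun M => S (M + 1)) * (A : PowerSeries ℂ) := by
    ext d
    have := hrec (d + 1)
    rw [PowerSeries.coeff_derivative, PowerSeries.coeff_mul,
      Finset.Nat.sum_antidiagonal_eq_sum_range_succ_mk]
    simp only [coeff_coe, hA, PowerSeries.coeff_mk]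
    simpa [mul_comm] using this
  obtain ⟨c, hc⟩ := powsum_factor A.roots fun r hr h => by
    have := (mem_roots hA0).1 hr
    rw [h, IsRoot.def, ← coeff_zero_eq_eval_zero, hA, h0] at this
    exact one_ne_zero this
  set α := A.roots.map fun r => r⁻¹
  have h2 : A = C (A.leadingCoeff * c) * powsumP α := by
    rw [C_mul, mul_assoc, ← hc]
    exact (C_leadingCoeff_mul_prod_multiset_X_sub_C (IsAlgClosed.card_roots_eq_natDegree)).symm
  have h3 : PowerSeries.derivative ℂ (A : PowerSeries ℂ)
      = PowerSeries.mk (fun M => -(α.map fun x => x ^ (M + 1)).sum) * (A : PowerSeries ℂ) := by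
    generalize A.leadingCoeff * c = c' at h2
    rw [h2, coe_mul, coe_C, Derivation.leibniz, powsum_der, PowerSeries.derivative_C]
    simp only [smul_eq_mul]
    ring
  have h4 : ∀ M, S (M + 1) = -(α.map fun x => x ^ (M + 1)).sum := by
    intro M
    have h5 := mul_right_cancel₀ (by exact_mod_cast hA0) (h1.symm.trans h3)
    simpa using congrArg (PowerSeries.coeff M) h5
  have h5 := powsum_pos _ _ (by rw [coeff_coe, powsum_coeff_zero]) (fun j => by
    obtain ⟨t, ht, e⟩ := hpos (j + 1) j.succ_pos
    obtain ⟨m, hm⟩ : ∃ m, M₀ * (j + 1) = m + 1 :=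
      ⟨M₀ * (j + 1) - 1, (Nat.sub_add_cancel (Nat.mul_pos hM j.succ_pos)).symm⟩
    rw [hm, h4, ← hm] at e
    rw [Multiset.map_map]
    simp only [Function.comp, ← pow_mul]
    rw [e]
    exact_mod_cast ht) (powsum_der (α.map fun x => x ^ M₀))
    ((powsumP (α.map fun x => x ^ M₀)).natDegree + 1)
  rw [coeff_coe, coeff_eq_zero_of_natDegree_lt (Nat.lt_succ_self _)] at h5
  exact lt_irrefl _ h5

end Pool.Agent.Lib.MP_a01f70_lc.QQ
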