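import Pool.Agent.Lib.MP_a01f70_lc.QQ.LangA
import Pool.Agent.Lib.MP_a01f70_lc.QQ.LangB
import Pool.Agent.Lib.MP_a01f70_lc.QQ.PowSum

/-!
Surjectivity of the norm on divisor classes.
-/

set_option linter.unusedSectionVars false

namespace Pool.Agent.Lib.MP_a01f70_lc.QQ
open Module Polynomial

variable {k K : Type*} [Field k] [Field K] [Algebra k K]
  [IsAlgClosed k] [CharP k 2] {φ : Aut k K} {x : K} {p : Place k K}

lemma langc_nrm_add (a : Aut k K) (M : ℕ) (D D' : Div k K) :
    nrm a M (D + D') = nrm a M D + nrm a M D' := by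
  simp only [nrm, map_add, Finset.sum_add_distrib]

lemma langc_nrm_neg (a : Aut k K) (M : ℕ) (D : Div k K) : nrm a M (-D) = -nrm a M D := by
  simp only [nrm, map_neg, Finset.sum_neg_distrib]

lemma langc_nrm_sub (a : Aut k K) (M : ℕ) (D D' : Div k K) :
    nrm a M (D - D') = nrm a M D - nrm a M D' := by
  simp only [nrm, map_sub, Finset.sum_sub_distrib]

lemma langc_nrm_zero (a : Aut k K) (M : ℕ) : nrm a M (0 : Div k K) = 0 := by
  simp [nrm]

lemma langc_deg_nrm (a : Aut k K) (M : ℕ) (D : Div k K) : deg (nrm a M D) = M * deg D := by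
  simp only [nrm, map_sum, Aut.deg_push, Finset.sum_const, Finset.card_range, nsmul_eq_mul]

lemma langc_push_nrm (a : Aut k K) (M : ℕ) (D : Div k K) :
    a.push (nrm a M D) + D = nrm a M D + (a ^ M).push D := by
  have h1 : nrm a (M + 1) D = nrm a M D + (a ^ M).push D := by
    simp only [nrm, Finset.sum_range_succ]
  have h2 : nrm a (M + 1) D = a.push (nrm a M D) + D := by
    simp only [nrm, Finset.sum_range_succ', map_sum, pow_zero, Aut.push_one, pow_succ',
      Aut.push_mul]
  rw [← h1, h2]

lemma langc_push_nrm_fixed (a : Aut k K) (M : ℕ) {D : Div k K} (hD : (a ^ M).push D = D) :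
    a.push (nrm a M D) = nrm a M D := by
  have := langc_push_nrm a M D
  rw [hD] at this
  exact add_right_cancel this

lemma langc_nrm_mul (a : Aut k K) (M j : ℕ) (D : Div k K) :
    nrm a (M * j) D = nrm a M (nrm (a ^ M) j D) := by
  induction j with
  | zero => simp [nrm]
  | succ j ih =>
    have h1 : nrm (a ^ M) (j + 1) D = nrm (a ^ M) j D + ((a ^ M) ^ j).push D := by
      simp only [nrm, Finset.sum_range_succ]
    rw [h1, langc_nrm_add, ← ih, Nat.mul_succ]
    simp only [nrm, Finset.sum_range_add]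
    congr 1
    refine Finset.sum_congr rfl fun i _ => ?_
    rw [← Aut.push_mul, ← pow_mul, ← pow_add, add_comm]

lemma langc_pow_smul {a : Aut k K} {p : Place k K} (hp : a • p = p) (m : ℕ) : a ^ m • p = p := by
  induction m with
  | zero => simp
  | succ m ih => rw [pow_succ, mul_smul, hp, ih]

lemma langc_nrm_single {a : Aut k K} {p : Place k K} (hp : a • p = p) (M : ℕ) :
    nrm a M (Finsupp.single p 1) = Finsupp.single p (M : ℤ) := by
  induction M with
  | zero => simp [nrm]
  | succ M ih =>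
    have h1 : nrm a (M + 1) (Finsupp.single p 1) =
        nrm a M (Finsupp.single p 1) + (a ^ M).push (Finsupp.single p 1) := by
      simp only [nrm, Finset.sum_range_succ]
    rw [h1, ih, Aut.push_single, langc_pow_smul hp, ← Finsupp.single_add]
    push_cast
    rfl

lemma langc_lin_neg (h : FinPl k K) {D D' : Div k K} (h1 : Lin D D') : Lin (-D) (-D') :=
  (lin_iff h).mpr (by
    have := (Prin h).neg_mem ((lin_iff h).mp h1)
    rwa [neg_sub'] at this)

/-- degree zero divisors whose class is invariant -/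
def langcJ (h : FinPl k K) (a : Aut k K) : AddSubgroup (Div k K) where
  carrier := {D | deg D = 0 ∧ Lin (a.push D) D}
  add_mem' := by
    rintro D D' ⟨h1, h2⟩ ⟨h3, h4⟩
    exact ⟨by rw [map_add, h1, h3, add_zero], by rw [map_add]; exact h2.add h h4⟩
  zero_mem' := ⟨map_zero _, by rw [map_zero]; exact Lin.refl h 0⟩
  neg_mem' := by
    rintro D ⟨h1, h2⟩
    exact ⟨by rw [map_neg, h1, neg_zero], by rw [map_neg]; exact langc_lin_neg h h2⟩

/-- divisors equivalent to a norm -/
def langcH (h : FinPl k K) (a : Aut k K) (M : ℕ) : AddSubgroup (Div k K) where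
  carrier := {D | ∃ Y : Div k K, deg Y = 0 ∧ Lin ((a ^ M).push Y) Y ∧ Lin (nrm a M Y) D}
  add_mem' := by
    rintro D D' ⟨Y, h1, h2, h3⟩ ⟨Y', h4, h5, h6⟩
    exact ⟨Y + Y', by rw [map_add, h1, h4, add_zero], by rw [map_add]; exact h2.add h h5,
      by rw [langc_nrm_add]; exact h3.add h h6⟩
  zero_mem' := ⟨0, map_zero _, by rw [map_zero]; exact Lin.refl h 0,
    by rw [langc_nrm_zero]; exact Lin.refl h 0⟩
  neg_mem' := by
    rintro D ⟨Y, h1, h2, h3⟩
    exact ⟨-Y, by rw [map_neg, h1, neg_zero], by rw [map_neg]; exact langc_lin_neg h h2,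
      by rw [langc_nrm_neg]; exact langc_lin_neg h h3⟩

/-- invariant classes of degree zero -/
noncomputable def langcC (h : FinPl k K) (a : Aut k K) : AddSubgroup (Div k K ⧸ Prin h) :=
  (langcJ h a).map (QuotientAddGroup.mk' (Prin h))

lemma langc_mk_eq (h : FinPl k K) {D D' : Div k K} :
    QuotientAddGroup.mk' (Prin h) D = QuotientAddGroup.mk' (Prin h) D' ↔ Lin D D' := by
  rw [lin_iff h, QuotientAddGroup.mk'_apply, QuotientAddGroup.mk'_apply,
    QuotientAddGroup.eq_iff_sub_mem]

lemma langc_finite (R : RRData k K) (h : Frob φ x p) : Finite (langcC R.fin φ) := by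
  obtain ⟨T, hT⟩ := finite_classes R h (m := 1) one_pos
  have hsub : (langcC R.fin φ : Set (Div k K ⧸ Prin R.fin)) ⊆
      QuotientAddGroup.mk' (Prin R.fin) '' (T : Set (Div k K)) := by
    rintro _ ⟨D, ⟨h1, h2⟩, rfl⟩
    obtain ⟨D', hD', hl⟩ := hT D h1 (by rwa [pow_one])
    exact ⟨D', hD', ((langc_mk_eq R.fin).mpr hl).symm⟩
  exact ((T.finite_toSet.image _).subset hsub).to_subtype

lemma langc_mem (h : FinPl k K) {a : Aut k K} {p : Place k K} (hp : a • p = p) {D : Div k K}
    (hD : a.push D = D) :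
    QuotientAddGroup.mk' (Prin h) (D - Finsupp.single p (deg D)) ∈ langcC h a := by
  refine ⟨_, ⟨?_, ?_⟩, rfl⟩
  · rw [map_sub, deg_single, sub_self]
  · rw [map_sub, hD, Aut.push_single, hp]
    exact Lin.refl h _

open Classical in
/-- the degree zero class of an invariant divisor -/
noncomputable def langcCls (h : FinPl k K) (a : Aut k K) (p : Place k K) (D : Div k K) :
    langcC h a :=
  if hD : QuotientAddGroup.mk' (Prin h) (D - Finsupp.single p (deg D)) ∈ langcC h a then ⟨_, hD⟩
  else 0

lemma langc_cls_val (h : FinPl k K) {a : Aut k K} {p : Place k K} (hp : a • p = p) {D : Div k K}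
    (hD : a.push D = D) : (langcCls h a p D : Div k K ⧸ Prin h) =
      QuotientAddGroup.mk' (Prin h) (D - Finsupp.single p (deg D)) := by
  rw [langcCls, dif_pos (langc_mem h hp hD)]

lemma langc_cls_add (h : FinPl k K) {a : Aut k K} {p : Place k K} (hp : a • p = p)
    {D D' : Div k K} (hD : a.push D = D) (hD' : a.push D' = D') :
    langcCls h a p (D + D') = langcCls h a p D + langcCls h a p D' := by
  apply Subtype.ext
  rw [AddSubgroup.coe_add, langc_cls_val h hp hD, langc_cls_val h hp hD',
    langc_cls_val h hp (by rw [map_add, hD, hD']), ← map_add, map_add deg, Finsupp.single_add]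
  congr 1
  abel

lemma langc_fiber (R : RRData k K) (h : Frob φ x p) {d : ℕ} (hd : 2 * R.g - 2 < d)
    (j : langcC R.fin φ) :
    Nat.card {D : Div k K // D ∈ InvEff φ d ∧ langcCls R.fin φ p D = j} + 1 =
      2 ^ ((d : ℤ) + 1 - R.g).toNat := by
  obtain ⟨j, E, ⟨hE0, hE1⟩, rfl⟩ := j
  have hdeg : deg (E + Finsupp.single p (d : ℤ)) = d := by
    rw [map_add, hE0, deg_single, zero_add]
  have hl : Lin (φ.push (E + Finsupp.single p (d : ℤ))) (E + Finsupp.single p (d : ℤ)) := by
    rw [map_add, Aut.push_single, h.fp]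
    exact hE1.add R.fin (Lin.refl R.fin _)
  have hc := card_inv R h hl
  have he := R.ell_large (D := E + Finsupp.single p (d : ℤ)) (by rwa [hdeg])
  rw [hdeg] at he
  rw [← he, Int.toNat_natCast, ← hc]
  congr 1
  refine Nat.card_congr (Equiv.subtypeEquivRight fun D => ?_)
  constructor
  · rintro ⟨⟨h1, h2, h3⟩, h4⟩
    refine ⟨h1, h2, ?_⟩
    have h5 := congrArg Subtype.val h4
    rw [langc_cls_val R.fin h.fp h2, h3, langc_mk_eq, lin_iff R.fin] at h5
    rw [lin_iff R.fin, add_comm, ← sub_sub]
    exact h5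
  · rintro ⟨h1, h2, h3⟩
    have h4 : deg D = d := by
      obtain ⟨f, _, hf⟩ := h3
      rw [hf, map_add, R.degdv, hdeg, add_zero]
    refine ⟨⟨h1, h2, h4⟩, Subtype.ext ?_⟩
    rw [langc_cls_val R.fin h.fp h2, h4, langc_mk_eq, lin_iff R.fin]
    rw [lin_iff R.fin, add_comm, ← sub_sub] at h3
    exact h3

/-- Let `J` be the subgroup of `Div k K ⧸ Prin R.fin` of classes of degree zero fixed by `φ`; it is
finite (`finite_classes`). Let `H ≤ J` be the subgroup of classes of the norms `nrm φ M Y`. If the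
class of `E` is not in `H`, there is a character `χ : AddChar J ℂ` trivial on `H` and not on `E`
(`AddChar.exists_apply_ne_zero` on `J ⧸ H`). Put `c D = χ [D - single p (deg D)]` for invariant `D`
(anything otherwise). For `d > 2 g - 2` every class of `J` contains `2 ^ (d + 1 - g) - 1` invariant
effective `D` of degree `d` (`card_inv`, `ell_large`), so `∑ c D = 0`
(`AddChar.sum_eq_zero_iff_ne_zero`). If `φ ^ (M j) • v = v` then
`nrm φ (M j) (single v 1) - single p (M j) = nrm φ M Y` with
`Y = nrm (φ ^ M) j (single v 1 - single p 1)`, so `c = 1` there, and `p` is such a place.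
Now `euler` contradicts `not_pos_powsum`. -/
theorem norm_surj (R : RRData k K) (h : Frob φ x p) {M : ℕ} (hM : 0 < M) {E : Div k K}
    (h0 : deg E = 0) (hE : Lin (φ.push E) E) :
    ∃ Y : Div k K, deg Y = 0 ∧ Lin ((φ ^ M).push Y) Y ∧ Lin (nrm φ M Y) E := by
  classical
  by_contra hne
  have hfinJ : Finite (langcC R.fin φ) := langc_finite R h
  have _ : Fintype (langcC R.fin φ) := Fintype.ofFinite _
  let H : AddSubgroup (langcC R.fin φ) :=
    ((langcH R.fin φ M).map (QuotientAddGroup.mk' (Prin R.fin))).addSubgroupOf (langcC R.fin φ)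
  let e : langcC R.fin φ := ⟨QuotientAddGroup.mk' (Prin R.fin) E, E, ⟨h0, hE⟩, rfl⟩
  have he : QuotientAddGroup.mk' H e ≠ 0 := by
    intro hz
    rw [QuotientAddGroup.mk'_apply, QuotientAddGroup.eq_zero_iff] at hz
    obtain ⟨D, ⟨Y, h1, h2, h3⟩, h4⟩ := hz
    exact hne ⟨Y, h1, h2, h3.trans R.fin ((langc_mk_eq R.fin).mp h4)⟩
  obtain ⟨ψ, hψ⟩ := (AddChar.exists_apply_ne_zero (a := QuotientAddGroup.mk' H e)).mpr he
  let χ : AddChar (langcC R.fin φ) ℂ := ψ.compAddMonoidHom (QuotientAddGroup.mk' H)
  have hχ : χ ≠ 0 := by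
    intro hz
    apply hψ
    have : χ e = 1 := by rw [hz]; rfl
    exact this
  have hχH : ∀ j ∈ H, χ j = 1 := by
    intro j hj
    have h1 : QuotientAddGroup.mk' H j = 0 := by
      rw [QuotientAddGroup.mk'_apply, QuotientAddGroup.eq_zero_iff]
      exact hj
    show ψ (QuotientAddGroup.mk' H j) = 1
    rw [h1, AddChar.map_zero_eq_one]
  have hsum : ∑ j, χ j = 0 := AddChar.sum_eq_zero_iff_ne_zero.mpr hχ
  have hinv : ∀ d, (InvEff φ d).Finite := fun d => by
    have := finite_invEff R h (m := 1) one_pos d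
    rwa [pow_one] at this
  let c : Div k K → ℂ := fun D => χ (langcCls R.fin φ p D)
  have hc : ∀ D D', φ.push D = D → φ.push D' = D' → c (D + D') = c D * c D' := by
    intro D D' hD hD'
    simp only [c]
    rw [langc_cls_add R.fin h.fp hD hD', AddChar.map_add_eq_mul]
  refine not_pos_powsum (fun d => ∑ᶠ D ∈ InvEff φ d, c D)
    (fun m => ∑ᶠ v ∈ {v : Place k K | φ ^ m • v = v}, c (nrm φ m (Finsupp.single v 1))) ?_
    (2 * R.g).toNat ?_ (euler φ (fun m hm => finite_fixed R h hm) hinv c hc) hM ?_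
  · have h1 : InvEff φ 0 = {0} := by
      ext D
      constructor
      · rintro ⟨h1, _, h3⟩
        exact eq_zero_of_deg_le h1 (by rw [h3]; simp)
      · rintro rfl
        exact ⟨le_rfl, map_zero _, by simp⟩
    have h2 : langcCls R.fin φ p 0 = 0 := by
      apply Subtype.ext
      rw [langc_cls_val R.fin h.fp (map_zero _)]
      simp
    simp only [h1, finsum_mem_singleton, c, h2, AddChar.map_zero_eq_one]
  · intro d hd
    have hd' : 2 * R.g - 2 < d := by omega
    rw [finsum_mem_eq_finite_toFinset_sum _ (hinv d),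
      ← Finset.sum_fiberwise _ (langcCls R.fin φ p)]
    have h1 : ∀ j : langcC R.fin φ,
        ∑ D ∈ (hinv d).toFinset with langcCls R.fin φ p D = j, c D =
          ((2 ^ ((d : ℤ) + 1 - R.g).toNat - 1 : ℕ) : ℂ) * χ j := by
      intro j
      rw [Finset.sum_congr rfl (g := fun _ => χ j) (fun D hD => by
        simp only [c]
        rw [(Finset.mem_filter.mp hD).2]), Finset.sum_const, nsmul_eq_mul]
      congr 2
      rw [← langc_fiber R h hd' j, Nat.add_sub_cancel, ← Nat.card_eq_finsetCard]
      refine Nat.card_congr (Equiv.subtypeEquivRight fun D => ?_)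
      rw [Finset.mem_filter, Set.Finite.mem_toFinset]
    rw [Finset.sum_congr rfl fun j _ => h1 j, ← Finset.mul_sum, hsum, mul_zero]
  · intro j hj
    have hf := finite_fixed R h (Nat.mul_pos hM hj)
    refine ⟨hf.toFinset.card, Finset.card_pos.mpr ⟨p, ?_⟩, ?_⟩
    · rw [Set.Finite.mem_toFinset]
      exact langc_pow_smul h.fp _
    · rw [finsum_mem_eq_finite_toFinset_sum _ hf,
        Finset.sum_congr rfl (g := fun _ => (1 : ℂ)) ?_]
      · simp
      · intro v hv
        rw [Set.Finite.mem_toFinset] at hv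
        have hv' : φ ^ (M * j) • v = v := hv
        apply hχH
        have hinvD : φ.push (nrm φ (M * j) (Finsupp.single v 1)) =
            nrm φ (M * j) (Finsupp.single v 1) :=
          langc_push_nrm_fixed φ _ (by rw [Aut.push_single, hv'])
        refine ⟨nrm φ (M * j) (Finsupp.single v 1 - Finsupp.single p 1),
          ⟨nrm (φ ^ M) j (Finsupp.single v 1 - Finsupp.single p 1), ?_, ?_, ?_⟩, ?_⟩
        · rw [langc_deg_nrm, map_sub, deg_single, deg_single, sub_self, mul_zero]
        · rw [langc_push_nrm_fixed (φ ^ M) j (by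
            rw [← pow_mul, map_sub, Aut.push_single, Aut.push_single, hv',
              langc_pow_smul h.fp])]
          exact Lin.refl R.fin _
        · rw [← langc_nrm_mul]
          exact Lin.refl R.fin _
        · show _ = (langcCls R.fin φ p (nrm φ (M * j) (Finsupp.single v 1)) :
            Div k K ⧸ Prin R.fin)
          rw [langc_cls_val R.fin h.fp hinvD, langc_nrm_sub, langc_nrm_single h.fp,
            langc_deg_nrm, deg_single, mul_one]

end Pool.Agent.Lib.MP_a01f70_lc.QQ
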