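import Pool.Agent.Lib.MP_a01f70_lc.QQ.RRCons

/-!
Linear equivalence and invariant divisors.
-/

set_option linter.unusedSectionVars false

namespace Pool.Agent.Lib.MP_a01f70_lc.QQ
open Module Polynomial

variable {k K : Type*} [Field k] [Field K] [Algebra k K]

/-- linear equivalence -/
def Lin (D D' : Div k K) : Prop := ∃ f : K, f ≠ 0 ∧ D = D' + dv f

/-- invariant effective divisors of degree `d` -/
def InvEff (a : Aut k K) (d : ℕ) : Set (Div k K) := {D | 0 ≤ D ∧ a.push D = D ∧ deg D = d}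

/-- the norm `1 + a + ⋯ + a ^ (M - 1)` -/
noncomputable def nrm (a : Aut k K) (M : ℕ) (D : Div k K) : Div k K :=
  ∑ j ∈ Finset.range M, (a ^ j).push D

/-- principal divisors -/
def Prin (h : FinPl k K) : AddSubgroup (Div k K) where
  carrier := {D | ∃ f : K, f ≠ 0 ∧ D = dv f}
  add_mem' := by
    rintro _ _ ⟨f, hf, rfl⟩ ⟨g, hg, rfl⟩
    exact ⟨f * g, mul_ne_zero hf hg, (dv_mul h hf hg).symm⟩
  zero_mem' := ⟨1, one_ne_zero, (dv_one h).symm⟩
  neg_mem' := by
    rintro _ ⟨f, hf, rfl⟩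
    exact ⟨f⁻¹, inv_ne_zero hf, (dv_inv h f).symm⟩

lemma lin_iff (h : FinPl k K) {D D' : Div k K} : Lin D D' ↔ D - D' ∈ Prin h :=
  exists_congr fun _ => and_congr_right fun _ => sub_eq_iff_eq_add'.symm

lemma Lin.refl (h : FinPl k K) (D : Div k K) : Lin D D := (lin_iff h).mpr (by simp)

lemma Lin.symm (h : FinPl k K) {D D' : Div k K} (h1 : Lin D D') : Lin D' D :=
  (lin_iff h).mpr (by simpa using (Prin h).neg_mem ((lin_iff h).mp h1))

lemma Lin.trans (h : FinPl k K) {D D' D'' : Div k K} (h1 : Lin D D') (h2 : Lin D' D'') :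
    Lin D D'' :=
  (lin_iff h).mpr (by simpa using (Prin h).add_mem ((lin_iff h).mp h1) ((lin_iff h).mp h2))

lemma Lin.add (h : FinPl k K) {D D' E E' : Div k K} (h1 : Lin D D') (h2 : Lin E E') :
    Lin (D + E) (D' + E') :=
  (lin_iff h).mpr (by
    rw [add_sub_add_comm]
    exact (Prin h).add_mem ((lin_iff h).mp h1) ((lin_iff h).mp h2))

lemma Lin.push (h : FinPl k K) (a : Aut k K) {D D' : Div k K} (h1 : Lin D D') :
    Lin (a.push D) (a.push D') := by
  obtain ⟨f, hf, rfl⟩ := h1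
  exact ⟨a.σ f, by simpa using hf, by rw [map_add, a.push_dv h]⟩

/-- a Frobenius automorphism with a fixed place and a fixed nonconstant function -/
structure Frob (φ : Aut k K) (x : K) (p : Place k K) : Prop where
  sq : ∀ c, φ.σ₀ c = c ^ 2
  alg : ∀ c : k, ∃ m, 0 < m ∧ c ^ 2 ^ m = c
  fx : φ.σ x = x
  nc : ∀ c : k, x ≠ algebraMap k K c
  fp : φ • p = p

end Pool.Agent.Lib.MP_a01f70_lc.QQ
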