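import Pool.Agent.Lib.MP_a01f70_lc.QQ.Ram

/-!
Reduced bases of lattices.
-/

set_option linter.unusedSectionVars false

namespace Pool.Agent.Lib.MP_a01f70_lc.QQ
open Module Polynomial

variable {k K : Type*} [Field k] [Field K] [Algebra k K] [Algebra k[X] K] [Algebra (RatFunc k) K]
  [IsScalarTower k k[X] K] [IsScalarTower k[X] (RatFunc k) K] [IsScalarTower k (RatFunc k) K]

variable {n : ℕ} {p : Place k K}

/-- For each residue `i` modulo `n` choose `t i ∈ J` nonzero of largest order among the nonzero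
elements of `J` with order `≡ i` (such elements exist by `full`, `Place.exists_ord_eq` and
`ord_poly`; orders are bounded by `lo`). If `f ∈ J` is nonzero with order `≡ i`, then
`p.ord f = p.ord (t i) - n e` with `e ≥ 0`, and for the residue `c` of `f / (x ^ e * t i)` the
element `f - c x ^ e t i ∈ J` is zero or has larger order: induct downwards from the bound. -/
theorem exists_reduced (hres : ResPl k K) (h0 : 0 < n) (hp : p.ord (xx k K) = -n)
    {J : Submodule k[X] K} (hJ : IsLat p J) :
    ∃ t : Fin n → K, (∀ i, t i ≠ 0) ∧ (Function.Injective fun i => (p.ord (t i) : ZMod n)) ∧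
      J = Submodule.span k[X] (Set.range t) := by
  have : NeZero n := ⟨h0.ne'⟩
  obtain ⟨b, hb⟩ := hJ.lo
  have hneg : p.ord (xx k K) < 0 := by
    rw [hp]
    omega
  have hex : ∀ i : Fin n, ∃ t ∈ J, t ≠ 0 ∧ (p.ord t : ZMod n) = ((i : ℕ) : ZMod n) ∧
      ∀ f ∈ J, f ≠ 0 → (p.ord f : ZMod n) = ((i : ℕ) : ZMod n) → p.ord f ≤ p.ord t := by
    intro i
    obtain ⟨z, ⟨t, htJ, ht0, htz, hz⟩, hmax⟩ := Int.exists_greatest_of_bdd
      (P := fun z => ∃ f ∈ J, f ≠ 0 ∧ p.ord f = z ∧ (z : ZMod n) = ((i : ℕ) : ZMod n))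
      ⟨b, fun z ⟨f, hf, hf0, hz, _⟩ => hz ▸ hb f hf hf0⟩ (by
        obtain ⟨f, hf0, hf⟩ := p.exists_ord_eq (i : ℕ)
        obtain ⟨c, hc0, hc⟩ := hJ.full f
        have h1 : algebraMap k[X] K c ≠ 0 := algebraMap_poly_ne_zero hc0
        refine ⟨_, c • f, hc, ?_, rfl, ?_⟩
        · rw [Algebra.smul_def]
          exact mul_ne_zero h1 hf0
        · rw [Algebra.smul_def, p.ord_mul h1 hf0, ord_poly hneg hc0, hp, hf]
          push_cast
          simp)
    exact ⟨t, htJ, ht0, htz ▸ hz, fun f hf hf0 hi => htz ▸ hmax _ ⟨f, hf, hf0, rfl, hi⟩⟩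
  choose t htJ ht0 hti hmax using hex
  refine ⟨t, ht0, ?_, le_antisymm ?_ (Submodule.span_le.2 ?_)⟩
  · intro i j hij
    have h1 : ((i : ℕ) : ZMod n) = ((j : ℕ) : ZMod n) := by
      rw [← hti, ← hti]
      exact hij
    rw [ZMod.natCast_eq_natCast_iff', Nat.mod_eq_of_lt i.2, Nat.mod_eq_of_lt j.2] at h1
    exact Fin.ext h1
  · have key : ∀ (e : ℕ) (f : K), f ∈ J → p.Ge f (b + 1 - e) →
        f ∈ Submodule.span k[X] (Set.range t) := by
      intro e
      induction e with
      | zero =>
        intro f hf hge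
        by_cases hf0 : f = 0
        · rw [hf0]
          exact Submodule.zero_mem _
        · have h1 := hge.le hf0
          have h2 := hb f hf hf0
          omega
      | succ e ih =>
        intro f hf hge
        by_cases hf0 : f = 0
        · rw [hf0]
          exact Submodule.zero_mem _
        have h1 := hge.le hf0
        obtain ⟨i, hi⟩ : ∃ i : Fin n, (p.ord f : ZMod n) = ((i : ℕ) : ZMod n) :=
          ⟨⟨(p.ord f : ZMod n).val, ZMod.val_lt _⟩, (ZMod.natCast_zmod_val _).symm⟩
        have hle := hmax i f hf hf0 hi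
        obtain ⟨q, hq⟩ := (ZMod.intCast_eq_intCast_iff_dvd_sub _ _ _).1 (hi.trans (hti i).symm)
        have hq0 : 0 ≤ q := by
          by_contra hq'
          have h2 : (n : ℤ) * q < 0 := mul_neg_of_pos_of_neg (by exact_mod_cast h0) (not_le.1 hq')
          omega
        obtain ⟨r, rfl⟩ := Int.eq_ofNat_of_zero_le hq0
        have hx : xx k K ^ r ≠ 0 := pow_ne_zero _ xx_ne_zero
        have hg0 : xx k K ^ r * t i ≠ 0 := mul_ne_zero hx (ht0 i)
        have hg : p.ord (xx k K ^ r * t i) = p.ord f := by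
          rw [p.ord_mul hx (ht0 i), p.ord_pow, hp]
          linarith
        obtain ⟨c, hc⟩ := hres p (f / (xx k K ^ r * t i))
          (Place.Ge.of_le (by rw [p.ord_div hf0 hg0, hg, sub_self]))
        have e1 : f - (C c * X ^ r : k[X]) • t i
            = (f / (xx k K ^ r * t i) - algebraMap k K c) * (xx k K ^ r * t i) := by
          rw [Algebra.smul_def, algebraMap_poly, sub_mul, div_mul_cancel₀ _ hg0]
          simp [mul_assoc]
        have h3 : p.Ge (f - (C c * X ^ r : k[X]) • t i) (b + 1 - e) := by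
          rw [e1]
          refine (hc.mul (p.ge_ord _)).mono ?_
          rw [hg]
          push_cast at h1
          omega
        have h4 := ih _ (J.sub_mem hf (J.smul_mem _ (htJ i))) h3
        have h5 : (C c * X ^ r : k[X]) • t i ∈ Submodule.span k[X] (Set.range t) :=
          Submodule.smul_mem _ _ (Submodule.subset_span ⟨i, rfl⟩)
        simpa using Submodule.add_mem _ h4 h5
    intro f hf
    refine key (b + 1 - p.ord f).toNat f hf (Place.Ge.of_le ?_)
    omega
  · rintro _ ⟨i, rfl⟩
    exact htJ i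

end Pool.Agent.Lib.MP_a01f70_lc.QQ
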