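import Pool.Agent.Lib.MP_a01f70_lc.QQ.Lat0

/-!
Reduced bases of lattices.
-/

set_option linter.unusedSectionVars false

namespace Pool.Agent.Lib.MP_a01f70_lc.QQ
open Module Polynomial

variable {k K : Type*} [Field k] [Field K] [Algebra k K] [Algebra k[X] K] [Algebra (RatFunc k) K]
  [IsScalarTower k k[X] K] [IsScalarTower k[X] (RatFunc k) K] [IsScalarTower k (RatFunc k) K]

variable {n : ℕ} {p : Place k K}

theorem lat1_ord (h0 : 0 < n) (hp : p.ord (xx k K) = -n) {u : k[X]} (hu : u ≠ 0) {t : K}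
    (ht : t ≠ 0) :
    p.ord (u • t) = p.ord t - u.natDegree * n := by
  rw [Algebra.smul_def, p.ord_mul (algebraMap_poly_ne_zero hu) ht, ord_poly (by omega) hu, hp]
  ring

theorem lat1_term (h0 : 0 < n) (hp : p.ord (xx k K) = -n) {t : K} (ht : t ≠ 0) (m : ℤ)
    (u : k[X]) : p.Ge (u • t) (-m) ↔ u ∈ degreeLT k ((m + p.ord t) / n + 1).toNat := by
  rcases eq_or_ne u 0 with rfl | hu
  · simp
  have h1 : u • t ≠ 0 := by
    rw [Algebra.smul_def]
    exact mul_ne_zero (algebraMap_poly_ne_zero hu) ht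
  have h2 := Int.le_ediv_iff_mul_le (a := (u.natDegree : ℤ)) (b := m + p.ord t) (c := (n : ℤ))
    (by exact_mod_cast h0)
  rw [Place.ge_iff h1, lat1_ord h0 hp hu ht, mem_degreeLT, ← natDegree_lt_iff_degree_lt hu,
    Int.lt_toNat, Int.lt_add_one_iff, h2]
  omega

theorem lat1_sum (h0 : 0 < n) (hp : p.ord (xx k K) = -n) {t : Fin n → K} (ht : ∀ i, t i ≠ 0)
    (hinj : Function.Injective fun i => (p.ord (t i) : ZMod n)) (u : Fin n → k[X]) (m : ℤ) :
    p.Ge (∑ i, u i • t i) m ↔ ∀ i, p.Ge (u i • t i) m := by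
  have := ge_sum_iff h0 hp ht hinj (fun i => algebraMap k[X] (RatFunc k) (u i)) m
  simpa only [algebraMap_smul] using this

/-- `∑ a i • t i` (with polynomials `a i`) lies in the cut iff `n * deg (a i) ≤ m + p.ord (t i)`
for all `i` with `a i ≠ 0` (`ge_sum_iff`), so the cut is isomorphic to a product of spaces
`Polynomial.degreeLT k _`; equivalently the `x ^ e * t i` with `n e ≤ m + p.ord (t i)` form a
basis. -/
theorem finrank_cut (h0 : 0 < n) (hp : p.ord (xx k K) = -n) {t : Fin n → K} (ht : ∀ i, t i ≠ 0)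
    (hinj : Function.Injective fun i => (p.ord (t i) : ZMod n)) (m : ℤ) :
    FiniteDimensional k (cut p (Submodule.span k[X] (Set.range t)) m) ∧
      finrank k (cut p (Submodule.span k[X] (Set.range t)) m)
        = ∑ i, ((m + p.ord (t i)) / n + 1).toNat := by
  set N : Fin n → ℕ := fun i => ((m + p.ord (t i)) / n + 1).toNat with hN
  let φ : (∀ i, degreeLT k (N i)) →ₗ[k] K :=
    { toFun := fun a => ∑ i, (a i : k[X]) • t i
      map_add' := fun a b => by simp [add_smul, Finset.sum_add_distrib]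
      map_smul' := fun c a => by simp [Finset.smul_sum] }
  have hli : LinearIndependent k[X] t :=
    (linearIndependent_of_ord h0 hp ht hinj).restrict_scalars (by
      intro a b hab
      simp only [← Algebra.algebraMap_eq_smul_one] at hab
      exact IsFractionRing.injective k[X] (RatFunc k) hab)
  have hφ : Function.Injective φ := by
    rw [injective_iff_map_eq_zero]
    intro a ha
    funext i
    exact Subtype.ext (Fintype.linearIndependent_iff.1 hli (fun i => (a i : k[X])) ha i)
  have hr : LinearMap.range φ = cut p (Submodule.span k[X] (Set.range t)) m := by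
    ext f
    rw [mem_cut, LinearMap.mem_range, Submodule.mem_span_range_iff_exists_fun]
    constructor
    · rintro ⟨a, rfl⟩
      exact ⟨⟨fun i => a i, rfl⟩, (lat1_sum h0 hp ht hinj _ _).2 fun i =>
        (lat1_term h0 hp (ht i) m _).2 (a i).2⟩
    · rintro ⟨⟨u, rfl⟩, h⟩
      exact ⟨fun i => ⟨u i, (lat1_term h0 hp (ht i) m _).1
        ((lat1_sum h0 hp ht hinj _ _).1 h i)⟩, rfl⟩
  have hfin : ∀ i, FiniteDimensional k (degreeLT k (N i)) := fun i =>
    (degreeLTEquiv k (N i)).symm.finiteDimensional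
  rw [← hr]
  refine ⟨inferInstance, ?_⟩
  rw [LinearMap.finrank_range_of_inj hφ, Module.finrank_pi_fintype]
  refine Finset.sum_congr rfl fun i _ => ?_
  rw [(degreeLTEquiv k (N i)).finrank_eq, Module.finrank_fin_fun]

/-- The span of finitely many elements is bounded: in a basis with orders distinct modulo `n`
(`exists_basis_of_ord`) clear all denominators by one polynomial `c`; a nonzero element of the span
is `∑ (a i / c) • t i` with polynomials `a i`, and has order at most
`max (p.ord (t i)) + n * deg c` by `ge_sum_iff`. -/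
theorem bdd_span (h0 : 0 < n) (hp : p.ord (xx k K) = -n) (hn : finrank (RatFunc k) K = n)
    (s : Finset K) :
    ∃ b : ℤ, ∀ f ∈ Submodule.span k[X] (s : Set K), f ≠ 0 → p.ord f ≤ b := by
  choose t ht1 ht2 using fun i : Fin n => p.exists_ord_eq (i : ℕ)
  have hinj : Function.Injective fun i => (p.ord (t i) : ZMod n) := by
    intro i j hij
    simp only [ht2, Int.cast_natCast] at hij
    rw [ZMod.natCast_eq_natCast_iff', Nat.mod_eq_of_lt i.2, Nat.mod_eq_of_lt j.2] at hij
    exact Fin.ext hij
  obtain ⟨b, hb⟩ := exists_basis_of_ord h0 hp hn ht1 hinj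
  obtain ⟨⟨c, hc⟩, hci⟩ := IsLocalization.exist_integer_multiples_of_finite
    (nonZeroDivisors k[X]) (fun x : s × Fin n => b.repr (x.1 : K) x.2)
  have hc0 : c ≠ 0 := nonZeroDivisors.ne_zero hc
  have h1 : ∀ f ∈ Submodule.span k[X] (s : Set K), c • f ∈ Submodule.span k[X] (Set.range t) := by
    intro f hf
    induction hf using Submodule.span_induction with
    | mem f hf =>
      choose u hu using fun i => hci (⟨f, hf⟩, i)
      rw [Submodule.mem_span_range_iff_exists_fun]
      refine ⟨u, ?_⟩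
      conv_rhs => rw [← b.sum_repr f, Finset.smul_sum]
      refine Finset.sum_congr rfl fun i _ => ?_
      rw [← algebraMap_smul (RatFunc k) (u i), hu i, hb i, smul_assoc]
    | zero => simp
    | add f g _ _ hf hg => rw [smul_add]; exact Submodule.add_mem _ hf hg
    | smul a f _ hf => rw [smul_comm]; exact Submodule.smul_mem _ _ hf
  refine ⟨n + n * c.natDegree, fun f hf hf0 => ?_⟩
  obtain ⟨u, hu⟩ := (Submodule.mem_span_range_iff_exists_fun _).1 (h1 f hf)
  have h2 : c • f ≠ 0 := by
    rw [Algebra.smul_def]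
    exact mul_ne_zero (algebraMap_poly_ne_zero hc0) hf0
  obtain ⟨i, -, hi⟩ := Finset.exists_ne_zero_of_sum_ne_zero (hu ▸ h2)
  have h3 := ((lat1_sum h0 hp ht1 hinj u _).1 (p.ge_ord _) i).le hi
  have hu0 : u i ≠ 0 := fun h => hi (by rw [h, zero_smul])
  rw [hu, lat1_ord h0 hp hc0 hf0, lat1_ord h0 hp hu0 (ht1 i), ht2] at h3
  have h4 : ((i : ℕ) : ℤ) < n := by exact_mod_cast i.2
  have h5 : (0 : ℤ) ≤ (u i).natDegree * n := by positivity
  nlinarith

end Pool.Agent.Lib.MP_a01f70_lc.QQ
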