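import Pool.Agent.Lib.MP_a01f70_lc.QQ.Lat1

/-!
The Riemann-Roch theorem for lattices.
-/

set_option linter.unusedSectionVars false

namespace Pool.Agent.Lib.MP_a01f70_lc.QQ
open Module Polynomial

variable {k K : Type*} [Field k] [Field K] [Algebra k K] [Algebra k[X] K] [Algebra (RatFunc k) K]
  [IsScalarTower k k[X] K] [IsScalarTower k[X] (RatFunc k) K] [IsScalarTower k (RatFunc k) K]
  [FiniteDimensional (RatFunc k) K] [Algebra.IsSeparable (RatFunc k) K]

variable {n : ℕ} {p : Place k K}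

theorem lat2_mem_dual_span {ι : Type*} {t : ι → K} {g : K} :
    g ∈ dual (Submodule.span k[X] (Set.range t)) ↔ ∀ i, ∃ u : k[X],
      Algebra.trace (RatFunc k) K (t i * g) = algebraMap k[X] (RatFunc k) u := by
  rw [mem_dual]
  refine ⟨fun h i => h _ (Submodule.subset_span ⟨i, rfl⟩), fun h f hf => ?_⟩
  induction hf using Submodule.span_induction with
  | mem x hx =>
    obtain ⟨i, rfl⟩ := hx
    exact h i
  | zero => exact ⟨0, by simp⟩
  | add x y _ _ hx hy =>
    obtain ⟨u, hu⟩ := hx
    obtain ⟨w, hw⟩ := hy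
    exact ⟨u + w, by rw [add_mul, map_add, map_add, hu, hw]⟩
  | smul c x _ hx =>
    obtain ⟨u, hu⟩ := hx
    refine ⟨c * u, ?_⟩
    rw [smul_mul_assoc, ← algebraMap_smul (RatFunc k) c, map_smul, hu, map_mul, smul_eq_mul]

theorem lat2_bij (h0 : 0 < n) {f : Fin n → ZMod n} (hinj : Function.Injective f) :
    Function.Bijective f := by
  have : NeZero n := ⟨h0.ne'⟩
  exact (Fintype.bijective_iff_injective_and_card f).2 ⟨hinj, by simp⟩

theorem lat2_neg_div (h0 : 0 < n) (a : ℤ) : (-a - n - 1) / n + 1 = -(a / n + 1) := by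
  have hn : (0 : ℤ) < n := by exact_mod_cast h0
  have h1 := Int.emod_add_mul_ediv a n
  have h2 := Int.emod_nonneg a hn.ne'
  have h3 := Int.emod_lt_of_pos a hn
  have h4 := (Int.ediv_emod_unique (a := -a - n - 1) (r := n - 1 - a % n) (q := -(a / n) - 2) hn).2
    ⟨by linear_combination -h1, by omega, by omega⟩
  rw [h4.1]
  ring

/-- Let `s` be the dual basis for the trace form (`LinearMap.BilinForm.dualBasis`,
`traceForm_nondegenerate`, or `Module.Basis.traceDual`). For `j` there is `i` with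
`p.ord (t i * s j) = n m`; by `ord_trace` its trace is nonzero of order `n m`, so `i = j` and
`m = 0`. An element `g = ∑ trace (t i * g) • s i` is in the dual iff these coordinates are
polynomials. -/
theorem dual_span (hres : ResPl k K) (hk : (n : k) ≠ 0) (hp : p.ord (xx k K) = -n)
    (hn : finrank (RatFunc k) K = n) {t : Fin n → K} (ht : ∀ i, t i ≠ 0)
    (hinj : Function.Injective fun i => (p.ord (t i) : ZMod n)) :
    ∃ s : Fin n → K, (∀ i, s i ≠ 0 ∧ p.ord (s i) = -p.ord (t i)) ∧
      dual (Submodule.span k[X] (Set.range t)) = Submodule.span k[X] (Set.range s) := by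
  classical
  have h0 : 0 < n := Nat.pos_of_ne_zero fun h => hk (by rw [h, Nat.cast_zero])
  obtain ⟨b, hb⟩ := exists_basis_of_ord h0 hp hn ht hinj
  have htr : ∀ i j, Algebra.trace (RatFunc k) K (t i * b.traceDual j) = if i = j then 1 else 0 :=
    fun i j => by rw [← hb, b.trace_mul_traceDual]
  refine ⟨b.traceDual, fun j => ?_, ?_⟩
  · have hs : b.traceDual j ≠ 0 := b.traceDual.ne_zero j
    refine ⟨hs, ?_⟩
    obtain ⟨i, hi⟩ := (lat2_bij h0 hinj).2 (-(p.ord (b.traceDual j) : ZMod n))
    have hd : (n : ℤ) ∣ p.ord (t i * b.traceDual j) := by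
      rw [← ZMod.intCast_zmod_eq_zero_iff_dvd, p.ord_mul (ht i) hs, Int.cast_add]
      exact eq_neg_iff_add_eq_zero.1 hi
    obtain ⟨m, hm⟩ := hd
    obtain ⟨h1, h2⟩ := ord_trace hres hk hp hn (mul_ne_zero (ht i) hs) hm
    rw [htr] at h1 h2
    have hij : i = j := by
      by_contra h
      exact h1 (if_neg h)
    subst hij
    rw [if_pos rfl, map_one, p.ord_one, ← hm, p.ord_mul (ht i) hs] at h2
    omega
  · apply le_antisymm
    · intro g hg
      choose u hu using lat2_mem_dual_span.1 hg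
      rw [← b.traceDual.sum_repr g]
      refine Submodule.sum_mem _ fun i _ => ?_
      rw [b.traceDual_repr_apply, Algebra.traceForm_apply, hb, mul_comm, hu, algebraMap_smul]
      exact Submodule.smul_mem _ _ (Submodule.subset_span ⟨i, rfl⟩)
    · rw [Submodule.span_le]
      rintro _ ⟨j, rfl⟩
      refine lat2_mem_dual_span.2 fun i => ⟨if i = j then 1 else 0, ?_⟩
      rw [htr]
      split_ifs
      · rw [map_one]
      · rw [map_zero]

/-- `m ↦ ∑ i, (m + o i) / n` grows by exactly one at each step -/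
theorem sum_div_eq (h0 : 0 < n) (o : Fin n → ℤ) (hinj : Function.Injective fun i => (o i : ZMod n)) :
    ∃ e : ℤ, ∀ m : ℤ, ∑ i, ((m + o i) / n + 1) = m + e := by
  have : NeZero n := ⟨h0.ne'⟩
  have hn : (n : ℤ) ≠ 0 := by exact_mod_cast h0.ne'
  have key : ∀ m : ℤ, ∑ i, (m + o i) % n = ∑ r : ZMod n, (r.val : ℤ) := fun m => by
    have hb : Function.Bijective fun i => ((m + o i : ℤ) : ZMod n) := by
      refine lat2_bij h0 fun i j h => hinj ?_
      simp only [Int.cast_add] at h
      exact add_left_cancel h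
    rw [← hb.sum_comp fun r : ZMod n => (r.val : ℤ)]
    exact Finset.sum_congr rfl fun i _ => (ZMod.val_intCast _).symm
  have key2 : ∀ m : ℤ, (n : ℤ) * ∑ i, ((m + o i) / n + 1) =
      n * m + (∑ i, o i + n * n - ∑ r : ZMod n, (r.val : ℤ)) := fun m => by
    have e : ∀ i, (n : ℤ) * ((m + o i) / n + 1) = m + o i + n - (m + o i) % n := fun i => by
      linear_combination Int.emod_add_mul_ediv (m + o i) n
    rw [Finset.mul_sum, Finset.sum_congr rfl fun i _ => e i, Finset.sum_sub_distrib, key,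
      Finset.sum_add_distrib, Finset.sum_add_distrib]
    simp only [Finset.sum_const, Finset.card_univ, Fintype.card_fin, nsmul_eq_mul]
    ring
  refine ⟨∑ i, ((0 + o i) / n + 1), fun m => mul_left_cancel₀ hn ?_⟩
  rw [mul_add, key2, key2]
  ring

/-- Combine `exists_reduced`, `finrank_cut`, `dual_span`, `sum_div_eq` and
`(-m - n - 1 - o) / n + 1 = -((m + o) / n + 1)`. -/
theorem lattice_rr (hres : ResPl k K) (hk : (n : k) ≠ 0) (hp : p.ord (xx k K) = -n)
    (hn : finrank (RatFunc k) K = n) {J : Submodule k[X] K} (hJ : IsLat p J) :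
    (∀ m, FiniteDimensional k (cut p J m)) ∧ (dual J).FG ∧
      (∃ m₀ : ℤ, ∀ m ≤ m₀, finrank k (cut p (dual J) m) = 0) ∧
      ∃ e : ℤ, ∀ m : ℤ,
        (finrank k (cut p J m) : ℤ) - finrank k (cut p (dual J) (-m - n - 1)) = m + e := by
  have h0 : 0 < n := Nat.pos_of_ne_zero fun h => hk (by rw [h, Nat.cast_zero])
  have hn' : (0 : ℤ) < n := by exact_mod_cast h0
  obtain ⟨t, ht, hinj, rfl⟩ := exists_reduced hres h0 hp hJ
  obtain ⟨s, hs, hd⟩ := dual_span hres hk hp hn ht hinj
  have hsinj : Function.Injective fun i => (p.ord (s i) : ZMod n) := fun i j h => by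
    simp only [(hs _).2, Int.cast_neg, neg_inj] at h
    exact hinj h
  have hcut := fun m => (finrank_cut h0 hp (fun i => (hs i).1) hsinj m).2
  rw [hd]
  refine ⟨fun m => (finrank_cut h0 hp ht hinj m).1,
    Submodule.fg_span (Set.finite_range s), ⟨-∑ i, |p.ord (s i)| - 1, fun m hm => ?_⟩, ?_⟩
  · rw [hcut]
    refine Finset.sum_eq_zero fun i _ => ?_
    have h1 : |p.ord (s i)| ≤ ∑ i, |p.ord (s i)| :=
      Finset.single_le_sum (f := fun i => |p.ord (s i)|) (fun _ _ => abs_nonneg _)
        (Finset.mem_univ i)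
    have h2 := le_abs_self (p.ord (s i))
    have h3 := Int.ediv_neg_of_neg_of_pos (a := m + p.ord (s i)) (by omega) hn'
    omega
  · obtain ⟨e, he⟩ := sum_div_eq h0 (fun i => p.ord (t i)) hinj
    refine ⟨e, fun m => ?_⟩
    rw [hcut, (finrank_cut h0 hp ht hinj m).2, ← he m, Nat.cast_sum, Nat.cast_sum,
      ← Finset.sum_sub_distrib]
    refine Finset.sum_congr rfl fun i _ => ?_
    have e1 : -m - n - 1 + p.ord (s i) = -(m + p.ord (t i)) - n - 1 := by
      rw [(hs i).2]
      ring
    rw [e1, lat2_neg_div h0, Int.toNat_sub_toNat_neg]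

end Pool.Agent.Lib.MP_a01f70_lc.QQ
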