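import Mathlib

/-!
Quotients of two quadratic exponents.
-/

set_option linter.unusedSectionVars false

namespace Pool.Agent.Lib.MP_a01f70_lc.QQ
open Module Polynomial

theorem main1_pow_eq_one {g n : ℕ} (h : g ∣ 2 ^ n - 1) : (2 : ZMod g) ^ n = 1 := by
  have h1 : ((2 ^ n - 1 : ℕ) : ZMod g) = 0 := (ZMod.natCast_eq_zero_iff _ _).2 h
  rw [Nat.cast_sub Nat.one_le_two_pow] at h1
  push_cast at h1
  exact sub_eq_zero.1 h1

/-- `gcd (2 ^ b + 1, 2 ^ n - 1)` divides `gcd (2 ^ (2 b) - 1, 2 ^ n - 1) = 2 ^ gcd (b, n) - 1`,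
which divides `2 ^ b - 1` -/
theorem coprime_quad {n : ℕ} (hn : Odd n) (b : ℕ) : Nat.Coprime (2 ^ b + 1) (2 ^ n - 1) := by
  obtain ⟨g, hg⟩ : ∃ g, g = Nat.gcd (2 ^ b + 1) (2 ^ n - 1) := ⟨_, rfl⟩
  have h1 : (2 : ZMod g) ^ n = 1 := main1_pow_eq_one (hg ▸ Nat.gcd_dvd_right _ _)
  have h2 : ((2 ^ b + 1 : ℕ) : ZMod g) = 0 :=
    (ZMod.natCast_eq_zero_iff _ _).2 (hg ▸ Nat.gcd_dvd_left _ _)
  push_cast at h2
  have h3 : (2 : ZMod g) ^ b = -1 := eq_neg_of_add_eq_zero_left h2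
  have h4 : (-1 : ZMod g) = 1 := by
    rw [← hn.neg_one_pow, ← h3, ← pow_mul, mul_comm, pow_mul, h1, one_pow]
  have h5 : (2 : ZMod g) = 0 := by linear_combination -h4
  rw [h5, zero_pow hn.pos.ne'] at h1
  have h6 : ((1 : ℕ) : ZMod g) = 0 := by rw [Nat.cast_one, h1]
  rw [Nat.Coprime, ← hg]
  exact Nat.dvd_one.1 ((ZMod.natCast_eq_zero_iff _ _).1 h6)

theorem main1_pow_eq {n x y : ℕ} (h : (n : ℤ) ∣ (x : ℤ) - y) :
    (2 : ZMod (2 ^ n - 1)) ^ x = 2 ^ y := by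
  have h1 : (2 : ZMod (2 ^ n - 1)) ^ n = 1 := main1_pow_eq_one dvd_rfl
  have h2 : y ≡ x [MOD n] := (Nat.modEq_iff_dvd).2 h
  rw [pow_eq_pow_mod x h1, pow_eq_pow_mod y h1, h2]

theorem main1_unit {n : ℕ} (hn : Odd n) (b : ℕ) : IsUnit ((2 : ZMod (2 ^ n - 1)) ^ b + 1) := by
  have := (ZMod.isUnit_iff_coprime _ _).2 (coprime_quad hn b)
  push_cast at this
  exact this

theorem main1_cast (M k : ℕ) :
    ((2 ^ (2 * k) - 2 ^ k + 1 : ℕ) : ZMod M) = 2 ^ (2 * k) - 2 ^ k + 1 := by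
  rw [Nat.cast_add, Nat.cast_sub (Nat.pow_le_pow_right two_pos (by omega))]
  push_cast
  rfl

theorem main1_coprime {n k : ℕ} {x c : ℤ} (h : IsCoprime x n) (hd : (n : ℤ) ∣ x - c * k) :
    Nat.Coprime n k := by
  obtain ⟨t, ht⟩ := hd
  obtain ⟨u, v, huv⟩ := h
  refine Nat.isCoprime_iff_coprime.1 ⟨v + u * t, u * c, ?_⟩
  linear_combination huv - u * ht

/-- the six exceptional cases are Gold and Kasami exponents and their inverses; use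
`2 ^ (3 b) + 1 = (2 ^ b + 1) (2 ^ (2 b) - 2 ^ b + 1)`, `coprime_quad` and `2 ^ n ≡ 1` -/
theorem gold_kasami {n d a b i : ℕ} (hn : Odd n)
    (h : d * (2 ^ b + 1) ≡ 2 ^ i * (2 ^ a + 1) [MOD 2 ^ n - 1])
    (h1 : IsCoprime ((a : ℤ) - b) n) (h2 : IsCoprime ((a : ℤ) + b) n)
    (he : (n : ℤ) ∣ a ∨ (n : ℤ) ∣ b ∨ (n : ℤ) ∣ a - 3 * b ∨ (n : ℤ) ∣ a + 3 * b ∨
      (n : ℤ) ∣ b - 3 * a ∨ (n : ℤ) ∣ b + 3 * a) :
    ∃ e j : ℕ, ((∃ k : ℕ, Nat.Coprime n k ∧ e = 2 ^ k + 1) ∨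
      (∃ k : ℕ, Nat.Coprime n k ∧ e = 2 ^ (2 * k) - 2 ^ k + 1)) ∧
      (d ≡ 2 ^ j * e [MOD 2 ^ n - 1] ∨ d * e ≡ 2 ^ j [MOD 2 ^ n - 1]) := by
  have H := (ZMod.natCast_eq_natCast_iff _ _ _).2 h
  push_cast at H
  have h1n : (2 : ZMod (2 ^ n - 1)) ^ n = 1 := main1_pow_eq_one dvd_rfl
  rcases he with he | he | he | he | he | he
  · have ha : (2 : ZMod (2 ^ n - 1)) ^ a = 2 ^ 0 := main1_pow_eq (by simpa using he)
    refine ⟨2 ^ b + 1, i + 1, Or.inl ⟨b, main1_coprime (c := -1) h1 (by simpa using he), rfl⟩,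
      Or.inr ((ZMod.natCast_eq_natCast_iff _ _ _).1 ?_)⟩
    push_cast
    rw [H, ha]
    ring
  · have hb : (2 : ZMod (2 ^ n - 1)) ^ b = 2 ^ 0 := main1_pow_eq (by simpa using he)
    obtain ⟨m, rfl⟩ : ∃ m, n = m + 1 := ⟨n - 1, by have := hn.pos; omega⟩
    refine ⟨2 ^ a + 1, i + m, Or.inl ⟨a, main1_coprime (c := 1) h2 (by simpa using he), rfl⟩,
      Or.inl ((ZMod.natCast_eq_natCast_iff _ _ _).1 ?_)⟩
    push_cast
    rw [hb] at H
    linear_combination 2 ^ m * H - d * h1n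
  · have ha : (2 : ZMod (2 ^ n - 1)) ^ a = 2 ^ (3 * b) := main1_pow_eq (by simpa using he)
    refine ⟨_, i, Or.inr ⟨b, main1_coprime (c := 2) h1 ?_, rfl⟩,
      Or.inl ((ZMod.natCast_eq_natCast_iff _ _ _).1 ?_)⟩
    · rwa [show (a : ℤ) - b - 2 * b = a - 3 * b by ring]
    · rw [Nat.cast_mul, main1_cast]
      push_cast
      refine (main1_unit hn b).mul_right_cancel ?_
      rw [H, ha]
      ring
  · have ha : (2 : ZMod (2 ^ n - 1)) ^ (a + 3 * b) = 2 ^ 0 := main1_pow_eq (by simpa using he)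
    refine ⟨_, i + a, Or.inr ⟨b, main1_coprime (c := -2) h2 ?_, rfl⟩,
      Or.inl ((ZMod.natCast_eq_natCast_iff _ _ _).1 ?_)⟩
    · rwa [show (a : ℤ) + b - -2 * b = a + 3 * b by ring]
    · rw [Nat.cast_mul, main1_cast]
      push_cast
      refine (main1_unit hn b).mul_right_cancel ?_
      rw [H]
      linear_combination (-2 ^ i) * ha
  · have hb : (2 : ZMod (2 ^ n - 1)) ^ b = 2 ^ (3 * a) := main1_pow_eq (by simpa using he)
    refine ⟨_, i, Or.inr ⟨a, main1_coprime (c := -2) h1 ?_, rfl⟩,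
      Or.inr ((ZMod.natCast_eq_natCast_iff _ _ _).1 ?_)⟩
    · rw [show (a : ℤ) - b - -2 * a = -(b - 3 * a) by ring]
      exact he.neg_right
    · rw [Nat.cast_mul, main1_cast]
      push_cast
      refine (main1_unit hn a).mul_right_cancel ?_
      rw [← H, hb]
      ring
  · have hb : (2 : ZMod (2 ^ n - 1)) ^ (b + 3 * a) = 2 ^ 0 := main1_pow_eq (by simpa using he)
    refine ⟨_, i + 3 * a, Or.inr ⟨a, main1_coprime (c := -2) h2 ?_, rfl⟩,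
      Or.inr ((ZMod.natCast_eq_natCast_iff _ _ _).1 ?_)⟩
    · rwa [show (a : ℤ) + b - -2 * a = b + 3 * a by ring]
    · rw [Nat.cast_mul, main1_cast]
      push_cast
      refine (main1_unit hn a).mul_right_cancel ?_
      linear_combination 2 ^ (3 * a) * H - d * hb

end Pool.Agent.Lib.MP_a01f70_lc.QQ
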