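import Pool.Agent.Lib.MP_a01f70_lc.QQ.GeoBasic

/-!
The residue functional.
-/

set_option linter.unusedSectionVars false

namespace Pool.Agent.Lib.MP_a01f70_lc.QQ
open Module Polynomial

variable {k K : Type*} [Field k] [Field K] [Algebra k K]
  {R : RRData k K} {n h : ℕ}

namespace Geo
variable (G : Geo R n h)

lemma mu_h0 : (G.x * (G.y - 1))⁻¹ ≠ 0 := inv_ne_zero (mul_ne_zero G.x0 G.y1)

lemma mu_Q_zero {v : Place k K} (hv : v ∉ G.S) : G.Q v = 0 := by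
  by_contra h0
  exact hv (G.mem_S.mpr h0)

lemma mu_single_nonneg (v : Place k K) : (0 : ℤ) ≤ Finsupp.single G.q (1 : ℤ) v := by
  classical
  rw [Finsupp.single_apply]
  split_ifs <;> simp

lemma mu_single_le (v : Place k K) : Finsupp.single G.q (1 : ℤ) v ≤ G.Q v := by
  classical
  rw [Finsupp.single_apply]
  split_ifs with hv
  · rw [← hv, G.Q_q]
  · exact G.Q0 v

lemma mu_W_le : LS G.S G.K0 ≤ LS G.S (G.K0 + Finsupp.single G.q 1) :=
  LS_mono le_rfl fun v _ => by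
    rw [Finsupp.add_apply]
    exact le_add_of_nonneg_right (G.mu_single_nonneg v)

lemma mu_q_le : LS G.S (G.K0 + Finsupp.single G.q 1) ≤ LS G.S (G.K0 + G.Q) :=
  LS_mono le_rfl fun v _ => by
    rw [Finsupp.add_apply, Finsupp.add_apply]
    exact add_le_add le_rfl (G.mu_single_le v)

lemma mu_U_le : LS G.S G.K0 ⊔ L (G.K0 + G.Q) ≤ LS G.S (G.K0 + G.Q) :=
  sup_le (G.mu_W_le.trans G.mu_q_le) (L_le_LS _ _)

lemma mu_L_eq : L G.K0 = L (G.K0 + Finsupp.single G.q 1) := by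
  have := R.fd (G.K0 + Finsupp.single G.q 1)
  refine Submodule.eq_of_le_of_finrank_eq (L_mono fun v => ?_) ?_
  · rw [Finsupp.add_apply]
    exact le_add_of_nonneg_right (G.mu_single_nonneg v)
  · have h1 := R.ell_can G.mu_h0
    have h2 := R.ell_can_add G.mu_h0 (E := Finsupp.single G.q 1) (by rw [deg_single]; exact one_pos)
    rw [deg_single] at h2
    have h3 : (ell G.K0 : ℤ) = ell (G.K0 + Finsupp.single G.q 1) := by
      unfold K0
      omega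
    exact_mod_cast h3

lemma mu_a {f : K} (hf : f ∈ LS G.S (G.K0 + Finsupp.single G.q 1))
    (hU : f ∈ LS G.S G.K0 ⊔ L (G.K0 + G.Q)) : f ∈ LS G.S G.K0 := by
  obtain ⟨l, hl, u, hu, rfl⟩ := Submodule.mem_sup.mp hU
  refine add_mem hl (L_le_LS _ _ ?_)
  rw [G.mu_L_eq, mem_L]
  intro v
  by_cases hv : v ∈ G.S
  · have := sub_mem hf (G.mu_W_le hl)
    rw [add_sub_cancel_left] at this
    exact this v hv
  · refine (mem_L.mp hu v).mono ?_
    rw [Finsupp.add_apply, Finsupp.add_apply, G.mu_Q_zero hv]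
    have := G.mu_single_nonneg v
    omega

lemma mu_b : ∃ f₀ ∈ LS G.S (G.K0 + Finsupp.single G.q 1), f₀ ∉ LS G.S G.K0 := by
  have hq : G.q ≠ G.p4 := fun e => by
    have h1 := G.Q_q
    rw [e, G.Qp4] at h1
    exact zero_ne_one h1
  obtain ⟨m, f, hf, h0, hord⟩ := R.exists_ord_eq (G.K0 + Finsupp.single G.q 1) hq
  refine ⟨f, fun v hv => ?_, fun hW => ?_⟩
  · have h1 := mem_L.mp hf v
    have hv4 : v ≠ G.p4 := fun e => G.mem_S.mp hv (e ▸ G.Qp4)
    rwa [Finsupp.add_apply, Finsupp.single_eq_of_ne hv4, add_zero] at h1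
  · have h1 := (hW G.q G.q_mem_S).le h0
    rw [hord, Finsupp.add_apply, Finsupp.single_eq_same] at h1
    omega

lemma mu_c {f₀ f : K} (h0 : f₀ ∈ LS G.S (G.K0 + G.Q)) (h0' : f₀ ∉ LS G.S G.K0 ⊔ L (G.K0 + G.Q))
    (hf : f ∈ LS G.S (G.K0 + G.Q)) : ∃ a : k, f - a • f₀ ∈ LS G.S G.K0 ⊔ L (G.K0 + G.Q) := by
  by_contra hn
  rw [not_exists] at hn
  have := R.fd (G.K0 + G.Q)
  have := R.fd G.K0
  have h1 : L (G.K0 + G.Q) < L (G.K0 + G.Q) ⊔ Submodule.span k {f₀} := by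
    refine lt_of_le_of_ne le_sup_left fun e => h0' (Submodule.mem_sup_right ?_)
    rw [e]
    exact Submodule.mem_sup_right (Submodule.mem_span_singleton_self _)
  have h2 : L (G.K0 + G.Q) ⊔ Submodule.span k {f₀}
      < L (G.K0 + G.Q) ⊔ Submodule.span k {f₀} ⊔ Submodule.span k {f} := by
    refine lt_of_le_of_ne le_sup_left fun e => ?_
    have h3 : f ∈ L (G.K0 + G.Q) ⊔ Submodule.span k {f₀} := by
      rw [e]
      exact Submodule.mem_sup_right (Submodule.mem_span_singleton_self _)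
    obtain ⟨u, hu, w, hw, e2⟩ := Submodule.mem_sup.mp h3
    obtain ⟨a, rfl⟩ := Submodule.mem_span_singleton.mp hw
    refine hn a (Submodule.mem_sup_right ?_)
    rwa [← e2, add_sub_cancel_right]
  have h3 := finrank_le_add_deg R.res (S := G.S) (D := G.K0 + G.Q) G.Q0
    (L (G.K0 + G.Q) ⊔ Submodule.span k {f₀} ⊔ Submodule.span k {f})
    (sup_le (sup_le (L_le_LS _ _) ((Submodule.span_singleton_le_iff_mem _ _).mpr h0))
      ((Submodule.span_singleton_le_iff_mem _ _).mpr hf))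
  rw [add_sub_cancel_right, G.degQ] at h3
  have h4 : (L (G.K0 + G.Q) ⊔ Submodule.span k {f₀} ⊔ Submodule.span k {f}) ⊓ LS G.S G.K0
      ≤ L G.K0 := by
    intro t ht0
    obtain ⟨ht, htW⟩ := Submodule.mem_inf.mp ht0
    clear ht0
    obtain ⟨w, hw, w', hw', rfl⟩ := Submodule.mem_sup.mp ht
    obtain ⟨u, hu, w2, hw2, rfl⟩ := Submodule.mem_sup.mp hw
    obtain ⟨a, rfl⟩ := Submodule.mem_span_singleton.mp hw2
    obtain ⟨b, rfl⟩ := Submodule.mem_span_singleton.mp hw'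
    have h5 : a • f₀ + b • f ∈ LS G.S G.K0 ⊔ L (G.K0 + G.Q) := by
      have e1 : u + a • f₀ + b • f ∈ LS G.S G.K0 ⊔ L (G.K0 + G.Q) := Submodule.mem_sup_left htW
      have e2 : u ∈ LS G.S G.K0 ⊔ L (G.K0 + G.Q) := Submodule.mem_sup_right hu
      have := Submodule.sub_mem _ e1 e2
      rwa [add_assoc, add_sub_cancel_left] at this
    have hb : b = 0 := by
      by_contra hb
      refine hn (-(b⁻¹ * a)) ?_
      have := Submodule.smul_mem _ b⁻¹ h5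
      rw [smul_add, inv_smul_smul₀ hb, smul_smul] at this
      rwa [neg_smul, sub_neg_eq_add, add_comm f]
    subst hb
    rw [zero_smul, add_zero] at h5
    have ha : a = 0 := by
      by_contra ha
      exact h0' ((Submodule.smul_mem_iff _ ha).mp h5)
    subst ha
    rw [zero_smul, zero_smul, add_zero, add_zero] at htW ⊢
    refine mem_L.mpr fun v => ?_
    by_cases hv : v ∈ G.S
    · exact htW v hv
    · have := mem_L.mp hu v
      rwa [Finsupp.add_apply, G.mu_Q_zero hv, add_zero] at this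
  have h5 := Submodule.finrank_mono h4
  have h6 := Submodule.finrank_lt_finrank_of_lt h1
  have h7 := Submodule.finrank_lt_finrank_of_lt h2
  have h8 : (finrank k (L G.K0) : ℤ) = R.g := R.ell_can G.mu_h0
  have h9 : (finrank k (L (G.K0 + G.Q)) : ℤ) = deg G.Q + R.g - 1 :=
    R.ell_can_add G.mu_h0 (by rw [G.degQ]; norm_num)
  rw [G.degQ] at h9
  omega

lemma mu_φ_LS {D : Div k K} (hD : G.φ.push D = D) {f : K} :
    G.φ.σ f ∈ LS G.S D ↔ f ∈ LS G.S D := by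
  have := G.φ.σ_mem_LS G.φ_smul_mem_S (D := D) (f := f)
  rwa [hD] at this

lemma mu_φ_U {f : K} (hf : f ∈ LS G.S G.K0 ⊔ L (G.K0 + G.Q)) :
    G.φ.σ f ∈ LS G.S G.K0 ⊔ L (G.K0 + G.Q) := by
  obtain ⟨l, hl, u, hu, rfl⟩ := Submodule.mem_sup.mp hf
  rw [map_add]
  refine Submodule.add_mem_sup ((G.mu_φ_LS G.φK0).mpr hl) ?_
  have := G.φ.σ_mem_L.mpr hu
  rwa [map_add, G.φK0, G.φQ] at this

lemma mu_ι_LS {E : Div k K} (hE : G.ι.push E = E) {f : K} (hf : f ∈ LS G.S (G.K0 + E)) :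
    G.ι.σ f ∈ LS G.S (G.K0 + E) := by
  have := (G.ι.σ_mem_LS G.ι_smul_mem_S).mpr hf
  rw [map_add, G.ιK0, hE] at this
  rwa [LS_congr (D' := G.K0 + dv G.y + E) fun v hv => by
    simp only [Finsupp.add_apply, dv_apply R.fin, G.ord_y hv, add_zero]]

lemma mu_ι_U {f : K} (hf : f ∈ LS G.S G.K0 ⊔ L (G.K0 + G.Q)) :
    G.ι.σ f ∈ LS G.S G.K0 ⊔ L (G.K0 + G.Q) := by
  obtain ⟨l, hl, u, hu, rfl⟩ := Submodule.mem_sup.mp hf
  rw [map_add]
  refine add_mem (Submodule.mem_sup_left ?_) ?_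
  · have := G.mu_ι_LS (map_zero _) (f := l) (by rwa [add_zero])
    rwa [add_zero] at this
  · have h1 := G.ι.σ_mem_L.mpr hu
    rw [map_add, G.ιK0, G.ιQ, add_right_comm] at h1
    have h2 : G.ι.σ u * G.y ∈ L (G.K0 + G.Q) := (mul_mem_LS_iff R.fin G.y0).mpr h1
    have h3 := G.char_mul_sub_mem (G.mu_ι_LS G.ιQ (L_le_LS _ _ hu)) 0 1
    rw [zpow_zero, zpow_one, one_mul, add_sub_cancel_right, mul_comm] at h3
    have := sub_mem (Submodule.mem_sup_right (S := LS G.S G.K0) h2)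
      (Submodule.mem_sup_left (T := L (G.K0 + G.Q)) h3)
    rwa [sub_sub_cancel] at this

end Geo

/-- Let `V = LS S (K0 + Q)`, `U = LS S K0 ⊔ L (K0 + Q)`.
(a) If `f ∈ LS S (K0 + q)` lies in `U`, `f = l + u`, then `u ∈ L (K0 + q) = L K0` (both have
dimension `g`: `ell_can`, `ell_can_add`), so `f ∈ LS S K0`.
(b) By `RRData.exists_ord_eq` (for `K0 + q`, `v = q`, `p = p4`) there is `f₀ ∈ LS S (K0 + q)` not in
`LS S K0`, so `f₀ ∉ U`. (c) `V = U ⊔ span {f₀}`: otherwise take `f ∈ V` outside and apply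
`finrank_le_add_deg` to `L (K0 + Q) ⊔ span {f₀, f}`, of dimension `g + 5`, whose intersection with
`LS S K0` is `L K0`. Take a linear `μ₀` with `μ₀ = 0` on `U`, `μ₀ f₀ = 1`; on `V` its kernel is `U`.
`φ` and `φ⁻¹` preserve `U` and `V`; `ι` preserves `V` and `U` (`ι (L (K0 + Q)) = y⁻¹ L (K0 + Q)`
and `char_mul_sub_mem`). Hence `μ₀ (φ f) = c μ₀ f ^ 2` with `c = μ₀ (φ f₀) ≠ 0`, and
`μ₀ (ι f) = c' μ₀ f` with `c' ^ 2 = 1`. Put `μ = c • μ₀`. -/
theorem Geo.exists_mu [CharP k 2] (G : Geo R n h) : ∃ μ : K →ₗ[k] k, G.IsMu μ := by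
  obtain ⟨f₀, hq, hW⟩ := G.mu_b
  have hV := G.mu_q_le hq
  have hU : f₀ ∉ LS G.S G.K0 ⊔ L (G.K0 + G.Q) := fun h' => hW (G.mu_a hq h')
  obtain ⟨μ₁, h1, hker⟩ := Submodule.exists_le_ker_of_notMem hU
  obtain ⟨μ₀, h0, hz⟩ : ∃ μ₀ : K →ₗ[k] k, μ₀ f₀ = 1 ∧
      ∀ f ∈ LS G.S G.K0 ⊔ L (G.K0 + G.Q), μ₀ f = 0 :=
    ⟨(μ₁ f₀)⁻¹ • μ₁, by rw [LinearMap.smul_apply, smul_eq_mul, inv_mul_cancel₀ h1],
      fun f hf => by rw [LinearMap.smul_apply, LinearMap.mem_ker.mp (hker hf), smul_zero]⟩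
  have key : ∀ f ∈ LS G.S (G.K0 + G.Q), f - μ₀ f • f₀ ∈ LS G.S G.K0 ⊔ L (G.K0 + G.Q) := by
    intro f hf
    obtain ⟨a, ha⟩ := G.mu_c hV hU hf
    have := hz _ ha
    rw [map_sub, map_smul, h0, smul_eq_mul, mul_one, sub_eq_zero] at this
    rwa [this]
  have hne : ∀ f ∈ LS G.S (G.K0 + Finsupp.single G.q 1), f ∉ LS G.S G.K0 → μ₀ f ≠ 0 := by
    intro f hf hf' e
    have := key f (G.mu_q_le hf)
    rw [e, zero_smul, sub_zero] at this
    exact hf' (G.mu_a hf this)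
  have hφ : ∀ f ∈ LS G.S (G.K0 + G.Q), μ₀ (G.φ.σ f) = μ₀ f ^ 2 * μ₀ (G.φ.σ f₀) := by
    intro f hf
    have := hz _ (G.mu_φ_U (key f hf))
    rwa [map_sub, Aut.map_smul, G.φ0, map_sub, map_smul, smul_eq_mul, sub_eq_zero] at this
  have hι : ∀ f ∈ LS G.S (G.K0 + G.Q), μ₀ (G.ι.σ f) = μ₀ f * μ₀ (G.ι.σ f₀) := by
    intro f hf
    have := hz _ (G.mu_ι_U (key f hf))
    rwa [map_sub, Aut.map_smul, G.ι0, map_sub, map_smul, smul_eq_mul, sub_eq_zero] at this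
  have hc : μ₀ (G.φ.σ f₀) ≠ 0 :=
    hne _ ((G.mu_φ_LS (by rw [map_add, G.φK0, Aut.push_single, G.φq])).mpr hq)
      fun h' => hW ((G.mu_φ_LS G.φK0).mp h')
  have hc' : μ₀ (G.ι.σ f₀) = 1 := by
    have := hι _ (G.mu_ι_LS G.ιQ hV)
    rw [G.ι_σ_σ, h0] at this
    rcases mul_self_eq_one_iff.mp this.symm with e | e
    · exact e
    · rw [e, CharTwo.neg_eq]
  refine ⟨μ₀ (G.φ.σ f₀) • μ₀, fun f hf => ?_, fun f hf => ?_, fun f hf => ?_, fun f hf => ?_,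
    fun f hf hf' => ?_⟩
  · rw [LinearMap.smul_apply, hz f (Submodule.mem_sup_left hf), smul_zero]
  · rw [LinearMap.smul_apply, hz f (Submodule.mem_sup_right hf), smul_zero]
  · rw [LinearMap.smul_apply, LinearMap.smul_apply, hφ f hf, smul_eq_mul, smul_eq_mul]
    ring
  · rw [LinearMap.smul_apply, LinearMap.smul_apply, hι f hf, hc', mul_one]
  · rw [LinearMap.smul_apply, smul_eq_mul]
    exact mul_ne_zero hc (hne f hf hf')

end Pool.Agent.Lib.MP_a01f70_lc.QQ
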