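import Pool.Agent.Lib.MP_a01f70_lc.QQ.Norm1

/-!
Orders at the places over a point and the order of the norm.
-/

set_option linter.unusedSectionVars false

namespace Pool.Agent.Lib.MP_a01f70_lc.QQ
open Module Polynomial

variable {k K : Type*} [Field k] [Field K] [Algebra k K] [Algebra k[X] K] [Algebra (RatFunc k) K]
  [IsScalarTower k k[X] K] [IsScalarTower k[X] (RatFunc k) K] [IsScalarTower k (RatFunc k) K]
  [FiniteDimensional (RatFunc k) K] [Algebra.IsSeparable (RatFunc k) K]

variable {n : ℕ} {p : Place k K}

/-- The norm of `g - y` is the value at `g` of the characteristic polynomial of `y`, which is the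
minimal polynomial `M` (power basis; `Matrix.eval_charpoly`, `charpoly_leftMulMatrix`, or
`Algebra.PowerBasis.norm_gen_eq_coeff_zero_minpoly` for the generator `y - g`). -/
theorem norm_sub {y : K} {M : (RatFunc k)[X]} (hM : M.Monic)
    (hd : M.natDegree = finrank (RatFunc k) K) (hy : aeval y M = 0)
    (hli : LinearIndependent (RatFunc k) fun i : Fin (finrank (RatFunc k) K) => y ^ (i : ℕ))
    (g : RatFunc k) :
    Algebra.norm (RatFunc k) (algebraMap (RatFunc k) K g - y) = M.eval g := by
  classical
  have hpos : 0 < finrank (RatFunc k) K := finrank_pos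
  have : Nonempty (Fin (finrank (RatFunc k) K)) := ⟨⟨0, hpos⟩⟩
  let pb : PowerBasis (RatFunc k) K :=
    { gen := y
      dim := finrank (RatFunc k) K
      basis := basisOfLinearIndependentOfCardEqFinrank hli (Fintype.card_fin _)
      basis_eq_pow := fun i => by rw [coe_basisOfLinearIndependentOfCardEqFinrank] }
  have hmin : M = minpoly (RatFunc k) pb.gen :=
    eq_of_monic_of_dvd_of_natDegree_le (minpoly.monic pb.isIntegral_gen) hM
      (minpoly.dvd _ _ hy) (by rw [pb.natDegree_minpoly, hd])
  rw [hmin, ← charpoly_leftMulMatrix pb, Matrix.eval_charpoly, Algebra.norm_eq_matrix_det pb.basis,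
    map_sub, AlgHom.commutes]
  rfl

end Pool.Agent.Lib.MP_a01f70_lc.QQ
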