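import Pool.Agent.Lib.MP_a01f70_lc.QQ.ADefs

/-!
A totally ramified place at infinity.
-/

set_option linter.unusedSectionVars false

namespace Pool.Agent.Lib.MP_a01f70_lc.QQ
open Module Polynomial

variable {k K : Type*} [Field k] [Field K] [Algebra k K] [Algebra k[X] K] [Algebra (RatFunc k) K]
  [IsScalarTower k k[X] K] [IsScalarTower k[X] (RatFunc k) K] [IsScalarTower k (RatFunc k) K]

/-- the leading term has the strictly smallest order (`Place.ord_sum_of_lt`) -/
theorem ord_poly {p : Place k K} (hp : p.ord (xx k K) < 0) {u : k[X]} (hu : u ≠ 0) :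
    p.ord (algebraMap k[X] K u) = u.natDegree * p.ord (xx k K) := by
  have hc : u.coeff u.natDegree ≠ 0 := leadingCoeff_ne_zero.mpr hu
  have h1 : p.ord (u.coeff u.natDegree • xx k K ^ u.natDegree) = u.natDegree * p.ord (xx k K) := by
    rw [p.ord_smul hc, p.ord_pow]
  rw [algebraMap_poly, aeval_eq_sum_range, ← h1]
  refine (Place.ord_sum_of_lt (f := fun i => u.coeff i • xx k K ^ i)
    (Finset.self_mem_range_succ _) (smul_ne_zero hc (pow_ne_zero _ xx_ne_zero)) ?_).2
  intro i hi hne
  refine (((p.ge_ord _).pow i).smul _).mono ?_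
  rw [h1]
  have h2 : (i : ℤ) + 1 ≤ u.natDegree := by
    have := Finset.mem_range.mp hi
    omega
  nlinarith

theorem ord_rat {p : Place k K} (hp : p.ord (xx k K) < 0) {r : RatFunc k} (hr : r ≠ 0) :
    p.ord (algebraMap (RatFunc k) K r) = r.intDegree * p.ord (xx k K) := by
  have h1 : r.num ≠ 0 := RatFunc.num_ne_zero hr
  rw [algebraMap_rat, p.ord_div (algebraMap_poly_ne_zero h1)
    (algebraMap_poly_ne_zero r.denom_ne_zero), ord_poly hp h1, ord_poly hp r.denom_ne_zero,
    RatFunc.intDegree, sub_mul]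

variable {n : ℕ} {p : Place k K}

lemma ram_ord_smul (h0 : 0 < n) (hp : p.ord (xx k K) = -n) {a : RatFunc k} {t : K}
    (h : a • t ≠ 0) : ((p.ord (a • t) : ℤ) : ZMod n) = (p.ord t : ZMod n) := by
  have ha : a ≠ 0 := left_ne_zero_of_smul h
  have ht : t ≠ 0 := right_ne_zero_of_smul h
  rw [Algebra.smul_def, p.ord_mul ((_root_.map_ne_zero _).mpr ha) ht, ord_rat (by omega) ha, hp]
  push_cast
  rw [ZMod.natCast_self, neg_zero, mul_zero, zero_add]

/-- The nonzero terms have pairwise different orders (they differ modulo `n`), so the order of the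
sum is the smallest order of a nonzero term. -/
theorem ge_sum_iff (h0 : 0 < n) (hp : p.ord (xx k K) = -n) {ι : Type*} [Fintype ι] {t : ι → K}
    (ht : ∀ i, t i ≠ 0) (hinj : Function.Injective fun i => (p.ord (t i) : ZMod n))
    (a : ι → RatFunc k) (m : ℤ) : p.Ge (∑ i, a i • t i) m ↔ ∀ i, p.Ge (a i • t i) m := by
  classical
  refine ⟨fun h i => ?_, fun h => Place.Ge.sum fun i _ => h i⟩
  by_cases hi : a i • t i = 0
  · exact Or.inl hi
  obtain ⟨j, hj, hmin⟩ := Finset.exists_min_image (Finset.univ.filter fun i => a i • t i ≠ 0)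
    (fun i => p.ord (a i • t i)) ⟨i, Finset.mem_filter.mpr ⟨Finset.mem_univ _, hi⟩⟩
  have hj0 := (Finset.mem_filter.mp hj).2
  obtain ⟨h1, h2⟩ := Place.ord_sum_of_lt (v := p) (f := fun i => a i • t i) (Finset.mem_univ j) hj0
    (fun l _ hl => by
      by_cases hl0 : a l • t l = 0
      · exact Or.inl hl0
      have h3 := hmin l (Finset.mem_filter.mpr ⟨Finset.mem_univ _, hl0⟩)
      refine Or.inr (lt_of_le_of_ne h3 fun h4 => hl (hinj ?_))
      change (p.ord (t l) : ZMod n) = (p.ord (t j) : ZMod n)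
      rw [← ram_ord_smul h0 hp hl0, ← ram_ord_smul h0 hp hj0, h4])
  have h3 := h.le h1
  rw [h2] at h3
  exact Or.inr (h3.trans (hmin i (Finset.mem_filter.mpr ⟨Finset.mem_univ _, hi⟩)))

theorem linearIndependent_of_ord (h0 : 0 < n) (hp : p.ord (xx k K) = -n) {ι : Type*} [Fintype ι]
    {t : ι → K} (ht : ∀ i, t i ≠ 0) (hinj : Function.Injective fun i => (p.ord (t i) : ZMod n)) :
    LinearIndependent (RatFunc k) t := by
  rw [Fintype.linearIndependent_iff]
  intro a ha i
  have h := (ge_sum_iff h0 hp ht hinj a (p.ord (a i • t i) + 1)).mp (Or.inl ha) i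
  rcases h with h | h
  · exact (smul_eq_zero.mp h).resolve_right (ht i)
  · omega

/-- `basisOfLinearIndependentOfCardEqFinrank` -/
theorem exists_basis_of_ord (h0 : 0 < n) (hp : p.ord (xx k K) = -n)
    (hn : finrank (RatFunc k) K = n) {t : Fin n → K} (ht : ∀ i, t i ≠ 0)
    (hinj : Function.Injective fun i => (p.ord (t i) : ZMod n)) :
    ∃ b : Basis (Fin n) (RatFunc k) K, ∀ i, b i = t i := by
  have : Nonempty (Fin n) := ⟨⟨0, h0⟩⟩
  exact ⟨basisOfLinearIndependentOfCardEqFinrank (linearIndependent_of_ord h0 hp ht hinj)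
    (by rw [hn, Fintype.card_fin]), fun i => by simp⟩

lemma ram_basis (h0 : 0 < n) (hp : p.ord (xx k K) = -n) (hn : finrank (RatFunc k) K = n) :
    ∃ b : Basis (Fin n) (RatFunc k) K, (∀ i, p.ord (b i) = (i : ℕ)) ∧
      ∀ (f : K) (m : ℤ), p.Ge f m → ∀ i j,
        p.Ge (algebraMap (RatFunc k) K (b.repr (f * b j) i)) (m + (j : ℕ) - (i : ℕ)) := by
  choose t ht ht' using fun i : Fin n => p.exists_ord_eq (i : ℕ)
  have hinj : Function.Injective fun i => (p.ord (t i) : ZMod n) := by
    intro i j hij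
    simp only [ht', Int.cast_natCast] at hij
    rw [ZMod.natCast_eq_natCast_iff', Nat.mod_eq_of_lt i.2, Nat.mod_eq_of_lt j.2] at hij
    exact Fin.ext hij
  obtain ⟨b, hb⟩ := exists_basis_of_ord h0 hp hn ht hinj
  refine ⟨b, fun i => by rw [hb, ht'], fun f m hf i j => ?_⟩
  have h1 : p.Ge (f * b j) (m + (j : ℕ)) := by
    rw [hb, ← ht' j]
    exact hf.mul (p.ge_ord _)
  rw [← b.sum_repr (f * b j)] at h1
  simp only [hb] at h1
  have h2 := (ge_sum_iff h0 hp ht hinj _ _).mp h1 i
  rw [Algebra.smul_def, Place.ge_mul_iff (ht i), ht'] at h2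
  rw [hb]
  exact h2

/-- Take the basis `t i` with `p.ord (t i) = i`, `0 ≤ i < n`. If `p.Ge f 0`, the entries of the
matrix of multiplication by `f` have order `> -n`, hence `≥ 0`, at `p` (`ge_sum_iff`, `ord_rat`),
i.e. `intDegree ≤ 0`, so they have order `≥ 0` at `v` as well; so have the coefficients of the
characteristic polynomial, which is monic and kills `f`; hence `v.Ge f 0`. Thus `p.ord f = 0`
implies `v.ord f = 0`, `v.ord = v.ord t * p.ord` for `p.ord t = 1`, and `v.ord t ≥ 0` is a unit. -/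
theorem place_unique (h0 : 0 < n) (hp : p.ord (xx k K) = -n) (hn : finrank (RatFunc k) K = n)
    {v : Place k K} (hv : v.ord (xx k K) < 0) : v = p := by
  obtain ⟨b, -, hb⟩ := ram_basis h0 hp hn
  have key : ∀ f : K, p.Ge f 0 → v.Ge f 0 := by
    intro f hf
    obtain ⟨j, -, hmin⟩ := Finset.exists_min_image Finset.univ (fun i => v.ord (b i))
      ⟨⟨0, h0⟩, Finset.mem_univ _⟩
    have h1 : v.Ge (f * b j) (v.ord (b j)) := by
      rw [← b.sum_repr (f * b j)]
      refine Place.Ge.sum fun i _ => ?_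
      have h2 := hb f 0 hf i j
      generalize b.repr (f * b j) i = a at h2
      by_cases ha : a = 0
      · rw [ha, zero_smul]
        exact v.ge_zero _
      have h3 := h2.le ((_root_.map_ne_zero _).mpr ha)
      rw [ord_rat (by omega) ha, hp] at h3
      have h4 : a.intDegree ≤ 0 := by
        have hi : ((i : ℕ) : ℤ) < n := by exact_mod_cast i.2
        have hj : (0 : ℤ) ≤ (j : ℕ) := Nat.cast_nonneg _
        by_contra h5
        have h6 : 1 ≤ a.intDegree := by omega
        nlinarith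
      have h5 : v.Ge (algebraMap (RatFunc k) K a) 0 := by
        refine Or.inr ?_
        rw [ord_rat hv ha]
        exact mul_nonneg_of_nonpos_of_nonpos h4 hv.le
      rw [Algebra.smul_def]
      refine (h5.mul (v.ge_ord (b i))).mono ?_
      rw [zero_add]
      exact hmin i (Finset.mem_univ _)
    rwa [Place.ge_mul_iff (b.ne_zero j), sub_self] at h1
  obtain ⟨t, ht0, ht⟩ := p.surj
  have h1 : ∀ f : K, v.ord f = p.ord f * v.ord t := by
    intro f
    by_cases hf : f = 0
    · simp [hf]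
    have hz : t ^ p.ord f ≠ 0 := zpow_ne_zero _ ht0
    have hu : f / t ^ p.ord f ≠ 0 := div_ne_zero hf hz
    have h2 : p.ord (f / t ^ p.ord f) = 0 := by
      rw [p.ord_div hf hz, p.ord_zpow, ht, mul_one, sub_self]
    have h3 := (key _ (Or.inr h2.ge)).le hu
    have h4 := (key (f / t ^ p.ord f)⁻¹ (Or.inr (by rw [p.ord_inv, h2, neg_zero]))).le
      (inv_ne_zero hu)
    rw [v.ord_inv] at h4
    rw [v.ord_div hf hz, v.ord_zpow] at h3 h4
    omega
  obtain ⟨s, -, hs⟩ := v.surj
  have h2 : v.ord t = 1 :=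
    Int.eq_one_of_mul_eq_one_left ((key t (Or.inr (by omega))).le ht0) ((h1 s).symm.trans hs)
  ext f
  rw [h1, h2, mul_one]

/-- The diagonal entries `a i i` of multiplication by `f` in a basis with orders distinct modulo
`n` satisfy `p.Ge (a i i • t i) (m + p.ord (t i))`. -/
theorem ge_trace (h0 : 0 < n) (hp : p.ord (xx k K) = -n) (hn : finrank (RatFunc k) K = n)
    {f : K} {m : ℤ} (h : p.Ge f m) :
    p.Ge (algebraMap (RatFunc k) K (Algebra.trace (RatFunc k) K f)) m := by
  obtain ⟨b, -, hb⟩ := ram_basis h0 hp hn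
  rw [Algebra.trace_eq_matrix_trace b, Matrix.trace, map_sum]
  refine Place.Ge.sum fun i _ => ?_
  have h1 := hb f m h i i
  rwa [add_sub_cancel_right, ← Algebra.leftMulMatrix_eq_repr_mul] at h1

/-- Multiply by `x ^ m` to reduce to `m = 0`; then `f = c + f'` with `c ≠ 0` constant and
`p.Ge f' 1`, and the trace is `n c + trace f'`. -/
theorem ord_trace (hres : ResPl k K) (hk : (n : k) ≠ 0) (hp : p.ord (xx k K) = -n)
    (hn : finrank (RatFunc k) K = n) {f : K} (hf : f ≠ 0) {m : ℤ} (h : p.ord f = n * m) :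
    Algebra.trace (RatFunc k) K f ≠ 0 ∧
      p.ord (algebraMap (RatFunc k) K (Algebra.trace (RatFunc k) K f)) = n * m := by
  have h0 : 0 < n := Nat.pos_of_ne_zero fun h1 => hk (by rw [h1, Nat.cast_zero])
  have hx : algebraMap (RatFunc k) K (RatFunc.X ^ m) = xx k K ^ m := by
    rw [map_zpow₀, ← RatFunc.algebraMap_X, algebraMap_poly_rat, xx]
  have hxm : xx k K ^ m ≠ 0 := zpow_ne_zero _ xx_ne_zero
  have hg : p.ord (xx k K ^ m * f) = 0 := by
    rw [p.ord_mul hxm hf, p.ord_zpow, hp, h]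
    ring
  obtain ⟨c, hc⟩ := hres p (xx k K ^ m * f) (Or.inr hg.ge)
  have hc0 : c ≠ 0 := by
    rintro rfl
    rw [map_zero, sub_zero] at hc
    have := hc.le (mul_ne_zero hxm hf)
    omega
  have h1 := ge_trace h0 hp hn hc
  have h2 : algebraMap (RatFunc k) K (Algebra.trace (RatFunc k) K (algebraMap k K c)) =
      algebraMap k K (n * c) := by
    rw [IsScalarTower.algebraMap_apply k (RatFunc k) K c, Algebra.trace_algebraMap, hn,
      nsmul_eq_mul, map_mul, map_mul, map_natCast, map_natCast,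
      ← IsScalarTower.algebraMap_apply k (RatFunc k) K c]
  have h3 : algebraMap k K (n * c) ≠ 0 := (_root_.map_ne_zero _).mpr (mul_ne_zero hk hc0)
  obtain ⟨h4, h5⟩ := Place.ord_add_of_ge (v := p) h3 (by rw [p.ord_const, zero_add]; exact h1)
  have h6 : algebraMap k K (n * c) + algebraMap (RatFunc k) K
      (Algebra.trace (RatFunc k) K (xx k K ^ m * f - algebraMap k K c)) =
      xx k K ^ m * algebraMap (RatFunc k) K (Algebra.trace (RatFunc k) K f) := by
    rw [map_sub, map_sub, h2, add_sub_cancel, ← hx, ← Algebra.smul_def, map_smul, smul_eq_mul,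
      map_mul]
  rw [h6] at h4 h5
  have h7 := right_ne_zero_of_mul h4
  rw [p.ord_mul hxm h7, p.ord_zpow, hp, p.ord_const] at h5
  refine ⟨(_root_.map_ne_zero _).mp h7, ?_⟩
  linear_combination h5

end Pool.Agent.Lib.MP_a01f70_lc.QQ
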