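import Pool.Agent.Lib.MP_a01f70_lc.QQ.Ded
import Pool.Agent.Lib.MP_a01f70_lc.QQ.Ram

/-!
Orders at the places over a point and the order of the norm.
-/

set_option linter.unusedSectionVars false

namespace Pool.Agent.Lib.MP_a01f70_lc.QQ
open Module Polynomial

variable {k K : Type*} [Field k] [Field K] [Algebra k K] [Algebra k[X] K] [Algebra (RatFunc k) K]
  [IsScalarTower k k[X] K] [IsScalarTower k[X] (RatFunc k) K] [IsScalarTower k (RatFunc k) K]
  [FiniteDimensional (RatFunc k) K] [Algebra.IsSeparable (RatFunc k) K]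

variable {n : ℕ} {p : Place k K}

/-- order of a rational function at the point `c` -/
noncomputable def norm1_nu (c : k) (r : RatFunc k) : ℤ :=
  (rootMultiplicity c r.num : ℤ) - rootMultiplicity c r.denom

lemma norm1_nu_eq (c : k) {r : RatFunc k} (hr : r ≠ 0) {u w : k[X]} (hw : w ≠ 0)
    (h : r * algebraMap k[X] (RatFunc k) w = algebraMap k[X] (RatFunc k) u) :
    norm1_nu c r = (rootMultiplicity c u : ℤ) - rootMultiplicity c w := by
  have hd : algebraMap k[X] (RatFunc k) r.denom ≠ 0 := RatFunc.algebraMap_ne_zero r.denom_ne_zero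
  have h1 : r.num * w = u * r.denom := by
    apply IsFractionRing.injective k[X] (RatFunc k)
    rw [map_mul, map_mul, ← h, (div_eq_iff hd).1 (RatFunc.num_div_denom r)]
    ring
  have h2 : r.num * w ≠ 0 := mul_ne_zero (RatFunc.num_ne_zero hr) hw
  have h3 := rootMultiplicity_mul (x := c) h2
  rw [h1, rootMultiplicity_mul (h1 ▸ h2)] at h3
  unfold norm1_nu
  omega

lemma norm1_nu_mul (c : k) {r s : RatFunc k} (hr : r ≠ 0) (hs : s ≠ 0) :
    norm1_nu c (r * s) = norm1_nu c r + norm1_nu c s := by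
  have hd : ∀ t : RatFunc k, t * algebraMap k[X] (RatFunc k) t.denom
      = algebraMap k[X] (RatFunc k) t.num := fun t =>
    ((div_eq_iff (RatFunc.algebraMap_ne_zero t.denom_ne_zero)).1 (RatFunc.num_div_denom t)).symm
  have h1 := mul_ne_zero r.denom_ne_zero s.denom_ne_zero
  have h2 := mul_ne_zero (RatFunc.num_ne_zero hr) (RatFunc.num_ne_zero hs)
  rw [norm1_nu_eq c (mul_ne_zero hr hs) (u := r.num * s.num) h1
    (by rw [map_mul, map_mul, ← hd, ← hd]; ring), rootMultiplicity_mul h1, rootMultiplicity_mul h2]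
  unfold norm1_nu
  push_cast
  ring

lemma norm1_nu_poly (c : k) {u : k[X]} (hu : u ≠ 0) :
    norm1_nu c (algebraMap k[X] (RatFunc k) u) = rootMultiplicity c u := by
  rw [norm1_nu_eq c (RatFunc.algebraMap_ne_zero hu) (u := u) one_ne_zero (by simp),
    rootMultiplicity_eq_zero (p := 1) (by simp)]
  simp

lemma norm1_zpow {φ : K → ℤ} (hφ : ∀ f g, f ≠ 0 → g ≠ 0 → φ (f * g) = φ f + φ g) {f : K}
    (hf : f ≠ 0) (m : ℤ) : φ (f ^ m) = m * φ f := by
  induction m using Int.induction_on with
  | zero =>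
    have := hφ 1 1 one_ne_zero one_ne_zero
    rw [mul_one] at this
    rw [zpow_zero]
    omega
  | succ m ih =>
    rw [zpow_add_one₀ hf, hφ _ _ (zpow_ne_zero _ hf) hf, ih]
    ring
  | pred m ih =>
    have := hφ (f ^ (-(m : ℤ) - 1)) f (zpow_ne_zero _ hf) hf
    rw [← zpow_add_one₀ hf, sub_add_cancel, ih] at this
    linarith

lemma norm1_prod {φ : K → ℤ} (hφ : ∀ f g, f ≠ 0 → g ≠ 0 → φ (f * g) = φ f + φ g) {ι : Type*}
    (s : Finset ι) (f : ι → K) (h : ∀ i ∈ s, f i ≠ 0) : φ (∏ i ∈ s, f i) = ∑ i ∈ s, φ (f i) := by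
  classical
  induction s using Finset.induction_on with
  | empty => simpa using norm1_zpow hφ one_ne_zero 0
  | insert a s ha ih =>
    rw [Finset.prod_insert ha, Finset.sum_insert ha, hφ _ _ (h a (by simp))
      (Finset.prod_ne_zero_iff.mpr fun i hi => h i (by simp [hi])), ih fun i hi => h i (by simp [hi])]

lemma norm1_fin {c : k} {v : Place k K} (hv : 0 < v.ord (xx k K - algebraMap k K c)) :
    v ∈ FinSet k K := by
  have := (Place.Ge.of_le hv.le).add (v.ge_const c)
  rw [sub_add_cancel] at this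
  exact this.le xx_ne_zero

lemma norm1_root {c : k} {v : Place k K} (hv : 0 < v.ord (xx k K - algebraMap k K c)) {u : k[X]}
    (hu : v.Ge (algebraMap k[X] K u) 1) : u.IsRoot c := by
  have h1 := congrArg (algebraMap k[X] K) (X_sub_C_mul_divByMonic_eq_sub_modByMonic u c)
  rw [modByMonic_X_sub_C_eq_C_eval, map_mul, map_sub _ u, algebraMap_X_sub_C] at h1
  have h2 := (Place.Ge.of_le (show (1 : ℤ) ≤ _ from hv)).mul
    (ge_poly (norm1_fin hv) (u /ₘ (X - C c)))
  rw [h1, add_zero] at h2
  have h3 := hu.sub h2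
  rw [sub_sub_cancel, ← algebraMap_eq, ← IsScalarTower.algebraMap_apply] at h3
  exact Place.const_eq_zero_of_ge h3

lemma norm1_pos {c : k} {v : Place k K} (hv : 0 < v.ord (xx k K - algebraMap k K c)) {h : K}
    (h0 : h ≠ 0) (hi : IsIntegral k[X] h) (h1 : v.Ge h 1) :
    0 < norm1_nu c (Algebra.norm (RatFunc k) h) := by
  have hi' : IsIntegral (RatFunc k) h := hi.tower_top
  have h2 := minpoly.aeval k[X] h
  rw [← divX_mul_X_add (minpoly k[X] h), map_add, map_mul, aeval_X, aeval_C] at h2
  have h3 : v.Ge (aeval h (minpoly k[X] h).divX) 0 := by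
    refine (isIntegral_iff_ge _).1 ?_ v (norm1_fin hv)
    exact (mem_integralClosure_iff _ _).1 (adjoin_le_integralClosure hi
      (aeval_mem_adjoin_singleton _ _))
  have h4 := (h3.mul h1).neg
  rw [neg_eq_of_add_eq_zero_right h2, zero_add] at h4
  have h5 := norm1_root hv h4
  have h6 := Algebra.PowerBasis.norm_gen_eq_coeff_zero_minpoly
    (IntermediateField.adjoin.powerBasis hi')
  rw [IntermediateField.adjoin.powerBasis_gen, IntermediateField.minpoly_gen,
    minpoly.isIntegrallyClosed_eq_field_fractions' (RatFunc k) hi, coeff_map] at h6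
  have h7 : Algebra.norm (RatFunc k) h = algebraMap k[X] (RatFunc k)
      (((-1) ^ (IntermediateField.adjoin.powerBasis hi').dim * (minpoly k[X] h).coeff 0) ^
        finrank (IntermediateField.adjoin (RatFunc k) {h}) K) := by
    rw [Algebra.norm_eq_norm_adjoin, h6]
    simp
  have h8 := (Algebra.norm_ne_zero_iff (R := RatFunc k)).2 h0
  rw [h7] at h8 ⊢
  have h9 := (map_ne_zero_iff _ (IsFractionRing.injective k[X] (RatFunc k))).1 h8
  rw [norm1_nu_poly c h9, Nat.cast_pos, rootMultiplicity_pos h9, IsRoot.def, eval_pow, eval_mul,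
    h5, mul_zero, zero_pow finrank_pos.ne']

lemma norm1_mul (c : k) (f g : K) (hf : f ≠ 0) (hg : g ≠ 0) :
    norm1_nu c (Algebra.norm (RatFunc k) (f * g)) =
      norm1_nu c (Algebra.norm (RatFunc k) f) + norm1_nu c (Algebra.norm (RatFunc k) g) := by
  rw [map_mul, norm1_nu_mul c (Algebra.norm_ne_zero_iff.2 hf) (Algebra.norm_ne_zero_iff.2 hg)]

lemma norm1_norm_poly (c : k) {u : k[X]} (hu : u ≠ 0) :
    norm1_nu c (Algebra.norm (RatFunc k) (algebraMap k[X] K u)) =
      finrank (RatFunc k) K * rootMultiplicity c u := by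
  rw [← algebraMap_poly_rat, Algebra.norm_algebraMap, ← zpow_natCast,
    norm1_zpow (fun f g => norm1_nu_mul c) (RatFunc.algebraMap_ne_zero hu), norm1_nu_poly c hu]

lemma norm1_nonneg (R : RRData k K) (c : k) {f : K} (hf : f ≠ 0)
    (h : ∀ v : Place k K, 0 < v.ord (xx k K - algebraMap k K c) → 0 ≤ v.ord f) :
    0 ≤ norm1_nu c (Algebra.norm (RatFunc k) f) := by
  classical
  have key : ∀ T : Finset (Place k K), ∃ s : k[X], ¬ s.IsRoot c ∧
      ∀ w ∈ T, w ∈ FinSet k K → w.Ge (algebraMap k[X] K s * f) 0 := by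
    intro T
    induction T using Finset.induction_on with
    | empty => exact ⟨1, by simp, by simp⟩
    | insert w T _ ih =>
      obtain ⟨s, hs1, hs2⟩ := ih
      by_cases hw : w ∈ FinSet k K ∧ w.ord f < 0
      · obtain ⟨d, hd⟩ := R.res w _ (Place.Ge.of_le hw.1)
        have hdc : c ≠ d := by
          rintro rfl
          have := h w (hd.le (xx_sub_ne_zero c))
          omega
        refine ⟨(X - C d) ^ (-w.ord f).toNat * s, ?_, ?_⟩
        · simp only [IsRoot.def, eval_mul, eval_pow, eval_sub, eval_X, eval_C] at hs1 ⊢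
          exact mul_ne_zero (pow_ne_zero _ (sub_ne_zero.2 hdc)) hs1
        · intro w' h1 h2
          rw [map_mul, mul_assoc]
          rcases Finset.mem_insert.1 h1 with rfl | h1
          · rw [map_pow, algebraMap_X_sub_C]
            refine ((hd.pow _).mul ((ge_poly h2 s).mul (w'.ge_ord f))).mono ?_
            omega
          · exact ((ge_poly h2 _).mul (hs2 w' h1 h2)).mono (by simp)
      · refine ⟨s, hs1, fun w' h1 h2 => ?_⟩
        rcases Finset.mem_insert.1 h1 with rfl | h1
        · simpa using (ge_poly h2 s).mul (Place.Ge.of_le (not_lt.1 fun h3 => hw ⟨h2, h3⟩))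
        · exact hs2 w' h1 h2
  obtain ⟨s, hs1, hs2⟩ := key (finite_finSet f).toFinset
  have hs0 : s ≠ 0 := fun e => hs1 (by simp [e])
  have hi : IsIntegral k[X] (algebraMap k[X] K s * f) := by
    refine (isIntegral_iff_ge _).2 fun w hw => ?_
    by_cases e : w.ord f = 0
    · simpa using (ge_poly hw s).mul (Place.Ge.of_le e.ge)
    · exact hs2 w (by simpa using ⟨hw, e⟩) hw
  obtain ⟨u, hu⟩ := IsIntegrallyClosed.isIntegral_iff.1 (Algebra.isIntegral_norm (RatFunc k) hi)
  have h1 := norm1_mul c _ _ (algebraMap_poly_ne_zero (K := K) hs0) hf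
  have h2 := (Algebra.norm_ne_zero_iff (R := RatFunc k)).2
    (mul_ne_zero (algebraMap_poly_ne_zero (K := K) hs0) hf)
  rw [← hu] at h1 h2
  rw [norm1_nu_poly c ((map_ne_zero_iff _ (IsFractionRing.injective k[X] (RatFunc k))).1 h2),
    norm1_norm_poly c hs0, rootMultiplicity_eq_zero hs1] at h1
  omega

/-- Put `ν r = rootMultiplicity c r.num - rootMultiplicity c r.denom` for `r ≠ 0` (additive; for
`v ∈ S`, `v.ord r = ν r * v.ord (x - c)`).
(i) If `v.Ge f 0` for all `v ∈ S` then `0 ≤ ν (norm f)`: the other finite poles `w` of `f` have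
`0 < w.ord (x - c')` with `c' ≠ c` (`R.res`), so `s f` is integral for a polynomial `s` with
`s(c) ≠ 0`, and norms of integral elements are polynomials (`Algebra.isIntegral_norm`). Hence
`ν (norm f) = 0` if `f` has order `0` on `S`.
(ii) If `h` is integral and `0 < v.ord h` for some `v ∈ S` then `0 < ν (norm h)`, since
`norm h / h` is integral (`Algebra.dvd_algebraMap_intNorm_self`, or Cayley-Hamilton).
(iii) `∑ v ∈ S, v.ord (x - c) = n` by `R.degdv` and `place_unique`.
By `approx` choose integral `π v` of order `1` at `v` and `0` at the other places of `S`;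
every `f` is `∏ π v ^ v.ord f` times a function of order `0` on `S`. For `f = x - c`, of norm
`(X - c) ^ n`, this gives `∑ v.ord (x - c) * ν (norm (π v)) = n`, so all `ν (norm (π v)) = 1`. -/
theorem sum_ord_eq (R : RRData k K) (h0 : 0 < n) (hp : p.ord (xx k K) = -n)
    (hn : finrank (RatFunc k) K = n) (c : k) {S : Finset (Place k K)}
    (hS : ∀ v, v ∈ S ↔ 0 < v.ord (xx k K - algebraMap k K c)) {f : K} (hf : f ≠ 0) {u w : k[X]}
    (hw : w ≠ 0) (h : Algebra.norm (RatFunc k) f * algebraMap k[X] (RatFunc k) w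
      = algebraMap k[X] (RatFunc k) u) :
    ∑ v ∈ S, v.ord f = (rootMultiplicity c u : ℤ) - rootMultiplicity c w := by
  classical
  rw [← norm1_nu_eq c (Algebra.norm_ne_zero_iff.2 hf) hw h]
  set φ : K → ℤ := fun g => norm1_nu c (Algebra.norm (RatFunc k) g) with hφ
  have hmul : ∀ f g, f ≠ 0 → g ≠ 0 → φ (f * g) = φ f + φ g := norm1_mul c
  have hfin : ∀ v ∈ S, v ∈ FinSet k K := fun v hv => norm1_fin ((hS v).1 hv)
  have hz : ∀ g, g ≠ 0 → (∀ v ∈ S, v.ord g = 0) → φ g = 0 := by
    intro g hg h1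
    have h2 := norm1_nonneg R c hg fun v hv => (h1 v ((hS v).2 hv)).ge
    have h3 := norm1_nonneg R c (inv_ne_zero hg) fun v hv => by
      rw [Place.ord_inv, h1 v ((hS v).2 hv), neg_zero]
    have h4 := norm1_zpow hmul hg (-1)
    rw [zpow_neg_one] at h4
    simp only [hφ] at h4 ⊢
    omega
  choose π hπ0 hπ1 hπ2 using fun v : Place k K => approx S hfin fun v' => if v' = v then 1 else 0
  have hπ3 : ∀ v ∈ S, 0 < φ (π v) := by
    intro v hv
    refine norm1_pos ((hS v).1 hv) (hπ0 v) ((isIntegral_iff_ge _).2 fun v' hv' => ?_)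
      (Place.Ge.of_le (by rw [hπ1 v v hv, if_pos rfl]))
    refine Place.Ge.of_le ?_
    by_cases e : v' ∈ S
    · rw [hπ1 v v' e]
      split_ifs <;> norm_num
    · exact hπ2 v v' hv' e
  have hsum : ∀ g, g ≠ 0 → φ g = ∑ v ∈ S, v.ord g * φ (π v) := by
    intro g hg
    have h1 : ∀ v ∈ S, π v ^ v.ord g ≠ 0 := fun v _ => zpow_ne_zero _ (hπ0 v)
    have h2 := Finset.prod_ne_zero_iff.2 h1
    have h3 := hmul _ _ (div_ne_zero hg h2) h2
    rw [div_mul_cancel₀ _ h2, hz _ (div_ne_zero hg h2), zero_add, norm1_prod hmul _ _ h1] at h3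
    · rw [h3]
      exact Finset.sum_congr rfl fun v _ => norm1_zpow hmul (hπ0 v) _
    · intro v hv
      rw [v.ord_div hg h2, v.ord_prod _ _ h1, Finset.sum_eq_single v]
      · simp [hπ1 v v hv]
      · intro v' _ e
        simp [hπ1 v' v hv, e.symm]
      · exact fun e => absurd hv e
  have hpo : p.ord (xx k K - algebraMap k K c) = -n := by
    rw [sub_eq_add_neg, (Place.ord_add_of_ge xx_ne_zero
      ((p.ge_const c).neg.mono (by omega))).2, hp]
  have hpS : p ∉ S := fun e => by have := (hS p).1 e; omega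
  have hdeg : ∑ v ∈ S, v.ord (xx k K - algebraMap k K c) = n := by
    have h1 := R.degdv (xx k K - algebraMap k K c)
    rw [deg_eq_sum _ (s := insert p S), Finset.sum_insert hpS] at h1
    · simp only [dv_apply R.fin, hpo] at h1
      omega
    · intro v hv
      rw [Finsupp.mem_support_iff, dv_apply R.fin] at hv
      rcases lt_or_ge (v.ord (xx k K)) 0 with e | e
      · rw [place_unique h0 hp hn e]
        exact Finset.mem_insert_self _ _
      · have := ((Place.Ge.of_le e).sub (v.ge_const c)).le (xx_sub_ne_zero c)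
        exact Finset.mem_insert_of_mem ((hS v).2 (by omega))
  have hone : ∀ v ∈ S, φ (π v) = 1 := by
    have h1 := hsum _ (xx_sub_ne_zero (K := K) c)
    have h2 : φ (xx k K - algebraMap k K c) = n := by
      simp only [hφ]
      rw [← algebraMap_X_sub_C, norm1_norm_poly c (X_sub_C_ne_zero c), hn,
        rootMultiplicity_X_sub_C_self]
      simp
    rw [h2, ← hdeg] at h1
    intro v hv
    have h3 := (Finset.sum_eq_sum_iff_of_le fun v hv =>
      le_mul_of_one_le_right ((hS v).1 hv).le (hπ3 v hv)).1 h1 v hv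
    have h4 := (hS v).1 hv
    exact (mul_left_cancel₀ h4.ne' (by rw [← h3, mul_one])).symm
  change _ = φ f
  rw [hsum f hf]
  exact Finset.sum_congr rfl fun v hv => by rw [hone v hv, mul_one]

end Pool.Agent.Lib.MP_a01f70_lc.QQ
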