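import Pool.Agent.Lib.MP_a01f70_lc.QQ.Defs

/-!
A smooth point carries at most one place.
-/

set_option linter.unusedSectionVars false

namespace Pool.Agent.Lib.MP_a01f70_lc.QQ
open Module Polynomial

variable {k K : Type*} [Field k] [Field K] [Algebra k K]

theorem exists_eq_const_add {s : Set K} {t : K}
    (hs : ∀ g ∈ s, ∃ c : k, ∃ b ∈ Algebra.adjoin k s, g = algebraMap k K c + t * b) (b : K)
    (hb : b ∈ Algebra.adjoin k s) :
    ∃ c : k, ∃ b' ∈ Algebra.adjoin k s, b = algebraMap k K c + t * b' := by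
  induction hb using Algebra.adjoin_induction with
  | mem x hx => exact hs x hx
  | algebraMap c => exact ⟨c, 0, zero_mem _, by simp⟩
  | add x y _ _ hx hy =>
    obtain ⟨c, b, hb, rfl⟩ := hx
    obtain ⟨c', b', hb', rfl⟩ := hy
    exact ⟨c + c', b + b', add_mem hb hb', by rw [map_add]; ring⟩
  | mul x y _ hy' hx hy =>
    obtain ⟨c, b, hb, rfl⟩ := hx
    obtain ⟨c', b', hb', e⟩ := hy
    refine ⟨c * c', algebraMap k K c * b' + b * y,
      add_mem (mul_mem (Subalgebra.algebraMap_mem _ c) hb') (mul_mem hb hy'), ?_⟩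
    rw [map_mul]
    linear_combination (algebraMap k K c) * e

theorem smooth_ord_unit {v : Place k K} {t b : K} {c : k} (hc : c ≠ 0) (ht : 0 < v.ord t)
    (hb : v.Ge b 0) : v.ord (algebraMap k K c + t * b) = 0 := by
  have h1 : v.Ge (t * b) (v.ord (algebraMap k K c) + 1) := by
    rw [v.ord_const]
    exact ((v.ge_ord t).mul hb).mono (by omega)
  rw [(Place.ord_add_of_ge ((_root_.map_ne_zero _).2 hc) h1).2, v.ord_const]

/-- By induction on `v.ord b`, a nonzero `b` in the algebra is `t ^ m * (c + t * b')` with `c ≠ 0`,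
so `v.ord b = m * v.ord t` and `w.ord b = m * w.ord t`. Hence `v.ord f = m * v.ord t` and
`w.ord f = m * w.ord t` with the same `m : ℤ` for each `f ≠ 0`; use `surj`. -/
theorem place_eq_of_smooth {s : Set K} {t : K}
    (hs : ∀ g ∈ s, ∃ c : k, ∃ b ∈ Algebra.adjoin k s, g = algebraMap k K c + t * b)
    (hfrac : ∀ f : K, ∃ a ∈ Algebra.adjoin k s, ∃ b ∈ Algebra.adjoin k s, b ≠ 0 ∧ f = a / b)
    {v w : Place k K} (hv : ∀ g ∈ s, v.Ge g 0) (hvt : 0 < v.ord t) (hw : ∀ g ∈ s, w.Ge g 0)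
    (hwt : 0 < w.ord t) : v.ord t = 1 ∧ w = v := by
  have ht : t ≠ 0 := by
    rintro rfl
    simp at hvt
  have key : ∀ N : ℕ, ∀ b ∈ Algebra.adjoin k s, b ≠ 0 → v.ord b < N →
      ∃ m : ℤ, v.ord b = m * v.ord t ∧ w.ord b = m * w.ord t := by
    intro N
    induction N with
    | zero =>
      intro b hb h0 hlt
      have := (Place.ge_of_mem_adjoin hv hb).le h0
      omega
    | succ N ih =>
      intro b hb h0 hlt
      obtain ⟨c, b', hb', e⟩ := exists_eq_const_add hs b hb
      by_cases hc : c = 0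
      · rw [hc, map_zero, zero_add] at e
        have h1 : b' ≠ 0 := by
          rintro rfl
          exact h0 (by rw [e, mul_zero])
        rw [e, v.ord_mul ht h1] at hlt
        obtain ⟨m, m1, m2⟩ := ih b' hb' h1 (by push_cast at hlt; omega)
        refine ⟨m + 1, ?_, ?_⟩
        · rw [e, v.ord_mul ht h1, m1]
          ring
        · rw [e, w.ord_mul ht h1, m2]
          ring
      · refine ⟨0, ?_, ?_⟩
        · rw [e, smooth_ord_unit hc hvt (Place.ge_of_mem_adjoin hv hb'), zero_mul]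
        · rw [e, smooth_ord_unit hc hwt (Place.ge_of_mem_adjoin hw hb'), zero_mul]
  have key2 : ∀ f : K, f ≠ 0 → ∃ m : ℤ, v.ord f = m * v.ord t ∧ w.ord f = m * w.ord t := by
    intro f hf
    obtain ⟨a, ha, b, hb, hb0, rfl⟩ := hfrac f
    have ha0 : a ≠ 0 := by
      rintro rfl
      exact hf (zero_div b)
    obtain ⟨m, m1, m2⟩ := key ((v.ord a).toNat + 1) a ha ha0 (by push_cast; omega)
    obtain ⟨l, l1, l2⟩ := key ((v.ord b).toNat + 1) b hb hb0 (by push_cast; omega)
    refine ⟨m - l, ?_, ?_⟩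
    · rw [v.ord_div ha0 hb0, m1, l1]
      ring
    · rw [w.ord_div ha0 hb0, m2, l2]
      ring
  have h1 : v.ord t = 1 := by
    obtain ⟨u, u0, u1⟩ := v.surj
    obtain ⟨m, m1, -⟩ := key2 u u0
    exact Int.eq_one_of_mul_eq_one_left hvt.le (m1.symm.trans u1)
  have h2 : w.ord t = 1 := by
    obtain ⟨u, u0, u1⟩ := w.surj
    obtain ⟨m, -, m2⟩ := key2 u u0
    exact Int.eq_one_of_mul_eq_one_left hwt.le (m2.symm.trans u1)
  refine ⟨h1, Place.ext (funext fun f => ?_)⟩
  by_cases hf : f = 0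
  · rw [hf, w.ord_zero, v.ord_zero]
  · obtain ⟨m, m1, m2⟩ := key2 f hf
    rw [m1, m2, h1, h2]

/-- automorphisms are determined by their values on generators -/
theorem Aut.eq_of_gen {s : Set K}
    (hfrac : ∀ f : K, ∃ a ∈ Algebra.adjoin k s, ∃ b ∈ Algebra.adjoin k s, b ≠ 0 ∧ f = a / b)
    {a b : Aut k K} (h0 : ∀ c, a.σ₀ c = b.σ₀ c) (h : ∀ g ∈ s, a.σ g = b.σ g) : a = b := by
  have key : ∀ g ∈ Algebra.adjoin k s, a.σ g = b.σ g := by
    intro g hg
    induction hg using Algebra.adjoin_induction with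
    | mem x hx => exact h x hx
    | algebraMap c => rw [a.map_const, b.map_const, h0]
    | add x y _ _ hx hy => rw [map_add, map_add, hx, hy]
    | mul x y _ _ hx hy => rw [map_mul, map_mul, hx, hy]
  refine Aut.ext (RingEquiv.ext fun f => ?_) (RingEquiv.ext h0)
  obtain ⟨x, hx, y, hy, -, rfl⟩ := hfrac f
  rw [map_div₀, map_div₀, key x hx, key y hy]

end Pool.Agent.Lib.MP_a01f70_lc.QQ
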