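import Pool.Agent.Lib.MP_a01f70_lc.QQ.RRCons
import Pool.Agent.Lib.MP_a01f70_lc.QQ.CDefs
import Pool.Agent.Lib.MP_a01f70_lc.QQ.Smooth

/-!
The raw data of the curve.
-/

set_option linter.unusedSectionVars false

namespace Pool.Agent.Lib.MP_a01f70_lc.QQ
open Module Polynomial

variable {k K : Type*} [Field k] [Field K] [Algebra k K]

/-- the raw data of the curve -/
structure Pre (R : RRData k K) (n ρ : ℕ) (U : Finset ℕ) where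
  x : K
  y : K
  φ : Aut k K
  ι : Aut k K
  p : Place k K
  hP : PP n ρ U x y = 0
  gen : ∀ f : K, ∃ a ∈ Algebra.adjoin k {x, y}, ∃ b ∈ Algebra.adjoin k {x, y}, b ≠ 0 ∧ f = a / b
  px : p.ord x = -n
  py : p.ord y = ρ
  uniq : ∀ v : Place k K, v.ord x < 0 → v = p
  φ0 : ∀ c, φ.σ₀ c = c ^ 2
  ι0 : ∀ c, ι.σ₀ c = c
  φx : φ.σ x = x
  φy : φ.σ y = y
  ιx : ι.σ x = x⁻¹
  ιy : ι.σ y = y⁻¹
  Kev : ∀ v : Place k K, 0 ≤ v.ord x → Even (R.Kc v)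
  φK : φ.push R.Kc = R.Kc
  ιK : ι.push (R.Kc - dv x) = R.Kc - dv x
  N1 : ∀ S : Finset (Place k K), (∀ v, v ∈ S ↔ 0 < v.ord (x - 1)) → ∑ v ∈ S, v.ord (y - 1) = 3
  N2 : ∀ S : Finset (Place k K), (∀ v, v ∈ S ↔ 0 < v.ord (x - 1)) → 4 ≤ ∑ v ∈ S, v.ord (y - x)

end Pool.Agent.Lib.MP_a01f70_lc.QQ
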