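import Pool.Agent.Lib.MP_a01f70_lc.QQ.RRMain1

/-!
The Riemann-Roch theorem for a function field with a totally ramified place.
-/

set_option linter.unusedSectionVars false

namespace Pool.Agent.Lib.MP_a01f70_lc.QQ
open Module Polynomial

variable {k K : Type*} [Field k] [Field K] [Algebra k K] [Algebra k[X] K] [Algebra (RatFunc k) K]
  [IsScalarTower k k[X] K] [IsScalarTower k[X] (RatFunc k) K] [IsScalarTower k (RatFunc k) K]
  [FiniteDimensional (RatFunc k) K] [Algebra.IsSeparable (RatFunc k) K]

variable {n : ℕ} {p : Place k K}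

theorem rrmain_const {A : Type*} (ψ : Div k K → A)
    (h : ∀ (D : Div k K) (v : Place k K), ψ (D + Finsupp.single v 1) = ψ D) (D : Div k K) :
    ψ D = ψ 0 := by
  have key : ∀ E D : Div k K, ψ (D + E) = ψ D := by
    intro E
    induction E using Finsupp.induction_linear with
    | zero => simp
    | add f g hf hg => intro D; rw [← add_assoc, hg, hf]
    | single v a =>
      induction a using Int.induction_on with
      | zero => simp
      | succ i ih => intro D; rw [Finsupp.single_add, ← add_assoc, h, ih]
      | pred i ih =>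
        intro D
        rw [← h _ v, add_assoc, ← Finsupp.single_add, sub_add_cancel, ih]
  simpa using key D 0

theorem rrmain_step (hres : ResPl k K) (D : Div k K) {v : Place k K} (hv : v ∈ FinSet k K)
    (hfd : ∀ m, FiniteDimensional k (cut p (latt (D + Finsupp.single v 1)) m)) :
    ∃ M : ℤ, ∀ m, M ≤ m → (finrank k (cut p (latt (D + Finsupp.single v 1)) m) : ℤ) =
      finrank k (cut p (latt D) m) + 1 := by
  obtain ⟨f, hf, hf0, hfv⟩ := exists_mem_LS_ord_eq (D + Finsupp.single v 1) hv
  have hle : LS (FinSet k K) D ≤ LS (FinSet k K) (D + Finsupp.single v 1) :=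
    LS_mono le_rfl fun w _ => le_add_of_nonneg_right (Finsupp.single_nonneg.2 zero_le_one w)
  refine ⟨-p.ord f, fun m hm => le_antisymm ?_ ?_⟩
  · have := hfd m
    have h1 := finrank_le_add_deg hres (S := FinSet k K) (D := D + Finsupp.single v 1)
      (Q := Finsupp.single v 1) (Finsupp.single_nonneg.2 zero_le_one)
      (cut p (latt (D + Finsupp.single v 1)) m) (fun g hg => (mem_cut.1 hg).1)
    have e : cut p (latt (D + Finsupp.single v 1)) m ⊓
        LS (FinSet k K) (D + Finsupp.single v 1 - Finsupp.single v 1) = cut p (latt D) m := by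
      rw [add_sub_cancel_right]
      ext g
      rw [Submodule.mem_inf, mem_cut, mem_cut, mem_latt, mem_latt]
      exact ⟨fun h => ⟨h.2, h.1.2⟩, fun h => ⟨⟨hle h.1, h.2⟩, h.1⟩⟩
    rwa [e, deg_single] at h1
  · have := hfd m
    have hlt : cut p (latt D) m < cut p (latt (D + Finsupp.single v 1)) m := by
      refine lt_of_le_of_ne (fun g hg => mem_cut.2 ⟨hle (mem_cut.1 hg).1, (mem_cut.1 hg).2⟩)
        fun e => ?_
      have h1 : f ∈ cut p (latt (D + Finsupp.single v 1)) m :=
        mem_cut.2 ⟨hf, Place.Ge.of_le (by omega)⟩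
      rw [← e] at h1
      have h2 := ((mem_cut.1 h1).1 v hv).le hf0
      rw [hfv, Finsupp.add_apply, Finsupp.single_eq_same] at h2
      omega
    exact_mod_cast Submodule.finrank_lt_finrank_of_lt hlt

/-- Let `e D` be the constant of `lattice_rr` for `latt D`; it depends only on the finite part of
`D`. For a finite place `v`, `e (D + single v 1) = e D + 1`: for large `m` the dimensions of the
cuts are `m + e`, they differ by at most one (`finrank_le_add_deg`) and by at least one
(`exists_mem_LS_ord_eq`). Hence `e D = deg D - D p + e 0`; put `g = 1 - e 0`. The degree of a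
principal divisor vanishes since `ell (D + dv f) = ell D` for `D = single p m`, `m` large. -/
theorem exists_rrData [IsAlgClosed k] (hk : (n : k) ≠ 0) (hp : p.ord (xx k K) = -n)
    (hn : finrank (RatFunc k) K = n) :
    ∃ R : RRData k K, R.Kc p = -n - 1 ∧ IsCan R.Kc := by
  have h0 : 0 < n := Nat.pos_of_ne_zero fun e => hk (by rw [e, Nat.cast_zero])
  have hres : ResPl k K := resPl
  have hfin : FinPl k K := finPl h0 hp hn
  obtain ⟨Kc, hKp, hK⟩ := exists_isCan hk hp hn
  have hL := fun D : Div k K => lattice_rr hres hk hp hn (isLat_latt h0 hp hn D)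
  have hfd : ∀ (D : Div k K) m, FiniteDimensional k (cut p (latt D) m) := fun D => (hL D).1
  choose e he using fun D => (hL D).2.2.2
  have big : ∀ D : Div k K, ∃ M : ℤ, ∀ m, M ≤ m →
      (finrank k (cut p (latt D) m) : ℤ) = m + e D := by
    intro D
    obtain ⟨m₀, hm⟩ := (hL D).2.2.1
    refine ⟨-m₀ - n - 1, fun m h => ?_⟩
    rw [← he D m, hm _ (by omega)]
    simp
  have hpF : p ∉ FinSet k K := by
    rw [mem_FinSet, hp]
    omega
  have step : ∀ (D : Div k K) (v : Place k K),
      e (D + Finsupp.single v 1) + (D + Finsupp.single v 1 : Div k K) p -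
        deg (D + Finsupp.single v 1) = e D + D p - deg D := by
    intro D v
    obtain ⟨M1, h1⟩ := big D
    obtain ⟨M2, h2⟩ := big (D + Finsupp.single v 1)
    rw [map_add, deg_single, Finsupp.add_apply]
    by_cases hv : v ∈ FinSet k K
    · obtain ⟨M3, h3⟩ := rrmain_step hres D hv (hfd _)
      have hne : v ≠ p := fun c => hpF (c ▸ hv)
      have h4 := h3 (max M1 (max M2 M3)) (by omega)
      rw [h1 _ (by omega), h2 _ (by omega)] at h4
      rw [Finsupp.single_eq_of_ne' hne]
      omega
    · have hvp : v = p := place_unique h0 hp hn (not_le.1 hv)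
      subst hvp
      have e1 : latt (D + Finsupp.single v 1) = latt D := by
        ext g
        rw [mem_latt, mem_latt, LS_congr (D := D + Finsupp.single v 1) (D' := D)]
        intro w hw
        have hne : v ≠ w := fun c => hv (c ▸ hw)
        rw [Finsupp.add_apply, Finsupp.single_eq_of_ne' hne, add_zero]
      have h4 := h2 (max M1 M2) (by omega)
      rw [e1, h1 _ (by omega)] at h4
      rw [Finsupp.single_eq_same]
      omega
  have hrr : ∀ D : Div k K, (ell D : ℤ) - ell (Kc - D) = deg D + 1 - (1 - e 0) := by
    intro D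
    have h1 := rrmain_const (fun D : Div k K => e D + D p - deg D) step D
    have h2 := he D (D p)
    have h3 : (Kc - D) p = -D p - n - 1 := by
      rw [Finsupp.sub_apply, hKp]
      ring
    rw [dual_latt hK, ← h3, ← L_eq_cut h0 hp hn, ← L_eq_cut h0 hp hn] at h2
    simp only [Finsupp.zero_apply, map_zero] at h1
    unfold ell
    omega
  refine ⟨⟨1 - e 0, Kc, hfin, hres, fun D => ?_, fun f => ?_, hrr, ⟨p⟩⟩, hKp, hK⟩
  · rw [L_eq_cut h0 hp hn]
    exact hfd D _
  · by_cases hf : f = 0
    · have : (dv f : Div k K) = 0 := by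
        ext v
        simp [dv_apply hfin, hf]
      rw [this, map_zero]
    · have h1 := hrr (0 + dv f)
      have h2 := hrr 0
      rw [ell_add_dv hfin 0 hf, zero_add, sub_eq_add_neg Kc, ← dv_inv hfin,
        ell_add_dv hfin Kc (inv_ne_zero hf)] at h1
      rw [sub_zero, map_zero] at h2
      omega

end Pool.Agent.Lib.MP_a01f70_lc.QQ
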