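import Pool.Agent.Lib.MP_a01f70_lc.QQ.CurveAut
import Pool.Agent.Lib.MP_a01f70_lc.QQ.PreDefs
import Pool.Agent.Lib.MP_a01f70_lc.QQ.RRMain
import Pool.Agent.Lib.MP_a01f70_lc.QQ.Even
import Pool.Agent.Lib.MP_a01f70_lc.QQ.Inv
import Pool.Agent.Lib.MP_a01f70_lc.QQ.Norm

/-!
The raw data exist.
-/

set_option linter.unusedSectionVars false

namespace Pool.Agent.Lib.MP_a01f70_lc.QQ
open Module Polynomial

variable {k : Type} [Field k] [IsAlgClosed k] [CharP k 2] {n ρ : ℕ} {U : Finset ℕ}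

lemma premain_two : (2 : k[X]) = 0 := by
  have : CharP k[X] 2 := inferInstance
  exact CharTwo.two_eq_zero

lemma premain_dvd (hJ : Jet n ρ U) {y : k[X]} (hy : X - 1 ∣ y - 1) :
    (X - 1) ^ 5 ∣ PP n ρ U (X : k[X]) y - ((X - 1) ^ 4 + (X - 1) ^ 3 * (y - 1)) := by
  have h := hJ k[X] premain_two X y
  have h1 : Ideal.span {(X : k[X]) - 1, y - 1} ≤ Ideal.span {X - 1} := by
    rw [Ideal.span_le]
    rintro a (rfl | rfl)
    · exact Ideal.mem_span_singleton_self _
    · exact Ideal.mem_span_singleton.mpr hy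
  have h2 := Ideal.pow_right_mono h1 5 h
  rwa [Ideal.span_singleton_pow, Ideal.mem_span_singleton] at h2

/-- `Jet` in `k[X]` with `x = X`, `y = 1`: `PP = (X - 1) ^ 4 (1 + (X - 1) r)` -/
theorem rootMultiplicity_PP_one (hJ : Jet n ρ U) :
    rootMultiplicity (1 : k) (PP n ρ U (X : k[X]) 1) = 4 := by
  obtain ⟨r, hr⟩ := premain_dvd (k := k) hJ (y := 1) (by simp)
  have e : PP n ρ U (X : k[X]) 1 = (1 + (X - 1) * r) * (X - C 1) ^ 4 := by
    rw [C_1]
    linear_combination hr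
  have h1 : ¬ IsRoot (1 + (X - 1) * r) (1 : k) := by simp
  have h0 : (1 + (X - 1) * r : k[X]) ≠ 0 := fun h => h1 (by rw [h]; simp)
  rw [e, rootMultiplicity_mul_X_sub_C_pow h0, rootMultiplicity_eq_zero h1]

/-- `Jet` in `k[X]` with `x = y = X`: `(X - 1) ^ 5` divides `PP` -/
theorem rootMultiplicity_PP_X (hJ : Jet n ρ U) (h0 : PP n ρ U (X : k[X]) X ≠ 0) :
    5 ≤ rootMultiplicity (1 : k) (PP n ρ U (X : k[X]) X) := by
  obtain ⟨r, hr⟩ := premain_dvd (k := k) hJ (y := X) dvd_rfl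
  rw [le_rootMultiplicity_iff h0, C_1]
  exact ⟨r, by linear_combination hr + (X - 1) ^ 4 * premain_two (k := k)⟩

theorem rootMultiplicity_lead (ρ : ℕ) :
    rootMultiplicity (1 : k) ((X : k[X]) ^ ρ + X ^ (ρ + 1)) = 1 := by
  have e : (X : k[X]) ^ ρ + X ^ (ρ + 1) = X ^ ρ * (X - C 1) ^ 1 := by
    rw [C_1]
    linear_combination X ^ ρ * premain_two (k := k)
  have h1 : ¬ IsRoot ((X : k[X]) ^ ρ) (1 : k) := by simp
  rw [e, rootMultiplicity_mul_X_sub_C_pow (pow_ne_zero _ X_ne_zero), rootMultiplicity_eq_zero h1]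

lemma premain_eval (g : k[X]) :
    (Pm k n ρ U).eval (algebraMap k[X] (RatFunc k) g)
      * algebraMap k[X] (RatFunc k) (X ^ ρ + X ^ (ρ + 1))
      = algebraMap k[X] (RatFunc k) (PP n ρ U X g) := by
  have h0 := lead_ne_zero (k := k) ρ
  rw [Pm, eval_mul, eval_C, map_PP, RatFunc.algebraMap_X, ← coe_evalRingHom, map_PP, coe_evalRingHom,
    eval_C, eval_X, map_add, map_pow, map_pow, RatFunc.algebraMap_X]
  field_simp

/-- Assemble `exists_place_Pm`, `exists_rrData`, `exists_aut_const` (with `frobeniusEquiv k 2`),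
`exists_aut_inv`, `place_unique`, `even_Kc`, `push_Kc_of_fixed`, `push_Kc_of_inv`. For `N1`, `N2`
use `sum_ord_eq` with `c = 1`, `w = X ^ ρ + X ^ (ρ + 1)`, `u = PP n ρ U X g` (`g = 1` or `X`) and
`norm_sub`. -/
theorem exists_pre (hn : Odd n) (hρ : Odd ρ) (hc : Nat.Coprime ρ n) (hU : Adm n U)
    (hJ : Jet n ρ U) [Fact (Irreducible (Pm k n ρ U))] :
    ∃ R : RRData k (AdjoinRoot (Pm k n ρ U)), Nonempty (Pre R n ρ U) := by
  have hfr := finrank_Pm (k := k) (ρ := ρ) hn.pos hU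
  have : FiniteDimensional (RatFunc k) (AdjoinRoot (Pm k n ρ U)) :=
    Module.finite_of_finrank_pos (hn.pos.trans_eq hfr.symm)
  have := isSeparable_Pm (k := k) (ρ := ρ) hn hU
  have hk : (n : k) ≠ 0 := by
    rw [ne_eq, CharP.cast_eq_zero_iff k 2]
    exact hn.not_two_dvd_nat
  obtain ⟨p, hp, hy⟩ := exists_place_Pm (k := k) hn hc hU
  obtain ⟨R, hKp, hK⟩ := exists_rrData hk hp hfr
  obtain ⟨φ, hφ0, hφx, hφy⟩ := exists_aut_const (n := n) (ρ := ρ) (U := U) (frobeniusEquiv k 2)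
  obtain ⟨ι, hι0, hιx, hιy⟩ := exists_aut_inv (k := k) hc hU
  set y := AdjoinRoot.root (Pm k n ρ U) with hydef
  have hy0 : y ≠ 0 := fun h => by
    rw [h, p.ord_zero] at hy
    have := hρ.pos
    omega
  have hroot : aeval y (Pm k n ρ U) = 0 := by
    rw [AdjoinRoot.aeval_eq, AdjoinRoot.mk_self]
  have hX : algebraMap (RatFunc k) (AdjoinRoot (Pm k n ρ U)) RatFunc.X
      = xx k (AdjoinRoot (Pm k n ρ U)) := by
    rw [← RatFunc.algebraMap_X, algebraMap_poly_rat]
    rfl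
  have hli : LinearIndependent (RatFunc k)
      fun i : Fin (finrank (RatFunc k) (AdjoinRoot (Pm k n ρ U))) => y ^ (i : ℕ) := by
    refine linearIndependent_of_ord hn.pos hp (fun i => pow_ne_zero _ hy0) fun i j hij => ?_
    simp only [Place.ord_pow, hy, Int.cast_mul, Int.cast_natCast] at hij
    have hu : IsUnit (ρ : ZMod n) := (ZMod.isUnit_iff_coprime ρ n).mpr hc
    have h1 := (ZMod.natCast_eq_natCast_iff' _ _ _).mp (hu.mul_right_cancel hij)
    rw [Nat.mod_eq_of_lt (i.2.trans_eq hfr), Nat.mod_eq_of_lt (j.2.trans_eq hfr)] at h1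
    exact Fin.ext h1
  have hlead : ((X : k[X]) ^ ρ + X ^ (ρ + 1)) ≠ 0 := fun h => by
    have := rootMultiplicity_lead (k := k) ρ
    rw [h, rootMultiplicity_zero] at this
    exact zero_ne_one this
  have key : ∀ g : k[X], y - algebraMap k[X] _ g ≠ 0 →
      PP n ρ U X g ≠ 0 ∧ ∀ S : Finset (Place k (AdjoinRoot (Pm k n ρ U))),
      (∀ v, v ∈ S ↔ 0 < v.ord (xx k (AdjoinRoot (Pm k n ρ U)) - 1)) →
      ∑ v ∈ S, v.ord (y - algebraMap k[X] _ g) = (rootMultiplicity (1 : k) (PP n ρ U X g) : ℤ) - 1 := by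
    intro g hg
    have h1 := norm_sub (Pm_monic hn.pos hU).1 ((Pm_monic hn.pos hU).2.trans hfr.symm) hroot hli
      (algebraMap k[X] (RatFunc k) g)
    rw [algebraMap_poly_rat] at h1
    have hg' : algebraMap k[X] _ g - y ≠ 0 := fun h => hg (by linear_combination -h)
    have h2 := premain_eval (n := n) (ρ := ρ) (U := U) g
    rw [← h1] at h2
    refine ⟨fun h => ?_, fun S hS => ?_⟩
    · rw [h, map_zero, mul_eq_zero, Algebra.norm_eq_zero_iff] at h2
      exact h2.elim hg' ((map_ne_zero_iff _ (IsFractionRing.injective k[X] (RatFunc k))).mpr hlead)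
    · have h3 := sum_ord_eq R hn.pos hp hfr 1 (S := S) (by simpa using hS) hg' hlead h2
      rw [rootMultiplicity_lead, Nat.cast_one] at h3
      rw [← h3]
      exact Finset.sum_congr rfl fun v _ => by rw [← v.ord_neg, neg_sub]
  refine ⟨R, ⟨{
    x := xx k _, y := y, φ := φ, ι := ι, p := p
    hP := by rw [← hX]; exact (aeval_Pm_eq_zero y).mp hroot
    gen := gen_Pm
    px := hp, py := hy
    uniq := fun v hv => place_unique hn.pos hp hfr hv
    φ0 := fun c => by rw [hφ0]; rfl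
    ι0 := hι0, φx := hφx, φy := hφy, ιx := hιx, ιy := hιy
    Kev := even_Kc R hn hp hfr hK hKp
    φK := push_Kc_of_fixed hn.pos hp hfr hK φ hφx
    ιK := push_Kc_of_inv R.fin R.res hk hp hfr hK hKp ι hιx
    N1 := fun S hS => ?_
    N2 := fun S hS => ?_ }⟩⟩
  · have h1 : y - algebraMap k[X] _ 1 ≠ 0 := fun h => by
      rw [map_one, sub_eq_zero] at h
      rw [h, p.ord_one] at hy
      have := hρ.pos
      omega
    have h2 := (key 1 h1).2 S hS
    rw [map_one, rootMultiplicity_PP_one hJ] at h2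
    exact h2
  · have h1 : y - algebraMap k[X] _ X ≠ 0 := fun h => by
      rw [sub_eq_zero] at h
      have h2 : p.ord y = -n := by rw [h]; exact hp
      have := hn.pos
      omega
    have h2 := (key X h1).2 S hS
    have h3 := rootMultiplicity_PP_X hJ (key X h1).1
    have h4 : ∑ v ∈ S, v.ord (y - xx k _) = _ := h2
    omega

end Pool.Agent.Lib.MP_a01f70_lc.QQ
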