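import Pool.Agent.Lib.MP_a01f70_lc.QQ.Res
import Pool.Agent.Lib.MP_a01f70_lc.QQ.Frac
import Pool.Agent.Lib.MP_a01f70_lc.QQ.Lat2
import Pool.Agent.Lib.MP_a01f70_lc.QQ.RRCons

/-!
The Riemann-Roch theorem for a function field with a totally ramified place.
-/

set_option linter.unusedSectionVars false

namespace Pool.Agent.Lib.MP_a01f70_lc.QQ
open Module Polynomial

variable {k K : Type*} [Field k] [Field K] [Algebra k K] [Algebra k[X] K] [Algebra (RatFunc k) K]
  [IsScalarTower k k[X] K] [IsScalarTower k[X] (RatFunc k) K] [IsScalarTower k (RatFunc k) K]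
  [FiniteDimensional (RatFunc k) K] [Algebra.IsSeparable (RatFunc k) K]

variable {n : ℕ} {p : Place k K}

/-- the lattice of a divisor -/
def latt (D : Div k K) : Submodule k[X] K where
  carrier := LS (FinSet k K) D
  add_mem' := fun ha hb => (LS _ _).add_mem ha hb
  zero_mem' := (LS _ _).zero_mem
  smul_mem' := fun c a ha v hv => by
    rw [Algebra.smul_def]
    simpa using (ge_poly hv c).mul (ha v hv)

lemma mem_latt {D : Div k K} {f : K} : f ∈ latt D ↔ f ∈ LS (FinSet k K) D := Iff.rfl

/-- finite places by `finite_finSet`, and the only other place is `p` (`place_unique`) -/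
theorem finPl (h0 : 0 < n) (hp : p.ord (xx k K) = -n) (hn : finrank (RatFunc k) K = n) :
    FinPl k K := by
  intro f
  refine ((finite_finSet (k := k) f).insert p).subset fun v hv => ?_
  by_cases h : v ∈ FinSet k K
  · exact Or.inr ⟨h, hv⟩
  · exact Or.inl (place_unique h0 hp hn (not_le.mp h))

/-- `exists_denom_LS`, `exists_gens`, `bdd_span`, `ord_poly`, `exists_smul_mem_LS` -/
theorem isLat_latt (h0 : 0 < n) (hp : p.ord (xx k K) = -n) (hn : finrank (RatFunc k) K = n)
    (D : Div k K) : IsLat p (latt D) := by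
  refine ⟨?_, fun f => exists_smul_mem_LS D f⟩
  obtain ⟨c, hc, hD⟩ := exists_denom_LS D
  obtain ⟨s, hs⟩ := exists_gens (k := k) (K := K)
  obtain ⟨b, hb⟩ := bdd_span h0 hp hn s
  refine ⟨b - p.ord (algebraMap k[X] K c), fun f hf hf0 => ?_⟩
  have hc' := algebraMap_poly_ne_zero (K := K) hc
  have h1 := hb (c • f) ((hs _).mp (hD f hf)) (by rw [Algebra.smul_def]; exact mul_ne_zero hc' hf0)
  rw [Algebra.smul_def, p.ord_mul hc' hf0] at h1
  omega

theorem L_eq_cut (h0 : 0 < n) (hp : p.ord (xx k K) = -n) (hn : finrank (RatFunc k) K = n)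
    (D : Div k K) : L D = cut p (latt D) (D p) := by
  ext f
  rw [mem_L, mem_cut, mem_latt, mem_LS]
  refine ⟨fun h => ⟨fun v _ => h v, h p⟩, fun h v => ?_⟩
  by_cases hv : v ∈ FinSet k K
  · exact h.1 v hv
  · rw [place_unique h0 hp hn (not_le.mp hv)]
    exact h.2

/-- Apply `exists_div_of_module` to `dual (latt 0)` (it contains `1` since traces of integral
elements are polynomials, and it is finitely generated by `lattice_rr`), then put the value
`-n - 1` at `p`. -/
theorem exists_isCan [IsAlgClosed k] (hk : (n : k) ≠ 0) (hp : p.ord (xx k K) = -n)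
    (hn : finrank (RatFunc k) K = n) : ∃ Kc : Div k K, Kc p = -n - 1 ∧ IsCan Kc := by
  classical
  have h0 : 0 < n := Nat.pos_of_ne_zero fun h => hk (by simp [h])
  have hlat : ∀ f : K, f ∈ latt (0 : Div k K) ↔ IsIntegral k[X] f := fun f => by
    rw [mem_latt, mem_LS, isIntegral_iff_ge]
    simp
  obtain ⟨-, ⟨s, hs⟩, -⟩ := lattice_rr resPl hk hp hn (isLat_latt h0 hp hn (0 : Div k K))
  obtain ⟨E, -, hE⟩ := exists_div_of_module (k := k) (dual (latt (0 : Div k K))).toAddSubgroup
    (fun a f ha hf g hg => by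
      obtain ⟨u, hu⟩ := hf (g * a) ((hlat _).mpr (((hlat g).mp hg).mul ha))
      exact ⟨u, by rw [← hu, mul_assoc]⟩)
    ⟨1, fun f hf => by
      obtain ⟨u, hu⟩ := (IsIntegrallyClosed.isIntegral_iff (R := k[X]) (K := RatFunc k)).mp
        (Algebra.isIntegral_trace (L := RatFunc k) ((hlat f).mp hf))
      exact ⟨u, by rw [mul_one, hu]⟩, one_ne_zero⟩
    (by
      choose c hc0 hc using fun f : K => exists_smul_isIntegral (k := k) f
      refine ⟨algebraMap k[X] K (∏ g ∈ s, c g),
        algebraMap_poly_ne_zero (Finset.prod_ne_zero_iff.mpr fun g _ => hc0 g), fun f hf => ?_⟩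
      have hf' : f ∈ Submodule.span k[X] (s : Set K) := by rw [hs]; exact hf
      rw [← Algebra.smul_def]
      clear hf
      induction hf' using Submodule.span_induction with
      | mem g hg =>
        rw [← Finset.prod_erase_mul s c hg, mul_smul]
        exact (hc g).smul _
      | zero => rw [smul_zero]; exact isIntegral_zero
      | add a b _ _ ha hb => rw [smul_add]; exact ha.add hb
      | smul a b _ hb => rw [smul_comm]; exact hb.smul _)
  have hpn : p ∉ FinSet k K := by
    rw [mem_FinSet, hp]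
    omega
  refine ⟨E.update p (-n - 1), by simp, fun g => ?_⟩
  rw [LS_congr (D' := E) fun v hv => by
    rw [Finsupp.update_apply, if_neg fun h : v = p => hpn (h ▸ hv)], ← hE]
  exact ⟨fun h f hf => h f ((hlat f).mpr hf), fun h f hf => h f ((hlat f).mp hf)⟩

/-- `g ∈ dual (latt D)` iff `f * g ∈ LS (FinSet k K) Kc` for all `f ∈ latt D` (the lattice is stable
under integral elements), iff `g ∈ latt (Kc - D)` by `exists_mem_LS_ord_eq`. -/
theorem dual_latt {Kc : Div k K} (hK : IsCan Kc) (D : Div k K) :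
    dual (latt D) = latt (Kc - D) := by
  ext g
  rw [mem_dual, mem_latt]
  constructor
  · intro h v hv
    obtain ⟨f, hf, hf0, hfv⟩ := exists_mem_LS_ord_eq D hv
    have h1 : g * f ∈ LS (FinSet k K) Kc := by
      refine (hK _).mpr fun a ha => ?_
      have ha' : a ∈ LS (FinSet k K) (0 : Div k K) := fun w hw => by
        simpa using (isIntegral_iff_ge a).mp ha w hw
      have h2 := mul_mem_LS ha' hf
      rw [zero_add] at h2
      obtain ⟨u, hu⟩ := h (a * f) h2
      exact ⟨u, by rw [← hu, mul_comm g f, mul_assoc]⟩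
    have h3 := (Place.ge_mul_iff hf0).mp (h1 v hv)
    rw [hfv] at h3
    rw [Finsupp.sub_apply]
    exact h3.mono (by omega)
  · intro h f hf
    have h1 := mul_mem_LS (mem_latt.mp hf) h
    rw [add_sub_cancel] at h1
    obtain ⟨u, hu⟩ := (hK _).mp h1 1 isIntegral_one
    exact ⟨u, by rw [← hu, one_mul]⟩

end Pool.Agent.Lib.MP_a01f70_lc.QQ
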