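import Pool.Agent.Lib.MP_a01f70_lc.QQ.ADefs

/-!
All places of a function field over an algebraically closed field have degree one.
-/

set_option linter.unusedSectionVars false

namespace Pool.Agent.Lib.MP_a01f70_lc.QQ
open Module Polynomial

variable {k K : Type*} [Field k] [Field K] [Algebra k K] [Algebra k[X] K] [Algebra (RatFunc k) K]
  [IsScalarTower k k[X] K] [IsScalarTower k[X] (RatFunc k) K] [IsScalarTower k (RatFunc k) K]

/-- If no `f - c` vanishes at `v`, then no nonzero polynomial in `f` does. -/
lemma res_aeval [IsAlgClosed k] {v : Place k K} {f : K}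
    (h : ∀ c : k, f - algebraMap k K c ≠ 0 ∧ v.ord (f - algebraMap k K c) = 0) {u : k[X]}
    (hu : u ≠ 0) : aeval f u ≠ 0 ∧ v.ord (aeval f u) = 0 := by
  have key : ∀ s : Multiset k, aeval f (s.map (X - C ·)).prod ≠ 0 ∧
      v.ord (aeval f (s.map (X - C ·)).prod) = 0 := by
    intro s
    induction s using Multiset.induction_on with
    | empty => simp
    | cons a s ih =>
      rw [Multiset.map_cons, Multiset.prod_cons, map_mul, map_sub, aeval_X, aeval_C]
      exact ⟨mul_ne_zero (h a).1 ih.1, by rw [v.ord_mul (h a).1 ih.1, (h a).2, ih.2, add_zero]⟩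
  have hl : algebraMap k K u.leadingCoeff ≠ 0 := by simpa using hu
  rw [(IsAlgClosed.splits u).eq_prod_roots, map_mul, aeval_C]
  exact ⟨mul_ne_zero hl (key _).1, by
    rw [v.ord_mul hl (key _).1, (key _).2, v.ord_const, add_zero]⟩

/-- An element of order one is transcendental over a ring on which the place is trivial. -/
lemma res_transcendental {v : Place k K} (A : Subalgebra k K)
    (hA : ∀ a ∈ A, a ≠ 0 → v.ord a = 0) {t : K} (ht0 : t ≠ 0) (ht : v.ord t = 1) :
    Transcendental A t := by
  rintro ⟨p, hp0, hp⟩
  rw [aeval_def, eval₂_eq_sum, Polynomial.sum] at hp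
  have hc : ∀ i ∈ p.support, algebraMap A K (p.coeff i) * t ^ i ≠ 0 ∧
      v.ord (algebraMap A K (p.coeff i) * t ^ i) = i := by
    intro i hi
    have h1 : (p.coeff i : K) ≠ 0 := fun h => (mem_support_iff.mp hi) (Subtype.ext h)
    refine ⟨mul_ne_zero h1 (pow_ne_zero _ ht0), ?_⟩
    change v.ord ((p.coeff i : K) * t ^ i) = i
    rw [v.ord_mul h1 (pow_ne_zero _ ht0), hA _ (p.coeff i).2 h1, v.ord_pow, ht]
    simp
  have hi0 := natTrailingDegree_mem_support_of_nonzero hp0
  refine (Place.ord_sum_of_lt (v := v) (f := fun i => algebraMap A K (p.coeff i) * t ^ i) hi0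
    (hc _ hi0).1 fun i hi hne => Place.Ge.of_le ?_).1 hp
  have := natTrailingDegree_le_of_mem_supp i hi
  rw [(hc _ hi0).2, (hc i hi).2]
  omega

/-- The transcendence degree is one. -/
lemma res_not_indep [Algebra.IsAlgebraic (RatFunc k) K] (y : Option Unit → K) :
    ¬ AlgebraicIndependent k y := by
  intro hy
  have h0 : FaithfulSMul k[X] K :=
    (faithfulSMul_iff_algebraMap_injective _ _).mpr (algebraMap_poly_injective k K)
  have h1 : Algebra.IsAlgebraic k[X] K := by
    have : Algebra.IsAlgebraic k[X] (RatFunc k) :=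
      IsLocalization.isAlgebraic _ (nonZeroDivisors k[X])
    exact Algebra.IsAlgebraic.trans k[X] (RatFunc k) K
  have h2 := lift_trdeg_add_eq k k[X] K
  rw [Polynomial.trdeg_of_isDomain, trdeg_eq_zero, Cardinal.lift_one, Cardinal.lift_zero, add_zero,
    eq_comm, Cardinal.lift_eq_one] at h2
  have h3 := hy.lift_cardinalMk_le_trdeg
  rw [h2] at h3
  simp at h3

/-- Let `z` be `x` or `x⁻¹`, chosen with `0 ≤ v.ord z`.
(1) There is `c₀` with `0 < v.ord (z - c₀)`: otherwise all linear, hence all nonzero polynomials
in `z` have order `0`, so `v` is trivial on `k(x)`; the minimal polynomial of an element `t` of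
order `1` has constant coefficient `a₀ ≠ 0` of order `0` with `a₀ = -t (…)` of order `≥ 1`.
(2) Every element of `k(x) = k(z)` of order `≥ 0` is congruent to a constant (write numerator and
denominator as a power of `z - c₀` times a polynomial not vanishing at `c₀`).
(3) For `f` of order `≥ 0` take a nonzero polynomial over `k(x)` killing `f`, divide it by a
coefficient of smallest order, reduce the coefficients to constants: a nonzero `u : k[X]` with
`v.Ge (aeval f u) 1`. Factor `u` into linear factors; `u` is not constant, and some `f - c` is `0`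
or has positive order. -/
theorem resPl [IsAlgClosed k] [Algebra.IsAlgebraic (RatFunc k) K] : ResPl k K := by
  intro v f hf
  by_contra hc
  have h : ∀ c : k, f - algebraMap k K c ≠ 0 ∧ v.ord (f - algebraMap k K c) = 0 := by
    intro c
    obtain ⟨h1, h2⟩ := Place.not_ge_iff.mp fun h => hc ⟨c, h⟩
    have h3 := (hf.sub (v.ge_const c)).le h1
    exact ⟨h1, by omega⟩
  obtain ⟨t, ht0, ht⟩ := v.surj
  have h1 : AlgebraicIndependent k fun _ : Unit => f := by
    rw [algebraicIndependent_unique_type_iff]
    rintro ⟨u, hu0, hu⟩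
    exact (res_aeval h hu0).1 hu
  refine res_not_indep (fun o : Option Unit => o.elim t fun _ => f)
    ((h1.option_iff_transcendental t).mpr (res_transcendental (v := v) _ ?_ ht0 ht))
  intro a ha ha0
  rw [Set.range_const, Algebra.adjoin_singleton_eq_range_aeval] at ha
  obtain ⟨u, rfl⟩ := ha
  refine (res_aeval h ?_).2
  rintro rfl
  exact ha0 (map_zero _)

end Pool.Agent.Lib.MP_a01f70_lc.QQ
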