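import Mathlib

/-!
Fixed vectors of Frobenius semilinear maps.
-/

set_option linter.unusedSectionVars false

namespace Pool.Agent.Lib.MP_a01f70_lc.QQ
open Module Polynomial

variable {k W : Type*} [Field k] [IsAlgClosed k] [CharP k 2] [AddCommGroup W] [Module k W]

/-- In a finite dimensional space some member of a sequence is a combination of the earlier
ones. -/
theorem semi1_rel (U : Submodule k W) [FiniteDimensional k U] (v : ℕ → W) (hv : ∀ i, v i ∈ U) :
    ∃ (r : ℕ) (a : ℕ → k), v r = ∑ i ∈ Finset.range r, a i • v i := by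
  classical
  by_contra hne
  have hli : LinearIndependent k v := by
    rw [linearIndependent_iff']
    intro s g
    induction s using Finset.induction_on_max with
    | empty => simp
    | insert a s ha ih =>
      intro hsum
      rw [Finset.sum_insert fun h => lt_irrefl _ (ha a h)] at hsum
      have hga : g a = 0 := by
        by_contra hg
        refine hne ⟨a, fun i => if i ∈ s then -((g a)⁻¹ * g i) else 0, ?_⟩
        have h1 : ∑ i ∈ Finset.range a, (if i ∈ s then -((g a)⁻¹ * g i) else 0) • v i =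
            ∑ i ∈ s, -((g a)⁻¹ * g i) • v i := by
          rw [← Finset.sum_subset (s₁ := s) (fun i hi => Finset.mem_range.2 (ha i hi))
            fun i _ hi => by rw [if_neg hi, zero_smul]]
          exact Finset.sum_congr rfl fun i hi => by rw [if_pos hi]
        rw [h1]
        simp only [neg_smul, mul_smul, Finset.sum_neg_distrib, ← Finset.smul_sum]
        rw [← eq_neg_iff_add_eq_zero] at hsum
        rw [← smul_neg, ← hsum, inv_smul_smul₀ hg]
      rw [hga, zero_smul, zero_add] at hsum
      intro i hi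
      rcases Finset.mem_insert.1 hi with rfl | hi
      · exact hga
      · exact ih hsum i hi
  have h2 : LinearIndependent k fun i => (⟨v i, hv i⟩ : U) :=
    LinearIndependent.of_comp U.subtype hli
  exact Module.Finite.not_linearIndependent_of_infinite _ h2

/-- The polynomials of the recursion. -/
noncomputable def semi1P (q : ℕ) (a : ℕ → k) : ℕ → k[X]
  | 0 => C (a 0) * X ^ q
  | i + 1 => semi1P q a i ^ q + C (a (i + 1)) * X ^ q

theorem semi1_root {q : ℕ} (hq : 2 ≤ q) {a : ℕ → k} (ha : a 0 ≠ 0) (r : ℕ) :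
    ∃ s : k, s ≠ 0 ∧ (semi1P q a r).eval s = s := by
  have h1 : ∀ i, q ≤ (semi1P q a i).natDegree := by
    intro i
    induction i with
    | zero => rw [semi1P, natDegree_C_mul_X_pow q _ ha]
    | succ i ih =>
      have b1 : q < (semi1P q a i ^ q).natDegree := by
        rw [natDegree_pow]
        nlinarith
      rw [semi1P, natDegree_add_eq_left_of_natDegree_lt
        ((natDegree_C_mul_X_pow_le _ _).trans_lt b1)]
      exact b1.le
  have h2 : ∀ i, X ^ 2 ∣ semi1P q a i := by
    intro i
    induction i with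
    | zero => exact Dvd.dvd.mul_left (pow_dvd_pow X hq) _
    | succ i ih =>
      exact dvd_add (ih.trans (dvd_pow_self _ (by omega))) (Dvd.dvd.mul_left (pow_dvd_pow X hq) _)
  obtain ⟨h, hh⟩ := h2 r
  have h0 : h ≠ 0 := by
    rintro rfl
    have := h1 r
    rw [hh, mul_zero, natDegree_zero] at this
    omega
  have h3 : (X * h - C 1).degree ≠ 0 := by
    intro e
    have := natDegree_eq_of_degree_eq_some (n := 0) e
    rw [natDegree_sub_C, natDegree_X_mul h0] at this
    omega
  obtain ⟨s, hs⟩ := IsAlgClosed.exists_root _ h3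
  rw [IsRoot, eval_sub, eval_mul, eval_X, eval_C, sub_eq_zero] at hs
  refine ⟨s, left_ne_zero_of_mul_eq_one hs, ?_⟩
  rw [hh, eval_mul, eval_pow, eval_X, sq, mul_assoc, hs, mul_one]

/-- Let `q = 2 ^ m`, `v ≠ 0` in `U`, and `r` minimal with `Θ^r v = ∑ i < r, a i • Θ^i v`; then
`r ≥ 1` and `a 0 ≠ 0` (otherwise use injectivity and `q`-th roots to get a shorter relation).
The vector `u = ∑ i < r, c i • Θ^i v` is fixed iff `c 0 = s ^ q a 0`,
`c (i+1) = c i ^ q + s ^ q a (i+1)` with `s = c (r-1)`. Define the `c i` by this recursion as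
polynomials in `s` (all multiples of `s ^ q`, of degree `q ^ (i+1)`); the equation `c (r-1) (s) = s`
has a nonzero root since `k` is algebraically closed. -/
theorem exists_fixed {m : ℕ} (hm : 0 < m) (Θ : W →+ W) (hinj : Function.Injective Θ)
    (hΘ : ∀ (c : k) v, Θ (c • v) = c ^ 2 ^ m • Θ v) (U : Submodule k W) [FiniteDimensional k U]
    (hU : ∀ v ∈ U, Θ v ∈ U) (h0 : U ≠ ⊥) : ∃ v ∈ U, v ≠ 0 ∧ Θ v = v := by
  classical
  obtain ⟨v, hvU, hv0⟩ := (Submodule.ne_bot_iff U).1 h0
  have hq : 2 ≤ 2 ^ m := Nat.le_self_pow hm.ne' 2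
  generalize 2 ^ m = q at hΘ hq
  let w : ℕ → W := fun i => Θ^[i] v
  have hw : ∀ i, w (i + 1) = Θ (w i) := fun i => Function.iterate_succ_apply' _ _ _
  have hwU : ∀ i, w i ∈ U := by
    intro i
    induction i with
    | zero => exact hvU
    | succ i ih => rw [hw]; exact hU _ ih
  have hex := semi1_rel U w hwU
  obtain ⟨a, ha⟩ := Nat.find_spec hex
  have hr0 : Nat.find hex ≠ 0 := fun h => by
    rw [h, Finset.sum_range_zero] at ha
    exact hv0 ha
  obtain ⟨r, hr⟩ := Nat.exists_eq_succ_of_ne_zero hr0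
  have hmin := Nat.find_min hex (m := r) (by omega)
  rw [hr, Nat.succ_eq_add_one, Finset.sum_range_succ'] at ha
  have ha0 : a 0 ≠ 0 := by
    intro h
    choose b hb using fun i => IsAlgClosed.exists_pow_nat_eq (a (i + 1)) (n := q) (by omega)
    refine hmin ⟨b, hinj ?_⟩
    rw [← hw, ha, h, zero_smul, add_zero, map_sum]
    exact Finset.sum_congr rfl fun i _ => by rw [hΘ, hb, hw]
  obtain ⟨s, hs0, hs⟩ := semi1_root hq ha0 r
  refine ⟨∑ i ∈ Finset.range (r + 1), (semi1P q a i).eval s • w i,
    U.sum_mem fun i _ => U.smul_mem _ (hwU i), fun h => ?_, ?_⟩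
  · rw [Finset.sum_range_succ, hs, add_comm, ← eq_neg_iff_add_eq_zero] at h
    refine hmin ⟨fun i => -(s⁻¹ * (semi1P q a i).eval s), ?_⟩
    simp only [neg_smul, mul_smul, Finset.sum_neg_distrib, ← Finset.smul_sum]
    rw [← smul_neg, ← h, inv_smul_smul₀ hs0]
  · rw [map_sum, Finset.sum_range_succ, Finset.sum_range_succ', hs, hΘ, ← hw, ha, smul_add,
      Finset.smul_sum, ← add_assoc, ← Finset.sum_add_distrib]
    congr 1
    · refine Finset.sum_congr rfl fun i _ => ?_
      rw [hΘ, ← hw, semi1P, eval_add, eval_pow, eval_mul, eval_C, eval_pow, eval_X, add_smul,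
        smul_smul, mul_comm]
    · rw [semi1P, eval_mul, eval_C, eval_pow, eval_X, smul_smul, mul_comm]

end Pool.Agent.Lib.MP_a01f70_lc.QQ
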