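import Pool.Agent.Lib.MP_a01f70_lc.QQ.Span1

/-!
The translates of one section span all sections.
-/

set_option linter.unusedSectionVars false

namespace Pool.Agent.Lib.MP_a01f70_lc.QQ
open Module Polynomial

variable {k K : Type*} [Field k] [Field K] [Algebra k K]
  {R : RRData k K} {n h : ℕ}

lemma span_iter_smul (G : Geo R n h) (ψ : K) (m : ℕ) (c : k) (f : K) :
    (G.Θ ψ)^[m] (c • f) = c ^ 2 ^ m • (G.Θ ψ)^[m] f := by
  induction m with
  | zero => simp
  | succ m ih =>
    rw [Function.iterate_succ_apply', Function.iterate_succ_apply', ih, G.Θ_smul, ← pow_mul,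
      ← pow_succ]

lemma span_iter_mem {G : Geo R n h} {v₀ : ℕ} {D : Div k K} {ψ : K} (T : G.Twist v₀ D ψ)
    {i j : ℤ} {f : K} (hf : f ∈ L (D + Finsupp.single G.p2 i + Finsupp.single G.p4 j)) (m : ℕ) :
    (G.Θ ψ)^[m] f ∈
      L (D + Finsupp.single G.p2 (i + m * v₀) + Finsupp.single G.p4 (j - m * v₀)) := by
  induction m with
  | zero => simpa using hf
  | succ m ih =>
    rw [Function.iterate_succ_apply']
    rw [add_assoc] at ih
    have h1 := (T.Θ_mem_L G (by
      rw [map_add, Aut.push_single, Aut.push_single, G.φp2, G.φp4])).2 ih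
    have e1 : i + ((m + 1 : ℕ) : ℤ) * v₀ = i + m * v₀ + v₀ := by push_cast; ring
    have e2 : j - ((m + 1 : ℕ) : ℤ) * v₀ = j - m * v₀ - v₀ := by push_cast; ring
    have e : D + (Finsupp.single G.p2 (i + m * v₀) + Finsupp.single G.p4 (j - m * v₀))
        + Finsupp.single G.p2 (v₀ : ℤ) - Finsupp.single G.p4 (v₀ : ℤ)
        = D + Finsupp.single G.p2 (i + m * v₀ + v₀) + Finsupp.single G.p4 (j - m * v₀ - v₀) := by
      rw [Finsupp.single_add G.p2 (i + m * v₀), Finsupp.single_sub G.p4 (j - m * v₀)]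
      abel
    rw [e1, e2, ← e]
    exact h1

lemma span_x_mem (G : Geo R n h) {D : Div k K} {i j : ℤ} {f : K}
    (hf : f ∈ L (D + Finsupp.single G.p2 i + Finsupp.single G.p4 j)) (e : ℤ) :
    G.x ^ e * f ∈ L (D + Finsupp.single G.p2 (i - e * n) + Finsupp.single G.p4 (j + e * n)) := by
  rw [mul_comm _ f, L, mul_mem_LS_iff R.fin (zpow_ne_zero e G.x0), dv_zpow R.fin, G.dvx]
  have e1 : D + Finsupp.single G.p2 (i - e * n) + Finsupp.single G.p4 (j + e * n)
      + e • (Finsupp.single G.p2 (n : ℤ) - Finsupp.single G.p4 (n : ℤ))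
      = D + Finsupp.single G.p2 i + Finsupp.single G.p4 j := by
    rw [smul_sub, Finsupp.smul_single, Finsupp.smul_single, smul_eq_mul, Finsupp.single_sub,
      Finsupp.single_add]
    abel
  rw [e1]
  exact hf

lemma span_inf (G : Geo R n h) (D : Div k K) (i j : ℤ) :
    L (D + Finsupp.single G.p2 i + Finsupp.single G.p4 (j - 1))
      ⊓ L (D + Finsupp.single G.p2 (i - 1) + Finsupp.single G.p4 j)
      ≤ L (D + Finsupp.single G.p2 (i - 1) + Finsupp.single G.p4 (j - 1)) := by
  rintro f ⟨h1, h2⟩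
  refine mem_L.2 fun v => ?_
  by_cases hv : v = G.p2
  · have := mem_L.1 h2 v
    rw [hv] at this ⊢
    simpa [Finsupp.single_eq_of_ne G.p24] using this
  · have := mem_L.1 h1 v
    simpa [Finsupp.single_eq_of_ne hv] using this

lemma span_mono (G : Geo R n h) (D : Div k K) {i j i' j' : ℤ} (hi : i ≤ i') (hj : j ≤ j') :
    L (D + Finsupp.single G.p2 i + Finsupp.single G.p4 j)
      ≤ L (D + Finsupp.single G.p2 i' + Finsupp.single G.p4 j') :=
  L_mono (add_le_add (add_le_add le_rfl (Finsupp.single_le_single.2 hi))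
    (Finsupp.single_le_single.2 hj))

/-- `f ↦ x ^ v₀ * Θ^[n] f` maps `L D ≠ ⊥` to itself; use `exists_fixed` with `m = n`. -/
theorem Geo.Twist.exists_section [IsAlgClosed k] [CharP k 2] {G : Geo R n h} {v₀ : ℕ}
    {D : Div k K} {ψ : K} (T : G.Twist v₀ D ψ) (hn : 0 < n) :
    ∃ s ∈ L D, s ≠ 0 ∧ G.x ^ v₀ * (G.Θ ψ)^[n] s = s := by
  have := R.fd D
  let Θ' : K →+ K :=
    { toFun := fun f => G.x ^ v₀ * (G.Θ ψ)^[n] f
      map_zero' := by rw [iterate_map_zero, mul_zero]
      map_add' := fun f g => by rw [iterate_map_add, mul_add] }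
  refine exists_fixed hn Θ' (fun f g e => ?_) (fun c f => ?_) (L D) (fun f hf => ?_) fun h0 => ?_
  · exact ((G.Θ_bijective T.ψ0).1.iterate n) (mul_left_cancel₀ (pow_ne_zero _ G.x0) e)
  · show G.x ^ v₀ * (G.Θ ψ)^[n] (c • f) = c ^ 2 ^ n • (G.x ^ v₀ * (G.Θ ψ)^[n] f)
    rw [span_iter_smul, mul_smul_comm]
  · have h1 : f ∈ L (D + Finsupp.single G.p2 0 + Finsupp.single G.p4 0) := by simpa using hf
    have h2 := span_x_mem G (span_iter_mem T h1 n) v₀
    rw [show (0 : ℤ) + n * v₀ - v₀ * n = 0 by ring, show (0 : ℤ) - n * v₀ + v₀ * n = 0 by ring,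
      zpow_natCast] at h2
    show G.x ^ v₀ * (G.Θ ψ)^[n] f ∈ L D
    simpa using h2
  · have h1 := R.ell_ge D
    rw [T.deg_eq, ell, h0, finrank_bot] at h1
    omega

/-- Induction on `i + j ≥ 0` (the space is zero for `i + j < 0`). For `i + j = 0` the space is a
line containing `x ^ e * Θ^[m] s` with `m v₀ - e n = i`. In the step,
`L (E + p2 + p4) = L (E + p2) ⊔ L (E + p4)` by dimensions. -/
theorem Geo.Twist.le_span {G : Geo R n h} {v₀ : ℕ} {D : Div k K} {ψ : K} (T : G.Twist v₀ D ψ)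
    (hn : 0 < n) (hv : Nat.Coprime v₀ n) {s : K} (hs : s ∈ L D) (h0 : s ≠ 0) (i j : ℤ) :
    L (D + Finsupp.single G.p2 i + Finsupp.single G.p4 j)
      ≤ Submodule.span k {f | ∃ (e : ℤ) (m : ℕ), f = G.x ^ e * (G.Θ ψ)^[m] s} := by
  have key : ∀ (N : ℕ) (i j : ℤ), i + j = N →
      L (D + Finsupp.single G.p2 i + Finsupp.single G.p4 j)
        ≤ Submodule.span k {f | ∃ (e : ℤ) (m : ℕ), f = G.x ^ e * (G.Θ ψ)^[m] s} := by
    intro N
    induction N with
    | zero =>
      intro i j hij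
      obtain ⟨a, b, hab⟩ := Nat.isCoprime_iff_coprime.2 hv
      have hn' : (n : ℤ) ≠ 0 := by exact_mod_cast hn.ne'
      obtain ⟨m, hm⟩ := Int.eq_ofNat_of_zero_le (Int.emod_nonneg (a * i) hn')
      have hq := Int.emod_add_mul_ediv (a * i) n
      rw [hm] at hq
      have h1 : s ∈ L (D + Finsupp.single G.p2 0 + Finsupp.single G.p4 0) := by simpa using hs
      have h2 := span_x_mem G (span_iter_mem T h1 m) (-(i * b) - a * i / n * v₀)
      have e1 : (0 : ℤ) + m * v₀ - (-(i * b) - a * i / n * v₀) * n = i := by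
        linear_combination (v₀ : ℤ) * hq + i * hab
      have e2 : (0 : ℤ) - m * v₀ + (-(i * b) - a * i / n * v₀) * n = j := by
        push_cast at hij
        linear_combination -e1 - hij
      rw [e1, e2] at h2
      have h3 : (G.Θ ψ)^[m] s ≠ 0 := fun h' => h0
        (((G.Θ_bijective T.ψ0).1.iterate m) (h'.trans (iterate_map_zero _ m).symm))
      have h4 := mul_ne_zero (zpow_ne_zero (-(i * b) - a * i / n * v₀) G.x0) h3
      have h5 := T.ell_eq hv i j
      rw [hij] at h5
      intro f hf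
      obtain ⟨c, hc⟩ := (finrank_eq_one_iff_of_nonzero' (⟨_, h2⟩ : L _)
        (fun h' => h4 (congrArg Subtype.val h'))).1 h5 ⟨f, hf⟩
      rw [← show c • _ = f from congrArg Subtype.val hc]
      exact Submodule.smul_mem _ _ (Submodule.subset_span ⟨_, _, rfl⟩)
    | succ N ih =>
      intro i j hij
      push_cast at hij
      have := R.fd (D + Finsupp.single G.p2 i + Finsupp.single G.p4 j)
      have := R.fd (D + Finsupp.single G.p2 i + Finsupp.single G.p4 (j - 1))
      have := R.fd (D + Finsupp.single G.p2 (i - 1) + Finsupp.single G.p4 j)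
      have := R.fd (D + Finsupp.single G.p2 (i - 1) + Finsupp.single G.p4 (j - 1))
      have h1 := Submodule.finrank_sup_add_finrank_inf_eq
        (L (D + Finsupp.single G.p2 i + Finsupp.single G.p4 (j - 1)))
        (L (D + Finsupp.single G.p2 (i - 1) + Finsupp.single G.p4 j))
      have h2 := Submodule.finrank_mono (span_inf G D i j)
      have h3 := T.ell_eq hv i j
      have h4 := T.ell_eq hv i (j - 1)
      have h5 := T.ell_eq hv (i - 1) j
      have h6 := T.ell_eq hv (i - 1) (j - 1)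
      simp only [ell] at h3 h4 h5 h6
      have h7 := Submodule.eq_of_le_of_finrank_le
        (sup_le (span_mono G D (le_refl i) (by omega : j - 1 ≤ j))
          (span_mono G D (by omega : i - 1 ≤ i) (le_refl j))) (by omega)
      rw [← h7]
      exact sup_le (ih _ _ (by omega)) (ih _ _ (by omega))
  by_cases hij : 0 ≤ i + j
  · obtain ⟨N, hN⟩ := Int.eq_ofNat_of_zero_le hij
    exact key N i j hN
  · have := R.fd (D + Finsupp.single G.p2 i + Finsupp.single G.p4 j)
    have h1 := T.ell_eq hv i j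
    rw [show (i + j + 1).toNat = 0 by omega, ell, Submodule.finrank_eq_zero] at h1
    rw [h1]
    exact bot_le

end Pool.Agent.Lib.MP_a01f70_lc.QQ
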