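import Pool.Agent.Lib.MP_a01f70_lc.QQ.GeoBasic
import Pool.Agent.Lib.MP_a01f70_lc.QQ.Semi

/-!
The translates of one section span all sections.
-/

set_option linter.unusedSectionVars false

namespace Pool.Agent.Lib.MP_a01f70_lc.QQ
open Module Polynomial

variable {k K : Type*} [Field k] [Field K] [Algebra k K]
  {R : RRData k K} {n h : ℕ}

/-- increments are nondecreasing, eventually one, and zero far to the left -/
theorem convex_eq (H : ℤ → ℕ) (hconv : ∀ m, 2 * H (m + 1) ≤ H m + H (m + 2))
    (hlo : ∃ m₀, ∀ m ≤ m₀, H m = 0) (hhi : ∃ m₁, ∀ m ≥ m₁, (H m : ℤ) = m + 1) (m : ℤ) :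
    H m = (m + 1).toNat := by
  obtain ⟨m₀, h0⟩ := hlo
  obtain ⟨m₁, h1⟩ := hhi
  have hmono : Monotone fun a : ℤ => (H (a + 1) : ℤ) - H a := by
    refine monotone_int_of_le_succ fun a => ?_
    have := hconv a
    have e : a + 1 + 1 = a + 2 := by ring
    simp only [e]
    omega
  have hle : ∀ a, (H (a + 1) : ℤ) - H a ≤ 1 := fun a => by
    have h2 := hmono (le_max_left a m₁)
    have h3 := h1 (max a m₁) (le_max_right _ _)
    have h4 := h1 (max a m₁ + 1) (by have := le_max_right a m₁; omega)
    simp only at h2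
    omega
  have hge : ∀ a, 0 ≤ (H (a + 1) : ℤ) - H a := fun a => by
    have h2 := hmono (min_le_left a (m₀ - 1))
    have h3 := h0 (min a (m₀ - 1)) (by have := min_le_right a (m₀ - 1); omega)
    have h4 := h0 (min a (m₀ - 1) + 1) (by have := min_le_right a (m₀ - 1); omega)
    simp only at h2
    omega
  have hup : ∀ j : ℕ, (H (m + j) : ℤ) ≤ H m + j := fun j => by
    induction j with
    | zero => simp
    | succ j ih =>
      have := hle (m + j)
      have e : m + ((j + 1 : ℕ) : ℤ) = m + j + 1 := by push_cast; ring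
      rw [e]
      push_cast
      omega
  have hbig := h1 (m + ((m₁ - m).toNat : ℤ)) (by omega)
  have hlow : m + 1 ≤ H m := by
    have := hup (m₁ - m).toNat
    omega
  by_cases hδ : 1 ≤ (H (m + 1) : ℤ) - H m
  · have hdn : ∀ j : ℕ, (H m : ℤ) + j ≤ H (m + j) := fun j => by
      induction j with
      | zero => simp
      | succ j ih =>
        have h2 := hmono (show m ≤ m + j by omega)
        have e : m + ((j + 1 : ℕ) : ℤ) = m + j + 1 := by push_cast; ring
        rw [e]
        simp only at h2
        push_cast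
        omega
    have := hdn (m₁ - m).toNat
    omega
  · have hdn : ∀ j : ℕ, (H m : ℤ) ≤ H (m - j) := fun j => by
      induction j with
      | zero => simp
      | succ j ih =>
        have h2 := hmono (show m - j - 1 ≤ m by omega)
        have e : m - ((j + 1 : ℕ) : ℤ) = m - j - 1 := by push_cast; ring
        have e' : m - j - 1 + 1 = m - j := by ring
        rw [e]
        simp only [e'] at h2
        omega
    have h2 := hdn (m - m₀).toNat
    have h3 := h0 (m - ((m - m₀).toNat : ℤ)) (by omega)
    omega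

lemma span1_shift {G : Geo R n h} {v₀ : ℕ} {D : Div k K} {ψ : K} (T : G.Twist v₀ D ψ)
    (hv : Nat.Coprime v₀ n) (t i j : ℤ) :
    ell (D + Finsupp.single G.p2 (i + t) + Finsupp.single G.p4 (j - t))
      = ell (D + Finsupp.single G.p2 i + Finsupp.single G.p4 j) := by
  let A : AddSubgroup ℤ :=
    { carrier := {t | ∀ i j : ℤ, ell (D + Finsupp.single G.p2 (i + t) + Finsupp.single G.p4 (j - t))
        = ell (D + Finsupp.single G.p2 i + Finsupp.single G.p4 j)}
      add_mem' := fun {a b} ha hb i j => by
        rw [← ha i j, ← hb (i + a) (j - a), add_assoc i, sub_sub]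
      zero_mem' := fun i j => by simp
      neg_mem' := fun {a} ha i j => by
        rw [← ha (i + -a) (j - -a)]
        simp }
  have hv0 : (v₀ : ℤ) ∈ A := fun i j => by
    have hE : G.φ.push (Finsupp.single G.p2 i + Finsupp.single G.p4 j)
        = Finsupp.single G.p2 i + Finsupp.single G.p4 j := by
      simp [G.φp2, G.φp4]
    symm
    refine finrank_eq_of_semilinear G.φ.σ₀ (AddEquiv.ofBijective (G.Θ ψ) (G.Θ_bijective T.ψ0))
      (fun c f => ?_) fun f => ?_
    · rw [G.φ0]
      exact G.Θ_smul ψ c f
    · have := Geo.Twist.Θ_mem_L G T hE (f := f)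
      have e1 : D + (Finsupp.single G.p2 i + Finsupp.single G.p4 j)
          + Finsupp.single G.p2 (v₀ : ℤ) - Finsupp.single G.p4 (v₀ : ℤ)
          = D + Finsupp.single G.p2 (i + v₀) + Finsupp.single G.p4 (j - v₀) := by
        rw [Finsupp.single_add, Finsupp.single_sub]
        abel
      rw [e1, ← add_assoc] at this
      exact this
  have hn : (n : ℤ) ∈ A := fun i j => by
    rw [← ell_add_dv R.fin (D + Finsupp.single G.p2 i + Finsupp.single G.p4 j) G.x0, G.dvx,
      Finsupp.single_add, Finsupp.single_sub]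
    congr 1
    abel
  have h1 : (1 : ℤ) ∈ A := by
    obtain ⟨a, b, hab⟩ := Nat.isCoprime_iff_coprime.mpr hv
    rw [← hab]
    exact A.add_mem (A.zsmul_mem hv0 a) (A.zsmul_mem hn b)
  have ht : t ∈ A := by simpa using A.zsmul_mem h1 t
  exact ht i j

/-- `H i j = ell (D + single p2 i + single p4 j)` is invariant under `(i, j) ↦ (i + v₀, j - v₀)`
(`Twist.Θ_mem_L`, `finrank_eq_of_semilinear`) and `(i, j) ↦ (i + n, j - n)` (`ell_add_dv`, `dvx`),
so it depends on `i + j` only. It is convex since `L (E + p2) ⊓ L (E + p4) = L E` and both spaces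
lie in `L (E + p2 + p4)` (`Submodule.finrank_sup_add_finrank_inf_eq`). -/
theorem Geo.Twist.ell_eq {G : Geo R n h} {v₀ : ℕ} {D : Div k K} {ψ : K} (T : G.Twist v₀ D ψ)
    (hv : Nat.Coprime v₀ n) (i j : ℤ) :
    ell (D + Finsupp.single G.p2 i + Finsupp.single G.p4 j) = (i + j + 1).toNat := by
  classical
  have hdeg : ∀ m : ℤ, deg (D + Finsupp.single G.p2 m + Finsupp.single G.p4 0) = R.g + m := fun m => by
    rw [map_add, map_add, deg_single, deg_single, T.deg_eq, add_zero]
  have key := convex_eq (fun m => ell (D + Finsupp.single G.p2 m + Finsupp.single G.p4 0))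
    (fun m => ?_) ⟨-R.g - 1, fun m hm => R.ell_eq_zero (by rw [hdeg]; omega)⟩
    ⟨R.g, fun m hm => by
      rw [R.ell_large (by rw [hdeg]; omega), hdeg]
      ring⟩ (i + j)
  · rw [← key, ← span1_shift T hv j i j, sub_self]
  · have e1 := span1_shift T hv 1 m 1
    have e2 := span1_shift T hv 1 (m + 1) 1
    have e3 : m + 1 + 1 = m + 2 := by ring
    rw [sub_self] at e1 e2
    rw [e3] at e2
    have := R.fd (D + Finsupp.single G.p2 (m + 1) + Finsupp.single G.p4 0)
    have := R.fd (D + Finsupp.single G.p2 m + Finsupp.single G.p4 1)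
    have := R.fd (D + Finsupp.single G.p2 (m + 1) + Finsupp.single G.p4 1)
    have hsum := Submodule.finrank_sup_add_finrank_inf_eq
      (L (D + Finsupp.single G.p2 (m + 1) + Finsupp.single G.p4 0))
      (L (D + Finsupp.single G.p2 m + Finsupp.single G.p4 1))
    have hsup : L (D + Finsupp.single G.p2 (m + 1) + Finsupp.single G.p4 0)
        ⊔ L (D + Finsupp.single G.p2 m + Finsupp.single G.p4 1)
        ≤ L (D + Finsupp.single G.p2 (m + 1) + Finsupp.single G.p4 1) := by
      refine sup_le (L_mono fun v => ?_) (L_mono fun v => ?_) <;>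
      · simp only [Finsupp.add_apply, Finsupp.single_apply]
        split_ifs <;> omega
    have hinf : L (D + Finsupp.single G.p2 (m + 1) + Finsupp.single G.p4 0)
        ⊓ L (D + Finsupp.single G.p2 m + Finsupp.single G.p4 1)
        ≤ L (D + Finsupp.single G.p2 m + Finsupp.single G.p4 0) := by
      intro f hf
      rw [mem_L]
      intro v
      by_cases h4 : G.p4 = v
      · have h2 : G.p2 ≠ v := fun h2 => G.p24 (h2.trans h4.symm)
        have := mem_L.mp hf.1 v
        simpa [Finsupp.single_apply, h2, h4] using this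
      · have := mem_L.mp hf.2 v
        simpa [Finsupp.single_apply, h4] using this
    have := R.fd (D + Finsupp.single G.p2 m + Finsupp.single G.p4 0)
    have h1 := Submodule.finrank_mono hsup
    have h2 := Submodule.finrank_mono hinf
    simp only [ell] at e1 e2 ⊢
    omega

end Pool.Agent.Lib.MP_a01f70_lc.QQ
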