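import Pool.Agent.Lib.MP_a01f70_lc.QQ.GeoBasic
import Pool.Agent.Lib.MP_a01f70_lc.QQ.Lang

/-!
Existence of the twisted divisor.
-/

set_option linter.unusedSectionVars false

namespace Pool.Agent.Lib.MP_a01f70_lc.QQ
open Module Polynomial

variable {k K : Type*} [Field k] [Field K] [Algebra k K]
  {R : RRData k K} {n h : ℕ}

/-- choose a set of representatives of the free orbits (for instance `v` with `v < ι • v` for a
linear order on the places), or induct on the size of the support -/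
theorem half_sym (ι : Aut k K) (hι : ι * ι = 1) {Δ : Div k K} (h : ι.push Δ = Δ)
    (hev : ∀ v : Place k K, ι • v = v → Even (Δ v)) : ∃ D : Div k K, D + ι.push D = Δ := by
  classical
  obtain ⟨_, -⟩ := exists_wellFoundedLT (Place k K)
  have hinv : ι⁻¹ = ι := inv_eq_of_mul_eq_one_right hι
  have hss : ∀ v : Place k K, ι • ι • v = v := fun v => by rw [← mul_smul, hι, one_smul]
  have hΔ : ∀ v : Place k K, Δ (ι • v) = Δ v := fun v => by
    have h1 := ι.push_apply_smul Δ v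
    rwa [h] at h1
  refine ⟨Finsupp.onFinset Δ.support
    (fun v => if ι • v = v then Δ v / 2 else if v < ι • v then Δ v else 0) ?_, ?_⟩
  · intro v hv
    rw [Finsupp.mem_support_iff]
    intro h0
    apply hv
    simp [h0]
  · ext v
    rw [Finsupp.add_apply, Aut.push_apply, hinv, Finsupp.onFinset_apply, Finsupp.onFinset_apply,
      hss, hΔ]
    by_cases hv : ι • v = v
    · obtain ⟨m, hm⟩ := hev v hv
      rw [if_pos hv, if_pos hv.symm]
      omega
    · rw [if_neg hv, if_neg (Ne.symm hv)]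
      rcases lt_or_gt_of_ne hv with h1 | h1
      · rw [if_neg (not_lt.2 h1.le), if_pos h1, zero_add]
      · rw [if_pos h1, if_neg (not_lt.2 h1.le), add_zero]

/-- the positive part of `A` works -/
theorem half_anti (ι : Aut k K) {A : Div k K} (h : A + ι.push A = 0) :
    ∃ A₁ : Div k K, A = A₁ - ι.push A₁ := by
  refine ⟨A.mapRange (fun m => max m 0) (by simp), ?_⟩
  ext v
  have h1 : A v + A (ι⁻¹ • v) = 0 := by
    rw [← Aut.push_apply, ← Finsupp.add_apply, h, Finsupp.zero_apply]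
  rw [Finsupp.sub_apply, Aut.push_apply, Finsupp.mapRange_apply, Finsupp.mapRange_apply]
  omega

/-- Take `D₁ + ι D₁ = Δ`, `φ D₁ - D₁ = A₁ - ι A₁`, and by `lang` (with `Frob G.φ G.x G.q`)
`φ Y - Y = single p2 v₀ - A₁ - single q (v₀ - deg A₁) + dv u`. Then `D = D₁ + Y - ι Y` and
`ψ = u / ι u`. -/
theorem Geo.exists_twist [IsAlgClosed k] [CharP k 2] (G : Geo R n h)
    (halg : ∀ c : k, ∃ m, 0 < m ∧ c ^ 2 ^ m = c) (v₀ : ℕ) : ∃ D ψ, G.Twist v₀ D ψ := by
  have hcomm : ∀ E : Div k K, G.φ.push (G.ι.push E) = G.ι.push (G.φ.push E) := fun E => by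
    rw [← Aut.push_mul, ← Aut.push_mul, G.φι]
  have hιι : ∀ E : Div k K, G.ι.push (G.ι.push E) = E := fun E => by
    rw [← Aut.push_mul, G.ιι, Aut.push_one]
  obtain ⟨D₁, hD₁⟩ := half_sym G.ι G.ιι G.ιΔ fun v hv => G.even_Δ hv
  have hA : (G.φ.push D₁ - D₁) + G.ι.push (G.φ.push D₁ - D₁) = 0 := by
    have h1 := congrArg G.φ.push hD₁
    rw [map_add, G.φΔ, hcomm, ← hD₁] at h1
    rw [map_sub, sub_add_sub_comm, h1, sub_self]
  obtain ⟨A₁, hA₁⟩ := half_anti G.ι hA
  have hF : Frob G.φ G.x G.q := ⟨G.φ0, halg, G.φx, G.xnc, G.φq⟩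
  obtain ⟨Y, u, hu, hY⟩ := lang R hF
    (E := Finsupp.single G.p2 (v₀ : ℤ) - A₁ - Finsupp.single G.q ((v₀ : ℤ) - deg A₁)) (by
      rw [map_sub, map_sub, deg_single, deg_single]
      ring)
  have hιu : G.ι.σ u ≠ 0 := by simpa using hu
  refine ⟨D₁ + Y - G.ι.push Y, u / G.ι.σ u, div_ne_zero hu hιu, ?_, ?_, ?_⟩
  · rw [map_div₀, G.ι_σ_σ]
    field_simp
  · rw [map_sub, map_add, hιι, ← hD₁]
    abel
  · have h1 : G.φ.push D₁ = D₁ + (A₁ - G.ι.push A₁) := by
      rw [← hA₁]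
      abel
    have h2 := sub_eq_iff_eq_add.1 hY
    rw [map_sub, map_add, hcomm, h1, h2, dv_div R.fin hu hιu, ← G.ι.push_dv R.fin]
    simp only [map_add, map_sub, Aut.push_single, G.ιp2, G.ιq]
    abel

end Pool.Agent.Lib.MP_a01f70_lc.QQ
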