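import Pool.Agent.Lib.MP_a01f70_lc.QQ.Twist1
import Pool.Agent.Lib.MP_a01f70_lc.QQ.Mu
import Pool.Agent.Lib.MP_a01f70_lc.QQ.Span
import Pool.Agent.Lib.MP_a01f70_lc.QQ.Gram

/-!
The four field elements.
-/

set_option linter.unusedSectionVars false

namespace Pool.Agent.Lib.MP_a01f70_lc.QQ
open Module Polynomial

variable {k K : Type*} [Field k] [Field K] [Algebra k K]
  {R : RRData k K} {n h : ℕ}

namespace Geo
variable {G : Geo R n h} {v₀ : ℕ} {D : Div k K} {ψ : K} {μ : K →ₗ[k] k} {s : K}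

/-- the Gram matrix -/
noncomputable def gram (G : Geo R n h) (ψ : K) (μ : K →ₗ[k] k) (s : K) (i j : ℕ) : k :=
  μ ((G.Θ ψ)^[i] s * G.ι.σ ((G.Θ ψ)^[j] s))

lemma iter_mem_LS (T : G.Twist v₀ D ψ) (hs : s ∈ L D) (i : ℕ) : (G.Θ ψ)^[i] s ∈ LS G.S D := by
  induction i with
  | zero => exact L_le_LS _ _ hs
  | succ i ih =>
    rw [Function.iterate_succ_apply']
    simpa using (Twist.Θ_mem_LS G T (E := 0) (map_zero _)).mpr (by simpa using ih)

lemma mul_ι_mem_V (T : G.Twist v₀ D ψ) {f g : K} (hf : f ∈ LS G.S D) (hg : g ∈ LS G.S D) :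
    f * G.ι.σ g ∈ LS G.S (G.K0 + G.Q) := by
  simpa using Twist.mul_ι_mem G T (E := 0) (E' := 0) (by simpa using hf) (by simpa using hg)

lemma mu_symm (T : G.Twist v₀ D ψ) (hμ : G.IsMu μ) {f g : K} (hf : f ∈ LS G.S D)
    (hg : g ∈ LS G.S D) : μ (f * G.ι.σ g) = μ (g * G.ι.σ f) := by
  rw [← hμ.inv _ (mul_ι_mem_V T hf hg), map_mul, G.ι_σ_σ, mul_comm]

lemma mu_eq_zero (T : G.Twist v₀ D ψ) (hμ : G.IsMu μ) {f g : K} (hf : f ∈ LS G.S (D - G.Q))
    (hg : g ∈ LS G.S D) : μ (f * G.ι.σ g) = 0 := by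
  refine hμ.loc _ ?_
  simpa using Twist.mul_ι_mem G T (E := -G.Q) (E' := 0) (by simpa [sub_eq_add_neg] using hf)
    (by simpa using hg)

lemma iter_x_mul (ψ : K) (e : ℤ) (f : K) (i : ℕ) :
    (G.Θ ψ)^[i] (G.x ^ e * f) = G.x ^ e * (G.Θ ψ)^[i] f := by
  induction i with
  | zero => rfl
  | succ i ih =>
    rw [Function.iterate_succ_apply', Function.iterate_succ_apply', ih, Θ_apply, Θ_apply, map_mul,
      map_zpow₀, G.φx, mul_left_comm]

/-- `IsMu.inv`, `Twist.mul_ι_mem`, `Twist.Θ_mem_LS` -/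
theorem gram_symm (T : G.Twist v₀ D ψ) (hμ : G.IsMu μ) (hs : s ∈ L D) (i j : ℕ) :
    G.gram ψ μ s i j = G.gram ψ μ s j i := by
  exact mu_symm T hμ (iter_mem_LS T hs i) (iter_mem_LS T hs j)

/-- `Θ^[i + n] s = x ^ (-v₀) * Θ^[i] s`, `char_mul_sub_mem`, `IsMu.loc` -/
theorem gram_per (T : G.Twist v₀ D ψ) (hμ : G.IsMu μ) (hs : s ∈ L D)
    (hfix : G.x ^ v₀ * (G.Θ ψ)^[n] s = s) (i j : ℕ) :
    G.gram ψ μ s (i + n) j = G.gram ψ μ s i j := by
  have h1 : (G.Θ ψ)^[i] s = G.x ^ (v₀ : ℤ) * (G.Θ ψ)^[i + n] s := by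
    conv_lhs => rw [← hfix, ← zpow_natCast, iter_x_mul, ← Function.iterate_add_apply]
  have h2 := G.char_mul_sub_mem (iter_mem_LS T hs (i + n)) v₀ 0
  rw [zpow_zero, mul_one, ← h1] at h2
  have h3 := mu_eq_zero T hμ h2 (iter_mem_LS T hs j)
  rw [sub_mul, map_sub, sub_eq_zero] at h3
  exact h3.symm

theorem gram_frob (T : G.Twist v₀ D ψ) (hμ : G.IsMu μ) (hs : s ∈ L D) (i j : ℕ) :
    G.gram ψ μ s (i + 1) (j + 1) = G.gram ψ μ s i j ^ 2 := by
  rw [gram, gram, Function.iterate_succ_apply', Function.iterate_succ_apply',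
    Twist.Θ_mul_ι_Θ G T, hμ.frob _ (mul_ι_mem_V T (iter_mem_LS T hs i) (iter_mem_LS T hs j))]

/-- five elements of `LS S D` have a nontrivial combination in `LS S (D - Q)`
(`finrank_le_add_deg` for their span) -/
theorem gram_rank (T : G.Twist v₀ D ψ) (hμ : G.IsMu μ) (hs : s ∈ L D) (a : Fin 5 → ℕ → k) :
    ∃ c : Fin 5 → k, c ≠ 0 ∧
      ∀ j, ∑ t, c t * ∑ i ∈ Finset.range n, a t i * G.gram ψ μ s i j = 0 := by
  let u : Fin 5 → K := fun t => ∑ i ∈ Finset.range n, a t i • (G.Θ ψ)^[i] s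
  have hu : ∀ t, u t ∈ LS G.S D := fun t =>
    Submodule.sum_mem _ fun i _ => Submodule.smul_mem _ _ (iter_mem_LS T hs i)
  have key : ∃ c : Fin 5 → k, c ≠ 0 ∧ ∑ t, c t • u t ∈ LS G.S (D - G.Q) := by
    by_contra hc
    push Not at hc
    have hli : LinearIndependent k u := by
      rw [Fintype.linearIndependent_iff]
      intro c h0
      by_contra h1
      exact hc c (fun h => h1 fun t => congrFun h t) (h0 ▸ Submodule.zero_mem _)
    have := FiniteDimensional.span_of_finite k (Set.finite_range u)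
    have h1 := finrank_le_add_deg R.res G.Q0 (Submodule.span k (Set.range u))
      (Submodule.span_le.mpr (Set.range_subset_iff.mpr hu))
    have h2 : Submodule.span k (Set.range u) ⊓ LS G.S (D - G.Q) = ⊥ := by
      rw [eq_bot_iff]
      rintro f ⟨hf1, hf2⟩
      obtain ⟨c, rfl⟩ := (Submodule.mem_span_range_iff_exists_fun k).mp hf1
      by_cases h0 : c = 0
      · simp [h0]
      · exact (hc c h0 hf2).elim
    rw [h2, finrank_bot, finrank_span_eq_card hli, G.degQ] at h1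
    simp at h1
  obtain ⟨c, hc0, hc⟩ := key
  refine ⟨c, hc0, fun j => ?_⟩
  rw [← mu_eq_zero T hμ hc (iter_mem_LS T hs j)]
  simp only [u, gram, Finset.sum_mul, map_sum, smul_mul_assoc, map_smul, smul_eq_mul]

end Geo

end Pool.Agent.Lib.MP_a01f70_lc.QQ
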