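import Pool.Agent.Lib.MP_a01f70_lc.QQ.Twist2a

/-!
The four field elements.
-/

set_option linter.unusedSectionVars false

namespace Pool.Agent.Lib.MP_a01f70_lc.QQ
open Module Polynomial

variable {k K : Type*} [Field k] [Field K] [Algebra k K]
  {R : RRData k K} {n h : ℕ}

namespace Geo
variable {G : Geo R n h} {v₀ : ℕ} {D : Div k K} {ψ : K} {μ : K →ₗ[k] k} {s : K}

/-- `N f = μ (f * ι f)` is additive on `LS S D` (characteristic two, `IsMu.inv`),
`N (c • f) = c ^ 2 N f`, `N (x ^ e * Θ^[m] s) = N s ^ 2 ^ m`. If `N s = 0` then `N` vanishes on the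
span in `Twist.le_span`. But `RRData.exists_ord_eq` (for `D - Q + q`, `v = q`, `p = p4`) gives `f`
in that span with `f * ι f ∈ LS S (K0 + q)` and not in `LS S K0`. -/
theorem gram_ne [CharP k 2] (T : G.Twist v₀ D ψ) (hμ : G.IsMu μ) (hn : 0 < n)
    (hv : Nat.Coprime v₀ n) (hs : s ∈ L D) (h0 : s ≠ 0) : G.gram ψ μ s 0 0 ≠ 0 := by
  intro hN
  have hq4 : G.q ≠ G.p4 := fun h => by
    have := G.Q_q
    rw [h, G.Qp4] at this
    exact zero_ne_one this
  obtain ⟨m, f, hf, hf0, hf1⟩ := R.exists_ord_eq (D - G.Q + Finsupp.single G.q 1) hq4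
  have hqQ : Finsupp.single G.q (1 : ℤ) ≤ G.Q := fun v => by
    classical
    rw [Finsupp.single_apply]
    split_ifs with hv
    · rw [← hv, G.Q_q]
    · exact G.Q0 v
  have hf2 : f ∈ L (D + Finsupp.single G.p2 0 + Finsupp.single G.p4 (m : ℤ)) :=
    L_mono (fun v => by
      have := hqQ v
      simp only [Finsupp.add_apply, Finsupp.sub_apply, Finsupp.single_zero, Finsupp.zero_apply]
      omega) hf
  have hN' : ∀ i, G.gram ψ μ s i i = 0 := fun i => by
    induction i with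
    | zero => exact hN
    | succ i ih => rw [gram_frob T hμ hs, ih, zero_pow two_ne_zero]
  have key : ∀ g ∈ Submodule.span k {f | ∃ (e : ℤ) (m : ℕ), f = G.x ^ e * (G.Θ ψ)^[m] s},
      g ∈ LS G.S D ∧ μ (g * G.ι.σ g) = 0 := by
    intro g hg
    induction hg using Submodule.span_induction with
    | mem g hg =>
      obtain ⟨e, i, rfl⟩ := hg
      constructor
      · intro v hv
        have := (Place.Ge.of_le (v := v) (f := G.x ^ e) (m := 0) (by simp [G.ord_x hv])).mul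
          (iter_mem_LS T hs i v hv)
        rwa [zero_add] at this
      · rw [map_mul G.ι.σ, map_zpow₀, G.ιx, mul_mul_mul_comm, ← mul_zpow, mul_inv_cancel₀ G.x0, one_zpow,
          one_mul]
        exact hN' i
    | zero => simp
    | add a b _ _ ha hb =>
      refine ⟨Submodule.add_mem _ ha.1 hb.1, ?_⟩
      rw [map_add, add_mul, mul_add, mul_add, map_add, map_add, map_add, ha.2, hb.2,
        mu_symm T hμ ha.1 hb.1, zero_add, add_zero, CharTwo.add_self_eq_zero]
    | smul c a _ ha =>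
      refine ⟨Submodule.smul_mem _ c ha.1, ?_⟩
      rw [Aut.map_smul, smul_mul_smul_comm, map_smul, ha.2, smul_zero]
  have hf3 : f ∈ LS G.S (D + (Finsupp.single G.q 1 - G.Q)) :=
    LS_mono (Set.subset_univ _) (fun v hv => by
      simp only [Finsupp.add_apply, Finsupp.sub_apply,
        Finsupp.single_eq_of_ne (G.ne_of_mem_S hv).2.2.2]
      omega) hf
  refine hμ.ne _ ?_ ?_ (key f (T.le_span hn hv hs h0 _ _ hf2)).2
  · refine LS_mono le_rfl (fun v _ => ?_) (Twist.mul_ι_mem G T hf3 hf3)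
    have := hqQ v
    simp only [map_sub, Aut.push_single, G.ιq, G.ιQ, Finsupp.add_apply, Finsupp.sub_apply]
    omega
  · intro h1
    have h2 := (h1 _ G.q_mem_S).le (mul_ne_zero hf0 (by simpa using hf0))
    have h3 : G.q.ord (G.ι.σ f) = G.q.ord f := by
      conv_lhs => rw [← G.ιq, Aut.smul_ord_σ]
    have h4 := G.Δ_eq G.q_mem_S
    have h5 : G.ι.push D G.q = D G.q := by
      conv_lhs => rw [← G.ιq, Aut.push_apply_smul]
    rw [G.q.ord_mul hf0 (by simpa using hf0), h3, hf1] at h2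
    rw [← T.half] at h4
    simp only [Finsupp.add_apply, Finsupp.sub_apply, Finsupp.single_eq_same, h5, G.Q_q] at h2 h4
    omega

lemma iter_mem_L (T : G.Twist v₀ D ψ) (hs : s ∈ L D) (i : ℕ) : (G.Θ ψ)^[i] s ∈
    L (D + (Finsupp.single G.p2 ((i : ℤ) * v₀) - Finsupp.single G.p4 ((i : ℤ) * v₀))) := by
  induction i with
  | zero => simpa using hs
  | succ i ih =>
    rw [Function.iterate_succ_apply']
    have := (Twist.Θ_mem_L G T (by simp only [map_sub, Aut.push_single, G.φp2, G.φp4])).mpr ih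
    convert this using 2
    push_cast
    simp only [add_mul, one_mul, Finsupp.single_add]
    abel

lemma gram_aux (T : G.Twist v₀ D ψ) (hμ : G.IsMu μ) (hs : s ∈ L D) (a : ℕ) (e : ℤ)
    (h1 : Finsupp.single G.p4 ((h : ℤ) - 1 + (a * v₀ + n * e) - (2 * h - 1))
      - Finsupp.single G.p2 ((h : ℤ) + (a * v₀ + n * e) - (2 * h - 1)) - Finsupp.single G.p1 1 ≤ 0) :
    G.gram ψ μ s 0 a = 0 := by
  have h2 := G.char_mul_sub_mem (iter_mem_LS T hs a) (-e) (-1)
  have h3 := mu_eq_zero T hμ h2 (L_le_LS _ _ hs)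
  have hc : G.x ^ (-e) * G.y ^ (-1 : ℤ) ≠ 0 :=
    mul_ne_zero (zpow_ne_zero _ G.x0) (zpow_ne_zero _ G.y0)
  have h4 : G.x ^ (-e) * G.y ^ (-1 : ℤ) * (G.Θ ψ)^[a] s ∈ L (D + (Finsupp.single G.p2
      ((a : ℤ) * v₀) - Finsupp.single G.p4 ((a : ℤ) * v₀)) - dv (G.x ^ (-e) * G.y ^ (-1 : ℤ))) := by
    rw [mul_comm _ ((G.Θ ψ)^[a] s), L, mul_mem_LS_iff R.fin hc, sub_add_cancel]
    exact iter_mem_L T hs a
  have h5 := mul_mem_LS hs (G.ι.σ_mem_L.mpr h4)
  have h6 := hμ.glob _ (L_mono (fun v => ?_) h5)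
  · rw [sub_mul, map_sub, mu_symm T hμ (by
      simpa using (LS G.S D).add_mem (LS_mono le_rfl (fun v _ => by simpa using G.Q0 v) h2)
        (iter_mem_LS T hs a)) (L_le_LS _ _ hs), h6, zero_sub, neg_eq_zero] at h3
    rw [gram_symm T hμ hs]
    exact h3
  · classical
    have h7 := congrArg (fun E : Div k K => E v) T.half
    have h8 := h1 v
    simp only [Δ, map_sub, map_add, map_zsmul, dv_mul R.fin (zpow_ne_zero _ G.x0)
      (zpow_ne_zero _ G.y0), dv_zpow R.fin, G.dvx, G.dvy, Aut.push_single, G.ιp1, G.ιp2, G.ιp3,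
      G.ιp4, Finsupp.add_apply, Finsupp.sub_apply, Finsupp.smul_apply, Finsupp.single_apply,
      Finsupp.zero_apply, smul_eq_mul] at h7 h8 ⊢
    split_ifs at h7 h8 ⊢ <;> linarith

/-- With `n e = h - a v₀` the function `f = x ^ (-e) * y⁻¹ * Θ^[a] s` is congruent to `Θ^[a] s`
modulo `LS S (D - Q)`, and `s * ι f ∈ L (K0 + Q - p1 - p2)`. -/
theorem gram_a (T : G.Twist v₀ D ψ) (hμ : G.IsMu μ) (hs : s ∈ L D) {a : ℕ}
    (ha : (n : ℤ) ∣ h - a * v₀) : G.gram ψ μ s 0 a = 0 := by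
  obtain ⟨e, he⟩ := ha
  refine gram_aux T hμ hs a e fun v => ?_
  classical
  simp only [Finsupp.zero_apply, Finsupp.sub_apply, Finsupp.single_apply]
  split_ifs <;> omega

/-- With `n e = h - 1 - b v₀` the same function satisfies `s * ι f ∈ L (K0 + Q - p1 - p4)`. -/
theorem gram_b (T : G.Twist v₀ D ψ) (hμ : G.IsMu μ) (hs : s ∈ L D) {b : ℕ}
    (hb : (n : ℤ) ∣ h - 1 - b * v₀) : G.gram ψ μ s 0 b = 0 := by
  obtain ⟨e, he⟩ := hb
  refine gram_aux T hμ hs b e fun v => ?_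
  classical
  simp only [Finsupp.zero_apply, Finsupp.sub_apply, Finsupp.single_apply]
  split_ifs <;> omega

end Geo

end Pool.Agent.Lib.MP_a01f70_lc.QQ
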